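import Mathlib
import Pool.Agent.MazurC.Cubic

/-!
Cubic forms over arbitrary rings: more identities.
-/

namespace Pool.Agent.MazurT

open MvPolynomial Pool.Agent.MazurC

section Tri

variable {n : ℕ} {M : Type*} [CommRing M] {t : Fin n → Fin n → Fin n → M}

theorem B_comb3 (ht : Sym t) (r s : M) (a w : Fin n → M) :
    B t (r • a + s • w) (r • a + s • w) (r • a + s • w) =
      r ^ 3 * B t a a a + 3 * r ^ 2 * s * B t a a w + 3 * r * s ^ 2 * B t a w w
        + s ^ 3 * B t w w w := by
  have h1 : B t a w a = B t a a w := by rw [B_swap23 ht]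
  have h2 : B t w a a = B t a a w := by rw [B_swap12 ht, B_swap23 ht]
  have h3 : B t w a w = B t a w w := by rw [B_swap12 ht]
  have h4 : B t w w a = B t a w w := by rw [B_swap23 ht, B_swap12 ht]
  simp only [B_add_left, B_smul_left, B_add_mid ht, B_smul_mid ht, B_add_right ht,
    B_smul_right ht, h1, h2, h3, h4]
  ring

theorem B_comb2 (ht : Sym t) (r s : M) (a w c : Fin n → M) :
    B t (r • a + s • w) (r • a + s • w) c =
      r ^ 2 * B t a a c + 2 * r * s * B t a w c + s ^ 2 * B t w w c := by
  have h1 : B t w a c = B t a w c := by rw [B_swap12 ht]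
  simp only [B_add_left, B_smul_left, B_add_mid ht, B_smul_mid ht, h1]
  ring

/-- The residual point of the tangent line at `a` in the direction `w`. -/
def psi (t : Fin n → Fin n → Fin n → M) (a w : Fin n → M) : Fin n → M :=
  (-B t w w w) • a + (3 * B t a w w) • w

theorem B_psi (ht : Sym t) (a w : Fin n → M) (h : B t a a w = 0) :
    B t (psi t a w) (psi t a w) (psi t a w) = -(B t w w w) ^ 3 * B t a a a := by
  rw [psi, B_comb3 ht, h]
  ring

theorem B_a_psi (ht : Sym t) (a w : Fin n → M) (h : B t a a w = 0) :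
    B t a a (psi t a w) = -B t w w w * B t a a a := by
  rw [psi, B_add_right ht, B_smul_right ht, B_smul_right ht, h]
  ring

theorem B_psi_psi (ht : Sym t) (a w : Fin n → M) (h : B t a a w = 0) (ha : B t a a a = 0) :
    B t (psi t a w) (psi t a w) a = 9 * (B t a w w) ^ 3 := by
  have h1 : B t a w a = B t a a w := by rw [B_swap23 ht]
  have h4 : B t w w a = B t a w w := by rw [B_swap23 ht, B_swap12 ht]
  rw [psi, B_comb2 ht, h1, h4, h, ha]
  ring

theorem psi_smul (ht : Sym t) (r : M) (a w : Fin n → M) :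
    psi t a (r • w) = r ^ 3 • psi t a w := by
  simp only [psi, B_smul_left, B_smul_mid ht, B_smul_right ht, smul_add, smul_smul]
  congr 2 <;> ring

/-- The third point map multiplies the form by a cube. -/
theorem B_Phi' (ht : Sym t) (a z : Fin n → M) (ha : B t a a a = 0) :
    B t (Phi t a z) (Phi t a z) (Phi t a z) = -(B t a a z) ^ 3 * B t z z z := by
  have h3 : B t a z z = B t z z a := by rw [B_swap12 ht, B_swap23 ht]
  rw [Phi, B_comb3 ht, ha, h3]
  ring

theorem map_psi {M' : Type*} [CommRing M'] (φ : M →+* M') (a b : Fin n → M) :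
    (fun i => φ (psi t a b i)) = psi (fun i j k => φ (t i j k)) (fun i => φ (a i))
      (fun i => φ (b i)) := by
  funext i
  simp only [psi, Pi.add_apply, Pi.smul_apply, smul_eq_mul, map_add, map_mul, map_neg, map_B,
    map_ofNat]

end Tri

section Poly

variable {n : ℕ} {K : Type*} [CommRing K]

/-- The cubic form of a tensor. -/
noncomputable def cub (t : Fin n → Fin n → Fin n → K) : MvPolynomial (Fin n) K :=
  ∑ i, ∑ j, ∑ k, C (t i j k) * X i * X j * X k

/-- Change of the base ring. -/
def tmap {S : Type*} [CommRing S] (φ : K →+* S) (t : Fin n → Fin n → Fin n → K) :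
    Fin n → Fin n → Fin n → S := fun i j k => φ (t i j k)

theorem sym_tmap {S : Type*} [CommRing S] (φ : K →+* S) {t : Fin n → Fin n → Fin n → K}
    (ht : Sym t) : Sym (tmap φ t) :=
  ⟨fun i j k => congrArg φ (ht.1 i j k), fun i j k => congrArg φ (ht.2 i j k)⟩

theorem tmap_tmap {S T : Type*} [CommRing S] [CommRing T] (φ : K →+* S) (ψ : S →+* T)
    (t : Fin n → Fin n → Fin n → K) : tmap ψ (tmap φ t) = tmap (ψ.comp φ) t := rfl

theorem eval₂_cub {S : Type*} [CommRing S] (φ : K →+* S) (t : Fin n → Fin n → Fin n → K)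
    (x : Fin n → S) : eval₂ φ x (cub t) = B (tmap φ t) x x x := by
  simp only [cub, B, eval₂_sum, eval₂_mul, eval₂_C, eval₂_X, tmap]

theorem eval_cub (t : Fin n → Fin n → Fin n → K) (x : Fin n → K) :
    eval x (cub t) = B t x x x := by
  simp only [cub, B, map_sum, map_mul, eval_C, eval_X]

theorem map_cub {S : Type*} [CommRing S] (φ : K →+* S) (t : Fin n → Fin n → Fin n → K) :
    map φ (cub t) = cub (tmap φ t) := by
  simp only [cub, map_sum, map_mul, map_C, map_X, tmap]

/-- The linear form `x ↦ B x a b`. -/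
noncomputable def linAB (t : Fin n → Fin n → Fin n → K) (a b : Fin n → K) :
    MvPolynomial (Fin n) K :=
  ∑ i, C (∑ j, ∑ k, t i j k * a j * b k) * X i

theorem linAB_hom (t : Fin n → Fin n → Fin n → K) (a b : Fin n → K) :
    (linAB t a b).IsHomogeneous 1 :=
  IsHomogeneous.sum _ _ _ fun _ _ => isHomogeneous_C_mul_X _ _

theorem eval₂_linAB {S : Type*} [CommRing S] (φ : K →+* S) (t : Fin n → Fin n → Fin n → K)
    (a b : Fin n → K) (x : Fin n → S) :
    eval₂ φ x (linAB t a b) = B (tmap φ t) x (fun i => φ (a i)) (fun i => φ (b i)) := by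
  simp only [linAB, B, eval₂_sum, eval₂_mul, eval₂_C, eval₂_X, tmap, map_sum, map_mul,
    Finset.sum_mul]
  refine Finset.sum_congr rfl fun i _ => Finset.sum_congr rfl fun j _ =>
    Finset.sum_congr rfl fun k _ => ?_
  ring

theorem eval_linAB (t : Fin n → Fin n → Fin n → K) (a b x : Fin n → K) :
    eval x (linAB t a b) = B t x a b := by
  exact eval₂_linAB (RingHom.id K) t a b x

/-- The quadratic form `x ↦ B x x a`. -/
noncomputable def quadA (t : Fin n → Fin n → Fin n → K) (a : Fin n → K) :
    MvPolynomial (Fin n) K :=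
  ∑ i, ∑ j, C (∑ k, t i j k * a k) * X i * X j

theorem quadA_hom (t : Fin n → Fin n → Fin n → K) (a : Fin n → K) :
    (quadA t a).IsHomogeneous 2 :=
  IsHomogeneous.sum _ _ _ fun i _ => IsHomogeneous.sum _ _ _ fun j _ => by
    have := (isHomogeneous_C_mul_X (∑ k, t i j k * a k) i).mul (isHomogeneous_X K j)
    simpa using this

theorem eval₂_quadA {S : Type*} [CommRing S] (φ : K →+* S) (t : Fin n → Fin n → Fin n → K)
    (a : Fin n → K) (x : Fin n → S) :
    eval₂ φ x (quadA t a) = B (tmap φ t) x x (fun i => φ (a i)) := by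
  simp only [quadA, B, eval₂_sum, eval₂_mul, eval₂_C, eval₂_X, tmap, map_sum, map_mul,
    Finset.sum_mul]
  refine Finset.sum_congr rfl fun i _ => Finset.sum_congr rfl fun j _ =>
    Finset.sum_congr rfl fun k _ => ?_
  ring

theorem eval_quadA (t : Fin n → Fin n → Fin n → K) (a x : Fin n → K) :
    eval x (quadA t a) = B t x x a := by
  exact eval₂_quadA (RingHom.id K) t a x

theorem cub_hom (t : Fin n → Fin n → Fin n → K) : (cub t).IsHomogeneous 3 :=
  IsHomogeneous.sum _ _ _ fun i _ => IsHomogeneous.sum _ _ _ fun j _ =>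
    IsHomogeneous.sum _ _ _ fun k _ => by
      have := ((isHomogeneous_C_mul_X (t i j k) i).mul (isHomogeneous_X K j)).mul
        (isHomogeneous_X K k)
      simpa using this

end Poly

end Pool.Agent.MazurT
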