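import Mathlib
import Pool.Agent.MazurT.Alg

/-!
Elimination of a variable in the direction of a vector.
-/

namespace Pool.Agent.MazurT

open MvPolynomial

section Elim

variable {n : ℕ} {k : Type*} [Field k]

/-- The polynomial `f (Y + s v)` in `s`. -/
noncomputable def shift (v : Fin n → k) :
    MvPolynomial (Fin n) k →+* Polynomial (MvPolynomial (Fin n) k) :=
  eval₂Hom (Polynomial.C.comp C) (fun i => Polynomial.C (X i) + Polynomial.C (C (v i)) *
    Polynomial.X)

theorem shift_C (v : Fin n → k) (c : k) : shift v (C c) = Polynomial.C (C c) := by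
  simp [shift]

theorem shift_X (v : Fin n → k) (i : Fin n) :
    shift v (X i) = Polynomial.C (X i) + Polynomial.C (C (v i)) * Polynomial.X := by
  simp [shift]

/-- The automorphism of `k[Y][s]` translating `Y` by `s v`. -/
noncomputable def theta (v : Fin n → k) :
    Polynomial (MvPolynomial (Fin n) k) →+* Polynomial (MvPolynomial (Fin n) k) :=
  Polynomial.eval₂RingHom (shift v) Polynomial.X

theorem theta_C (v : Fin n → k) (p : MvPolynomial (Fin n) k) :
    theta v (Polynomial.C p) = shift v p := by
  simp [theta]

theorem theta_X (v : Fin n → k) : theta v Polynomial.X = Polynomial.X := by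
  simp [theta]

theorem theta_theta (v : Fin n → k) (q : Polynomial (MvPolynomial (Fin n) k)) :
    theta (-v) (theta v q) = q := by
  have h : (theta (-v)).comp (theta v) = RingHom.id _ := by
    apply Polynomial.ringHom_ext
    · intro p
      rw [RingHom.comp_apply, theta_C, RingHom.id_apply]
      have h2 : (theta (-v)).comp (shift v) = Polynomial.C := by
        apply MvPolynomial.ringHom_ext
        · intro c
          rw [RingHom.comp_apply, shift_C, theta_C, shift_C]
        · intro i
          rw [RingHom.comp_apply, shift_X, map_add, map_mul, theta_C, theta_C, theta_X, shift_X,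
            shift_C]
          simp only [Pi.neg_apply, map_neg]
          ring
      exact congrArg (fun g => g p) h2
    · rw [RingHom.comp_apply, theta_X, theta_X, RingHom.id_apply]
  exact congrArg (fun g => g q) h

/-- `theta` as an equivalence. -/
noncomputable def thetaEquiv (v : Fin n → k) :
    Polynomial (MvPolynomial (Fin n) k) ≃+* Polynomial (MvPolynomial (Fin n) k) :=
  RingEquiv.ofRingHom (theta v) (theta (-v))
    (RingHom.ext fun q => by have := theta_theta (-v) q; rwa [neg_neg] at this)
    (RingHom.ext fun q => theta_theta v q)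

theorem irreducible_shift (v : Fin n → k) {F : MvPolynomial (Fin n) k} (hF : Irreducible F) :
    Irreducible (shift v F) := by
  have h1 : Prime (Polynomial.C F : Polynomial (MvPolynomial (Fin n) k)) :=
    Polynomial.prime_C_iff.2 hF.prime
  have h2 : Irreducible (thetaEquiv v (Polynomial.C F)) :=
    (MulEquiv.irreducible_iff (thetaEquiv v)).2 h1.irreducible
  have h3 : thetaEquiv v (Polynomial.C F) = shift v F := theta_C v F
  rwa [h3] at h2

theorem dvd_of_shift (v : Fin n → k) {F f : MvPolynomial (Fin n) k}
    (h : shift v F ∣ shift v f) : F ∣ f := by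
  have h1 : thetaEquiv v (Polynomial.C F) ∣ thetaEquiv v (Polynomial.C f) := by
    have e1 : thetaEquiv v (Polynomial.C F) = shift v F := theta_C v F
    have e2 : thetaEquiv v (Polynomial.C f) = shift v f := theta_C v f
    rwa [e1, e2]
  have h2 := (map_dvd_iff (thetaEquiv v)).1 h1
  have h3 := (Polynomial.C_dvd_iff_dvd_coeff _ _).1 h2 0
  rwa [Polynomial.coeff_C_zero] at h3

/-- Elimination in the direction `v`. -/
theorem exists_elim (v : Fin n → k) {F f : MvPolynomial (Fin n) k} (hF : Irreducible F)
    (hdeg : (shift v F).natDegree ≠ 0) (hf : ¬ F ∣ f) :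
    ∃ r : MvPolynomial (Fin n) k, r ≠ 0 ∧ ∃ a b : Polynomial (MvPolynomial (Fin n) k),
      Polynomial.C r = a * shift v F + b * shift v f := by
  classical
  let A := MvPolynomial (Fin n) k
  let Q := FractionRing A
  have hirr : Irreducible (shift v F) := irreducible_shift v hF
  have hprim : (shift v F).IsPrimitive := hirr.isPrimitive hdeg
  have hnd : ¬ shift v F ∣ shift v f := fun h => hf (dvd_of_shift v h)
  have h1 : Irreducible (Polynomial.map (algebraMap A Q) (shift v F)) :=
    (hprim.irreducible_iff_irreducible_map_fraction_map (K := Q)).1 hirr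
  have h2 : ¬ Polynomial.map (algebraMap A Q) (shift v F) ∣
      Polynomial.map (algebraMap A Q) (shift v f) := fun h =>
    hnd (hprim.dvd_of_fraction_map_dvd_fraction_map h)
  have h3 : IsCoprime (Polynomial.map (algebraMap A Q) (shift v F))
      (Polynomial.map (algebraMap A Q) (shift v f)) :=
    (h1.coprime_iff_not_dvd).2 h2
  obtain ⟨a, b, hab⟩ := h3
  obtain ⟨c, hc, hcI⟩ := IsLocalization.integerNormalization_spec (nonZeroDivisors A) a
  obtain ⟨d, hd, hdI⟩ := IsLocalization.integerNormalization_spec (nonZeroDivisors A) b
  set a' := IsLocalization.integerNormalization (nonZeroDivisors A) a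
  set b' := IsLocalization.integerNormalization (nonZeroDivisors A) b
  have hc0 : c ≠ 0 := nonZeroDivisors.ne_zero hc
  have hd0 : d ≠ 0 := nonZeroDivisors.ne_zero hd
  refine ⟨c * d, mul_ne_zero hc0 hd0, Polynomial.C d * a', Polynomial.C c * b', ?_⟩
  apply Polynomial.map_injective (algebraMap A Q) (IsFractionRing.injective A Q)
  rw [Polynomial.map_add, Polynomial.map_mul, Polynomial.map_mul, Polynomial.map_mul,
    Polynomial.map_mul, hcI, hdI, Polynomial.map_C, Polynomial.map_C, Polynomial.map_C,
    map_mul, Polynomial.C_mul]
  have e1 : (c : A) • a = Polynomial.C (algebraMap A Q c) * a := by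
    rw [Algebra.smul_def]; rfl
  have e2 : (d : A) • b = Polynomial.C (algebraMap A Q d) * b := by
    rw [Algebra.smul_def]; rfl
  rw [e1, e2]
  calc Polynomial.C (algebraMap A Q c) * Polynomial.C (algebraMap A Q d)
      = Polynomial.C (algebraMap A Q c) * Polynomial.C (algebraMap A Q d) *
        (a * Polynomial.map (algebraMap A Q) (shift v F) +
        b * Polynomial.map (algebraMap A Q) (shift v f)) := by rw [hab, mul_one]
    _ = _ := by ring

end Elim

end Pool.Agent.MazurT
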