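import Mathlib
import Pool.Agent.MazurT.Elim
import Pool.Agent.MazurC.CubicMain

/-!
The criterion of dominance by curves.
-/

namespace Pool.Agent.MazurT

open MvPolynomial Pool.Agent.MazurC

theorem eval₂_eval₂' {R S T : Type*} [CommRing R] [CommRing S] [CommRing T] {ι κ : Type*}
    (φ : S →+* T) (x : κ → T) (ψ : R →+* MvPolynomial κ S) (g : ι → MvPolynomial κ S)
    (p : MvPolynomial ι R) :
    eval₂ φ x (eval₂ ψ g p) = eval₂ ((eval₂Hom φ x).comp ψ) (fun i => eval₂ φ x (g i)) p := by
  exact MvPolynomial.hom_eval₂ p ψ (eval₂Hom φ x) g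

theorem hom_eval₂' {R S T : Type*} [CommRing R] [CommRing S] [CommRing T] {ι : Type*}
    (φ : R →+* S) (ψ : S →+* T) (x : ι → S) (p : MvPolynomial ι R) :
    ψ (eval₂ φ x p) = eval₂ (ψ.comp φ) (fun i => ψ (x i)) p :=
  MvPolynomial.hom_eval₂ p φ ψ x

theorem eval₂_smul_hom {R S : Type*} [CommRing R] [CommRing S] (φ : R →+* S) {ι : Type*} {d : ℕ}
    {P : MvPolynomial ι R} (hP : P.IsHomogeneous d) (c : S) (y : ι → S) :
    eval₂ φ (fun i => c * y i) P = c ^ d * eval₂ φ y P := by
  have h1 : (map φ P).IsHomogeneous d := hP.map φ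
  have := eval_smul_hom h1 c y
  rw [eval_map, eval_map] at this
  exact this

section Lowest

variable {n : ℕ} {Ω : Type*} [Field Ω]

theorem eval₂_shift {k S : Type*} [Field k] [CommRing S] (φ : k →+* S) (y : Fin n → S) (c : S)
    (v : Fin n → k) (f : MvPolynomial (Fin n) k) :
    Polynomial.eval₂ (eval₂Hom φ y) c (shift v f) = eval₂ φ (fun i => y i + φ (v i) * c) f := by
  have h : (Polynomial.eval₂RingHom (eval₂Hom φ y) c).comp (shift v)
      = eval₂Hom φ (fun i => y i + φ (v i) * c) := by
    apply MvPolynomial.ringHom_ext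
    · intro a
      rw [RingHom.comp_apply, shift_C]
      simp
    · intro i
      rw [RingHom.comp_apply, shift_X]
      simp
  exact congrArg (fun g => g f) h

/-- A polynomial vanishing, to arbitrary order, along curves through a point in all directions is
zero. -/
theorem eq_zero_of_curves [Infinite Ω] (r : MvPolynomial (Fin n) Ω) (y0 : Fin n → Ω)
    (h : ∀ (s : Fin n → Ω) (D : ℕ), ∃ y : Fin n → Polynomial Ω, (∀ i, (y i).coeff 0 = y0 i) ∧
      (∀ i, (y i).coeff 1 = s i) ∧ Polynomial.X ^ D ∣ eval₂ Polynomial.C y r) : r = 0 := by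
  classical
  by_contra hr
  set r1 : MvPolynomial (Fin n) Ω := eval₂ C (fun i => X i + C (y0 i)) r with hr1
  have hr10 : r1 ≠ 0 := by
    intro h0
    apply hr
    have e1 : eval₂ C (fun i => X i - C (y0 i)) r1 = r := by
      rw [hr1, eval₂_eval₂']
      have e2 : (eval₂Hom C (fun i => X i - C (y0 i))).comp C
          = (C : Ω →+* MvPolynomial (Fin n) Ω) := by
        ext1 a; simp
      rw [e2]
      have e3 : (fun i => eval₂ C (fun i => X i - C (y0 i)) (X i + C (y0 i)))
          = (X : Fin n → MvPolynomial (Fin n) Ω) := by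
        funext i; simp
      rw [e3]
      exact eval₂_eta r
    rw [← e1, h0, eval₂_zero]
  have hex : ∃ d, homogeneousComponent d r1 ≠ 0 := by
    by_contra hcon
    push Not at hcon
    apply hr10
    rw [← sum_homogeneousComponent r1]
    exact Finset.sum_eq_zero fun i _ => hcon i
  set d := Nat.find hex
  have hd : homogeneousComponent d r1 ≠ 0 := Nat.find_spec hex
  have hlt : ∀ j < d, homogeneousComponent j r1 = 0 := fun j hj => by
    by_contra h; exact Nat.find_min hex hj h
  apply hd
  apply MvPolynomial.funext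
  intro s
  rw [map_zero]
  obtain ⟨y, hy0, hy1, hyD⟩ := h s (d + 1)
  set z : Fin n → Polynomial Ω := fun i => (y i).divX with hz
  have hyz : ∀ i, y i = Polynomial.X * z i + Polynomial.C (y0 i) := by
    intro i
    rw [← hy0 i, mul_comm]
    exact (Polynomial.divX_mul_X_add (y i)).symm
  have e1 : eval₂ Polynomial.C y r = eval₂ Polynomial.C (fun i => Polynomial.X * z i) r1 := by
    rw [hr1, eval₂_eval₂']
    have e2 : (eval₂Hom Polynomial.C (fun i => Polynomial.X * z i)).comp C
        = (Polynomial.C : Ω →+* Polynomial Ω) := by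
      ext1 a; simp
    rw [e2]
    congr 1
    funext i
    rw [eval₂_add, eval₂_X, eval₂_C, hyz i]
  have e3 : eval₂ Polynomial.C (fun i => Polynomial.X * z i) r1
      = ∑ j ∈ Finset.range (r1.totalDegree + 1), Polynomial.X ^ j *
        eval₂ Polynomial.C z (homogeneousComponent j r1) := by
    conv_lhs => rw [← sum_homogeneousComponent r1]
    rw [eval₂_sum]
    refine Finset.sum_congr rfl fun j _ => ?_
    exact eval₂_smul_hom _ (homogeneousComponent_isHomogeneous j r1) _ _
  have hdr : d ∈ Finset.range (r1.totalDegree + 1) := by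
    rw [Finset.mem_range]
    by_contra hcon
    exact hd (homogeneousComponent_eq_zero _ _ (by omega))
  have e4 : (eval₂ Polynomial.C y r).coeff d
      = (eval₂ Polynomial.C z (homogeneousComponent d r1)).coeff 0 := by
    rw [e1, e3, Polynomial.finsetSum_coeff, Finset.sum_eq_single d]
    · have := Polynomial.coeff_X_pow_mul (eval₂ Polynomial.C z (homogeneousComponent d r1)) d 0
      rwa [zero_add] at this
    · intro j _ hj
      rcases lt_or_gt_of_ne hj with h1 | h1
      · rw [hlt j h1, eval₂_zero, mul_zero, Polynomial.coeff_zero]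
      · rw [Polynomial.coeff_X_pow_mul', if_neg (by omega)]
    · intro h1; exact absurd hdr h1
  have e5 : (eval₂ Polynomial.C y r).coeff d = 0 :=
    Polynomial.X_pow_dvd_iff.1 hyD d (by omega)
  rw [e5] at e4
  have e6 : (eval₂ Polynomial.C z (homogeneousComponent d r1)).coeff 0
      = eval s (homogeneousComponent d r1) := by
    rw [Polynomial.coeff_zero_eq_eval_zero]
    have h1 := hom_eval₂' (Polynomial.C : Ω →+* Polynomial Ω) (Polynomial.evalRingHom (0 : Ω)) z
      (homogeneousComponent d r1)
    rw [Polynomial.coe_evalRingHom] at h1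
    rw [h1]
    have h2 : (Polynomial.evalRingHom (0 : Ω)).comp Polynomial.C = RingHom.id Ω := by
      ext1 a; simp
    have h3 : (fun i => Polynomial.eval 0 (z i)) = s := by
      funext i
      rw [← Polynomial.coeff_zero_eq_eval_zero, hz]
      simp only [Polynomial.coeff_divX, zero_add]
      exact hy1 i
    rw [h2, h3]
    rfl
  rw [← e6, ← e4]

end Lowest

section Dominance

variable {n : ℕ} {k Ω : Type*} [Field k] [Field Ω] [CharZero Ω]

omit [CharZero Ω] in
theorem coeff_one_B {t : Fin n → Fin n → Fin n → Ω} (x y z : Fin n → Polynomial Ω) :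
    (B (tmap Polynomial.C t) x y z).coeff 1 =
      B t (fun i => (x i).coeff 1) (fun i => (y i).coeff 0) (fun i => (z i).coeff 0) +
      B t (fun i => (x i).coeff 0) (fun i => (y i).coeff 1) (fun i => (z i).coeff 0) +
      B t (fun i => (x i).coeff 0) (fun i => (y i).coeff 0) (fun i => (z i).coeff 1) := by
  simp only [B, tmap, Polynomial.finsetSum_coeff, Polynomial.mul_coeff_one,
    Polynomial.mul_coeff_zero, Polynomial.coeff_C_zero, ← Finset.sum_add_distrib]
  refine Finset.sum_congr rfl fun i _ => Finset.sum_congr rfl fun j _ =>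
    Finset.sum_congr rfl fun l _ => ?_
  have : (Polynomial.C (t i j l)).coeff 1 = 0 := Polynomial.coeff_C_succ
  rw [this]
  ring

omit [CharZero Ω] in
theorem coeff_zero_B {t : Fin n → Fin n → Fin n → Ω} (x y z : Fin n → Polynomial Ω) :
    (B (tmap Polynomial.C t) x y z).coeff 0 =
      B t (fun i => (x i).coeff 0) (fun i => (y i).coeff 0) (fun i => (z i).coeff 0) := by
  simp only [B, tmap, Polynomial.finsetSum_coeff,
    Polynomial.mul_coeff_zero, Polynomial.coeff_C_zero]

/-- Criterion: if `f` vanishes along curves on the cubic hypersurface through a smooth point in all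
tangent directions then it is divisible by the cubic form. -/
theorem dvd_of_curves (φ : k →+* Ω) {t : Fin n → Fin n → Fin n → k} (ht : Sym t)
    (hirr : Irreducible (cub t)) {f : MvPolynomial (Fin n) k} (x0 : Fin n → Ω) (v : Fin n → k)
    (hv : B (tmap φ t) x0 x0 (fun i => φ (v i)) ≠ 0)
    (h : ∀ z, B (tmap φ t) x0 x0 z = 0 → ∀ D : ℕ, ∃ x : Fin n → Polynomial Ω,
      (∀ i, (x i).coeff 0 = x0 i) ∧ (∀ i, (x i).coeff 1 = z i) ∧
      Polynomial.X ^ D ∣ eval₂ (Polynomial.C.comp φ) x (cub t) ∧
      Polynomial.X ^ D ∣ eval₂ (Polynomial.C.comp φ) x f) : cub t ∣ f := by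
  classical
  have hT := sym_tmap φ ht
  have : Infinite Ω := inferInstance
  by_contra hf
  have hdeg : (shift v (cub t)).natDegree ≠ 0 := by
    intro h0
    have h1 := Polynomial.eq_C_of_natDegree_eq_zero h0
    have h2 := eval₂_shift ((Polynomial.C : Ω →+* Polynomial Ω).comp φ)
      (fun i => Polynomial.C (x0 i)) Polynomial.X v (cub t)
    rw [h1, Polynomial.eval₂_C, coe_eval₂Hom, eval₂_cub] at h2
    have h3 := congrArg (fun p => Polynomial.coeff p 1) h2
    rw [← tmap_tmap, coeff_one_B] at h3
    have e0 : (fun i => (Polynomial.C (x0 i) + (Polynomial.C.comp φ) (v i) *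
        Polynomial.X).coeff 0) = x0 := by
      funext i; simp
    have e1 : (fun i => (Polynomial.C (x0 i) + (Polynomial.C.comp φ) (v i) *
        Polynomial.X).coeff 1) = fun i => φ (v i) := by
      funext i
      have : (Polynomial.C (x0 i)).coeff 1 = 0 := Polynomial.coeff_C_succ
      rw [Polynomial.coeff_add, this, RingHom.comp_apply, Polynomial.coeff_C_mul,
        Polynomial.coeff_X_one, mul_one, zero_add]
    rw [e0, e1] at h3
    have e2 : eval₂ ((Polynomial.C : Ω →+* Polynomial Ω).comp φ) (fun i => Polynomial.C (x0 i))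
        ((shift v (cub t)).coeff 0) = Polynomial.C (eval₂ φ x0 ((shift v (cub t)).coeff 0)) :=
      (hom_eval₂' φ Polynomial.C x0 _).symm
    rw [e2, Polynomial.coeff_C_succ] at h3
    rw [B_swap12 hT _ x0 x0, B_swap23 hT x0 _ x0] at h3
    have h4 : 3 * B (tmap φ t) x0 x0 (fun i => φ (v i)) = 0 := by
      rw [h3]; ring
    rcases mul_eq_zero.1 h4 with h5 | h5
    · norm_num at h5
    · exact hv h5
  obtain ⟨r, hr0, a, b, hab⟩ := exists_elim v hirr hdeg hf
  apply hr0
  have hinj : Function.Injective (map φ : MvPolynomial (Fin n) k → MvPolynomial (Fin n) Ω) :=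
    map_injective φ φ.injective
  apply hinj
  rw [map_zero]
  refine eq_zero_of_curves (map φ r) x0 ?_
  intro s D
  set c : Ω := B (tmap φ t) x0 x0 s / B (tmap φ t) x0 x0 (fun i => φ (v i)) with hc
  obtain ⟨x, hx0, hx1, hx2, hx3⟩ := h (s + (-c) • (fun i => φ (v i))) (by
    rw [B_add_right hT, B_smul_right hT, hc]
    field_simp
    ring) D
  set y : Fin n → Polynomial Ω := fun i => x i + Polynomial.C (φ (v i)) *
    (Polynomial.C c * Polynomial.X) with hy
  refine ⟨y, ?_, ?_, ?_⟩
  · intro i
    simp [hy, hx0]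
  · intro i
    rw [hy]
    simp only [Polynomial.coeff_add, hx1, Polynomial.coeff_C_mul, Polynomial.coeff_X_one,
      Pi.add_apply, Pi.smul_apply, smul_eq_mul]
    ring
  · rw [eval₂_map]
    have h1 := congrArg (Polynomial.eval₂ (eval₂Hom (Polynomial.C.comp φ) y)
      (-(Polynomial.C c * Polynomial.X))) hab
    rw [Polynomial.eval₂_C, Polynomial.eval₂_add, Polynomial.eval₂_mul, Polynomial.eval₂_mul,
      eval₂_shift, eval₂_shift, coe_eval₂Hom] at h1
    have e : (fun i => y i + (Polynomial.C.comp φ) (v i) * -(Polynomial.C c * Polynomial.X))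
        = x := by
      funext i
      simp only [hy, RingHom.comp_apply]
      ring
    rw [e] at h1
    rw [h1]
    exact dvd_add (hx2.mul_left _) (hx3.mul_left _)

end Dominance

end Pool.Agent.MazurT
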