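import Mathlib
import Pool.Agent.MazurT.Domin

/-!
Lifting of tangent vectors through the residual point map.
-/

namespace Pool.Agent.MazurT

open MvPolynomial Pool.Agent.MazurC

section Coeff

variable {n : ℕ} {Ω : Type*} [Field Ω] {t : Fin n → Fin n → Fin n → Ω}

/-- Constant term of a vector of polynomials. -/
def c0 (x : Fin n → Polynomial Ω) : Fin n → Ω := fun i => (x i).coeff 0

/-- Linear term of a vector of polynomials. -/
def c1 (x : Fin n → Polynomial Ω) : Fin n → Ω := fun i => (x i).coeff 1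

/-- Constant vector. -/
noncomputable def cC (x : Fin n → Ω) : Fin n → Polynomial Ω := fun i => Polynomial.C (x i)

theorem B_c0 (x y z : Fin n → Polynomial Ω) :
    (B (tmap Polynomial.C t) x y z).coeff 0 = B t (c0 x) (c0 y) (c0 z) := coeff_zero_B x y z

theorem B_c1 (x y z : Fin n → Polynomial Ω) :
    (B (tmap Polynomial.C t) x y z).coeff 1 = B t (c1 x) (c0 y) (c0 z) + B t (c0 x) (c1 y) (c0 z)
      + B t (c0 x) (c0 y) (c1 z) := coeff_one_B x y z

theorem c0_cC (x : Fin n → Ω) : c0 (cC x) = x := by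
  funext i; simp [c0, cC]

theorem c1_cC (x : Fin n → Ω) : c1 (cC x) = 0 := by
  funext i
  exact Polynomial.coeff_C_succ

theorem c0_add (x y : Fin n → Polynomial Ω) : c0 (x + y) = c0 x + c0 y := by
  funext i; simp [c0]

theorem c1_add (x y : Fin n → Polynomial Ω) : c1 (x + y) = c1 x + c1 y := by
  funext i; simp [c1]

theorem c0_smul (r : Polynomial Ω) (x : Fin n → Polynomial Ω) :
    c0 (r • x) = r.coeff 0 • c0 x := by
  funext i; simp [c0, Polynomial.mul_coeff_zero]

theorem c1_smul (r : Polynomial Ω) (x : Fin n → Polynomial Ω) :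
    c1 (r • x) = r.coeff 1 • c0 x + r.coeff 0 • c1 x := by
  funext i
  simp only [c0, c1, Pi.smul_apply, smul_eq_mul, Pi.add_apply, Polynomial.mul_coeff_one]
  ring

theorem c0_psi (x y : Fin n → Polynomial Ω) :
    c0 (psi (tmap Polynomial.C t) x y) = psi t (c0 x) (c0 y) := by
  have h3 : (3 * B (tmap Polynomial.C t) x y y).coeff 0 = 3 * B t (c0 x) (c0 y) (c0 y) := by
    rw [show (3 : Polynomial Ω) = Polynomial.C 3 from (map_ofNat Polynomial.C 3).symm,
      Polynomial.coeff_C_mul, B_c0]
  rw [psi, c0_add, c0_smul, c0_smul, Polynomial.coeff_neg, B_c0, h3, psi]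

theorem c1_psi (ht : Sym t) (x y : Fin n → Polynomial Ω) :
    c1 (psi (tmap Polynomial.C t) x y) =
      (-(3 * B t (c0 y) (c0 y) (c1 y))) • c0 x + (-B t (c0 y) (c0 y) (c0 y)) • c1 x
      + (3 * (B t (c1 x) (c0 y) (c0 y) + 2 * B t (c0 x) (c0 y) (c1 y))) • c0 y
      + (3 * B t (c0 x) (c0 y) (c0 y)) • c1 y := by
  have h3 : (3 * B (tmap Polynomial.C t) x y y).coeff 0 = 3 * B t (c0 x) (c0 y) (c0 y) := by
    rw [show (3 : Polynomial Ω) = Polynomial.C 3 from (map_ofNat Polynomial.C 3).symm,
      Polynomial.coeff_C_mul, B_c0]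
  have h4 : (3 * B (tmap Polynomial.C t) x y y).coeff 1
      = 3 * (B t (c1 x) (c0 y) (c0 y) + 2 * B t (c0 x) (c0 y) (c1 y)) := by
    rw [show (3 : Polynomial Ω) = Polynomial.C 3 from (map_ofNat Polynomial.C 3).symm,
      Polynomial.coeff_C_mul, B_c1, B_swap23 ht (c0 x) (c1 y) (c0 y)]
    ring
  have h5 : (B (tmap Polynomial.C t) y y y).coeff 1 = 3 * B t (c0 y) (c0 y) (c1 y) := by
    rw [B_c1, B_swap12 ht (c1 y), B_swap23 ht (c0 y) (c1 y)]
    ring
  rw [psi, c1_add, c1_smul, c1_smul, Polynomial.coeff_neg, Polynomial.coeff_neg, B_c0, h3, h4, h5]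
  funext i
  simp only [Pi.add_apply, Pi.smul_apply, smul_eq_mul]
  ring

end Coeff

section Lift

variable {n : ℕ} {Ω : Type*} [Field Ω] [CharZero Ω] {t : Fin n → Fin n → Fin n → Ω}

/-- The projection of `w0` to the tangent space at `p`, in the direction `e`. -/
def tw {M : Type*} [CommRing M] (t : Fin n → Fin n → Fin n → M) (p w0 e : Fin n → M) :
    Fin n → M := B t p p e • w0 + (-B t p p w0) • e

theorem B_tw {M : Type*} [CommRing M] {t : Fin n → Fin n → Fin n → M} (ht : Sym t)
    (p w0 e : Fin n → M) : B t p p (tw t p w0 e) = 0 := by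
  rw [tw, B_add_right ht, B_smul_right ht, B_smul_right ht]
  ring

theorem map_tw {M M' : Type*} [CommRing M] [CommRing M'] (φ : M →+* M')
    (t : Fin n → Fin n → Fin n → M) (p w0 e : Fin n → M) :
    (fun i => φ (tw t p w0 e i)) = tw (fun i j k => φ (t i j k)) (fun i => φ (p i))
      (fun i => φ (w0 i)) (fun i => φ (e i)) := by
  funext i
  simp only [tw, Pi.add_apply, Pi.smul_apply, smul_eq_mul, map_add, map_mul, map_neg, map_B]

theorem exists_lift (ht : Sym t) {p w p1 z e : Fin n → Ω} (hp : B t p p p = 0)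
    (hw : B t p p w = 0) (hb : B t p w w ≠ 0) (hp1 : B t p p p1 = 0) (he : B t p p e ≠ 0)
    (hz : B t (psi t p w) (psi t p w) z = 0)
    (hα : B t p p z + 6 * B t p w w * B t p p1 w = 0)
    (pc : Fin n → Polynomial Ω) (h0 : c0 pc = p) (h1 : c1 pc = p1) :
    ∃ w0 : Fin n → Polynomial Ω,
      c0 (psi (tmap Polynomial.C t) pc (tw (tmap Polynomial.C t) pc w0 (cC e))) = psi t p w ∧
      c1 (psi (tmap Polynomial.C t) pc (tw (tmap Polynomial.C t) pc w0 (cC e))) = z := by
  set b := B t p w w with hbdef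
  set f := B t w w w with hf
  set g := B t p1 w w with hg
  set z1 : Fin n → Ω := z + f • p1 + (-(3 * g)) • w with hz1
  set lam : Ω := -(2 / (9 * b ^ 2)) * B t p w z1 with hlam
  set w' : Fin n → Ω := (1 / (3 * b)) • z1 + lam • w with hw'
  set β : Ω := (B t p p e)⁻¹ with hβ
  set c : Ω := 2 * B t p p1 e * β with hc
  -- identities
  have s1 : B t p p1 w = B t p w p1 := B_swap23 ht _ _ _
  have s2 : B t w w p1 = g := by rw [hg, B_swap23 ht, B_swap12 ht]
  have s3 : B t w w z = B t w w z := rfl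
  have hzz : f ^ 2 * B t p p z - 6 * f * b * B t p w z + 9 * b ^ 2 * B t w w z = 0 := by
    rw [← hz, psi, B_comb2 ht]
    ring
  have i1 : B t p p z1 = B t p p z := by
    rw [hz1, B_add_right ht, B_add_right ht, B_smul_right ht, B_smul_right ht, hp1, hw]
    ring
  have i2 : B t p w z1 = B t p w z + f * B t p p1 w - 3 * g * b := by
    rw [hz1, B_add_right ht, B_add_right ht, B_smul_right ht, B_smul_right ht, ← s1]
    ring
  have i3 : B t w w z1 = B t w w z - 2 * f * g := by
    rw [hz1, B_add_right ht, B_add_right ht, B_smul_right ht, B_smul_right ht, s2, ← hf]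
    ring
  have j1 : B t p p w' + 2 * B t p p1 w = 0 := by
    have hk0 : B t p p z = -(6 * b * B t p p1 w) := by linear_combination hα
    rw [hw', B_add_right ht, B_smul_right ht, B_smul_right ht, i1, hw, hk0]
    field_simp
    ring
  have j2 : B t w w w' = 0 := by
    rw [hw', B_add_right ht, B_smul_right ht, B_smul_right ht, i3, hlam, i2, ← hf]
    have hk : 3 * b * (3 * b * B t w w z - 2 * f * B t p w z)
        = 3 * b * (2 * f ^ 2 * B t p p1 w) := by
      linear_combination hzz - f ^ 2 * hα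
    have hk2 : 3 * b * B t w w z - 2 * f * B t p w z = 2 * f ^ 2 * B t p p1 w :=
      mul_left_cancel₀ (mul_ne_zero three_ne_zero hb) hk
    field_simp
    linear_combination 3 * hk2
  have j3 : 6 * B t p w w' + 9 * b * lam = (2 / b) * B t p w z1 + 15 * b * lam := by
    rw [hw', B_add_right ht, B_smul_right ht, B_smul_right ht, ← hbdef]
    field_simp
    ring
  obtain ⟨w0, hw0⟩ : ∃ w0 : Fin n → Polynomial Ω,
      w0 = (Polynomial.C β * (1 - Polynomial.C c * (Polynomial.X : Polynomial Ω))) •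
    (cC w + (Polynomial.X : Polynomial Ω) • cC w') := ⟨_, rfl⟩
  refine ⟨w0, ?_⟩
  have k0 : (Polynomial.C β * (1 - Polynomial.C c * Polynomial.X)).coeff 0 = β := by
    simp
  have k1 : (Polynomial.C β * (1 - Polynomial.C c * Polynomial.X)).coeff 1 = -(β * c) := by
    rw [Polynomial.coeff_C_mul, Polynomial.coeff_sub, Polynomial.coeff_C_mul,
      Polynomial.coeff_X_one, Polynomial.coeff_one]
    simp
  have w00 : c0 w0 = β • w := by
    rw [hw0, c0_smul, k0, c0_add, c0_smul, c0_cC, c0_cC]
    simp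
  have w01 : c1 w0 = (-(β * c)) • w + β • w' := by
    rw [hw0, c1_smul, k0, k1, c1_add, c0_add, c0_smul, c1_smul, c0_cC, c0_cC, c1_cC, c1_cC]
    simp
  have tw0 : c0 (tw (tmap Polynomial.C t) pc w0 (cC e)) = w := by
    rw [tw, c0_add, c0_smul, c0_smul, Polynomial.coeff_neg, B_c0, B_c0, c0_cC, h0, w00,
      B_smul_right ht, hw, smul_smul, hβ, mul_inv_cancel₀ he]
    simp
  have tw1 : c1 (tw (tmap Polynomial.C t) pc w0 (cC e)) = w' := by
    have m1 : B t p1 p e = B t p p1 e := B_swap12 ht _ _ _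
    have m2 : B t p1 p w = B t p p1 w := B_swap12 ht _ _ _
    rw [tw, c1_add, c1_smul, c1_smul, Polynomial.coeff_neg, Polynomial.coeff_neg, B_c0, B_c0,
      B_c1, B_c1, c0_cC, c1_cC, h0, h1, w00, w01, B_smul_right ht, B_smul_right ht,
      B_smul_right ht, B_add_right ht, B_smul_right ht, B_smul_right ht, m1, m2, hw]
    have m3 : B t p p (0 : Fin n → Ω) = 0 := by simp [B]
    rw [m3]
    have m4 : β * B t p p e = 1 := inv_mul_cancel₀ he
    have m5 : B t p p w' = -(2 * B t p p1 w) := by linear_combination j1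
    rw [m5]
    funext i
    simp only [Pi.add_apply, Pi.smul_apply, smul_eq_mul, Pi.zero_apply, hc]
    linear_combination (w' i - 2 * B t p p1 e * β * w i) * m4
  constructor
  · rw [c0_psi, h0, tw0]
  · rw [c1_psi ht, h0, h1, tw0, tw1, j2, ← hbdef, ← hf, ← hg]
    funext i
    simp only [Pi.add_apply, Pi.smul_apply, smul_eq_mul]
    have m6 : 3 * b * w' i = z i + f * p1 i - 3 * g * w i + 3 * b * lam * w i := by
      simp only [hw', hz1, Pi.add_apply, Pi.smul_apply, smul_eq_mul]
      field_simp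
      ring
    have m7 : 6 * B t p w w' + 3 * b * lam = 0 := by
      have : 6 * B t p w w' + 3 * b * lam = (2 / b) * B t p w z1 + 9 * b * lam := by
        linear_combination j3
      rw [this, hlam]
      field_simp
      ring
    linear_combination m6 + w i * m7

end Lift

end Pool.Agent.MazurT
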