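import Mathlib
import Pool.Agent.MazurT.Lift

/-!
Linear algebra of the polar quadratic forms of a cubic form.
-/

namespace Pool.Agent.MazurT

open MvPolynomial Pool.Agent.MazurC

section Rank

variable {Ω : Type*} [Field Ω]

/-- A nondegenerate `4 x 4` matrix is nonzero on (codimension two) x (codimension one). -/
theorem exists_of_det {A : Matrix (Fin 4) (Fin 4) Ω} (hA : A.det ≠ 0) (α1 α2 β : Fin 4 → Ω) :
    ∃ c d : Fin 4 → Ω, α1 ⬝ᵥ c = 0 ∧ α2 ⬝ᵥ c = 0 ∧ β ⬝ᵥ d = 0 ∧ c ⬝ᵥ A.mulVec d ≠ 0 := by
  classical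
  by_contra hcon
  push Not at hcon
  let l : (Fin 4 → Ω) →ₗ[Ω] (Fin 2 → Ω) := Matrix.mulVecLin (Matrix.of ![α1, α2])
  have hl : ∀ c, c ∈ LinearMap.ker l ↔ α1 ⬝ᵥ c = 0 ∧ α2 ⬝ᵥ c = 0 := by
    intro c
    rw [LinearMap.mem_ker]
    constructor
    · intro h
      exact ⟨congrFun h 0, congrFun h 1⟩
    · rintro ⟨h1, h2⟩
      funext i
      fin_cases i
      · exact h1
      · exact h2
  have h1 : 2 ≤ Module.finrank Ω (LinearMap.ker l) := by
    have := LinearMap.finrank_range_add_finrank_ker l
    have h2 : Module.finrank Ω (LinearMap.range l) ≤ 2 := by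
      have := Submodule.finrank_le (LinearMap.range l)
      simpa using this
    simp only [Module.finrank_fintype_fun_eq_card, Fintype.card_fin] at this
    omega
  let f : (Fin 4 → Ω) →ₗ[Ω] (Fin 4 → Ω) := Matrix.mulVecLin A.transpose
  have hf : Function.Injective f := by
    have : Function.Injective A.transpose.mulVec :=
      Matrix.mulVec_injective_iff_isUnit.2 (by
        rw [Matrix.isUnit_iff_isUnit_det, Matrix.det_transpose]
        exact isUnit_iff_ne_zero.2 hA)
    exact this
  have h2 : (LinearMap.ker l).map f ≤ Submodule.span Ω {β} := by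
    rintro _ ⟨c, hc, rfl⟩
    have hc' := (hl c).1 hc
    have h3 : ∀ d, β ⬝ᵥ d = 0 → f c ⬝ᵥ d = 0 := by
      intro d hd
      have h4 := hcon c d hc'.1 hc'.2 hd
      have h5 : f c = Matrix.vecMul c A := by
        show A.transpose.mulVec c = _
        rw [Matrix.mulVec_transpose]
      rw [h5, ← Matrix.dotProduct_mulVec]
      exact h4
    rw [Submodule.mem_span_singleton]
    by_cases hβ : ∃ j, β j ≠ 0
    · obtain ⟨j0, hj0⟩ := hβ
      refine ⟨f c j0 / β j0, ?_⟩
      funext j
      have h4 := h3 (Pi.single j 1 - (β j / β j0) • Pi.single j0 1) (by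
        rw [dotProduct_sub, dotProduct_smul, dotProduct_single, dotProduct_single, smul_eq_mul]
        field_simp
        ring)
      rw [dotProduct_sub, dotProduct_smul, dotProduct_single, dotProduct_single, smul_eq_mul,
        mul_one, mul_one] at h4
      rw [Pi.smul_apply, smul_eq_mul]
      have h5 : f c j = β j / β j0 * f c j0 := by linear_combination h4
      rw [h5]
      ring
    · push Not at hβ
      refine ⟨0, ?_⟩
      funext j
      have h4 := h3 (Pi.single j 1) (by
        rw [dotProduct_single, hβ, zero_mul])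
      rw [dotProduct_single, mul_one] at h4
      rw [h4, zero_smul, Pi.zero_apply]
  have h3 : Module.finrank Ω ((LinearMap.ker l).map f) = Module.finrank Ω (LinearMap.ker l) :=
    (LinearEquiv.finrank_eq (Submodule.equivMapOfInjective f hf _)).symm
  have h4 := Submodule.finrank_mono h2
  have h5 : Module.finrank Ω (Submodule.span Ω {β}) ≤ 1 := by
    have := finrank_span_le_card (R := Ω) ({β} : Set (Fin 4 → Ω))
    simpa using this
  omega

end Rank

section Pair

/-- `B a b` as a linear form. -/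
def BL {n : ℕ} {M : Type*} [CommRing M] {t : Fin n → Fin n → Fin n → M} (ht : Sym t)
    (a b : Fin n → M) : (Fin n → M) →ₗ[M] M where
  toFun := B t a b
  map_add' := B_add_right ht a b
  map_smul' := fun r x => B_smul_right ht r a b x

theorem B_sum_right {n : ℕ} {M : Type*} [CommRing M] {t : Fin n → Fin n → Fin n → M} (ht : Sym t)
    {ι : Type*} (s : Finset ι) (a b : Fin n → M) (c : ι → M) (x : ι → Fin n → M) :
    B t a b (∑ i ∈ s, c i • x i) = ∑ i ∈ s, c i * B t a b (x i) := by
  have := map_sum (BL ht a b) (fun i => c i • x i) s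
  simp only [map_smul, smul_eq_mul] at this
  exact this

variable {n : ℕ} {Ω : Type*} [Field Ω] {t : Fin n → Fin n → Fin n → Ω}

theorem exists_pair (ht : Sym t) (P q : Fin n → Ω) (a b : Fin 4 → Fin n → Ω)
    (hdet : (Matrix.of fun i j => B t q (a i) (b j)).det ≠ 0) :
    ∃ q' u : Fin n → Ω, B t P P q' = 0 ∧ B t q q q' = 0 ∧ B t q q u = 0 ∧ B t q q' u ≠ 0 := by
  obtain ⟨c, d, h1, h2, h3, h4⟩ := exists_of_det hdet (fun i => B t P P (a i))
    (fun i => B t q q (a i)) (fun j => B t q q (b j))
  refine ⟨∑ i, c i • a i, ∑ j, d j • b j, ?_, ?_, ?_, ?_⟩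
  · rw [B_sum_right ht, ← h1, dotProduct]
    exact Finset.sum_congr rfl fun i _ => mul_comm _ _
  · rw [B_sum_right ht, ← h2, dotProduct]
    exact Finset.sum_congr rfl fun i _ => mul_comm _ _
  · rw [B_sum_right ht, ← h3, dotProduct]
    exact Finset.sum_congr rfl fun i _ => mul_comm _ _
  · intro h5
    apply h4
    rw [← h5, B_swap23 ht, B_sum_right ht]
    rw [dotProduct]
    refine Finset.sum_congr rfl fun i _ => ?_
    rw [B_swap23 ht, B_sum_right ht, Matrix.mulVec, dotProduct]
    congr 1
    refine Finset.sum_congr rfl fun j _ => ?_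
    rw [Matrix.of_apply, mul_comm]

theorem exists_pair' [CharZero Ω] (ht : Sym t) (P q : Fin n → Ω) (a b : Fin 4 → Fin n → Ω)
    (hdet : (Matrix.of fun i j => B t q (a i) (b j)).det ≠ 0) :
    ∃ q' u : Fin n → Ω, B t P P q' = 0 ∧ B t q q q' = 0 ∧ B t q q u = 0 ∧ B t q q' u ≠ 0 ∧
      B t q u u ≠ 0 := by
  obtain ⟨q', u, h1, h2, h3, h4⟩ := exists_pair ht P q a b hdet
  obtain ⟨u1, hu1, hu2⟩ : ∃ u1, B t q q u1 = 0 ∧ B t q u1 u1 ≠ 0 := by
    obtain ⟨x, y, _, k1, k2, k3⟩ := exists_pair ht q q a b hdet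
    by_contra hcon
    push Not at hcon
    have e1 := hcon x k1
    have e2 := hcon y k2
    have e3 := hcon (x + y) (by rw [B_add_right ht, k1, k2, add_zero])
    rw [B_add_right ht, B_add_mid ht, B_add_mid ht, e1, e2, B_swap23 ht q y x] at e3
    have e4 : (2 : Ω) * B t q x y = 0 := by rw [← e3]; ring
    rcases mul_eq_zero.1 e4 with e5 | e5
    · norm_num at e5
    · exact k3 e5
  let p1 : Polynomial Ω := Polynomial.C (B t q q' u) + Polynomial.C (B t q q' u1) * Polynomial.X
  let p2 : Polynomial Ω := Polynomial.C (B t q u u) + Polynomial.C (2 * B t q u u1) * Polynomial.X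
    + Polynomial.C (B t q u1 u1) * Polynomial.X ^ 2
  have hp1 : p1 ≠ 0 := by
    intro h
    have := congrArg (fun p => Polynomial.eval 0 p) h
    simp [p1] at this
    exact h4 this
  have hp2 : p2 ≠ 0 := by
    intro h
    have := congrArg (fun p => Polynomial.coeff p 2) h
    simp only [p2, Polynomial.coeff_add, Polynomial.coeff_C_mul, Polynomial.coeff_zero,
      Polynomial.coeff_X_pow] at this
    rw [Polynomial.coeff_C, Polynomial.coeff_X] at this
    norm_num at this
    exact hu2 this
  obtain ⟨τ, hτ⟩ : ∃ τ, Polynomial.eval τ (p1 * p2) ≠ 0 := by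
    by_contra hcon
    push Not at hcon
    exact mul_ne_zero hp1 hp2 (Polynomial.funext fun r => by rw [hcon r, Polynomial.eval_zero])
  rw [Polynomial.eval_mul] at hτ
  refine ⟨q', u + τ • u1, h1, h2, ?_, ?_, ?_⟩
  · rw [B_add_right ht, B_smul_right ht, h3, hu1]; ring
  · intro h
    apply left_ne_zero_of_mul hτ
    rw [B_add_right ht, B_smul_right ht] at h
    simp only [p1, Polynomial.eval_add, Polynomial.eval_C, Polynomial.eval_mul,
      Polynomial.eval_X]
    linear_combination h
  · intro h
    apply right_ne_zero_of_mul hτ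
    rw [B_add_right ht, B_smul_right ht, B_add_mid ht, B_add_mid ht, B_smul_mid ht,
      B_smul_mid ht, B_swap23 ht q u1 u] at h
    simp only [p2, Polynomial.eval_add, Polynomial.eval_C, Polynomial.eval_mul,
      Polynomial.eval_X, Polynomial.eval_pow]
    linear_combination h

/-- A generalised `4 x 4` minor of the Hessian matrix. -/
noncomputable def gm {K : Type*} [CommRing K] (t : Fin n → Fin n → Fin n → K)
    (a b : Fin 4 → Fin n → K) : MvPolynomial (Fin n) K :=
  (Matrix.of fun i j => linAB t (a i) (b j)).det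

theorem eval₂_gm {K S : Type*} [CommRing K] [CommRing S] (φ : K →+* S)
    (t : Fin n → Fin n → Fin n → K) (a b : Fin 4 → Fin n → K) (x : Fin n → S) :
    eval₂ φ x (gm t a b) = (Matrix.of fun i j => B (tmap φ t) x (fun l => φ (a i l))
      (fun l => φ (b j l))).det := by
  have h := RingHom.map_det (eval₂Hom φ x) (Matrix.of fun i j => linAB t (a i) (b j))
  rw [coe_eval₂Hom] at h
  rw [gm, h]
  congr 1
  ext i j
  simp only [RingHom.mapMatrix_apply, Matrix.map_apply, Matrix.of_apply, coe_eval₂Hom]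
  exact eval₂_linAB φ t (a i) (b j) x

end Pair

end Pool.Agent.MazurT
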