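import Mathlib
import Pool.Agent.MazurT.Rank

/-!
Generic points and the dominance of the residual point map with moving base point.
-/

namespace Pool.Agent.MazurT

open MvPolynomial Pool.Agent.MazurC

section Point

/-- The generic point of an irreducible hypersurface. -/
theorem exists_genericPoint {n : ℕ} {k : Type} [Field k] [CharZero k]
    {F : MvPolynomial (Fin n) k} (hF : Irreducible F) :
    ∃ (Ω : Type) (_ : Field Ω) (_ : CharZero Ω) (φ : k →+* Ω) (P : Fin n → Ω),
      ∀ f : MvPolynomial (Fin n) k, eval₂ φ P f = 0 ↔ F ∣ f := by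
  have hp : (Ideal.span ({F} : Set (MvPolynomial (Fin n) k))).IsPrime :=
    (Ideal.span_singleton_prime hF.ne_zero).2 hF.prime
  let A := MvPolynomial (Fin n) k ⧸ Ideal.span ({F} : Set (MvPolynomial (Fin n) k))
  have : IsDomain A := Ideal.Quotient.isDomain _
  let Ω := FractionRing A
  let ψ : MvPolynomial (Fin n) k →+* Ω := (algebraMap A Ω).comp (Ideal.Quotient.mk _)
  let φ : k →+* Ω := ψ.comp C
  have hc : CharZero Ω := charZero_of_injective_ringHom φ.injective
  refine ⟨Ω, inferInstance, hc, φ, fun i => ψ (X i), fun f => ?_⟩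
  have h1 : eval₂ φ (fun i => ψ (X i)) f = ψ f := by
    have : eval₂Hom φ (fun i => ψ (X i)) = ψ := by
      apply MvPolynomial.ringHom_ext
      · intro c; rw [eval₂Hom_C]; rfl
      · intro i; rw [eval₂Hom_X']
    exact congrArg (fun g => g f) this
  rw [h1]
  show algebraMap A Ω (Ideal.Quotient.mk _ f) = 0 ↔ _
  rw [map_eq_zero_iff _ (IsFractionRing.injective A Ω), Ideal.Quotient.eq_zero_iff_mem,
    Ideal.mem_span_singleton]

end Point

section Newton

variable {n : ℕ} {Ω : Type*} [Field Ω] [CharZero Ω] {t : Fin n → Fin n → Fin n → Ω}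

/-- Curves on the hypersurface, to a given order, in a given tangent direction. -/
theorem exists_newton (ht : Sym t) {P w e : Fin n → Ω} (hP : B t P P P = 0)
    (hw : B t P P w = 0) (he : B t P P e ≠ 0) (D : ℕ) :
    ∃ c : Polynomial Ω, Polynomial.X ^ 2 ∣ c ∧ Polynomial.X ^ D ∣
      B (tmap Polynomial.C t) (cC P + (Polynomial.X : Polynomial Ω) • cC w + c • cC e)
        (cC P + (Polynomial.X : Polynomial Ω) • cC w + c • cC e)
        (cC P + (Polynomial.X : Polynomial Ω) • cC w + c • cC e) := by
  have hT := sym_tmap (Polynomial.C : Ω →+* Polynomial Ω) ht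
  have hBC : ∀ x y z : Fin n → Ω, B (tmap Polynomial.C t) (cC x) (cC y) (cC z)
      = Polynomial.C (B t x y z) := fun x y z => (map_B Polynomial.C x y z).symm
  have base : Polynomial.X ^ 2 ∣
      B (tmap Polynomial.C t) (cC P + (Polynomial.X : Polynomial Ω) • cC w)
        (cC P + (Polynomial.X : Polynomial Ω) • cC w)
        (cC P + (Polynomial.X : Polynomial Ω) • cC w) := by
    have := B_comb3 hT 1 (Polynomial.X : Polynomial Ω) (cC P) (cC w)
    rw [one_smul] at this
    rw [this, hBC, hBC, hBC, hBC, hP, hw, map_zero]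
    refine ⟨3 * Polynomial.C (B t P w w) + Polynomial.X * Polynomial.C (B t w w w), ?_⟩
    ring
  have step : ∀ D, ∃ c : Polynomial Ω, Polynomial.X ^ 2 ∣ c ∧ Polynomial.X ^ (D + 2) ∣
      B (tmap Polynomial.C t) (cC P + (Polynomial.X : Polynomial Ω) • cC w + c • cC e)
        (cC P + (Polynomial.X : Polynomial Ω) • cC w + c • cC e)
        (cC P + (Polynomial.X : Polynomial Ω) • cC w + c • cC e) := by
    intro D
    induction D with
    | zero =>
      refine ⟨0, dvd_zero _, ?_⟩
      rw [zero_smul, add_zero, zero_add]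
      exact base
    | succ D ih =>
      obtain ⟨c, hc2, g, hg⟩ := ih
      set x := cC P + (Polynomial.X : Polynomial Ω) • cC w + c • cC e with hx
      set κ : Ω := g.coeff 0 / (3 * B t P P e) with hκ
      have hx0 : c0 x = P := by
        obtain ⟨c', rfl⟩ := hc2
        rw [hx, c0_add, c0_add, c0_smul, c0_smul, c0_cC, c0_cC]
        simp
      refine ⟨c - Polynomial.C κ * Polynomial.X ^ (D + 2), ?_, ?_⟩
      · exact dvd_sub hc2 (Dvd.dvd.mul_left (pow_dvd_pow _ (by omega)) _)
      · have e1 : cC P + (Polynomial.X : Polynomial Ω) • cC w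
            + (c - Polynomial.C κ * Polynomial.X ^ (D + 2)) • cC e
            = (1 : Polynomial Ω) • x + (-(Polynomial.C κ * Polynomial.X ^ (D + 2))) • cC e := by
          rw [hx, sub_smul, one_smul, neg_smul]
          abel
        rw [e1, B_comb3 hT, hg]
        set y := B (tmap Polynomial.C t) x x (cC e)
        have hy : y.coeff 0 = B t P P e := by rw [B_c0, hx0, c0_cC]
        have h3 : Polynomial.X ∣ g - 3 * Polynomial.C κ * y := by
          rw [Polynomial.X_dvd_iff, Polynomial.coeff_sub, mul_assoc,
            show (3 : Polynomial Ω) = Polynomial.C 3 from (map_ofNat Polynomial.C 3).symm,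
            Polynomial.coeff_C_mul, Polynomial.coeff_C_mul, hy, hκ]
          have h3' : (3 : Ω) ≠ 0 := three_ne_zero
          field_simp
          ring
        obtain ⟨g', hg'⟩ := h3
        set y2 := B (tmap Polynomial.C t) x (cC e) (cC e)
        set y3 := B (tmap Polynomial.C t) (cC e) (cC e) (cC e)
        refine ⟨g' + Polynomial.X ^ (D + 1) * (3 * Polynomial.C κ ^ 2 * y2
          - Polynomial.C κ ^ 3 * Polynomial.X ^ (D + 2) * y3), ?_⟩
        have e2 : g = Polynomial.X * g' + 3 * Polynomial.C κ * y := by rw [← hg']; ring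
        rw [e2]
        ring
  obtain ⟨c, h1, h2⟩ := step D
  exact ⟨c, h1, (pow_dvd_pow _ (by omega)).trans h2⟩

end Newton

end Pool.Agent.MazurT
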