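import Mathlib
import Pool.Agent.MazurT.Generic

/-!
Generic points: the residual point map has nondegenerate values.
-/

namespace Pool.Agent.MazurT

open MvPolynomial Pool.Agent.MazurC

section Basics

variable {n : ℕ}

theorem not_dvd_of_lt' {K : Type*} [Field K] {F g : MvPolynomial (Fin n) K} {d : ℕ}
    (hF : F.IsHomogeneous 3)
    (hF0 : F ≠ 0) (hg : g.IsHomogeneous d) (hg0 : g ≠ 0) (hd : d < 3) : ¬ F ∣ g := by
  rintro ⟨q, rfl⟩
  have hq0 : q ≠ 0 := by rintro rfl; exact hg0 (mul_zero _)
  have h1 := hg.totalDegree hg0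
  rw [totalDegree_mul_of_isDomain hF0 hq0, hF.totalDegree hF0] at h1
  omega

theorem B_basis {M : Type*} [CommRing M] {t : Fin n → Fin n → Fin n → M} (ht : Sym t)
    (a b x : Fin n → M) : B t a b x = ∑ i, x i * B t a b (Pi.single i 1) := by
  have h := B_sum_right ht Finset.univ a b x (fun i => (Pi.single i (1 : M) : Fin n → M))
  rw [← h]
  congr 1
  funext j
  rw [Finset.sum_apply, Finset.sum_eq_single j]
  · simp
  · intro i _ hi
    simp [Pi.single_eq_of_ne (Ne.symm hi)]
  · simp

theorem exists_single_ne {M : Type*} [CommRing M] {t : Fin n → Fin n → Fin n → M} (ht : Sym t)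
    {a b x : Fin n → M} (h : B t a b x ≠ 0) : ∃ i, B t a b (Pi.single i 1) ≠ 0 := by
  by_contra hcon
  push Not at hcon
  apply h
  rw [B_basis ht]
  exact Finset.sum_eq_zero fun i _ => by rw [hcon i, mul_zero]

theorem map_single {M S : Type*} [CommRing M] [CommRing S] (φ : M →+* S) (i : Fin n) :
    (fun j => φ ((Pi.single i 1 : Fin n → M) j)) = Pi.single i 1 := by
  funext j
  by_cases h : j = i
  · subst h; simp
  · simp [Pi.single_eq_of_ne h]

/-- The generic point of the hypersurface is smooth. -/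
theorem exists_smooth {k : Type*} [Field k] [CharZero k] {t : Fin n → Fin n → Fin n → k}
    (ht : Sym t) (hirr : Irreducible (cub t)) :
    ∃ i, ¬ cub t ∣ quadA t (Pi.single i 1) := by
  by_contra hcon
  push Not at hcon
  have h0 : ∀ i, quadA t (Pi.single i 1) = 0 := by
    intro i
    by_contra h
    exact not_dvd_of_lt' (cub_hom t) hirr.ne_zero (quadA_hom t _) h (by norm_num) (hcon i)
  apply hirr.ne_zero
  apply MvPolynomial.funext
  intro x
  rw [map_zero, eval_cub, B_basis ht]
  exact Finset.sum_eq_zero fun i _ => by rw [← eval_quadA, h0 i, map_zero, mul_zero]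

/-- A polynomial in parameters with coefficients in `k[x]`, all whose specialisations at
constant parameters are divisible by `F`, is divisible by `F`. -/
theorem C_dvd_of_forall {k : Type*} [Field k] [Infinite k] {κ : Type*}
    {F : MvPolynomial (Fin n) k} (hF : Irreducible F)
    (H : MvPolynomial κ (MvPolynomial (Fin n) k))
    (h : ∀ w : κ → k, F ∣ eval (fun i => C (w i)) H) : C F ∣ H := by
  have hp : (Ideal.span ({F} : Set (MvPolynomial (Fin n) k))).IsPrime :=
    (Ideal.span_singleton_prime hF.ne_zero).2 hF.prime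
  let A := MvPolynomial (Fin n) k ⧸ Ideal.span ({F} : Set (MvPolynomial (Fin n) k))
  have : IsDomain A := Ideal.Quotient.isDomain _
  let q : MvPolynomial (Fin n) k →+* A := Ideal.Quotient.mk _
  rw [C_dvd_iff_map_hom_eq_zero q F (fun r => by
    rw [Ideal.Quotient.eq_zero_iff_mem, Ideal.mem_span_singleton])]
  have hinj : Function.Injective (q.comp C) := (q.comp C).injective
  refine funext_set (fun _ => Set.range (q.comp C)) (fun _ => Set.infinite_range_of_injective hinj)
    ?_
  intro x hx
  rw [map_zero]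
  choose w hw using fun i => hx i (Set.mem_univ i)
  have h1 : eval x (map q H) = q (eval (fun i => C (w i)) H) := by
    rw [eval_map]
    have h2 := hom_eval₂' (RingHom.id _) q (fun i => C (w i)) H
    rw [RingHom.comp_id] at h2
    have h3 : x = fun i => q (C (w i)) := by
      funext i; exact (hw i).symm
    rw [h3]
    exact h2.symm
  rw [h1]
  exact (Ideal.Quotient.eq_zero_iff_mem).2 (Ideal.mem_span_singleton.2 (h w))

end Basics

section Universal

variable {n : ℕ} {k : Type} [Field k] (t : Fin n → Fin n → Fin n → k)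

/-- Coordinates of the universal point. -/
noncomputable def uXi : Fin n → MvPolynomial (Fin n ⊕ Fin n) (MvPolynomial (Fin n) k) :=
  fun i => C (X i)

/-- The first parameter vector. -/
noncomputable def uW : Fin n → MvPolynomial (Fin n ⊕ Fin n) (MvPolynomial (Fin n) k) :=
  fun i => X (Sum.inl i)

/-- The second parameter vector. -/
noncomputable def uE : Fin n → MvPolynomial (Fin n ⊕ Fin n) (MvPolynomial (Fin n) k) :=
  fun i => X (Sum.inr i)

/-- The first universal expression. -/
noncomputable def H1 : MvPolynomial (Fin n ⊕ Fin n) (MvPolynomial (Fin n) k) :=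
  B (tmap (C.comp C) t) uXi uXi uE * B (tmap (C.comp C) t) uXi
    (tw (tmap (C.comp C) t) uXi uW uE) (tw (tmap (C.comp C) t) uXi uW uE)

/-- The second universal expression. -/
noncomputable def H2 (m : MvPolynomial (Fin n) k) :
    MvPolynomial (Fin n ⊕ Fin n) (MvPolynomial (Fin n) k) :=
  eval₂ (C.comp C) (psi (tmap (C.comp C) t) uXi (tw (tmap (C.comp C) t) uXi uW uE)) m

variable {t}

/-- Specialisation. -/
noncomputable def rho {S : Type*} [CommRing S] (φ : k →+* S) (P w0 e : Fin n → S) :
    MvPolynomial (Fin n ⊕ Fin n) (MvPolynomial (Fin n) k) →+* S :=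
  eval₂Hom (eval₂Hom φ P) (Sum.elim w0 e)

theorem rho_tensor {S : Type*} [CommRing S] (φ : k →+* S) (P w0 e : Fin n → S) :
    (fun i j l => rho φ P w0 e (tmap (C.comp C) t i j l)) = tmap φ t := by
  funext i j l
  simp [rho, tmap]

theorem rho_xi {S : Type*} [CommRing S] (φ : k →+* S) (P w0 e : Fin n → S) :
    (fun i => rho φ P w0 e (uXi i)) = P := by
  funext i
  simp [rho, uXi]

theorem rho_W {S : Type*} [CommRing S] (φ : k →+* S) (P w0 e : Fin n → S) :
    (fun i => rho φ P w0 e (uW i)) = w0 := by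
  funext i
  simp [rho, uW]

theorem rho_E {S : Type*} [CommRing S] (φ : k →+* S) (P w0 e : Fin n → S) :
    (fun i => rho φ P w0 e (uE i)) = e := by
  funext i
  simp [rho, uE]

theorem rho_tw {S : Type*} [CommRing S] (φ : k →+* S) (P w0 e : Fin n → S) :
    (fun i => rho φ P w0 e (tw (tmap (C.comp C) t) uXi uW uE i)) = tw (tmap φ t) P w0 e := by
  rw [map_tw, rho_tensor, rho_xi, rho_W, rho_E]

theorem rho_H1 {S : Type*} [CommRing S] (φ : k →+* S) (P w0 e : Fin n → S) :
    rho φ P w0 e (H1 t) = B (tmap φ t) P P e *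
      B (tmap φ t) P (tw (tmap φ t) P w0 e) (tw (tmap φ t) P w0 e) := by
  rw [H1, map_mul, map_B, map_B, rho_tensor, rho_xi, rho_E, rho_tw]

theorem rho_H2 {S : Type*} [CommRing S] (φ : k →+* S) (P w0 e : Fin n → S)
    (m : MvPolynomial (Fin n) k) :
    rho φ P w0 e (H2 t m) = eval₂ φ (psi (tmap φ t) P (tw (tmap φ t) P w0 e)) m := by
  rw [H2, hom_eval₂', map_psi, rho_tensor, rho_xi, rho_tw]
  congr 1
  ext1 c
  simp [rho]

theorem rho_CF {S : Type*} [CommRing S] (φ : k →+* S) (P w0 e : Fin n → S) :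
    rho φ P w0 e (C (cub t)) = B (tmap φ t) P P P := by
  rw [rho, eval₂Hom_C, coe_eval₂Hom, eval₂_cub]

theorem eval_const {w0 e : Fin n → k} (H : MvPolynomial (Fin n ⊕ Fin n) (MvPolynomial (Fin n) k))
    {S : Type*} [CommRing S] (φ : k →+* S) (Q : Fin n → S) :
    eval₂ φ Q (eval (fun i => C (Sum.elim w0 e i)) H)
      = rho φ Q (fun i => φ (w0 i)) (fun i => φ (e i)) H := by
  have h := hom_eval₂' (RingHom.id (MvPolynomial (Fin n) k)) (eval₂Hom φ Q)
    (fun i => C (Sum.elim w0 e i)) H
  rw [RingHom.comp_id, coe_eval₂Hom] at h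
  have h2 : eval (fun i => C (Sum.elim w0 e i)) H
      = eval₂ (RingHom.id _) (fun i => C (Sum.elim w0 e i)) H := rfl
  rw [h2, h, rho, coe_eval₂Hom]
  congr 1
  funext i
  rcases i with i | i <;> simp

end Universal

section Theta

variable {n : ℕ} {k : Type} [Field k] [CharZero k] {t : Fin n → Fin n → Fin n → k}

theorem exists_generic (ht : Sym t) (hirr : Irreducible (cub t)) (a b : Fin 4 → Fin n → k)
    (hm : ¬ cub t ∣ gm t a b) :
    ∃ w0 e : Fin n → k, ¬ cub t ∣ eval (fun i => C (Sum.elim w0 e i)) (H1 t * H2 t (gm t a b)) := by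
  classical
  obtain ⟨Ω, _, _, φ, P, hP⟩ := exists_genericPoint hirr
  have hT := sym_tmap φ ht
  set τ := tmap φ t with hτ
  have hPP : B τ P P P = 0 := by
    rw [← eval₂_cub, hP]
  obtain ⟨i, hi⟩ := exists_smooth ht hirr
  have he : B τ P P (Pi.single i 1) ≠ 0 := by
    have h1 := (hP (quadA t (Pi.single i 1))).not.2 hi
    rwa [eval₂_quadA, map_single] at h1
  have hdet : (Matrix.of fun i j => B τ P (fun l => φ (a i l)) (fun l => φ (b j l))).det ≠ 0 := by
    have h1 := (hP (gm t a b)).not.2 hm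
    rwa [eval₂_gm] at h1
  obtain ⟨_, u, _, _, hu, _, hb⟩ := exists_pair' hT P P _ _ hdet
  -- the first expression
  have hH1 : ¬ C (cub t) ∣ H1 t := by
    intro h
    have h1 := map_dvd (rho φ P ((B τ P P (Pi.single i 1))⁻¹ • u) (Pi.single i 1)) h
    rw [rho_CF, rho_H1, ← hτ, hPP, zero_dvd_iff] at h1
    have h2 : tw τ P ((B τ P P (Pi.single i 1))⁻¹ • u) (Pi.single i 1) = u := by
      rw [tw, B_smul_right hT, hu, smul_smul, mul_inv_cancel₀ he]
      simp
    rw [h2] at h1
    exact mul_ne_zero he hb h1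
  have hH2 : ¬ C (cub t) ∣ H2 t (gm t a b) := by
    intro h
    apply hm
    set x0 := psi τ P u with hx0
    have hx0P : B τ x0 x0 P ≠ 0 := by
      rw [hx0, B_psi_psi hT P u hu hPP]
      exact mul_ne_zero (by norm_num) (pow_ne_zero _ hb)
    obtain ⟨j, hj⟩ := exists_single_ne hT hx0P
    refine dvd_of_curves φ ht hirr x0 (Pi.single j 1) (by rw [map_single]; exact hj) ?_
    intro z hz D
    set α : Ω := -(B τ P P z) / (6 * (B τ P u u) ^ 2) with hα
    have hp1 : B τ P P (α • u) = 0 := by rw [B_smul_right hT, hu, mul_zero]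
    obtain ⟨c, hc2, hcD⟩ := exists_newton hT hPP hp1 he D
    set pc := cC P + (Polynomial.X : Polynomial Ω) • cC (α • u) + c • cC (Pi.single i 1) with hpc
    obtain ⟨c', hc'⟩ := hc2
    have hc00 : c.coeff 0 = 0 := by
      rw [hc', Polynomial.mul_coeff_zero]; simp
    have hc01 : c.coeff 1 = 0 := by
      rw [hc', Polynomial.mul_coeff_one]
      simp [Polynomial.coeff_X_pow]
    have h0 : c0 pc = P := by
      rw [hpc, c0_add, c0_add, c0_smul, c0_smul, c0_cC, c0_cC, hc00]
      simp
    have h1 : c1 pc = α • u := by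
      rw [hpc, c1_add, c1_add, c1_smul, c1_smul, c0_cC, c0_cC, c1_cC, c1_cC, c1_cC, hc00, hc01]
      simp
    obtain ⟨w0, hw1, hw2⟩ := exists_lift hT hPP hu hb hp1 he hz (by
      rw [B_smul_mid hT, hα]
      field_simp
      ring) pc h0 h1
    refine ⟨_, fun i => congrFun hw1 i, fun i => congrFun hw2 i, ?_, ?_⟩
    · rw [eval₂_cub, ← tmap_tmap, B_psi (sym_tmap _ hT) _ _ (B_tw (sym_tmap _ hT) _ _ _)]
      exact hcD.mul_left _
    · have h2 := map_dvd (rho (Polynomial.C.comp φ) pc w0 (cC (Pi.single i 1))) h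
      rw [rho_CF, rho_H2, ← tmap_tmap] at h2
      exact hcD.trans h2
  have hprime : Prime (C (cub t) : MvPolynomial (Fin n ⊕ Fin n) (MvPolynomial (Fin n) k)) :=
    (prime_C_iff _).2 hirr.prime
  by_contra hcon
  push Not at hcon
  have h3 := C_dvd_of_forall hirr (H1 t * H2 t (gm t a b)) (by
    intro w
    have := hcon (fun i => w (Sum.inl i)) (fun i => w (Sum.inr i))
    have e : (Sum.elim (fun i => w (Sum.inl i)) (fun i => w (Sum.inr i))) = w := by
      funext i; rcases i with i | i <;> rfl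
    rwa [e] at this)
  rcases hprime.dvd_or_dvd h3 with h4 | h4
  · exact hH1 h4
  · exact hH2 h4

end Theta

end Pool.Agent.MazurT
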