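import Mathlib
import Pool.Agent.MazurT.Theta

/-!
Quadratic extensions.
-/

namespace Pool.Agent.MazurT

open MvPolynomial Pool.Agent.MazurC

section Irr

variable {n : ℕ} {K Ω : Type} [Field K] [Field Ω]

theorem totalDegree_map_inj {R S : Type*} [CommRing R] [CommRing S] (φ : R →+* S)
    (h : Function.Injective φ) (p : MvPolynomial (Fin n) R) :
    (map φ p).totalDegree = p.totalDegree := by
  rw [totalDegree, totalDegree, support_map_of_injective _ h]

theorem isUnit_iff_deg {R : Type*} [Field R] {p : MvPolynomial (Fin n) R} (hp : p ≠ 0) :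
    IsUnit p ↔ p.totalDegree = 0 := by
  rw [isUnit_iff_eq_C_of_isReduced]
  constructor
  · rintro ⟨r, _, rfl⟩
    exact totalDegree_C r
  · intro h
    have h1 := (totalDegree_eq_zero_iff_eq_C).1 h
    refine ⟨coeff 0 p, ?_, h1⟩
    rw [isUnit_iff_ne_zero]
    intro h2
    apply hp
    rw [h1, h2, C_0]

/-- A form of odd degree stays irreducible over a quadratic extension. -/
theorem irreducible_of_conj {F : MvPolynomial (Fin n) K} (hF : Irreducible F)
    (h3 : Odd F.totalDegree) (φ : K →+* Ω) (conj : Ω →+* Ω) (hcc : ∀ z, conj (conj z) = z)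
    (hcφ : conj.comp φ = φ) (hfix : ∀ z : Ω, conj z = z → z ∈ φ.range) :
    Irreducible (map φ F) := by
  classical
  have hinj : Function.Injective (map φ : MvPolynomial (Fin n) K → _) :=
    map_injective φ φ.injective
  have hF0 : F ≠ 0 := hF.ne_zero
  have hmF0 : map φ F ≠ 0 := fun h => hF0 (hinj (by rw [h, map_zero]))
  let cj : MvPolynomial (Fin n) Ω →+* MvPolynomial (Fin n) Ω := map conj
  have hcj : ∀ p, cj (cj p) = p := by
    intro p
    show map conj (map conj p) = p
    rw [map_map]
    have : conj.comp conj = RingHom.id Ω := by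
      ext1 z; exact hcc z
    rw [this, map_id]
  have hcjinj : Function.Injective cj := fun p q h => by
    rw [← hcj p, ← hcj q, h]
  have hrange : ∀ p : MvPolynomial (Fin n) Ω, cj p = p → ∃ q, map φ q = p := by
    intro p hp
    have h1 : p ∈ Set.range (map φ : MvPolynomial (Fin n) K →+* _) := by
      rw [mem_range_map_iff_coeffs_subset]
      intro c hc
      obtain ⟨m, _, rfl⟩ := mem_coeffs_iff.1 hc
      have h2 : conj (coeff m p) = coeff m p := by
        conv_rhs => rw [← hp]
        exact (coeff_map conj p m).symm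
      exact hfix _ h2
    exact h1
  have hnorm : ∀ p : MvPolynomial (Fin n) Ω, ∃ q, map φ q = p * cj p := fun p => hrange _ (by
    rw [map_mul, hcj, mul_comm])
  have key : ∀ g h : MvPolynomial (Fin n) Ω, map φ F = g * h → ∀ G0 H0 : MvPolynomial (Fin n) K,
      map φ G0 = g * cj g → map φ H0 = h * cj h → F ^ 2 = G0 * H0 → F ∣ G0 →
      IsUnit g ∨ IsUnit h := by
    intro g h hgh G0 H0 hG0 hH0 hFGH hdvd
    obtain ⟨G1, hG1⟩ := hdvd
    have h1 : F = G1 * H0 := by
      have h2 : F * F = F * (G1 * H0) := by
        rw [← pow_two, hFGH, hG1, mul_assoc]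
      exact mul_left_cancel₀ hF0 h2
    rcases hF.isUnit_or_isUnit h1 with hu | hu
    · exfalso
      have hg0 : g ≠ 0 := fun h0 => hmF0 (by rw [hgh, h0, zero_mul])
      have hcg0 : cj g ≠ 0 := fun h0 => hg0 (hcjinj (by rw [h0, map_zero]))
      have hG10 : G1 ≠ 0 := hu.ne_zero
      have d1 : G0.totalDegree = F.totalDegree := by
        rw [hG1, totalDegree_mul_of_isDomain hF0 hG10, (isUnit_iff_deg hG10).1 hu, add_zero]
      have d2 : G0.totalDegree = g.totalDegree + g.totalDegree := by
        rw [← totalDegree_map_inj φ φ.injective G0, hG0, totalDegree_mul_of_isDomain hg0 hcg0]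
        congr 1
        exact totalDegree_map_inj conj conj.injective g
      rw [d1] at d2
      rw [d2] at h3
      exact (Nat.not_odd_iff_even.2 ⟨_, rfl⟩) h3
    · right
      have h2 : IsUnit (h * cj h) := by
        rw [← hH0]
        exact hu.map (map φ)
      exact isUnit_of_mul_isUnit_left h2
  refine ⟨?_, ?_⟩
  · intro hu
    have h1 := (isUnit_iff_deg hmF0).1 hu
    rw [totalDegree_map_inj φ φ.injective] at h1
    exact hF.not_isUnit ((isUnit_iff_deg hF0).2 h1)
  · intro g h hgh
    obtain ⟨G0, hG0⟩ := hnorm g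
    obtain ⟨H0, hH0⟩ := hnorm h
    have hFGH : F ^ 2 = G0 * H0 := by
      apply hinj
      have hcF : cj (map φ F) = map φ F := by
        show map conj (map φ F) = _
        rw [map_map, hcφ]
      rw [map_mul, hG0, hH0, map_pow]
      calc (map φ F) ^ 2 = map φ F * cj (map φ F) := by rw [hcF, pow_two]
        _ = _ := by rw [hgh, map_mul]; ring
    have hdvd : F ∣ G0 * H0 := by rw [← hFGH, pow_two]; exact dvd_mul_right _ _
    rcases hF.prime.dvd_or_dvd hdvd with h1 | h1
    · exact key g h hgh G0 H0 hG0 hH0 hFGH h1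
    · exact (key h g (by rw [hgh, mul_comm]) H0 G0 hH0 hG0 (by rw [hFGH, mul_comm]) h1).symm

/-- A quadratic extension or the field itself, in which `D` is a square and a form of odd degree
stays irreducible. -/
theorem exists_sqrt [CharZero K] {F : MvPolynomial (Fin n) K} (hF : Irreducible F)
    (h3 : Odd F.totalDegree) (D : K) :
    ∃ (Ω : Type) (_ : Field Ω) (_ : CharZero Ω) (φ : K →+* Ω) (s : Ω), s * s = φ D ∧
      Irreducible (map φ F) := by
  by_cases hD : ∃ r, r * r = D
  · obtain ⟨r, hr⟩ := hD
    refine ⟨K, inferInstance, inferInstance, RingHom.id K, r, hr, ?_⟩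
    rwa [map_id]
  · push Not at hD
    have : Fact (∀ r : K, r ^ 2 ≠ D + 0 * r) := ⟨fun r hr => hD r (by
      rw [pow_two] at hr; rw [hr]; ring)⟩
    refine ⟨QuadraticAlgebra K D 0, inferInstance, inferInstance,
      algebraMap K (QuadraticAlgebra K D 0), QuadraticAlgebra.omega, ?_, ?_⟩
    · rw [QuadraticAlgebra.omega_mul_omega_eq_algebraMap]
      simp
    · refine irreducible_of_conj hF h3 _ (starRingEnd _) (fun z => star_star z) ?_ ?_
      · ext1 c
        show star (algebraMap K (QuadraticAlgebra K D 0) c) = _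
        ext <;> simp
      · intro z hz
        have h1 : (star z).im = z.im := congrArg QuadraticAlgebra.im hz
        have h2 : (star z).im = -z.im := by simp
        rw [h2] at h1
        have h3 : z.im = 0 := by
          have h4 : (2 : K) * z.im = 0 := by linear_combination -h1
          rcases mul_eq_zero.1 h4 with h5 | h5
          · norm_num at h5
          · exact h5
        exact ⟨z.re, by ext <;> simp [h3]⟩

end Irr

end Pool.Agent.MazurT
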