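import Mathlib
import Pool.Agent.MazurT.Quad

/-!
Dominance of the two-step residual point map.
-/

namespace Pool.Agent.MazurT

open MvPolynomial Pool.Agent.MazurC

section G2

variable {n : ℕ}

/-- The two-step residual point map. -/
def G2 {M : Type*} [CommRing M] (t : Fin n → Fin n → Fin n → M) (P w0 e u0 e' : Fin n → M) :
    Fin n → M :=
  psi t (psi t P (tw t P w0 e)) (tw t (psi t P (tw t P w0 e)) u0 e')

theorem map_G2 {M M' : Type*} [CommRing M] [CommRing M'] (φ : M →+* M')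
    (t : Fin n → Fin n → Fin n → M) (P w0 e u0 e' : Fin n → M) :
    (fun i => φ (G2 t P w0 e u0 e' i)) = G2 (fun i j k => φ (t i j k)) (fun i => φ (P i))
      (fun i => φ (w0 i)) (fun i => φ (e i)) (fun i => φ (u0 i)) (fun i => φ (e' i)) := by
  rw [G2, map_psi, map_psi, map_tw, map_tw, map_psi, map_tw, G2]

theorem B_G2 {M : Type*} [CommRing M] {t : Fin n → Fin n → Fin n → M} (ht : Sym t)
    {P : Fin n → M} (hP : B t P P P = 0) (w0 e u0 e' : Fin n → M) :
    B t (G2 t P w0 e u0 e') (G2 t P w0 e u0 e') (G2 t P w0 e u0 e') = 0 := by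
  rw [G2, B_psi ht _ _ (B_tw ht _ _ _), B_psi ht _ _ (B_tw ht _ _ _), hP]
  ring

/-- The condition on a base point. -/
def Good {Ω : Type*} [Field Ω] (t : Fin n → Fin n → Fin n → Ω) (a b : Fin 4 → Fin n → Ω)
    (P : Fin n → Ω) : Prop :=
  B t P P P = 0 ∧ (∃ e, B t P P e ≠ 0) ∧ ∃ w, B t P P w = 0 ∧ B t P w w ≠ 0 ∧
    (Matrix.of fun i j => B t (psi t P w) (a i) (b j)).det ≠ 0

theorem tw_of_mem {Ω : Type*} [Field Ω] {t : Fin n → Fin n → Fin n → Ω} (ht : Sym t)
    {P w e : Fin n → Ω} (hw : B t P P w = 0) (he : B t P P e ≠ 0) :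
    tw t P ((B t P P e)⁻¹ • w) e = w := by
  rw [tw, B_smul_right ht, hw, smul_smul, mul_inv_cancel₀ he]
  simp

theorem Good.exists_smooth_value {Ω : Type*} [Field Ω] [CharZero Ω]
    {t : Fin n → Fin n → Fin n → Ω} (ht : Sym t) {a b : Fin 4 → Fin n → Ω} {P : Fin n → Ω}
    (h : Good t a b P) : ∃ w0 e u0 e' : Fin n → Ω,
      ∃ v, B t (G2 t P w0 e u0 e') (G2 t P w0 e u0 e') v ≠ 0 := by
  obtain ⟨hP, ⟨e, he⟩, w, hw, hb, hdet⟩ := h
  set q := psi t P w with hq
  have hqP : B t q q P ≠ 0 := by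
    rw [hq, B_psi_psi ht P w hw hP]
    exact mul_ne_zero (by norm_num) (pow_ne_zero _ hb)
  have hqq : B t q q q = 0 := by
    rw [hq, B_psi ht P w hw, hP]; ring
  obtain ⟨q', u, _, _, h3, _, h5⟩ := exists_pair' ht P q a b hdet
  refine ⟨(B t P P e)⁻¹ • w, e, (B t q q P)⁻¹ • u, P, q, ?_⟩
  rw [G2, tw_of_mem ht hw he, ← hq, tw_of_mem ht h3 hqP, B_psi_psi ht q u h3 hqq]
  exact mul_ne_zero (by norm_num) (pow_ne_zero _ h5)

theorem G2_dominant {Ω : Type} [Field Ω] [CharZero Ω]
    {t : Fin n → Fin n → Fin n → Ω} (ht : Sym t) (hirr : Irreducible (cub t))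
    {a b : Fin 4 → Fin n → Ω} {P : Fin n → Ω}
    (h : Good t a b P) {f : MvPolynomial (Fin n) Ω}
    (hf : ∀ w0 e u0 e' : Fin n → Polynomial Ω,
      eval₂ Polynomial.C (G2 (tmap Polynomial.C t) (cC P) w0 e u0 e') f = 0) : cub t ∣ f := by
  obtain ⟨hP, ⟨e, he⟩, w, hw, hb, hdet⟩ := h
  set q := psi t P w with hq
  have hqP : B t q q P ≠ 0 := by
    rw [hq, B_psi_psi ht P w hw hP]
    exact mul_ne_zero (by norm_num) (pow_ne_zero _ hb)
  have hqq : B t q q q = 0 := by
    rw [hq, B_psi ht P w hw, hP]; ring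
  obtain ⟨q', u, h1, h2, h3, h4, h5⟩ := exists_pair' ht P q a b hdet
  set x0 := psi t q u with hx0
  have hx0q : B t x0 x0 q ≠ 0 := by
    rw [hx0, B_psi_psi ht q u h3 hqq]
    exact mul_ne_zero (by norm_num) (pow_ne_zero _ h5)
  have hid : tmap (RingHom.id Ω) t = t := rfl
  refine dvd_of_curves (RingHom.id Ω) ht hirr x0 q (by rw [hid]; exact hx0q) ?_
  intro z hz D
  rw [hid] at hz
  rw [RingHom.comp_id]
  set α : Ω := -(B t q q z) / (6 * B t q u u * B t q q' u) with hα
  have hT := sym_tmap (Polynomial.C : Ω →+* Polynomial Ω) ht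
  have z0 : B t P P (0 : Fin n → Ω) = 0 := by simp [B]
  have z1 : B t P (0 : Fin n → Ω) w = 0 := by simp [B]
  obtain ⟨w0, k0, k1⟩ := exists_lift ht hP hw hb z0 he (z := α • q')
    (by rw [B_smul_right ht, ← hq, h2, mul_zero])
    (by rw [B_smul_right ht, h1, z1]; ring) (cC P) (c0_cC P) (c1_cC P)
  set pc := psi (tmap Polynomial.C t) (cC P) (tw (tmap Polynomial.C t) (cC P) w0 (cC e)) with hpc
  obtain ⟨u0, l0, l1⟩ := exists_lift ht hqq h3 h5 (p1 := α • q') (e := P)
    (by rw [B_smul_right ht, h2, mul_zero]) hqP hz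
    (by
      rw [B_smul_mid ht, hα]
      field_simp
      ring) pc k0 k1
  refine ⟨G2 (tmap Polynomial.C t) (cC P) w0 (cC e) u0 (cC P), fun i => congrFun l0 i,
    fun i => congrFun l1 i, ?_, ?_⟩
  · rw [eval₂_cub, B_G2 hT]
    · exact dvd_zero _
    · have : B (tmap Polynomial.C t) (cC P) (cC P) (cC P) = Polynomial.C (B t P P P) :=
        (map_B Polynomial.C P P P).symm
      rw [this, hP, map_zero]
  · rw [hf]
    exact dvd_zero _

end G2

section Comp

variable {n : ℕ} {Ω : Type*} [Field Ω] {t : Fin n → Fin n → Fin n → Ω}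

/-- The coordinates of the third point map as polynomials. -/
noncomputable def phiP (t : Fin n → Fin n → Fin n → Ω) (b : Fin n → Ω) :
    Fin n → MvPolynomial (Fin n) Ω := Phi (tmap C t) (fun i => C (b i)) X

theorem eval₂_phiP {S : Type*} [CommRing S] (φ : Ω →+* S) (b : Fin n → Ω) (x : Fin n → S) :
    (fun i => eval₂ φ x (phiP t b i)) = Phi (tmap φ t) (fun i => φ (b i)) x := by
  have h := map_Phi (t := tmap C t) (eval₂Hom φ x) (fun i => C (b i)) X
  rw [coe_eval₂Hom] at h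
  rw [phiP, h]
  congr 1
  · funext i j k; simp [tmap]
  · funext i; simp
  · funext i; simp

theorem eval₂_cub' {S : Type*} [CommRing S] {R' : Type*} [CommRing R'] (φ : R' →+* S)
    (t : Fin n → Fin n → Fin n → R') (x : Fin n → S) :
    eval₂ φ x (cub t) = B (tmap φ t) x x x := eval₂_cub φ t x

/-- Third point maps are dominant. -/
theorem dvd_of_comp' (ht : Sym t) (hirr : Irreducible (cub t)) {b : Fin n → Ω}
    (hb : B t b b b = 0) (hsm : ∃ w, B t b b w ≠ 0) {d : ℕ} {f : MvPolynomial (Fin n) Ω}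
    (hf : f.IsHomogeneous d) (h : cub t ∣ eval₂ C (phiP t b) f) : cub t ∣ f := by
  have hT := sym_tmap (C : Ω →+* MvPolynomial (Fin n) Ω) ht
  obtain ⟨g, hg⟩ := h
  have hbC : B (tmap C t) (fun i => (C (b i) : MvPolynomial (Fin n) Ω)) (fun i => C (b i))
      (fun i => C (b i)) = 0 := by
    have := map_B (t := t) (C : Ω →+* MvPolynomial (Fin n) Ω) b b b
    rw [show tmap C t = fun i j k => (C (t i j k) : MvPolynomial (Fin n) Ω) from rfl, ← this, hb,
      map_zero]
  set L : MvPolynomial (Fin n) Ω := B (tmap C t) (fun i => C (b i)) (fun i => C (b i)) X with hL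
  have h1 := congrArg (eval₂ C (phiP t b)) hg
  have hid : (eval₂Hom C (phiP t b)).comp C = (C : Ω →+* MvPolynomial (Fin n) Ω) := by
    ext1 c; simp
  have hPP : (fun i => eval₂ C (phiP t b) (phiP t b i)) = fun i => -L ^ 3 * X i := by
    rw [eval₂_phiP, phiP, Phi_Phi hT _ _ hbC]
    funext i
    simp [hL]
  rw [eval₂_eval₂', hid, hPP, eval₂_smul_hom _ hf, eval₂_mul, eval₂_cub, phiP,
    B_Phi' hT _ _ hbC] at h1
  have h2 : B (tmap C t) X X X = cub t := by
    rw [← eval₂_cub, eval₂_eta]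
  rw [eval₂_eta, h2, ← hL] at h1
  have h3 : cub t ∣ (-L ^ 3) ^ d * f := by
    rw [h1]
    exact Dvd.dvd.mul_right (Dvd.dvd.mul_left (dvd_refl _) _) _
  rcases hirr.prime.dvd_or_dvd h3 with h4 | h4
  · exfalso
    have h5 := hirr.prime.dvd_of_dvd_pow h4
    rw [dvd_neg] at h5
    have h6 := hirr.prime.dvd_of_dvd_pow h5
    have hLlin : L = linAB t b b := by
      apply_fun (fun p => p) using fun _ _ h => h
      rw [hL, ← B_swap12 hT, ← B_swap23 hT, ← B_swap12 hT]
      simp only [B, linAB, tmap, map_sum, map_mul, Finset.sum_mul]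
      refine Finset.sum_congr rfl fun i _ => Finset.sum_congr rfl fun j _ =>
        Finset.sum_congr rfl fun k _ => ?_
      ring
    obtain ⟨w, hw⟩ := hsm
    have hL0 : L ≠ 0 := by
      intro h0
      apply hw
      have := eval_linAB t b b w
      rw [← hLlin, h0, map_zero] at this
      rw [B_swap23 ht, B_swap12 ht, ← this]
    rw [hLlin] at h6 hL0
    exact not_dvd_of_lt' (cub_hom t) hirr.ne_zero (linAB_hom t b b) hL0 (by norm_num) h6
  · exact h4

end Comp

section Descent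

variable {n : ℕ} {K Ω : Type} [Field K] [Field Ω]

theorem dvd_of_map_dvd (φ : K →+* Ω) {F f : MvPolynomial (Fin n) K} (h : map φ F ∣ map φ f) :
    F ∣ f := by
  classical
  let _ : Algebra K Ω := φ.toAlgebra
  obtain ⟨g, hg⟩ := h
  obtain ⟨lam, hlam⟩ := LinearMap.exists_leftInverse_of_injective (Algebra.linearMap K Ω)
    (LinearMap.ker_eq_bot.2 φ.injective)
  have hlam1 : ∀ c : K, lam (φ c) = c := fun c => by
    have := congrArg (fun l => l c) hlam
    exact this
  have hlam2 : ∀ (c : K) (z : Ω), lam (φ c * z) = c * lam z := fun c z => by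
    have : φ c * z = c • z := (Algebra.smul_def c z).symm
    rw [this, map_smul, smul_eq_mul]
  let g' : MvPolynomial (Fin n) K := ∑ m ∈ g.support, monomial m (lam (coeff m g))
  have hg' : ∀ m, coeff m g' = lam (coeff m g) := by
    intro m
    simp only [g', coeff_sum, coeff_monomial]
    rw [Finset.sum_ite_eq']
    by_cases hm : m ∈ g.support
    · rw [if_pos hm]
    · rw [if_neg hm, notMem_support_iff.1 hm, map_zero]
  refine ⟨g', ?_⟩
  ext m
  have h1 := congrArg (coeff m) hg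
  rw [coeff_map, coeff_mul] at h1
  rw [coeff_mul, ← hlam1 (coeff m f), h1, map_sum]
  refine Finset.sum_congr rfl fun p _ => ?_
  rw [coeff_map, hlam2, hg']

end Descent

end Pool.Agent.MazurT
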