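import Mathlib
import Pool.Agent.MazurT.Dom2

/-!
Rational points from conjugate quadratic points.
-/

namespace Pool.Agent.MazurT

open MvPolynomial Pool.Agent.MazurC

section QA

variable {T T' : Type*} [CommRing T] [CommRing T']

/-- Evaluation of a quadratic algebra at a square root. -/
def rootHom {D : T} (s : T) (hs : s * s = D) : QuadraticAlgebra T D 0 →+* T where
  toFun z := z.re + s * z.im
  map_one' := by simp [QuadraticAlgebra.re_one, QuadraticAlgebra.im_one]
  map_zero' := by simp
  map_add' z w := by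
    simp only [QuadraticAlgebra.re_add, QuadraticAlgebra.im_add]
    ring
  map_mul' z w := by
    simp only [QuadraticAlgebra.re_mul, QuadraticAlgebra.im_mul, ← hs]
    ring

/-- Functoriality of the quadratic algebra. -/
def qmap (ψ : T →+* T') {D : T} {D' : T'} (h : ψ D = D') :
    QuadraticAlgebra T D 0 →+* QuadraticAlgebra T' D' 0 where
  toFun z := ⟨ψ z.re, ψ z.im⟩
  map_one' := by ext <;> simp [QuadraticAlgebra.re_one, QuadraticAlgebra.im_one]
  map_zero' := by ext <;> simp
  map_add' z w := by ext <;> simp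
  map_mul' z w := by
    ext
    · simp only [QuadraticAlgebra.re_mul, ← h, map_add, map_mul]
    · simp only [QuadraticAlgebra.im_mul, map_add, map_mul, map_zero]

variable {n : ℕ}

/-- The quadratic point `y + ω R`. -/
def SP (D : T) (R y : Fin n → T) : Fin n → QuadraticAlgebra T D 0 := fun i => ⟨y i, R i⟩

/-- The third point on the line through a point and its conjugate. -/
def xS (t : Fin n → Fin n → Fin n → T) (D : T) (R y : Fin n → T)
    (A : Fin 4 → Fin n → QuadraticAlgebra T D 0) : Fin n → QuadraticAlgebra T D 0 :=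
  Phi (tmap (algebraMap T (QuadraticAlgebra T D 0)) t)
    (G2 (tmap (algebraMap T (QuadraticAlgebra T D 0)) t) (SP D R y) (A 0) (A 1) (A 2) (A 3))
    (fun i => star (G2 (tmap (algebraMap T (QuadraticAlgebra T D 0)) t) (SP D R y) (A 0) (A 1)
      (A 2) (A 3) i))

/-- The rational third point. -/
def outv (t : Fin n → Fin n → Fin n → T) (D : T) (R y : Fin n → T)
    (A : Fin 4 → Fin n → QuadraticAlgebra T D 0) : Fin n → T := fun i => (xS t D R y A i).im

theorem star_xS (t : Fin n → Fin n → Fin n → T) (D : T) (R y : Fin n → T)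
    (A : Fin 4 → Fin n → QuadraticAlgebra T D 0) (i : Fin n) :
    star (xS t D R y A i) = -xS t D R y A i := by
  set tS := tmap (algebraMap T (QuadraticAlgebra T D 0)) t with htS
  set g := G2 tS (SP D R y) (A 0) (A 1) (A 2) (A 3) with hg
  have h := congrFun (map_Phi (t := tS) (starRingEnd (QuadraticAlgebra T D 0)) g
    (fun i => star (g i))) i
  have e1 : (fun i j k => (starRingEnd (QuadraticAlgebra T D 0)) (tS i j k)) = tS := by
    funext i j k
    show star (algebraMap T (QuadraticAlgebra T D 0) (t i j k)) = algebraMap T _ (t i j k)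
    ext <;> simp
  have e2 : (fun i => (starRingEnd (QuadraticAlgebra T D 0)) (star (g i))) = g := by
    funext i
    show star (star (g i)) = g i
    exact star_star _
  rw [e1, e2] at h
  have h2 : star (xS t D R y A i) = Phi tS (fun i => star (g i)) g i := h
  rw [h2, Phi_swap]
  rfl

theorem re_xS [IsDomain T] [CharZero T] (t : Fin n → Fin n → Fin n → T) (D : T) (R y : Fin n → T)
    (A : Fin 4 → Fin n → QuadraticAlgebra T D 0) (i : Fin n) : (xS t D R y A i).re = 0 := by
  have h := congrArg QuadraticAlgebra.re (star_xS t D R y A i)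
  rw [QuadraticAlgebra.re_neg, QuadraticAlgebra.re_star] at h
  have h2 : (2 : T) * (xS t D R y A i).re = 0 := by linear_combination h
  rcases mul_eq_zero.1 h2 with h3 | h3
  · norm_num at h3
  · exact h3

theorem rootHom_star {D : T} (s : T) (hs : s * s = D) (z : QuadraticAlgebra T D 0) :
    rootHom s hs (star z) = rootHom (-s) (by rw [neg_mul_neg, hs]) z := by
  simp [rootHom]

theorem outv_root [IsDomain T] [CharZero T] (t : Fin n → Fin n → Fin n → T) {D : T}
    (R y : Fin n → T) (A : Fin 4 → Fin n → QuadraticAlgebra T D 0) (s : T) (hs : s * s = D) :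
    (fun i => s * outv t D R y A i) = Phi t
      (G2 t (fun i => y i + s * R i) (fun i => rootHom s hs (A 0 i))
        (fun i => rootHom s hs (A 1 i)) (fun i => rootHom s hs (A 2 i))
        (fun i => rootHom s hs (A 3 i)))
      (G2 t (fun i => y i + -s * R i) (fun i => rootHom (-s) (by rw [neg_mul_neg, hs]) (A 0 i))
        (fun i => rootHom (-s) (by rw [neg_mul_neg, hs]) (A 1 i))
        (fun i => rootHom (-s) (by rw [neg_mul_neg, hs]) (A 2 i))
        (fun i => rootHom (-s) (by rw [neg_mul_neg, hs]) (A 3 i))) := by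
  set tS := tmap (algebraMap T (QuadraticAlgebra T D 0)) t with htS
  have e1 : ∀ s' (hs' : s' * s' = D), (fun i j k => rootHom s' hs' (tS i j k)) = t := by
    intro s' hs'
    funext i j k
    simp [htS, tmap, rootHom]
  have e2 : ∀ s' (hs' : s' * s' = D), (fun i => rootHom s' hs' (SP D R y i))
      = fun i => y i + s' * R i := by
    intro s' hs'
    funext i
    simp [SP, rootHom]
  have h1 : (fun i => s * outv t D R y A i) = fun i => rootHom s hs (xS t D R y A i) := by
    funext i
    show s * (xS t D R y A i).im = (xS t D R y A i).re + s * (xS t D R y A i).im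
    rw [re_xS, zero_add]
  rw [h1]
  have hneg : -s * -s = D := by rw [neg_mul_neg, hs]
  have h2 := map_Phi (t := tS) (rootHom s hs) (G2 tS (SP D R y) (A 0) (A 1) (A 2) (A 3))
    (fun i => star (G2 tS (SP D R y) (A 0) (A 1) (A 2) (A 3) i))
  rw [e1 s hs, map_G2, e1 s hs, e2 s hs] at h2
  have h3 : (fun i => rootHom s hs (star (G2 tS (SP D R y) (A 0) (A 1) (A 2) (A 3) i)))
      = fun i => rootHom (-s) hneg (G2 tS (SP D R y) (A 0) (A 1) (A 2) (A 3) i) := by
    funext i
    exact rootHom_star s hs _
  rw [h3, map_G2, e1 (-s) hneg, e2 (-s) hneg] at h2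
  exact h2

theorem map_outv (ψ : T →+* T') {D : T} {D' : T'} (h : ψ D = D')
    (t : Fin n → Fin n → Fin n → T) (R y : Fin n → T)
    (A : Fin 4 → Fin n → QuadraticAlgebra T D 0) (i : Fin n) :
    ψ (outv t D R y A i) = outv (tmap ψ t) D' (fun i => ψ (R i)) (fun i => ψ (y i))
      (fun j i => qmap ψ h (A j i)) i := by
  set tS := tmap (algebraMap T (QuadraticAlgebra T D 0)) t with htS
  have e1 : (fun i j k => qmap ψ h (tS i j k))
      = tmap (algebraMap T' (QuadraticAlgebra T' D' 0)) (tmap ψ t) := by
    funext i j k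
    show qmap ψ h (algebraMap T _ (t i j k)) = algebraMap T' _ (ψ (t i j k))
    ext <;> simp [qmap]
  have e2 : (fun i => qmap ψ h (SP D R y i)) = SP D' (fun i => ψ (R i)) (fun i => ψ (y i)) := by
    funext i
    rfl
  have h2 := map_Phi (t := tS) (qmap ψ h) (G2 tS (SP D R y) (A 0) (A 1) (A 2) (A 3))
    (fun i => star (G2 tS (SP D R y) (A 0) (A 1) (A 2) (A 3) i))
  have h3 : (fun i => qmap ψ h (star (G2 tS (SP D R y) (A 0) (A 1) (A 2) (A 3) i)))
      = fun i => star (qmap ψ h (G2 tS (SP D R y) (A 0) (A 1) (A 2) (A 3) i)) := by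
    funext i
    ext <;> simp [qmap]
  have h4 := map_G2 (qmap ψ h) tS (SP D R y) (A 0) (A 1) (A 2) (A 3)
  rw [e1, e2] at h4
  have h5 : ∀ i, qmap ψ h (G2 tS (SP D R y) (A 0) (A 1) (A 2) (A 3) i) = _ :=
    fun i => congrFun h4 i
  rw [h3, e1] at h2
  simp only [h5] at h2
  exact congrArg QuadraticAlgebra.im (congrFun h2 i)

end QA

end Pool.Agent.MazurT
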