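import Mathlib
import Pool.Agent.MazurT.Univ

/-!
A dominant family of rational points on a cubic hypersurface with a smooth rational point.
-/

namespace Pool.Agent.MazurT

open MvPolynomial Pool.Agent.MazurC

section Universal

variable {n : ℕ} {K : Type} [Field K]

/-- The universal parameters. -/
noncomputable def uA (D : K) : Fin 4 → Fin n →
    QuadraticAlgebra (MvPolynomial (Fin 4 × Fin n × Bool) K) (C D) 0 :=
  fun j i => ⟨X (j, i, false), X (j, i, true)⟩

/-- The universal rational point. -/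
noncomputable def outP (t : Fin n → Fin n → Fin n → K) (D : K) (R y : Fin n → K) :
    Fin n → MvPolynomial (Fin 4 × Fin n × Bool) K :=
  outv (tmap C t) (C D) (fun i => C (R i)) (fun i => C (y i)) (uA D)

theorem eval₂_outP {T : Type*} [CommRing T] (ψ : K →+* T) (ρ : Fin 4 × Fin n × Bool → T)
    (t : Fin n → Fin n → Fin n → K) (D : K) (R y : Fin n → K) (i : Fin n) :
    eval₂ ψ ρ (outP t D R y i) = outv (tmap ψ t) (ψ D) (fun i => ψ (R i)) (fun i => ψ (y i))
      (fun j i => ⟨ρ (j, i, false), ρ (j, i, true)⟩) i := by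
  have h := map_outv (eval₂Hom ψ ρ) (D := C D) (D' := ψ D) (eval₂Hom_C ψ ρ D) (tmap C t)
    (fun i => C (R i)) (fun i => C (y i)) (uA D) i
  rw [coe_eval₂Hom] at h
  rw [outP, h]
  have e1 : tmap (eval₂Hom ψ ρ) (tmap C t) = tmap ψ t := by
    funext i j k
    simp [tmap]
  have e2 : (fun i => eval₂ ψ ρ (C (R i))) = fun i => ψ (R i) := by
    funext i; simp
  have e3 : (fun i => eval₂ ψ ρ (C (y i))) = fun i => ψ (y i) := by
    funext i; simp
  have e4 : (fun (j : Fin 4) (i : Fin n) => qmap (eval₂Hom ψ ρ) (eval₂Hom_C ψ ρ D) (uA D j i))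
      = fun j i => (⟨ρ (j, i, false), ρ (j, i, true)⟩ : QuadraticAlgebra T (ψ D) 0) := by
    funext j i
    simp [qmap, uA]
  rw [e1, e2, e3, e4]

end Universal

section Param

variable {n : ℕ} {K : Type} [Field K] [CharZero K] {t : Fin n → Fin n → Fin n → K}

/-- A family of rational points, polynomial in parameters, that is dense in the hypersurface. -/
structure Param (t : Fin n → Fin n → Fin n → K) (κ : Type) where
  G : Fin n → MvPolynomial κ K
  zero : ∀ ρ : κ → K, B t (fun i => eval ρ (G i)) (fun i => eval ρ (G i))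
    (fun i => eval ρ (G i)) = 0
  dom : ∀ (d : ℕ) (f : MvPolynomial (Fin n) K), f.IsHomogeneous d → eval₂ C G f = 0 → cub t ∣ f

theorem natDegree_shift_ne (ht : Sym t) {R : Fin n → K} (x : Fin n → K)
    (hx : B t x x R ≠ 0) : (shift R (cub t)).natDegree ≠ 0 := by
  intro h0
  have h1 := Polynomial.eq_C_of_natDegree_eq_zero h0
  have h2 := eval₂_shift (Polynomial.C : K →+* Polynomial K)
    (fun i => Polynomial.C (x i)) Polynomial.X R (cub t)
  rw [h1, Polynomial.eval₂_C, coe_eval₂Hom, eval₂_cub] at h2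
  have h3 := congrArg (fun p => Polynomial.coeff p 1) h2
  rw [coeff_one_B] at h3
  have e0 : (fun i => (Polynomial.C (x i) + Polynomial.C (R i) *
      Polynomial.X).coeff 0) = x := by
    funext i; simp
  have e1 : (fun i => (Polynomial.C (x i) + Polynomial.C (R i) *
      Polynomial.X).coeff 1) = R := by
    funext i
    have : (Polynomial.C (x i)).coeff 1 = 0 := Polynomial.coeff_C_succ
    rw [Polynomial.coeff_add, this, Polynomial.coeff_C_mul,
      Polynomial.coeff_X_one, mul_one, zero_add]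
  rw [e0, e1] at h3
  have e2 : eval₂ (Polynomial.C : K →+* Polynomial K) (fun i => Polynomial.C (x i))
      ((shift R (cub t)).coeff 0) = Polynomial.C (eval x ((shift R (cub t)).coeff 0)) := by
    have := hom_eval₂' (RingHom.id K) (Polynomial.C : K →+* Polynomial K) x
      ((shift R (cub t)).coeff 0)
    rw [RingHom.comp_id] at this
    exact this.symm
  rw [e2, Polynomial.coeff_C_succ] at h3
  rw [B_swap12 ht _ x x, B_swap23 ht x _ x] at h3
  have h4 : 3 * B t x x R = 0 := by
    rw [h3]; ring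
  rcases mul_eq_zero.1 h4 with h5 | h5
  · norm_num at h5
  · exact hx h5

theorem exists_eval_ne {κ : Type} {p : MvPolynomial κ K} (hp : p ≠ 0) : ∃ x, eval x p ≠ 0 := by
  by_contra hcon
  push Not at hcon
  exact hp (MvPolynomial.funext fun x => by rw [hcon x, map_zero])

omit [CharZero K] in
/-- If `f` vanishes on the universal rational point then it vanishes at all third points of
pairs of points of the two conjugate families. -/
theorem vanish_T {T : Type*} [CommRing T] [IsDomain T] [CharZero T] (ψ : K →+* T) {D : K}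
    (s h2 hs2 : T) (hs : s * s = ψ D) (h2e : h2 + h2 = 1) (hs2e : s * hs2 = h2)
    (R y : Fin n → K) {d : ℕ} {f : MvPolynomial (Fin n) K} (hf : f.IsHomogeneous d)
    (hf0 : eval₂ C (outP t D R y) f = 0) (a1 a2 : Fin 4 → Fin n → T) :
    eval₂ ψ (Phi (tmap ψ t)
      (G2 (tmap ψ t) (fun i => ψ (y i) + s * ψ (R i)) (a1 0) (a1 1) (a1 2) (a1 3))
      (G2 (tmap ψ t) (fun i => ψ (y i) + -s * ψ (R i)) (a2 0) (a2 1) (a2 2) (a2 3))) f = 0 := by
  let ρ : Fin 4 × Fin n × Bool → T := fun p => if p.2.2 then hs2 * (a1 p.1 p.2.1 - a2 p.1 p.2.1)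
    else h2 * (a1 p.1 p.2.1 + a2 p.1 p.2.1)
  let AA : Fin 4 → Fin n → QuadraticAlgebra T (ψ D) 0 :=
    fun j i => ⟨ρ (j, i, false), ρ (j, i, true)⟩
  have hroot1 : ∀ j, (fun i => rootHom s hs (AA j i)) = a1 j := by
    intro j
    funext i
    show h2 * (a1 j i + a2 j i) + s * (hs2 * (a1 j i - a2 j i)) = a1 j i
    linear_combination (a1 j i - a2 j i) * hs2e + (a1 j i) * h2e
  have hneg : -s * -s = ψ D := by rw [neg_mul_neg, hs]
  have hroot2 : ∀ j, (fun i => rootHom (-s) hneg (AA j i)) = a2 j := by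
    intro j
    funext i
    show h2 * (a1 j i + a2 j i) + -s * (hs2 * (a1 j i - a2 j i)) = a2 j i
    linear_combination -(a1 j i - a2 j i) * hs2e + (a2 j i) * h2e
  have h2' := outv_root (tmap ψ t) (fun i => ψ (R i)) (fun i => ψ (y i)) AA s hs
  rw [hroot1, hroot1, hroot1, hroot1, hroot2, hroot2, hroot2, hroot2] at h2'
  rw [← h2', eval₂_smul_hom ψ hf]
  have e1 := congrArg (eval₂Hom ψ ρ) hf0
  rw [map_zero, hom_eval₂'] at e1
  have e2 : (eval₂Hom ψ ρ).comp C = ψ := by
    ext1 c; simp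
  rw [e2] at e1
  have e3 : (fun i => (eval₂Hom ψ ρ) (outP t D R y i))
      = outv (tmap ψ t) (ψ D) (fun i => ψ (R i)) (fun i => ψ (y i)) AA := by
    funext i
    exact eval₂_outP ψ ρ t D R y i
  rw [e3] at e1
  have e4 : eval₂ ψ (fun i => outv (tmap ψ t) (ψ D) (fun i => ψ (R i)) (fun i => ψ (y i)) AA i) f
      = 0 := e1
  rw [e4, mul_zero]

/-- The polynomial `f ∘ Phi b` at a curve. -/
theorem vanish_curve {Ω : Type} [Field Ω] [CharZero Ω] (φ : K →+* Ω) {D : K}
    {s : Ω} (hs : s * s = φ D) (hs0 : s ≠ 0)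
    (R y : Fin n → K) {d : ℕ} {f : MvPolynomial (Fin n) K} (hf : f.IsHomogeneous d)
    (hf0 : eval₂ C (outP t D R y) f = 0) (a1 : Fin 4 → Fin n → Polynomial Ω)
    (a2 : Fin 4 → Fin n → Ω) :
    eval₂ (Polynomial.C : Ω →+* Polynomial Ω) (G2 (tmap Polynomial.C (tmap φ t))
      (cC fun i => φ (y i) + s * φ (R i)) (a1 0) (a1 1) (a1 2) (a1 3))
      (eval₂ C (phiP (tmap φ t) (G2 (tmap φ t) (fun i => φ (y i) + -s * φ (R i)) (a2 0) (a2 1)
        (a2 2) (a2 3))) (map φ f)) = 0 := by
  have hC : ∀ z : Ω, (Polynomial.C z : Polynomial Ω) = Polynomial.C z := fun _ => rfl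
  have h1 := vanish_T (t := t) ((Polynomial.C : Ω →+* Polynomial Ω).comp φ)
    (Polynomial.C s) (Polynomial.C (1 / 2)) (Polynomial.C (1 / (2 * s)))
    (by rw [← Polynomial.C_mul, hs]; rfl)
    (by
      rw [← Polynomial.C_add, ← Polynomial.C_1]
      congr 1
      norm_num)
    (by
      rw [← Polynomial.C_mul]
      congr 1
      field_simp) R y hf hf0 a1 (fun j => cC (a2 j))
  have hP1 : (fun i => ((Polynomial.C : Ω →+* Polynomial Ω).comp φ) (y i) + Polynomial.C s *
      ((Polynomial.C : Ω →+* Polynomial Ω).comp φ) (R i)) = cC fun i => φ (y i) + s * φ (R i) := by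
    funext i
    simp [cC]
  have hP2 : (fun i => ((Polynomial.C : Ω →+* Polynomial Ω).comp φ) (y i) + -Polynomial.C s *
      ((Polynomial.C : Ω →+* Polynomial Ω).comp φ) (R i))
      = cC fun i => φ (y i) + -s * φ (R i) := by
    funext i
    simp [cC]
  rw [hP1, hP2, ← tmap_tmap] at h1
  have hg2 : G2 (tmap (Polynomial.C : Ω →+* Polynomial Ω) (tmap φ t))
      (cC (fun i => φ (y i) + -s * φ (R i))) (cC (a2 0)) (cC (a2 1)) (cC (a2 2)) (cC (a2 3))
        = cC (G2 (tmap φ t) (fun i => φ (y i) + -s * φ (R i)) (a2 0) (a2 1) (a2 2) (a2 3)) :=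
    (map_G2 (Polynomial.C : Ω →+* Polynomial Ω) (tmap φ t) (fun i => φ (y i) + -s * φ (R i))
      (a2 0) (a2 1) (a2 2) (a2 3)).symm
  rw [hg2] at h1
  set g1 := G2 (tmap (Polynomial.C : Ω →+* Polynomial Ω) (tmap φ t))
      (cC fun i => φ (y i) + s * φ (R i)) (a1 0) (a1 1) (a1 2) (a1 3)
  set b0 := G2 (tmap φ t) (fun i => φ (y i) + -s * φ (R i)) (a2 0) (a2 1) (a2 2) (a2 3)
  have h5 : eval₂ (Polynomial.C : Ω →+* Polynomial Ω) g1 (eval₂ C (phiP (tmap φ t) b0) (map φ f))
      = eval₂ ((Polynomial.C : Ω →+* Polynomial Ω).comp φ)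
        (Phi (tmap (Polynomial.C : Ω →+* Polynomial Ω) (tmap φ t)) (cC b0) g1) f := by
    rw [eval₂_eval₂', eval₂_phiP, eval₂_map]
    congr 1
    ext1 c
    simp
  rw [h5, Phi_swap]
  have h6 : -Phi (tmap (Polynomial.C : Ω →+* Polynomial Ω) (tmap φ t)) g1 (cC b0)
      = fun i => (-1) * Phi (tmap (Polynomial.C : Ω →+* Polynomial Ω) (tmap φ t)) g1 (cC b0) i := by
    funext i
    simp
  rw [h6, eval₂_smul_hom _ hf]
  have h7 : eval₂ ((Polynomial.C : Ω →+* Polynomial Ω).comp φ)
      (fun i => Phi (tmap (Polynomial.C : Ω →+* Polynomial Ω) (tmap φ t)) g1 (cC b0) i) f = 0 := h1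
  rw [h7, mul_zero]

theorem exists_param (ht : Sym t) (hirr : Irreducible (cub t)) {R : Fin n → K}
    (hR : B t R R R = 0) (hRs : ∃ w, B t R R w ≠ 0) (a b : Fin 4 → Fin n → K)
    (hm : ¬ cub t ∣ gm t a b) : Nonempty (Param t (Fin 4 × Fin n × Bool)) := by
  classical
  obtain ⟨w0, e, hh⟩ := exists_generic ht hirr a b hm
  set h : MvPolynomial (Fin n) K := eval (fun i => C (Sum.elim w0 e i)) (H1 t * H2 t (gm t a b))
    with hdef
  -- a vector with `B x x R ≠ 0`
  obtain ⟨x1, hx1⟩ : ∃ x, B t x x R ≠ 0 := by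
    obtain ⟨w, hw⟩ := hRs
    by_contra hcon
    push Not at hcon
    have k1 := hcon (R + w)
    have k2 := hcon w
    rw [B_add_left, B_add_mid ht, B_add_mid ht, hR, k2, B_swap23 ht R w R, B_swap12 ht w R R,
      B_swap23 ht R w R] at k1
    apply hw
    have : (2 : K) * B t R R w = 0 := by linear_combination k1
    rcases mul_eq_zero.1 this with h5 | h5
    · norm_num at h5
    · exact h5
  obtain ⟨r, hr0, ra, rb, hr⟩ := exists_elim R hirr (natDegree_shift_ne ht x1 hx1) hh
  -- nonvanishing conditions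
  have hA0 : linAB t R R ≠ 0 := by
    intro h0
    obtain ⟨w, hw⟩ := hRs
    apply hw
    rw [B_swap23 ht, B_swap12 ht, ← eval_linAB, h0, map_zero]
  have hQ0 : quadA t R ≠ 0 := by
    intro h0
    apply hx1
    rw [← eval_quadA, h0, map_zero]
  have hD0 : C 3 * quadA t R ^ 2 - C 4 * linAB t R R * cub t ≠ 0 := by
    intro h0
    have h1 : cub t ∣ C 3 * quadA t R ^ 2 := by
      refine ⟨C 4 * linAB t R R, ?_⟩
      linear_combination h0
    rcases hirr.prime.dvd_or_dvd h1 with h2 | h2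
    · have h3 : IsUnit (C 3 : MvPolynomial (Fin n) K) :=
        (isUnit_iff_ne_zero.2 (by norm_num : (3 : K) ≠ 0)).map C
      exact hirr.not_isUnit (isUnit_of_dvd_unit h2 h3)
    · exact not_dvd_of_lt' (cub_hom t) hirr.ne_zero (quadA_hom t R) hQ0 (by norm_num)
        (hirr.prime.dvd_of_dvd_pow h2)
  obtain ⟨y0, hy0⟩ := exists_eval_ne (mul_ne_zero (mul_ne_zero hr0 hA0) hD0)
  rw [map_mul, map_mul] at hy0
  have hry : eval y0 r ≠ 0 := left_ne_zero_of_mul (left_ne_zero_of_mul hy0)
  have hAy : B t R R y0 ≠ 0 := by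
    have := right_ne_zero_of_mul (left_ne_zero_of_mul hy0)
    rw [eval_linAB] at this
    rw [B_swap23 ht, B_swap12 ht]
    exact this
  have hDy : 3 * (B t R y0 y0) ^ 2 - 4 * B t R R y0 * B t y0 y0 y0 ≠ 0 := by
    have := right_ne_zero_of_mul hy0
    rw [map_sub, map_mul, map_mul, map_mul, map_pow, eval_C, eval_C, eval_quadA, eval_linAB,
      eval_cub] at this
    have e1 : B t y0 R R = B t R R y0 := by rw [B_swap12 ht, B_swap23 ht]
    have e2 : B t y0 y0 R = B t R y0 y0 := by rw [B_swap23 ht, B_swap12 ht]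
    rwa [e1, e2] at this
  -- completing the square
  set A := B t R R y0 with hA
  set c : K := B t R y0 y0 / (2 * A) with hc
  set y : Fin n → K := y0 + (-c) • R with hy
  have hyR : B t R R y = A := by
    rw [hy, B_add_right ht, B_smul_right ht, hR]; ring
  have hyy : B t R y y = 0 := by
    have e1 : B t R R y0 = A := rfl
    rw [hy, B_add_right ht, B_add_mid ht, B_smul_right ht, B_smul_mid ht, B_add_mid ht,
      B_smul_mid ht, hR, B_swap23 ht R y0 R, e1, hc]
    field_simp
    ring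
  set D : K := -(B t y y y) / (3 * A) with hD
  have hDne : D ≠ 0 := by
    have e1 : B t y y y = B t y0 y0 y0 - 3 * (B t R y0 y0) ^ 2 / (4 * A) := by
      have := B_comb3 ht 1 (-c) y0 R
      rw [one_smul, ← hy, hR] at this
      have e2 : B t y0 y0 R = B t R y0 y0 := by rw [B_swap23 ht, B_swap12 ht]
      have e3 : B t y0 R R = A := by rw [hA, B_swap12 ht, B_swap23 ht]
      rw [this, e2, e3, hc]
      field_simp
      ring
    intro h0
    apply hDy
    rw [hD, div_eq_zero_iff] at h0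
    rcases h0 with h0 | h0
    · rw [e1] at h0
      field_simp at h0
      linear_combination h0
    · exact absurd h0 (mul_ne_zero (by norm_num) hAy)
  have hodd : Odd (cub t).totalDegree := by
    rw [(cub_hom t).totalDegree hirr.ne_zero]; decide
  obtain ⟨Ω, _, _, φ, s, hs, hirrΩ⟩ := exists_sqrt hirr hodd D
  rw [map_cub] at hirrΩ
  have hT := sym_tmap φ ht
  set τ := tmap φ t with hτ
  have hs0 : s ≠ 0 := by
    rintro rfl
    rw [mul_zero] at hs
    exact hDne ((map_eq_zero φ).1 hs.symm)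
  have hφB : ∀ x y z : Fin n → K, B τ (fun i => φ (x i)) (fun i => φ (y i)) (fun i => φ (z i))
      = φ (B t x y z) := fun x y z => (map_B φ x y z).symm
  have hgood : ∀ s' : Ω, s' * s' = φ D →
      Good τ (fun j i => φ (a j i)) (fun j i => φ (b j i)) (fun i => φ (y i) + s' * φ (R i)) := by
    intro s' hs'
    set P : Fin n → Ω := fun i => φ (y i) + s' * φ (R i) with hP
    have hPc : P = (1 : Ω) • (fun i => φ (y i)) + s' • (fun i => φ (R i)) := by
      funext i; simp [hP]
    have hPP : B τ P P P = 0 := by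
      rw [hPc, B_comb3 hT, hφB, hφB, hφB, hφB, hR]
      have e2 : B t y y R = 0 := by rw [B_swap23 ht, B_swap12 ht, hyy]
      have e3 : B t y R R = A := by rw [B_swap12 ht, B_swap23 ht, hyR]
      rw [e2, e3, map_zero]
      have e4 : B t y y y = -(3 * A * D) := by
        rw [hD]; field_simp
      rw [e4, map_neg, map_mul, map_mul, map_ofNat, ← hs']
      ring
    have hrP : φ (eval y0 r) = eval₂ φ P (h) * Polynomial.eval₂ (eval₂Hom φ (fun i => φ (y0 i)))
        (s' - φ c) rb := by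
      have h1 := congrArg (Polynomial.eval₂ (eval₂Hom φ (fun i => φ (y0 i))) (s' - φ c)) hr
      rw [Polynomial.eval₂_C, Polynomial.eval₂_add, Polynomial.eval₂_mul, Polynomial.eval₂_mul,
        eval₂_shift, eval₂_shift, coe_eval₂Hom] at h1
      have e5 : (fun i => φ (y0 i) + φ (R i) * (s' - φ c)) = P := by
        funext i
        simp only [hP, hy, Pi.add_apply, Pi.smul_apply, smul_eq_mul, map_add, map_mul, map_neg]
        ring
      rw [e5, eval₂_cub, ← hτ, hPP, mul_zero, zero_add] at h1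
      have e6 : eval₂ φ (fun i => φ (y0 i)) r = φ (eval y0 r) := by
        have := hom_eval₂' (RingHom.id K) φ y0 r
        rw [RingHom.comp_id] at this
        exact this.symm
      rw [e6] at h1
      rw [h1, mul_comm]
    have hhP : eval₂ φ P h ≠ 0 := by
      intro h0
      rw [h0, zero_mul] at hrP
      exact hry ((map_eq_zero φ).1 hrP)
    rw [hdef, eval_const, map_mul, rho_H1, rho_H2, ← hτ] at hhP
    have g1 := left_ne_zero_of_mul (left_ne_zero_of_mul hhP)
    have g2 := right_ne_zero_of_mul (left_ne_zero_of_mul hhP)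
    have g3 := right_ne_zero_of_mul hhP
    rw [eval₂_gm] at g3
    exact ⟨hPP, ⟨_, g1⟩, _, B_tw hT _ _ _, g2, g3⟩
  have hneg : -s * -s = φ D := by rw [neg_mul_neg, hs]
  have hgood1 := hgood s hs
  have hgood2 := hgood (-s) hneg
  refine ⟨⟨outP t D R y, ?_, ?_⟩⟩
  · intro ρ
    apply φ.injective
    rw [map_zero, map_B]
    have h1 : (fun i => φ (eval ρ (outP t D R y i))) = outv τ (φ D) (fun i => φ (R i))
        (fun i => φ (y i)) (fun j i => ⟨φ (ρ (j, i, false)), φ (ρ (j, i, true))⟩) := by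
      funext i
      have e1 := eval₂_outP φ (fun j => φ (ρ j)) t D R y i
      rw [← e1]
      have := hom_eval₂' (RingHom.id K) φ ρ (outP t D R y i)
      rw [RingHom.comp_id] at this
      exact this
    rw [h1]
    have h2 := outv_root τ (fun i => φ (R i)) (fun i => φ (y i))
      (fun j i => (⟨φ (ρ (j, i, false)), φ (ρ (j, i, true))⟩ : QuadraticAlgebra Ω (φ D) 0)) s hs
    have h3 : s ^ 3 * B τ (outv τ (φ D) (fun i => φ (R i))
        (fun i => φ (y i)) (fun j i => ⟨φ (ρ (j, i, false)), φ (ρ (j, i, true))⟩))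
        (outv τ (φ D) (fun i => φ (R i))
        (fun i => φ (y i)) (fun j i => ⟨φ (ρ (j, i, false)), φ (ρ (j, i, true))⟩))
        (outv τ (φ D) (fun i => φ (R i))
        (fun i => φ (y i)) (fun j i => ⟨φ (ρ (j, i, false)), φ (ρ (j, i, true))⟩)) = 0 := by
      have h4 : ∀ v : Fin n → Ω, s ^ 3 * B τ v v v
          = B τ (fun i => s * v i) (fun i => s * v i) (fun i => s * v i) := by
        intro v
        have : (fun i => s * v i) = s • v := rfl
        rw [this, B_smul_left, B_smul_mid hT, B_smul_right hT]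
        ring
      rw [h4, h2, B_Phi_zero hT _ _ (B_G2 hT hgood1.1 _ _ _ _) (B_G2 hT hgood2.1 _ _ _ _)]
    exact (mul_eq_zero.1 h3).resolve_left (pow_ne_zero _ hs0)
  · intro d f hf hf0
    apply dvd_of_map_dvd φ
    rw [map_cub]
    obtain ⟨bw, be, bu, be', hbs⟩ := hgood2.exists_smooth_value hT
    set b0 := G2 τ (fun i => φ (y i) + -s * φ (R i)) bw be bu be' with hb0
    refine dvd_of_comp' hT hirrΩ (B_G2 hT hgood2.1 _ _ _ _) hbs (hf.map φ) ?_
    refine G2_dominant hT hirrΩ hgood1 ?_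
    intro w0' e' u0' e''
    exact vanish_curve φ hs hs0 R y hf hf0 ![w0', e', u0', e''] ![bw, be, bu, be']

end Param

end Pool.Agent.MazurT
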