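import Mathlib
import Pool.Agent.MazurT.Param
import Pool.Agent.MazurC.CubicEnd
import Pool.Agent.MazurC.CubicFinal
import Pool.Agent.MazurC.Rational

/-!
Density of the rational points near every smooth rational point.
-/

namespace Pool.Agent.MazurT

open MvPolynomial Topology Pool.Agent.MazurC

section Sing

variable {n : ℕ} {K : Type} [Field K] [CharZero K] {t : Fin n → Fin n → Fin n → K}

theorem tensorC_B (x y z : Fin n → K) :
    B (tmap (C : K →+* MvPolynomial (Fin n) K) t) (fun i => C (x i)) (fun i => C (y i))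
      (fun i => C (z i)) = C (B t x y z) := (map_B C x y z).symm

theorem eval_psiP (s ρ : Fin n → K) :
    (fun i => eval ρ (psi (tmap C t) (fun i => C (s i)) X i)) = psi t s ρ := by
  have := map_psi (t := tmap C t) (eval ρ) (fun i => C (s i)) X
  rw [this]
  congr 1
  · funext i j k; simp [tmap]
  · funext i; simp
  · funext i; simp

/-- The projection from a singular point that is not a vertex is dominant. -/
theorem dvd_of_psi (ht : Sym t) (hirr : Irreducible (cub t)) {s : Fin n → K}
    (hv : ∃ z, B t s z z ≠ 0) {d : ℕ} {f : MvPolynomial (Fin n) K} (hf : f.IsHomogeneous d)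
    (h0 : eval₂ C (psi (tmap C t) (fun i => C (s i)) X) f = 0) : cub t ∣ f := by
  classical
  let I : Ideal (MvPolynomial (Fin n) K) := Ideal.span {cub t}
  let q : MvPolynomial (Fin n) K →+* MvPolynomial (Fin n) K ⧸ I := Ideal.Quotient.mk I
  set Q : MvPolynomial (Fin n) K := B (tmap C t) (fun i => C (s i)) X X with hQ
  have hX : B (tmap C t) X X X = cub t := by
    rw [← eval₂_cub, eval₂_eta]
  have hqc : q (cub t) = 0 := Ideal.Quotient.eq_zero_iff_mem.2 (Ideal.subset_span rfl)
  have h1 : (fun i => q (psi (tmap C t) (fun i => C (s i)) X i)) = fun i => q (3 * Q * X i) := by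
    funext i
    simp only [psi, Pi.add_apply, Pi.smul_apply, smul_eq_mul, hX, ← hQ, map_add, map_mul,
      map_neg, hqc]
    ring
  have h2 := congrArg q h0
  rw [map_zero, hom_eval₂', h1, ← hom_eval₂', eval₂_smul_hom _ hf] at h2
  have h3 : eval₂ C X f = f := eval₂_eta f
  have h3' : eval₂ C (fun i => X i) f = f := h3
  rw [h3', Ideal.Quotient.eq_zero_iff_mem, Ideal.mem_span_singleton] at h2
  rcases hirr.prime.dvd_or_dvd h2 with h4 | h4
  · exfalso
    have h5 := hirr.prime.dvd_of_dvd_pow h4
    have hQ' : Q = quadA t s := by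
      apply MvPolynomial.funext
      intro x
      rw [eval_quadA, hQ, map_B]
      have e1 : (fun i j k => (eval x) (tmap C t i j k)) = t := by
        funext i j k; simp [tmap]
      have e2 : (fun i => (eval x) (C (s i))) = s := by
        funext i; simp
      have e3 : (fun i => (eval x) (X i)) = x := by
        funext i; simp
      rw [e1, e2, e3, B_swap12 ht, B_swap23 ht]
    have hQ0 : quadA t s ≠ 0 := by
      intro h
      obtain ⟨z, hz⟩ := hv
      apply hz
      rw [B_swap12 ht, B_swap23 ht, ← eval_quadA, h, map_zero]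
    rw [hQ'] at h5
    rcases hirr.prime.dvd_or_dvd h5 with h6 | h6
    · have h3u : IsUnit (3 : MvPolynomial (Fin n) K) := by
        have : (3 : MvPolynomial (Fin n) K) = C 3 := (map_ofNat C 3).symm
        rw [this]
        exact (isUnit_iff_ne_zero.2 (by norm_num : (3 : K) ≠ 0)).map C
      exact hirr.not_isUnit (isUnit_of_dvd_unit h6 h3u)
    · exact not_dvd_of_lt' (cub_hom t) hirr.ne_zero (quadA_hom t s) hQ0 (by norm_num) h6
  · exact h4

/-- Projection from a singular point that is not a vertex. -/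
theorem param_of_singular (ht : Sym t) (hirr : Irreducible (cub t)) {s : Fin n → K}
    (hs : ∀ w, B t s s w = 0) (hv : ∃ z, B t s z z ≠ 0) : Nonempty (Param t (Fin n)) := by
  refine ⟨⟨psi (tmap C t) (fun i => C (s i)) X, ?_, ?_⟩⟩
  · intro ρ
    rw [eval_psiP, B_psi ht _ _ (hs ρ), hs]
    ring
  · intro d f hf h0
    exact dvd_of_psi ht hirr hv hf h0

end Sing

section Top

variable {K : Type} [Field K] [CharZero K] {L : Type} [NontriviallyNormedField L] {σ : K →+* L}
  {n : ℕ} {t : Fin n → Fin n → Fin n → K}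

theorem infinite_preimage (hσ : DenseRange σ) {V : Set L} (hV : V ∈ 𝓝 (0 : L)) (c : L) :
    {x : K | σ x - c ∈ V}.Infinite := by
  intro hfin
  obtain ⟨O, hOV, hOo, h0O⟩ := mem_nhds_iff.1 hV
  have hfin2 : (σ '' {x : K | σ x - c ∈ V}).Finite := hfin.image _
  have hO' : IsOpen ((fun z => z - c) ⁻¹' O) := hOo.preimage (continuous_id.sub continuous_const)
  have hO2 : IsOpen (((fun z => z - c) ⁻¹' O) \ (σ '' {x : K | σ x - c ∈ V})) :=
    hO'.sdiff hfin2.isClosed
  have hne : (((fun z => z - c) ⁻¹' O) \ (σ '' {x : K | σ x - c ∈ V})).Nonempty := by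
    have hinf : ((fun z => z - c) ⁻¹' O).Infinite := by
      have : (fun z => z - c) ⁻¹' O ∈ 𝓝 c := hO'.mem_nhds (by
        show c - c ∈ O
        rw [sub_self]; exact h0O)
      exact infinite_of_mem_nhds c this
    exact (hinf.diff hfin2).nonempty
  obtain ⟨x, hx⟩ := hσ.exists_mem_open hO2 hne
  exact hx.2 ⟨x, hOV hx.1, rfl⟩

/-- The members of a dense family are points near which the rational points are dense. -/
theorem Param.om (hσ : DenseRange σ) {κ : Type} [Finite κ] (p : Param t κ)
    {a : κ → K} (ha : (fun i => eval a (p.G i)) ≠ 0) :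
    Om σ t (cub t) (sv σ fun i => eval a (p.G i)) := by
  classical
  have : Fintype κ := Fintype.ofFinite κ
  refine ⟨fun h => ha ((sv_eq_zero σ).1 h), ?_, ?_⟩
  · exact B_sv_zero (p.zero a)
  · intro d f hf U hU hfU
    apply p.dom d f hf
    obtain ⟨j0, hj0⟩ := Function.ne_iff.1 ha
    have hG0 : p.G j0 ≠ 0 := by
      intro h
      apply hj0
      show eval a (p.G j0) = 0
      rw [h, map_zero]
    have hcont : Continuous fun ρ : κ → L => fun i => eval₂ σ ρ (p.G i) := by
      refine continuous_pi fun i => ?_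
      have : (fun ρ : κ → L => eval₂ σ ρ (p.G i)) = fun ρ => eval ρ (map σ (p.G i)) := by
        funext ρ
        rw [eval_map]
      rw [this]
      exact MvPolynomial.continuous_eval _
    have hval : ∀ ρ : κ → K, (fun i => eval₂ σ (fun j => σ (ρ j)) (p.G i))
        = sv σ fun i => eval ρ (p.G i) := by
      intro ρ
      funext i
      exact eval₂_comp_gen σ ρ (p.G i)
    have hnb : (fun ρ : κ → L => fun i => eval₂ σ ρ (p.G i)) ⁻¹' U ∈ 𝓝 (fun j => σ (a j)) := by
      apply hcont.continuousAt.preimage_mem_nhds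
      rw [hval]
      exact hU
    rw [nhds_pi, Filter.mem_pi] at hnb
    obtain ⟨I, _, V, hV, hVsub⟩ := hnb
    have hprod : eval₂ C p.G f * p.G j0 = 0 := by
      refine funext_set (fun j => {c : K | σ c ∈ V j}) (fun j => ?_) ?_
      · have hVj := hV j
        have h1 : (fun z => z + σ (a j)) ⁻¹' V j ∈ 𝓝 (0 : L) := by
          apply (continuous_id.add continuous_const).continuousAt.preimage_mem_nhds
          simpa using hVj
        refine (infinite_preimage hσ h1 (σ (a j))).mono ?_
        intro x hx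
        have : σ x - σ (a j) + σ (a j) ∈ V j := hx
        simpa using this
      · intro ρ hρ
        rw [map_zero, map_mul]
        by_cases h0 : eval ρ (p.G j0) = 0
        · rw [h0, mul_zero]
        · have h1 : (fun i => eval ρ (p.G i)) ≠ 0 := fun h => h0 (congrFun h j0)
          have h2 := hfU (fun i => eval ρ (p.G i)) h1 (by rw [eval_cub]; exact p.zero ρ) (by
            refine ⟨1, one_ne_zero, ?_⟩
            rw [one_smul, ← hval]
            exact hVsub (fun j _ => hρ j (Set.mem_univ j)))
          have h3 : eval ρ (eval₂ C p.G f) = eval (fun i => eval ρ (p.G i)) f := by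
            have := hom_eval₂' (C : K →+* MvPolynomial κ K) (eval ρ) p.G f
            rw [this]
            have e : (eval ρ).comp (C : K →+* MvPolynomial κ K) = RingHom.id K := by
              ext1 c; simp
            rw [e]
            rfl
          rw [h3, h2, zero_mul]
    exact (mul_eq_zero.1 hprod).resolve_right hG0

theorem phiP_eq (P : Fin n → K) (i : Fin n) : phiP t P i = phiPoly t P i := by
  have : Infinite K := inferInstance
  apply MvPolynomial.funext
  intro y
  rw [eval_phiPoly]
  exact congrFun (eval₂_phiP (t := t) (RingHom.id K) P y) i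

/-- If `Q ↦ Phi (P, Q)` maps a neighbourhood of a density point into `U`, then every form vanishing
at the rational points near `U` is divisible by the cubic form. -/
theorem dvd_of_map' (ht : Sym t) (hirr : Irreducible (cub t)) {x0 : Fin n → L}
    (hx0 : Om σ t (cub t) x0) {P : Fin n → K} (hP : B t P P P = 0) (hPs : ∃ w, B t P P w ≠ 0)
    {V : Set (Fin n → L)} (hV : V ∈ 𝓝 x0) {U : Set (Fin n → L)}
    (hVU : ∀ z ∈ V, ∃ c : L, c ≠ 0 ∧
      c • Phi (tm σ t) (sv σ P) z ∈ U ∧ Phi (tm σ t) (sv σ P) z ≠ 0)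
    {e : ℕ} {f : MvPolynomial (Fin n) K} (hf : f.IsHomogeneous e)
    (hfU : ∀ y : Fin n → K, y ≠ 0 → eval y (cub t) = 0 → Near σ U y → eval y f = 0) :
    cub t ∣ f := by
  refine dvd_of_comp' ht hirr hP hPs hf ?_
  have hphi : phiP t P = phiPoly t P := funext fun i => phiP_eq P i
  rw [hphi]
  have hcomp : (aeval (phiPoly t P) f).IsHomogeneous (2 * e) := hf.aeval _ (phiPoly_hom t P)
  have hcomp' : eval₂ C (phiPoly t P) f = aeval (phiPoly t P) f := rfl
  rw [hcomp']
  refine hx0.2.2 (2 * e) _ hcomp V hV ?_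
  intro y hy hFy ⟨c, hc, hcV⟩
  obtain ⟨d, hd, hdU, hne⟩ := hVU _ hcV
  rw [eval_aeval']
  have h2 : (fun k => eval y (phiPoly t P k)) = Phi t P y := by
    funext i; exact eval_phiPoly t P y i
  rw [h2]
  have h3 : Phi (tm σ t) (sv σ P) (c • sv σ y) = c ^ 2 • sv σ (Phi t P y) := by
    rw [Phi_smul_right (sym_map σ ht), sv_Phi]
  rw [h3] at hdU hne
  apply hfU
  · intro h0
    rw [h0, (sv_eq_zero σ).2 rfl, smul_zero] at hne
    exact hne rfl
  · rw [eval_cub]
    apply B_Phi_zero ht _ _ hP
    rw [← eval_cub]; exact hFy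
  · exact ⟨d * c ^ 2, mul_ne_zero hd (pow_ne_zero _ hc), by rw [mul_smul]; exact hdU⟩

/-- Every smooth rational point is a density point as soon as there is a dense family. -/
theorem Param.om_smooth (ht : Sym t) (hirr : Irreducible (cub t)) (hσ : DenseRange σ)
    {κ : Type} [Finite κ] (p : Param t κ) {R : Fin n → K} (hR : B t R R R = 0)
    (hRs : ∃ w, B t R R w ≠ 0) : Om σ t (cub t) (sv σ R) := by
  classical
  -- a good member of the family
  have hA0 : linAB t R R ≠ 0 := by
    intro h0
    obtain ⟨w, hw⟩ := hRs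
    apply hw
    rw [B_swap23 ht, B_swap12 ht, ← eval_linAB, h0, map_zero]
  have hQ0 : quadA t R ≠ 0 := by
    intro h0
    obtain ⟨w, hw⟩ := hRs
    have hcon : ∀ x, B t x x R = 0 := fun x => by rw [← eval_quadA, h0, map_zero]
    have k1 := hcon (R + w)
    have k2 := hcon w
    rw [B_add_left, B_add_mid ht, B_add_mid ht, hR, k2, B_swap23 ht R w R, B_swap12 ht w R R,
      B_swap23 ht R w R] at k1
    apply hw
    have : (2 : K) * B t R R w = 0 := by linear_combination k1
    rcases mul_eq_zero.1 this with h5 | h5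
    · norm_num at h5
    · exact h5
  have hnd : ¬ cub t ∣ quadA t R * linAB t R R := by
    intro h
    rcases hirr.prime.dvd_or_dvd h with h1 | h1
    · exact not_dvd_of_lt' (cub_hom t) hirr.ne_zero (quadA_hom t R) hQ0 (by norm_num) h1
    · exact not_dvd_of_lt' (cub_hom t) hirr.ne_zero (linAB_hom t R R) hA0 (by norm_num) h1
  have hev : eval₂ C p.G (quadA t R * linAB t R R) ≠ 0 := fun h =>
    hnd (p.dom 3 _ ((quadA_hom t R).mul (linAB_hom t R R)) h)
  obtain ⟨a, ha⟩ := exists_eval_ne hev
  set x : Fin n → K := fun i => eval a (p.G i) with hx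
  have h3 : eval a (eval₂ C p.G (quadA t R * linAB t R R))
      = eval x (quadA t R * linAB t R R) := by
    have := hom_eval₂' (C : K →+* MvPolynomial κ K) (eval a) p.G (quadA t R * linAB t R R)
    rw [this]
    have e : (eval a).comp (C : K →+* MvPolynomial κ K) = RingHom.id K := by
      ext1 c; simp
    rw [e]
    rfl
  rw [h3, map_mul, eval_quadA, eval_linAB] at ha
  have hxR : B t x x R ≠ 0 := left_ne_zero_of_mul ha
  have hRx : B t R R x ≠ 0 := by
    have := right_ne_zero_of_mul ha
    rwa [B_swap12 ht, B_swap23 ht] at this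
  have hxx : B t x x x = 0 := p.zero a
  have hx0 : x ≠ 0 := by
    intro h
    apply hxR
    rw [h]
    simp [B]
  have hom : Om σ t (cub t) (sv σ x) := p.om hσ hx0
  have hR0 : R ≠ 0 := by
    intro h
    apply hRx
    rw [h]
    simp [B]
  have hsym := sym_map (σ := σ) ht
  have hsR : sv σ R ≠ 0 := fun h => hR0 ((sv_eq_zero σ).1 h)
  refine ⟨hsR, B_sv_zero hR, ?_⟩
  intro e f hf U hU hfU
  set P := Phi t R x with hP
  have hPP : B t P P P = 0 := B_Phi_zero ht _ _ hR hxx
  have hPs : ∃ w, B t P P w ≠ 0 := by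
    refine ⟨R, ?_⟩
    rw [hP, B_Phi_Phi ht _ _ hR]
    exact mul_ne_zero (neg_ne_zero.2 (pow_ne_zero _ hRx)) hxR
  have e1 : Phi t P x = (B t x x R) ^ 3 • R := by
    rw [hP, Phi_swap, Phi_swap x R]
    have h2 : Phi t x (-Phi t x R) = Phi t x (Phi t x R) := by
      have e : -Phi t x R = (-1 : K) • Phi t x R := by simp
      rw [e, Phi_smul_right ht]
      simp
    rw [h2, Phi_Phi ht _ _ hxx]
    simp
  have e1L : Phi (tm σ t) (sv σ P) (sv σ x) = (σ (B t x x R)) ^ 3 • sv σ R := by
    rw [← sv_Phi, e1, sv_smul, map_pow]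
  set c : L := ((σ (B t x x R)) ^ 3)⁻¹ with hc
  have hσne : σ (B t x x R) ≠ 0 := fun h => hxR ((map_eq_zero σ).1 h)
  have hc0 : c ≠ 0 := inv_ne_zero (pow_ne_zero _ hσne)
  have e2 : c • Phi (tm σ t) (sv σ P) (sv σ x) = sv σ R := by
    rw [e1L, smul_smul, hc, inv_mul_cancel₀ (pow_ne_zero _ hσne), one_smul]
  have hcont : Continuous fun z : Fin n → L => c • Phi (tm σ t) (sv σ P) z := by
    unfold Phi B
    fun_prop
  have hV : {z | c • Phi (tm σ t) (sv σ P) z ∈ U ∩ {w | w ≠ 0}} ∈ 𝓝 (sv σ x) := by
    apply hcont.continuousAt.preimage_mem_nhds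
    rw [e2]
    exact Filter.inter_mem hU (isOpen_ne.mem_nhds hsR)
  refine dvd_of_map' ht hirr hom hPP hPs hV (U := U) ?_ hf hfU
  intro z hz
  refine ⟨c, hc0, hz.1, ?_⟩
  intro h0
  exact hz.2 (by rw [h0, smul_zero])

end Top

end Pool.Agent.MazurT
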