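import Mathlib
import Pool.Agent.MazurT.Smooth

/-!
Local ideals: linear subspaces and density points.
-/

namespace Pool.Agent.MazurT

open MvPolynomial Topology Pool.Agent.MazurC

section Open

variable {K : Type} [Field K] {L : Type} [NontriviallyNormedField L] {σ : K →+* L}

/-- A polynomial vanishing at the rational points of a nonempty open set is zero. -/
theorem eq_zero_of_open [CharZero K] (hσ : DenseRange σ) {κ : Type} [Finite κ]
    (p : MvPolynomial κ K)
    (x0 : κ → L) {V : Set (κ → L)} (hV : V ∈ 𝓝 x0)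
    (h : ∀ ρ : κ → K, (fun j => σ (ρ j)) ∈ V → eval ρ p = 0) : p = 0 := by
  classical
  have : Fintype κ := Fintype.ofFinite κ
  rw [nhds_pi, Filter.mem_pi] at hV
  obtain ⟨I, _, W, hW, hWsub⟩ := hV
  refine funext_set (fun j => {c : K | σ c ∈ W j}) (fun j => ?_) ?_
  · have h1 : (fun z => z + x0 j) ⁻¹' W j ∈ 𝓝 (0 : L) := by
      apply (continuous_id.add continuous_const).continuousAt.preimage_mem_nhds
      simpa using hW j
    refine (infinite_preimage hσ h1 (x0 j)).mono ?_
    intro x hx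
    have : σ x - x0 j + x0 j ∈ W j := hx
    simpa using this
  · intro ρ hρ
    rw [map_zero]
    exact h ρ (hWsub fun j _ => hρ j (Set.mem_univ j))

variable {n : ℕ}

/-- A polynomial vanishing at the points of a linear space near one of its points vanishes on the
whole space. -/
theorem vanish_subspace [CharZero K] (hσ : DenseRange σ) (N : Submodule K (Fin n → K))
    {y : Fin n → K} (hy : y ∈ N) (hy0 : y ≠ 0) {f : MvPolynomial (Fin n) K}
    {U : Set (Fin n → L)} (hU : U ∈ 𝓝 (sv σ y))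
    (h : ∀ x ∈ N, x ≠ 0 → Near σ U x → ∀ s : K, eval (s • x) f = 0) :
    ∀ x ∈ N, eval x f = 0 := by
  intro x hx
  have hf0 : eval (0 : Fin n → K) f = 0 := by
    have := h y hy hy0 ⟨1, one_ne_zero, by rw [one_smul]; exact mem_of_mem_nhds hU⟩ 0
    rwa [zero_smul] at this
  let g : MvPolynomial (Fin 2) K := eval₂ C (fun i => C (y i) * X 0 + C (x i) * X 1) f
  have hg : ∀ ρ : Fin 2 → K, eval ρ g = eval (ρ 0 • y + ρ 1 • x) f := by
    intro ρ
    have h1 := hom_eval₂' (C : K →+* MvPolynomial (Fin 2) K) (eval ρ)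
      (fun i => C (y i) * X 0 + C (x i) * X 1) f
    have e1 : (eval ρ).comp (C : K →+* MvPolynomial (Fin 2) K) = RingHom.id K := by
      ext1 c; simp
    rw [e1] at h1
    rw [h1]
    have e2 : (fun i => (eval ρ) (C (y i) * X 0 + C (x i) * X 1)) = ρ 0 • y + ρ 1 • x := by
      funext i
      simp only [map_add, map_mul, eval_C, eval_X, Pi.add_apply, Pi.smul_apply, smul_eq_mul]
      ring
    rw [e2]
    rfl
  have hg0 : g = 0 := by
    have hcont : Continuous fun ρ : Fin 2 → L => ρ 0 • sv σ y + ρ 1 • sv σ x := by fun_prop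
    have hV : (fun ρ : Fin 2 → L => ρ 0 • sv σ y + ρ 1 • sv σ x) ⁻¹' U
        ∈ 𝓝 (![1, 0] : Fin 2 → L) := by
      apply hcont.continuousAt.preimage_mem_nhds
      simpa using hU
    refine eq_zero_of_open hσ g _ hV ?_
    intro ρ hρ
    rw [hg]
    have e1 : (fun ρ : Fin 2 → L => ρ 0 • sv σ y + ρ 1 • sv σ x) (fun j => σ (ρ j))
        = sv σ (ρ 0 • y + ρ 1 • x) := by
      funext i
      simp [sv]
    by_cases h0 : ρ 0 • y + ρ 1 • x = 0
    · rw [h0, hf0]
    · have h2 := h (ρ 0 • y + ρ 1 • x) (N.add_mem (N.smul_mem _ hy) (N.smul_mem _ hx)) h0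
        ⟨1, one_ne_zero, by rw [one_smul, ← e1]; exact hρ⟩ 1
      rwa [one_smul] at h2
  have h3 := hg ![0, 1]
  rw [hg0, map_zero] at h3
  simpa using h3.symm

/-- The local ideal at a point near which the rational points form a linear space. -/
theorem localIdeal_subspace [CharZero K] (hσ : DenseRange σ)
    {S : Set (MvPolynomial (Fin (n + 1)) K)}
    (N : Submodule K (Fin (n + 1) → K)) (hN : ∀ x ∈ N, ∀ g ∈ S, eval x g = 0)
    {y : Fin (n + 1) → K} (hy : y ∈ N) (hy0 : y ≠ 0)
    {U : Set (Fin (n + 1) → L)} (hU : U ∈ 𝓝 (sv σ y))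
    (h : ∀ x : Fin (n + 1) → K, x ≠ 0 → (∀ g ∈ S, eval x g = 0) → Near σ U x → x ∈ N) :
    localIdeal σ S (sv σ y) = {f | ∀ x ∈ N, eval x f = 0} := by
  ext f
  simp only [localIdeal, Set.mem_ofPred_eq]
  constructor
  · rintro ⟨V, hV, hf⟩
    exact vanish_subspace hσ N hy hy0 hV fun x hx hx0 hnear s => hf x hx0 (hN x hx) hnear s
  · intro hf
    refine ⟨U, hU, ?_⟩
    intro x hx0 hxS hnear s
    exact hf _ (N.smul_mem s (h x hx0 hxS hnear))

/-- The local ideal at a point near which there are density points. -/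
theorem localIdeal_of_om [CharZero K] {t : Fin (n + 1) → Fin (n + 1) → Fin (n + 1) → K}
    {y : Fin (n + 1) → L}
    (h : ∀ U ∈ 𝓝 y, ∃ x : Fin (n + 1) → K, Near σ U x ∧ Om σ t (cub t) (sv σ x)) :
    localIdeal σ {cub t} y = {f | cub t ∣ f} := by
  classical
  have : Infinite K := inferInstance
  ext f
  simp only [localIdeal, Set.mem_ofPred_eq, Set.mem_singleton_iff, forall_eq]
  constructor
  · rintro ⟨U, hU, hf⟩
    obtain ⟨V, hVU, hVo, hyV⟩ := mem_nhds_iff.1 hU
    obtain ⟨x, ⟨c, hc, hcV⟩, hom⟩ := h V (hVo.mem_nhds hyV)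
    have hom' := hom.smul hc
    have hnb : V ∈ 𝓝 (c • sv σ x) := hVo.mem_nhds hcV
    rw [← sum_homogeneousComponent f]
    refine Finset.dvd_sum fun d _ => ?_
    refine hom'.2.2 d _ (homogeneousComponent_isHomogeneous d f) V hnb ?_
    rintro z hz hFz ⟨c', hc', hc'V⟩
    exact component_eval_eq_zero f z (hf z hz hFz ⟨c', hc', hVU hc'V⟩) d
  · rintro ⟨g, rfl⟩
    refine ⟨Set.univ, Filter.univ_mem, ?_⟩
    intro z _ hz _ s
    rw [map_mul, eval_smul_hom (cub_hom t), hz, mul_zero, zero_mul]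

end Open

end Pool.Agent.MazurT
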