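import Mathlib
import Pool.Agent.MazurT.Subsp

/-!
Singular rational points.
-/

namespace Pool.Agent.MazurT

open MvPolynomial Topology Pool.Agent.MazurC

section Coef

variable {n : ℕ} {K L : Type} [Field K] [Field L]

/-- Coefficientwise image of a polynomial under a function. -/
noncomputable def coefMap (lam : L → K) (g : MvPolynomial (Fin n) L) : MvPolynomial (Fin n) K :=
  ∑ m ∈ g.support, monomial m (lam (coeff m g))

theorem coeff_coefMap {lam : L → K} (h0 : lam 0 = 0) (g : MvPolynomial (Fin n) L)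
    (m : Fin n →₀ ℕ) : coeff m (coefMap lam g) = lam (coeff m g) := by
  classical
  simp only [coefMap, coeff_sum, coeff_monomial]
  rw [Finset.sum_ite_eq']
  by_cases hm : m ∈ g.support
  · rw [if_pos hm]
  · rw [if_neg hm, notMem_support_iff.1 hm, h0]

theorem coefMap_mul (σ : K →+* L) (lam : L →+ K) (hlam : ∀ (c : K) (z : L),
    lam (σ c * z) = c * lam z) (p : MvPolynomial (Fin n) K) (g : MvPolynomial (Fin n) L) :
    coefMap lam (map σ p * g) = p * coefMap lam g := by
  classical
  ext m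
  rw [coeff_coefMap (map_zero lam), coeff_mul, coeff_mul, map_sum]
  refine Finset.sum_congr rfl fun q _ => ?_
  rw [coeff_map, hlam, coeff_coefMap (map_zero lam)]

theorem eval_coefMap (σ : K →+* L) (lam : L →+ K) (hlam : ∀ (c : K) (z : L),
    lam (σ c * z) = c * lam z) (g : MvPolynomial (Fin n) L) (w : Fin n → K) :
    eval w (coefMap lam g) = lam (eval (fun i => σ (w i)) g) := by
  classical
  rw [eval_eq, eval_eq, map_sum]
  have hsub : (coefMap (fun z => lam z) g).support ⊆ g.support := by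
    intro m hm
    rw [mem_support_iff] at hm ⊢
    intro h
    apply hm
    rw [coeff_coefMap (map_zero lam), h, map_zero]
  rw [Finset.sum_subset hsub]
  · refine Finset.sum_congr rfl fun m _ => ?_
    rw [coeff_coefMap (map_zero lam)]
    have : coeff m g * ∏ i ∈ m.support, (σ (w i)) ^ m i
        = σ (∏ i ∈ m.support, w i ^ m i) * coeff m g := by
      rw [map_prod]
      simp only [map_pow]
      ring
    rw [this, hlam]
    ring
  · intro m _ hm
    rw [notMem_support_iff.1 hm, zero_mul]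

end Coef

section Dense

variable {K : Type} [Field K] {L : Type} [NontriviallyNormedField L] {σ : K →+* L}

theorem exists_K_near (hσ : DenseRange σ) {κ : Type} [Finite κ] (x0 : κ → L)
    {V : Set (κ → L)} (hV : V ∈ 𝓝 x0) : ∃ ρ : κ → K, (fun j => σ (ρ j)) ∈ V := by
  classical
  have : Fintype κ := Fintype.ofFinite κ
  rw [nhds_pi, Filter.mem_pi] at hV
  obtain ⟨I, _, W, hW, hWsub⟩ := hV
  have h1 : ∀ j, ∃ c : K, σ c ∈ W j := by
    intro j
    obtain ⟨O, hO, hOo, hx⟩ := mem_nhds_iff.1 (hW j)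
    obtain ⟨c, hc⟩ := hσ.exists_mem_open hOo ⟨_, hx⟩
    exact ⟨c, hO hc⟩
  choose ρ hρ using h1
  exact ⟨ρ, hWsub fun j _ => hρ j⟩

theorem vanish_of_dense (hσ : DenseRange σ) {κ : Type} [Finite κ] {g : (κ → L) → L}
    (hg : Continuous g) (h : ∀ ρ : κ → K, g (fun j => σ (ρ j)) = 0) (z : κ → L) : g z = 0 := by
  by_contra hz
  have : g ⁻¹' {0}ᶜ ∈ 𝓝 z := hg.continuousAt.preimage_mem_nhds (isOpen_ne.mem_nhds hz)
  obtain ⟨ρ, hρ⟩ := exists_K_near hσ z this
  exact hρ (h ρ)

end Dense

section N1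

variable {n : ℕ} {K : Type} [Field K] [CharZero K] {L : Type} [NontriviallyNormedField L]
  {σ : K →+* L} {t : Fin n → Fin n → Fin n → K}

/-- Smooth rational points near a singular rational point with a tangent direction over the
completion. -/
theorem exists_smooth_near (ht : Sym t) (hirr : Irreducible (cub t)) (hσ : DenseRange σ)
    {y : Fin n → K} (hy : ∀ w, B t y y w = 0) (hy0 : y ≠ 0) (hv : ∃ z, B t y z z ≠ 0)
    {z1 : Fin n → L} (hz1 : B (tm σ t) (sv σ y) z1 z1 = 0) (hz2 : B (tm σ t) z1 z1 z1 ≠ 0)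
    {U : Set (Fin n → L)} (hU : U ∈ 𝓝 (sv σ y)) :
    ∃ x : Fin n → K, x ≠ 0 ∧ B t x x x = 0 ∧ (∃ w, B t x x w ≠ 0) ∧ Near σ U x := by
  classical
  by_contra hcon
  push Not at hcon
  set c : L := (-B (tm σ t) z1 z1 z1)⁻¹ with hc
  have hc0 : c ≠ 0 := inv_ne_zero (neg_ne_zero.2 hz2)
  have hcont : Continuous fun z : Fin n → L => c • psi (tm σ t) (sv σ y) z := by
    unfold psi B
    fun_prop
  have hval : c • psi (tm σ t) (sv σ y) z1 = sv σ y := by
    rw [psi, hz1, mul_zero, zero_smul, add_zero, smul_smul, hc,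
      inv_mul_cancel₀ (neg_ne_zero.2 hz2), one_smul]
  have hsy : sv σ y ≠ 0 := fun h => hy0 ((sv_eq_zero σ).1 h)
  have hV : (fun z : Fin n → L => c • psi (tm σ t) (sv σ y) z) ⁻¹' (U ∩ {w | w ≠ 0}) ∈ 𝓝 z1 := by
    apply hcont.continuousAt.preimage_mem_nhds
    rw [hval]
    exact Filter.inter_mem hU (isOpen_ne.mem_nhds hsy)
  obtain ⟨i, hi⟩ := exists_smooth ht hirr
  apply hi
  refine dvd_of_psi ht hirr hv (quadA_hom t _) ?_
  refine eq_zero_of_open hσ _ z1 hV ?_
  intro ρ hρ
  have e1 : eval ρ (eval₂ C (psi (tmap C t) (fun i => C (y i)) X) (quadA t (Pi.single i 1)))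
      = eval (psi t y ρ) (quadA t (Pi.single i 1)) := by
    rw [hom_eval₂', eval_psiP]
    have e : (eval ρ).comp (C : K →+* MvPolynomial (Fin n) K) = RingHom.id K := by
      ext1 c; simp
    rw [e]
    rfl
  have hmem : c • sv σ (psi t y ρ) ∈ U ∩ {w | w ≠ 0} := by
    have h1 : sv σ (psi t y ρ) = psi (tm σ t) (sv σ y) (fun j => σ (ρ j)) := map_psi σ y ρ
    rw [h1]
    exact hρ
  have hx0 : psi t y ρ ≠ 0 := by
    intro h
    apply hmem.2
    rw [h, (sv_eq_zero σ).2 rfl, smul_zero]
  rw [e1, eval_quadA]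
  by_contra hne
  exact hcon (psi t y ρ) hx0 (by rw [B_psi ht _ _ (hy ρ), hy]; ring) ⟨_, hne⟩
    ⟨c, hc0, hmem.1⟩

end N1

section N2

variable {n : ℕ} {K : Type} [Field K] [CharZero K] {L : Type} [NontriviallyNormedField L]
  {σ : K →+* L} {t : Fin n → Fin n → Fin n → K}

/-- If all `L`-zeros of the polar quadric at `y` are zeros of the cubic form then the polar quadric
is anisotropic modulo its radical. -/
theorem anisotropic (ht : Sym t) (hirr : Irreducible (cub t)) (hσ : DenseRange σ)
    {y : Fin n → K} (hv : ∃ z, B t y z z ≠ 0)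
    (hzero : ∀ z : Fin n → L, B (tm σ t) (sv σ y) z z = 0 → B (tm σ t) z z z = 0)
    {z1 : Fin n → L} (hz1 : B (tm σ t) (sv σ y) z1 z1 = 0) (w : Fin n → L) :
    B (tm σ t) (sv σ y) z1 w = 0 := by
  classical
  have hT : Sym (tm σ t) := sym_map σ ht
  have hInf : Infinite L := Infinite.of_injective σ σ.injective
  have hchar : CharZero L := charZero_of_injective_ringHom σ.injective
  by_contra hw
  set Y := sv σ y with hY
  set τ := tm σ t with hτ
  -- polynomials
  set βp : MvPolynomial (Fin n) L := linAB τ Y z1 with hβp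
  have hβe : ∀ w, eval w βp = B τ Y z1 w := by
    intro w
    rw [hβp, eval_linAB, B_swap12 hT, B_swap23 hT]
  set Q : MvPolynomial (Fin n) L := map σ (quadA t y) with hQ
  have hQe : ∀ w, eval w Q = B τ Y w w := by
    intro w
    rw [hQ, eval_map, eval₂_quadA, B_swap23 (sym_tmap σ ht), B_swap12 (sym_tmap σ ht)]
    rfl
  set R : MvPolynomial (Fin n) L := C 6 * βp * quadA τ z1 - C 3 * Q * linAB τ z1 z1 with hR
  have hRe : ∀ w, eval w R = 6 * B τ Y z1 w * B τ z1 w w - 3 * B τ Y w w * B τ z1 z1 w := by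
    intro w
    rw [hR, map_sub, map_mul, map_mul, map_mul, map_mul, eval_C, eval_C, hβe, hQe, eval_quadA,
      eval_linAB]
    have e1 : B τ w w z1 = B τ z1 w w := by rw [B_swap23 hT, B_swap12 hT]
    have e2 : B τ w z1 z1 = B τ z1 z1 w := by rw [B_swap12 hT, B_swap23 hT]
    rw [e1, e2]
  set G4 : MvPolynomial (Fin n) L := C 4 * βp ^ 2 with hG4
  have hFe : ∀ w, eval w (map σ (cub t)) = B τ w w w := by
    intro w
    rw [eval_map, eval₂_cub]
    rfl
  have hz1F := hzero z1 hz1
  have hβ0 : βp ≠ 0 := by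
    intro h
    apply hw
    rw [← hβe, h, map_zero]
  have hid : map σ (cub t) * G4 = map σ (quadA t y) * R := by
    have h1 : βp * (map σ (cub t) * G4 - map σ (quadA t y) * R) = 0 := by
      apply MvPolynomial.funext
      intro w
      have hQe' : eval w (map σ (quadA t y)) = B τ Y w w := hQe w
      rw [map_zero, map_mul, map_sub, map_mul, map_mul (eval w) (map σ (quadA t y)) R, hQe', hRe,
        hFe, hβe, hG4, map_mul, map_pow, eval_C, hβe]
      set β := B τ Y z1 w with hβ
      set q := B τ Y w w with hq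
      -- the point on the quadric
      have e0 : B τ Y (q • z1 + (-(2 * β)) • w) (q • z1 + (-(2 * β)) • w) = 0 := by
        have s1 : B τ Y w z1 = β := by rw [B_swap23 hT]
        simp only [B_add_mid hT, B_add_right hT, B_smul_mid hT, B_smul_right hT, hz1, s1, ← hβ,
          ← hq]
        ring
      have e1 := hzero _ e0
      rw [B_comb3 hT, hz1F] at e1
      linear_combination (-1 / 2 : L) * e1
    have h2 := (mul_eq_zero.1 h1).resolve_left hβ0
    exact sub_eq_zero.1 h2
  obtain ⟨w0, hw0⟩ := hv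
  -- functionals
  have key : ∀ v : Fin n → K, (B τ Y z1 (sv σ v)) ^ 2 * σ (B t y w0 w0)
      = (B τ Y z1 (sv σ w0)) ^ 2 * σ (B t y v v) := by
    intro v
    let _ : Algebra K L := σ.toAlgebra
    have hQK0 : quadA t y ≠ 0 := by
      intro h
      apply hw0
      rw [B_swap12 ht, B_swap23 ht, ← eval_quadA, h, map_zero]
    rw [← sub_eq_zero]
    rw [← Module.forall_dual_apply_eq_zero_iff K]
    intro lam
    have hlam : ∀ (c : K) (z : L), (lam : L →+ K) (σ c * z) = c * (lam : L →+ K) z := by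
      intro c z
      have : σ c * z = c • z := (Algebra.smul_def c z).symm
      rw [this]
      exact map_smul lam c z
    have h1 := congrArg (coefMap (fun z => (lam : L →+ K) z)) hid
    rw [coefMap_mul σ (lam : L →+ K) hlam, coefMap_mul σ (lam : L →+ K) hlam] at h1
    have h2 : cub t ∣ quadA t y * coefMap (fun z => (lam : L →+ K) z) R := ⟨_, h1.symm⟩
    have h3 : cub t ∣ coefMap (fun z => (lam : L →+ K) z) R := by
      rcases hirr.prime.dvd_or_dvd h2 with h | h
      · exact absurd h (not_dvd_of_lt' (cub_hom t) hirr.ne_zero (quadA_hom t y) hQK0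
          (by norm_num))
      · exact h
    obtain ⟨u, hu⟩ := h3
    have h4 : coefMap (fun z => (lam : L →+ K) z) G4 = quadA t y * u := by
      rw [hu] at h1
      apply mul_left_cancel₀ hirr.ne_zero
      rw [h1]; ring
    have hdegG : (coefMap (fun z => (lam : L →+ K) z) G4).totalDegree ≤ 2 := by
      refine (Finset.sup_mono ?_ : _ ≤ G4.totalDegree).trans ?_
      · intro m hm
        rw [mem_support_iff] at hm ⊢
        intro h
        apply hm
        rw [coeff_coefMap (map_zero (lam : L →+ K)), h, map_zero]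
      · have hG4h : G4.IsHomogeneous (0 + 1 * 2) :=
          (isHomogeneous_C _ _).mul ((linAB_hom τ Y z1).pow 2)
        exact hG4h.totalDegree_le
    have hu' : ∃ c, u = C c := by
      by_cases hu0 : u = 0
      · exact ⟨0, by rw [hu0, C_0]⟩
      · rw [h4, totalDegree_mul_of_isDomain hQK0 hu0, (quadA_hom t y).totalDegree hQK0] at hdegG
        exact ⟨_, totalDegree_eq_zero_iff_eq_C.1 (by omega)⟩
    obtain ⟨c, rfl⟩ := hu'
    have h5 : ∀ v : Fin n → K, lam (4 * (B τ Y z1 (sv σ v)) ^ 2) = B t y v v * c := by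
      intro v
      have h6 := congrArg (eval v) h4
      rw [eval_coefMap σ (lam : L →+ K) hlam, map_mul (eval v) (quadA t y), eval_C, eval_quadA,
        hG4, map_mul, map_pow, eval_C, hβe] at h6
      have e1 : B t v v y = B t y v v := by rw [B_swap23 ht, B_swap12 ht]
      rw [e1] at h6
      exact h6
    have h6 := h5 v
    have h7 := h5 w0
    have h8 : (4 : K) * lam ((B τ Y z1 (sv σ v)) ^ 2 * σ (B t y w0 w0) -
        (B τ Y z1 (sv σ w0)) ^ 2 * σ (B t y v v)) = 0 := by
      have e1 : ∀ z : L, lam (4 * z) = 4 * lam z := by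
        intro z
        have := hlam 4 z
        rw [map_ofNat] at this
        exact this
      have e2 : ∀ (z : L) (a : K), lam (z * σ a) = a * lam z := by
        intro z a
        rw [mul_comm]
        exact hlam a z
      rw [map_sub, e2, e2]
      rw [e1] at h6 h7
      linear_combination B t y w0 w0 * h6 - B t y v v * h7
    rcases mul_eq_zero.1 h8 with h9 | h9
    · norm_num at h9
    · exact h9
  -- extend to L
  have key2 : ∀ v : Fin n → L, (B τ Y z1 v) ^ 2 * σ (B t y w0 w0)
      = (B τ Y z1 (sv σ w0)) ^ 2 * B τ Y v v := by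
    intro v
    rw [← sub_eq_zero]
    refine vanish_of_dense hσ (g := fun v : Fin n → L => (B τ Y z1 v) ^ 2 * σ (B t y w0 w0)
      - (B τ Y z1 (sv σ w0)) ^ 2 * B τ Y v v) ?_ ?_ v
    · unfold B
      fun_prop
    · intro ρ
      have h1 := key ρ
      have h2 : σ (B t y ρ ρ) = B τ Y (fun j => σ (ρ j)) (fun j => σ (ρ j)) := map_B σ y ρ ρ
      rw [← h2]
      rw [sub_eq_zero]
      exact h1
  have hq0 : σ (B t y w0 w0) ≠ 0 := fun h => hw0 ((map_eq_zero σ).1 h)
  have h1 := key2 (z1 + w)
  have h2 := key2 w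
  have e1 : B τ Y z1 (z1 + w) = B τ Y z1 w := by rw [B_add_right hT, hz1, zero_add]
  have e2 : B τ Y (z1 + w) (z1 + w) = 2 * B τ Y z1 w + B τ Y w w := by
    rw [B_add_mid hT, B_add_right hT, B_add_right hT, hz1, B_swap23 hT Y w z1]
    ring
  rw [e1, e2, h2] at h1
  have h3 : (B τ Y z1 (sv σ w0)) ^ 2 * (2 * B τ Y z1 w) = 0 := by linear_combination -h1
  rcases mul_eq_zero.1 h3 with h4 | h4
  · rw [h4, zero_mul] at h2
    rcases mul_eq_zero.1 h2 with h5 | h5
    · exact hw (pow_eq_zero_iff (by norm_num) |>.1 h5)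
    · exact hq0 h5
  · rcases mul_eq_zero.1 h4 with h5 | h5
    · norm_num at h5
    · exact hw h5

end N2

end Pool.Agent.MazurT
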