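import Mathlib
import Pool.Agent.MazurT.Sing

/-!
Singular rational points which are not limits of smooth rational points.
-/

namespace Pool.Agent.MazurT

open MvPolynomial Topology Pool.Agent.MazurC

section Hess

variable {n : ℕ}

/-- The matrix of the polar form at `y`. -/
def hess {M : Type*} [CommRing M] (t : Fin n → Fin n → Fin n → M) (y : Fin n → M) :
    Matrix (Fin n) (Fin n) M :=
  Matrix.of fun i j => B t y (Pi.single j 1) (Pi.single i 1)

theorem hess_mulVec {M : Type*} [CommRing M] {t : Fin n → Fin n → Fin n → M} (ht : Sym t)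
    (y x : Fin n → M) (i : Fin n) : (hess t y).mulVec x i = B t y x (Pi.single i 1) := by
  rw [B_swap23 ht, B_basis ht, Matrix.mulVec, dotProduct]
  refine Finset.sum_congr rfl fun j _ => ?_
  rw [hess, Matrix.of_apply, B_swap23 ht, mul_comm]

theorem hess_map {M S : Type*} [CommRing M] [CommRing S] (φ : M →+* S)
    (t : Fin n → Fin n → Fin n → M) (y : Fin n → M) :
    hess (tmap φ t) (fun i => φ (y i)) = (hess t y).map φ := by
  ext i j
  rw [Matrix.map_apply, hess, hess, Matrix.of_apply, Matrix.of_apply, map_B, map_single,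
    map_single]
  rfl

theorem hess_mulVec_eq_zero {M : Type*} [CommRing M] {t : Fin n → Fin n → Fin n → M}
    (ht : Sym t) (y x : Fin n → M) : (hess t y).mulVec x = 0 ↔ ∀ w, B t y x w = 0 := by
  constructor
  · intro h w
    rw [B_basis ht]
    refine Finset.sum_eq_zero fun i _ => ?_
    rw [← hess_mulVec ht, h, Pi.zero_apply, mul_zero]
  · intro h
    funext i
    rw [hess_mulVec ht, h, Pi.zero_apply]

theorem exists_ginv {K : Type*} [Field K] (H : Matrix (Fin n) (Fin n) K) :
    ∃ M : Matrix (Fin n) (Fin n) K, H * M * H = H := by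
  classical
  obtain ⟨g, hg⟩ := LinearMap.exists_rightInverse_of_surjective H.toLin'.rangeRestrict
    (LinearMap.range_rangeRestrict _)
  obtain ⟨M, hM⟩ := LinearMap.exists_extend g
  refine ⟨LinearMap.toMatrix' M, ?_⟩
  apply Matrix.toLin'.injective
  rw [Matrix.toLin'_mul, Matrix.toLin'_mul, Matrix.toLin'_toMatrix']
  ext1 i
  ext1
  have h1 : ∀ x, H.toLin' (M (H.toLin' x)) = H.toLin' x := by
    intro x
    have e1 : M (H.toLin' x) = g (H.toLin'.rangeRestrict x) := by
      rw [← hM]; rfl
    have e2 := LinearMap.congr_fun hg (H.toLin'.rangeRestrict x)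
    rw [e1]
    exact congrArg Subtype.val e2
  simp only [LinearMap.coe_comp, Function.comp_apply]
  rw [h1]

end Hess

section N3

variable {n : ℕ} {K : Type} [Field K] {L : Type} [NontriviallyNormedField L]
  {σ : K →+* L} {t : Fin n → Fin n → Fin n → K}

theorem near_mem_ker [CharZero K] [ProperSpace L] (ht : Sym t) (hσ : DenseRange σ)
    {y : Fin n → K} (hy : ∀ w, B t y y w = 0)
    (hker : ∀ v, (∀ w, B t y v w = 0) → ∀ w, B t v v w = 0)
    (haniso : ∀ z : Fin n → L, B (tm σ t) (sv σ y) z z = 0 → ∀ w, B (tm σ t) (sv σ y) z w = 0) :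
    ∃ U ∈ 𝓝 (sv σ y), ∀ x : Fin n → K, B t x x x = 0 → Near σ U x → ∀ w, B t y x w = 0 := by
  classical
  have hT : Sym (tm σ t) := sym_map σ ht
  have hchar : CharZero L := charZero_of_injective_ringHom σ.injective
  obtain ⟨M, hM⟩ := exists_ginv (hess t y)
  set Y := sv σ y with hY
  set τ := tm σ t with hτ
  set HL : Matrix (Fin n) (Fin n) L := hess τ Y with hHL
  set ML : Matrix (Fin n) (Fin n) L := M.map σ with hML
  have hHmap : HL = (hess t y).map σ := hess_map σ t y
  have hMH : HL * ML * HL = HL := by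
    rw [hHmap, hML, ← Matrix.map_mul, ← Matrix.map_mul, hM]
  let P : (Fin n → L) → (Fin n → L) := fun z => ML.mulVec (HL.mulVec z)
  have hPcont : Continuous P := by
    have h1 : Continuous fun z : Fin n → L => HL.mulVec z :=
      Continuous.matrix_mulVec continuous_const continuous_id
    exact Continuous.matrix_mulVec continuous_const h1
  have hHP : ∀ z, HL.mulVec (P z) = HL.mulVec z := by
    intro z
    show HL.mulVec (ML.mulVec (HL.mulVec z)) = _
    rw [Matrix.mulVec_mulVec, Matrix.mulVec_mulVec, hMH]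
  have hPP : ∀ z, P (P z) = P z := by
    intro z
    show ML.mulVec (HL.mulVec (P z)) = _
    rw [hHP]
  have hPs : ∀ (d : L) z, P (d • z) = d • P z := by
    intro d z
    show ML.mulVec (HL.mulVec (d • z)) = _
    rw [Matrix.mulVec_smul, Matrix.mulVec_smul]
  -- the kernel is totally singular
  have hYY : ∀ w, B τ Y Y w = 0 := by
    intro w
    rw [B_basis hT]
    refine Finset.sum_eq_zero fun i _ => ?_
    have : B τ Y Y (Pi.single i 1) = σ (B t y y (Pi.single i 1)) := by
      rw [map_B, map_single]; rfl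
    rw [this, hy, map_zero, mul_zero]
  have hYN : ∀ z w, B τ Y (z - P z) w = 0 := by
    intro z
    rw [← hess_mulVec_eq_zero hT, ← hHL, Matrix.mulVec_sub, hHP, sub_self]
  have hNN : ∀ z w, B τ (z - P z) (z - P z) w = 0 := by
    intro z w
    refine vanish_of_dense hσ (g := fun z => B τ (z - P z) (z - P z) w) ?_ ?_ z
    · have h2 : Continuous fun z : Fin n → L => z - P z := continuous_id.sub hPcont
      have h3 : Continuous fun u : Fin n → L => B τ u u w := by
        unfold B; fun_prop
      exact h3.comp h2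
    · intro ρ
      set v : Fin n → K := ρ - M.mulVec ((hess t y).mulVec ρ) with hv
      have e1 : (fun j => σ (ρ j)) - P (fun j => σ (ρ j)) = sv σ v := by
        funext i
        have e2 : HL.mulVec (fun j => σ (ρ j)) = fun j => σ ((hess t y).mulVec ρ j) := by
          funext j
          rw [hHmap, RingHom.map_mulVec]
          rfl
        have e3 : P (fun j => σ (ρ j)) = fun j => σ (M.mulVec ((hess t y).mulVec ρ) j) := by
          show ML.mulVec (HL.mulVec _) = _
          rw [e2]
          funext j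
          rw [RingHom.map_mulVec]
          rfl
        rw [Pi.sub_apply, e3]
        simp only [sv, hv, Pi.sub_apply, map_sub]
      have e4 : ∀ w, B t y v w = 0 := by
        rw [← hess_mulVec_eq_zero ht, hv, Matrix.mulVec_sub, Matrix.mulVec_mulVec,
          Matrix.mulVec_mulVec, hM, sub_self]
      have e5 := hker v e4
      show B τ ((fun j => σ (ρ j)) - P (fun j => σ (ρ j))) _ w = 0
      rw [e1, B_basis hT]
      refine Finset.sum_eq_zero fun i _ => ?_
      have : B τ (sv σ v) (sv σ v) (Pi.single i 1) = σ (B t v v (Pi.single i 1)) := by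
        rw [map_B, map_single]; rfl
      rw [this, e5, map_zero, mul_zero]
  -- compactness
  obtain ⟨q, hq⟩ := NormedField.exists_one_lt_norm L
  let S : Set (Fin n → L) := {w | P w = w ∧ 1 / ‖q‖ ≤ ‖w‖ ∧ ‖w‖ ≤ 1}
  have hS : IsCompact S := by
    refine (isCompact_closedBall (0 : Fin n → L) 1).of_isClosed_subset ?_ ?_
    · refine (isClosed_eq hPcont continuous_id).inter ?_
      exact (isClosed_le continuous_const continuous_norm).inter
        (isClosed_le continuous_norm continuous_const)
    · rintro w ⟨_, _, hw⟩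
      rw [mem_closedBall_zero_iff]
      exact hw
  let g : (L × (Fin n → L)) → (Fin n → L) → L := fun p w =>
    3 * B τ Y w w + 3 * B τ p.2 w w + p.1 * B τ w w w
  have hg : Continuous fun p : (L × (Fin n → L)) × (Fin n → L) => g p.1 p.2 := by
    show Continuous fun p : (L × (Fin n → L)) × (Fin n → L) =>
      3 * B τ Y p.2 p.2 + 3 * B τ p.1.2 p.2 p.2 + p.1.1 * B τ p.2 p.2 p.2
    unfold B
    fun_prop
  have hg0 : ∀ w ∈ S, g (0, 0) w ≠ 0 := by
    rintro w ⟨hw1, hw2, _⟩ hw
    have e1 : B τ (0 : Fin n → L) w w = 0 := by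
      have := B_smul_left τ (0 : L) 0 w w
      rwa [zero_smul, zero_mul] at this
    have e2 : B τ Y w w = 0 := by
      have h1 : 3 * B τ Y w w = 0 := by
        have : g (0, 0) w = 3 * B τ Y w w := by
          show 3 * B τ Y w w + 3 * B τ (0 : Fin n → L) w w + 0 * B τ w w w = _
          rw [e1]; ring
        rw [← this, hw]
      rcases mul_eq_zero.1 h1 with h2 | h2
      · norm_num at h2
      · exact h2
    have e3 := haniso w e2
    rw [← hess_mulVec_eq_zero hT] at e3
    have e4 : w = 0 := by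
      rw [← hw1]
      show ML.mulVec (HL.mulVec w) = 0
      rw [hHL, e3, Matrix.mulVec_zero]
    rw [e4, norm_zero] at hw2
    have : 0 < 1 / ‖q‖ := by positivity
    linarith
  have hev : ∀ᶠ p in 𝓝 ((0, 0) : L × (Fin n → L)), ∀ w ∈ S, g p w ≠ 0 := by
    refine hS.eventually_forall_of_forall_eventually ?_
    intro w hw
    exact hg.continuousAt.eventually_ne (hg0 w hw)
  obtain ⟨ε, hε, hεS⟩ := Metric.eventually_nhds_iff.1 hev
  let U : Set (Fin n → L) := {u | ‖P (u - Y)‖ * ‖q‖ < ε ∧ ‖(u - Y) - P (u - Y)‖ < ε}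
  have hPc : Continuous fun u : Fin n → L => P (u - Y) :=
    hPcont.comp (continuous_id.sub continuous_const)
  have hUo : IsOpen U := by
    refine (isOpen_lt (hPc.norm.mul continuous_const) continuous_const).inter ?_
    exact isOpen_lt ((continuous_id.sub continuous_const).sub hPc).norm continuous_const
  have hP0 : P 0 = 0 := by
    show ML.mulVec (HL.mulVec 0) = 0
    rw [Matrix.mulVec_zero, Matrix.mulVec_zero]
  have hYU : Y ∈ U := by
    refine ⟨?_, ?_⟩
    · rw [sub_self, hP0, norm_zero, zero_mul]; exact hε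
    · rw [sub_self, hP0, sub_zero, norm_zero]; exact hε
  refine ⟨U, hUo.mem_nhds hYU, ?_⟩
  rintro x hx ⟨c, hc, hcU⟩
  obtain ⟨z, hz⟩ : ∃ z, z = c • sv σ x - Y := ⟨_, rfl⟩
  have hz' : c • sv σ x = Y + (z - P z) + P z := by rw [hz]; abel
  have hF : B τ (c • sv σ x) (c • sv σ x) (c • sv σ x) = 0 := by
    rw [B_smul_left, B_smul_mid hT, B_smul_right hT, B_sv_zero hx]
    ring
  have hcU1 : ‖P z‖ * ‖q‖ < ε := by rw [hz]; exact hcU.1
  have hcU2 : ‖z - P z‖ < ε := by rw [hz]; exact hcU.2
  -- the equation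
  have haa : ∀ w, B τ (Y + (z - P z)) (Y + (z - P z)) w = 0 := by
    intro w
    rw [B_add_left, B_add_mid hT, B_add_mid hT, hYY, hYN, hNN, B_swap12 hT, hYN]
    ring
  have heq : 3 * B τ Y (P z) (P z) + 3 * B τ (z - P z) (P z) (P z)
      + B τ (P z) (P z) (P z) = 0 := by
    have h1 := B_comb3 hT 1 1 (Y + (z - P z)) (P z)
    rw [one_smul, one_smul, ← hz', hF, haa, haa, B_add_left] at h1
    linear_combination -h1
  by_cases hw0 : P z = 0
  · have h1 : HL.mulVec z = 0 := by rw [← hHP, hw0, Matrix.mulVec_zero]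
    rw [hHL, hess_mulVec_eq_zero hT] at h1
    intro w
    have h2 : c * σ (B t y x w) = 0 := by
      have e1 : σ (B t y x w) = B τ Y (sv σ x) (sv σ w) := map_B σ y x w
      rw [e1, ← B_smul_mid hT]
      have e2 : c • sv σ x = Y + z := by rw [hz]; abel
      rw [e2, B_add_mid hT, hYY, h1, add_zero]
    rcases mul_eq_zero.1 h2 with h3 | h3
    · exact absurd h3 hc
    · exact (map_eq_zero σ).1 h3
  · exfalso
    obtain ⟨d, hd0, hd1, hd2, hd3⟩ := rescale_to_shell hq one_pos hw0
    have hwS : d • P z ∈ S := by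
      refine ⟨?_, hd2, hd1.le⟩
      rw [hPs, hPP]
    have hn := hεS (y := (d⁻¹, z - P z)) (by
      rw [Prod.dist_eq, max_lt_iff]
      constructor
      · rw [dist_zero_right, norm_inv]
        calc ‖d‖⁻¹ ≤ 1⁻¹ * ‖q‖ * ‖P z‖ := hd3
          _ = ‖P z‖ * ‖q‖ := by rw [inv_one, one_mul, mul_comm]
          _ < ε := hcU1
      · rw [dist_zero_right]
        exact hcU2) _ hwS
    apply hn
    show 3 * B τ Y (d • P z) (d • P z) + 3 * B τ (z - P z) (d • P z) (d • P z)
      + d⁻¹ * B τ (d • P z) (d • P z) (d • P z) = 0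
    rw [B_smul_left, B_smul_mid hT, B_smul_mid hT, B_smul_mid hT, B_smul_right hT,
      B_smul_right hT, B_smul_right hT]
    have hdd : d⁻¹ * d = 1 := inv_mul_cancel₀ hd0
    linear_combination d ^ 2 * heq + d ^ 2 * B τ (P z) (P z) (P z) * hdd

end N3

end Pool.Agent.MazurT
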