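import Mathlib
import Pool.Agent.MazurT.SingN

/-!
The linear spaces of singular points cut out by the polar form are components of the singular
locus.
-/

namespace Pool.Agent.MazurT

open MvPolynomial Topology Pool.Agent.MazurC

section N4

variable {n : ℕ} {K : Type} [Field K] {t : Fin n → Fin n → Fin n → K}

/-- The ideal generated by the partial derivatives. -/
noncomputable def singIdeal (t : Fin n → Fin n → Fin n → K) : Ideal (MvPolynomial (Fin n) K) :=
  Ideal.span (Set.range fun i => quadA t (Pi.single i 1))

/-- The kernel of the polar form at `y`. -/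
def kerN (ht : Sym t) (y : Fin n → K) : Submodule K (Fin n → K) where
  carrier := {x | ∀ w, B t y x w = 0}
  add_mem' := fun {a b} ha hb w => by rw [B_add_mid ht, ha w, hb w, add_zero]
  zero_mem' := fun w => by
    have := B_smul_mid ht 0 y 0 w
    rwa [zero_smul, zero_mul] at this
  smul_mem' := fun c a ha w => by rw [B_smul_mid ht, ha w, mul_zero]

theorem mem_kerN (ht : Sym t) {y x : Fin n → K} : x ∈ kerN ht y ↔ ∀ w, B t y x w = 0 := Iff.rfl

theorem exists_minimalPrime [CharZero K] (ht : Sym t) {y : Fin n → K}
    (hy : ∀ w, B t y y w = 0)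
    (hker : ∀ v, (∀ w, B t y v w = 0) → ∀ w, B t v v w = 0) :
    ∃ I ∈ (singIdeal t).minimalPrimes,
      (I : Set (MvPolynomial (Fin n) K)) = {f | ∀ x ∈ kerN ht y, eval x f = 0} := by
  classical
  obtain ⟨M, hM⟩ := exists_ginv (hess t y)
  let H' : Matrix (Fin n) (Fin n) (MvPolynomial (Fin n) K) := (hess t y).map C
  let M' : Matrix (Fin n) (Fin n) (MvPolynomial (Fin n) K) := M.map C
  have hH' : H' = hess (tmap C t) (fun i => C (y i)) := (hess_map C t y).symm
  have hMH : H' * M' * H' = H' := by
    show (hess t y).map C * M.map C * (hess t y).map C = (hess t y).map C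
    rw [← Matrix.map_mul, ← Matrix.map_mul, hM]
  let h : Fin n → MvPolynomial (Fin n) K := H'.mulVec X
  let xN : Fin n → MvPolynomial (Fin n) K := X - M'.mulVec h
  have hev : ∀ (x : Fin n → K), (fun i => eval x (xN i)) = x - M.mulVec ((hess t y).mulVec x) := by
    intro x
    have e0 : ∀ (A : Matrix (Fin n) (Fin n) K) (v : Fin n → MvPolynomial (Fin n) K) (i : Fin n),
        eval x ((A.map C).mulVec v i) = A.mulVec (fun j => eval x (v j)) i := by
      intro A v i
      rw [Matrix.mulVec, Matrix.mulVec, dotProduct, dotProduct, map_sum]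
      refine Finset.sum_congr rfl fun j _ => ?_
      rw [map_mul, Matrix.map_apply, eval_C]
    funext i
    show eval x (X i - M'.mulVec h i) = _
    rw [map_sub, eval_X, Pi.sub_apply, e0]
    congr 2
    funext j
    show eval x (H'.mulVec X j) = _
    rw [e0]
    simp only [eval_X]
  have hxmem : ∀ x, x - M.mulVec ((hess t y).mulVec x) ∈ kerN ht y := by
    intro x
    rw [mem_kerN, ← hess_mulVec_eq_zero ht, Matrix.mulVec_sub, Matrix.mulVec_mulVec,
      Matrix.mulVec_mulVec, hM, sub_self]
  have hxfix : ∀ x ∈ kerN ht y, x - M.mulVec ((hess t y).mulVec x) = x := by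
    intro x hx
    rw [mem_kerN, ← hess_mulVec_eq_zero ht] at hx
    rw [hx, Matrix.mulVec_zero, sub_zero]
  let ρ : MvPolynomial (Fin n) K →+* MvPolynomial (Fin n) K := eval₂Hom C xN
  have hρ : ∀ (x : Fin n → K) (f : MvPolynomial (Fin n) K),
      eval x (ρ f) = eval (x - M.mulVec ((hess t y).mulVec x)) f := by
    intro x f
    have h1 := hom_eval₂' (C : K →+* MvPolynomial (Fin n) K) (eval x) xN f
    have e1 : (eval x).comp (C : K →+* MvPolynomial (Fin n) K) = RingHom.id K := by
      ext1 c; simp
    rw [e1, hev] at h1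
    exact h1
  have hI : ∀ f, f ∈ RingHom.ker ρ ↔ ∀ x ∈ kerN ht y, eval x f = 0 := by
    intro f
    rw [RingHom.mem_ker]
    constructor
    · intro hf x hx
      have h1 := hρ x f
      rw [hf, map_zero, hxfix x hx] at h1
      exact h1.symm
    · intro hf
      apply MvPolynomial.funext
      intro x
      rw [hρ, map_zero]
      exact hf _ (hxmem x)
  refine ⟨RingHom.ker ρ, ?_, ?_⟩
  swap
  · ext f
    exact hI f
  have hprime : (RingHom.ker ρ).IsPrime := RingHom.ker_isPrime ρ
  have hJ : singIdeal t ≤ RingHom.ker ρ := by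
    rw [singIdeal, Ideal.span_le]
    rintro _ ⟨i, rfl⟩
    rw [SetLike.mem_coe, hI]
    intro x hx
    rw [eval_quadA]
    exact hker x hx _
  refine ⟨⟨hprime, hJ⟩, ?_⟩
  rintro p ⟨hp, hJp⟩ hpI
  -- the matrix identity
  let T : Fin n → Fin n → Fin n → MvPolynomial (Fin n) K := tmap C t
  have hT : Sym T := sym_tmap C ht
  let u : Fin n → MvPolynomial (Fin n) K := xN + X
  let A : Matrix (Fin n) (Fin n) (MvPolynomial (Fin n) K) :=
    hess T u * M' + (2 : MvPolynomial (Fin n) K) • (1 - H' * M')
  have hNN : ∀ i, B T xN xN (Pi.single i 1) = 0 := by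
    intro i
    have h1 : B T xN xN (Pi.single i 1) = ρ (quadA t (Pi.single i 1)) := by
      show _ = eval₂ C xN (quadA t (Pi.single i 1))
      rw [eval₂_quadA, map_single]
    rw [h1]
    exact hJ (Ideal.subset_span ⟨i, rfl⟩)
  have hq : ∀ i, B T X X (Pi.single i 1) = quadA t (Pi.single i 1) := by
    intro i
    have h1 : eval₂ C X (quadA t (Pi.single i 1)) = B T X X (Pi.single i 1) := by
      rw [eval₂_quadA, map_single]
    rw [← h1, eval₂_eta]
  have hAh : ∀ i, A.mulVec h i = quadA t (Pi.single i 1) := by
    intro i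
    have h1 : (1 - H' * M').mulVec h = 0 := by
      show (1 - H' * M').mulVec (H'.mulVec X) = 0
      rw [Matrix.mulVec_mulVec, Matrix.sub_mul, Matrix.one_mul, hMH, sub_self,
        Matrix.zero_mulVec]
    have h2 : A.mulVec h = (hess T u).mulVec (M'.mulVec h) := by
      show (hess T u * M' + (2 : MvPolynomial (Fin n) K) • (1 - H' * M')).mulVec h = _
      rw [Matrix.add_mulVec, Matrix.smul_mulVec, h1, smul_zero, add_zero]
      exact (Matrix.mulVec_mulVec h (hess T u) M').symm
    rw [h2, hess_mulVec hT, ← hq]
    have h3 : (X : Fin n → MvPolynomial (Fin n) K) = xN + M'.mulVec h := by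
      show X = (X - M'.mulVec h) + M'.mulVec h
      abel
    have h4 : B T X X (Pi.single i 1) = B T xN xN (Pi.single i 1)
        + B T u (M'.mulVec h) (Pi.single i 1) := by
      have e1 : B T X X (Pi.single i 1) = B T xN xN (Pi.single i 1)
        + B T xN (M'.mulVec h) (Pi.single i 1) + B T X (M'.mulVec h) (Pi.single i 1) := by
        conv_lhs => rw [h3]
        rw [B_add_left, B_add_mid hT xN, B_add_mid hT (M'.mulVec h)]
        conv_rhs => rw [h3]
        rw [B_add_left T xN (M'.mulVec h) (M'.mulVec h), B_swap12 hT (M'.mulVec h) xN]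
      rw [e1]
      show _ = _ + B T (xN + X) _ _
      rw [B_add_left]
      ring
    rw [h4, hNN, zero_add]
  have hdet : ∀ j, A.det * h j ∈ p := by
    intro j
    have h1 : A.adjugate.mulVec (A.mulVec h) j = A.det * h j := by
      rw [Matrix.mulVec_mulVec, Matrix.adjugate_mul, Matrix.smul_mulVec, Matrix.one_mulVec]
      rfl
    rw [← h1, Matrix.mulVec, dotProduct]
    refine Ideal.sum_mem _ fun i _ => Ideal.mul_mem_left _ _ ?_
    rw [hAh]
    exact hJp (Ideal.subset_span ⟨i, rfl⟩)
  have hyN : y ∈ kerN ht y := fun w => hy w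
  have hAy : eval y A.det = 2 ^ n := by
    rw [RingHom.map_det]
    have e1 : (eval y).mapMatrix A = (2 : K) • (1 : Matrix (Fin n) (Fin n) K) := by
      show (eval y).mapMatrix (hess T u * M' + (2 : MvPolynomial (Fin n) K) • (1 - H' * M')) = _
      have e2 : (eval y).mapMatrix (hess T u) = (2 : K) • hess t y := by
        have e3 : (fun i => eval y (u i)) = (2 : K) • y := by
          have e4 := hev y
          rw [hxfix y hyN] at e4
          funext i
          show eval y (xN i + X i) = _
          rw [map_add, eval_X, congrFun e4 i, Pi.smul_apply, smul_eq_mul]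
          ring
        have e5 := hess_map (eval y) T u
        rw [e3] at e5
        have e6 : tmap (eval y) T = t := by
          funext i j k
          show eval y (C (t i j k)) = _
          rw [eval_C]
        rw [e6] at e5
        rw [RingHom.mapMatrix_apply, ← e5]
        ext i j
        simp only [hess, Matrix.of_apply, Matrix.smul_apply, B_smul_left, smul_eq_mul]
      have e7 : (eval y).mapMatrix M' = M := by
        ext i j
        rw [RingHom.mapMatrix_apply, Matrix.map_apply]
        show eval y (C (M i j)) = _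
        rw [eval_C]
      have e8 : (eval y).mapMatrix H' = hess t y := by
        ext i j
        rw [RingHom.mapMatrix_apply, Matrix.map_apply]
        show eval y (C (hess t y i j)) = _
        rw [eval_C]
      have e9 : (2 : MvPolynomial (Fin n) K) • (1 - H' * M')
          = (1 - H' * M') + (1 - H' * M') := two_smul _ _
      rw [map_add, map_mul, e2, e7, e9, map_add, map_sub, map_one, map_mul, e8, e7, two_smul,
        two_smul, Matrix.add_mul]
      abel
    rw [e1, Matrix.det_smul, Matrix.det_one, mul_one, Fintype.card_fin]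
  have hAI : A.det ∉ p := by
    intro h1
    have h2 := (hI _).1 (hpI h1) y hyN
    rw [hAy] at h2
    exact pow_ne_zero n two_ne_zero h2
  have hh : ∀ j, h j ∈ p := fun j => (hp.mem_or_mem (hdet j)).resolve_left hAI
  intro f hf
  rw [← Ideal.Quotient.eq_zero_iff_mem]
  have hf0 : ρ f = 0 := hf
  have e1 : ∀ i, Ideal.Quotient.mk p (xN i) = Ideal.Quotient.mk p (X i) := by
    intro i
    rw [Ideal.Quotient.eq]
    have : xN i - X i = -(M'.mulVec h i) := by
      show (X i - M'.mulVec h i) - X i = _
      ring
    rw [this, neg_mem_iff, Matrix.mulVec, dotProduct]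
    exact Ideal.sum_mem _ fun j _ => Ideal.mul_mem_left _ _ (hh j)
  have e2 := hom_eval₂' (C : K →+* MvPolynomial (Fin n) K) (Ideal.Quotient.mk p) xN f
  have e3 := hom_eval₂' (C : K →+* MvPolynomial (Fin n) K) (Ideal.Quotient.mk p) X f
  rw [eval₂_eta] at e3
  rw [e3]
  simp only [e1] at e2
  rw [← e2]
  have e4 : eval₂ C xN f = 0 := hf0
  rw [e4, map_zero]

theorem finite_minimalPrimes (t : Fin n → Fin n → Fin n → K) :
    (singIdeal t).minimalPrimes.Finite :=
  Ideal.finite_minimalPrimes_of_isNoetherianRing _ _

end N4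

end Pool.Agent.MazurT
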