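import Mathlib
import Pool.Agent.MazurT.MinPrime
import Pool.Agent.MazurC.Rational

/-!
Hypersurfaces all whose local closures are linear or everything.
-/

namespace Pool.Agent.MazurT

open MvPolynomial Topology Pool.Agent.MazurC

section Def

variable {n : ℕ} {K : Type} [Field K] {L : Type} [NontriviallyNormedField L]

/-- The local ideals at rational points are the ideal of the hypersurface or the ideals of unions
of members of a finite family of linear spaces contained in it. -/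
def LinRat (σ : K →+* L) (F : MvPolynomial (Fin (n + 1)) K) : Prop :=
  ∃ V : Set (Submodule K (Fin (n + 1) → K)), V.Finite ∧ (∀ W ∈ V, ∀ x ∈ W, eval x F = 0) ∧
    ∀ y : Fin (n + 1) → K, y ≠ 0 → eval y F = 0 →
      localIdeal σ {F} (sv σ y) = {f | F ∣ f} ∨
      ∃ A ⊆ V, localIdeal σ {F} (sv σ y) = {f | ∀ W ∈ A, ∀ x ∈ W, eval x f = 0}

variable {σ : K →+* L} {F : MvPolynomial (Fin (n + 1)) K}

theorem linRat_of_all (h : ∀ y : Fin (n + 1) → K, y ≠ 0 → eval y F = 0 →
    localIdeal σ {F} (sv σ y) = {f | F ∣ f}) : LinRat σ F :=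
  ⟨∅, Set.finite_empty, fun W hW => absurd hW (Set.notMem_empty W),
    fun y hy0 hy => Or.inl (h y hy0 hy)⟩

theorem dvd_mem_localIdeal {k : ℕ} (hF : F.IsHomogeneous k) (x : Fin (n + 1) → L)
    {f : MvPolynomial (Fin (n + 1)) K} (h : F ∣ f) : f ∈ localIdeal σ {F} x := by
  obtain ⟨g, rfl⟩ := h
  refine ⟨Set.univ, Filter.univ_mem, ?_⟩
  intro z _ hz _ s
  rw [map_mul, eval_smul_hom hF, hz _ rfl, mul_zero, zero_mul]

/-- The statement at rational points implies the statement at all points. -/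
theorem LinRat.all {k : ℕ} (hF : F.IsHomogeneous k) (h : LinRat σ F) :
    ∃ V : Set (Submodule K (Fin (n + 1) → K)), V.Finite ∧ (∀ W ∈ V, ∀ x ∈ W, eval x F = 0) ∧
      ∀ x : Fin (n + 1) → L, localIdeal σ {F} x = {f | F ∣ f} ∨
        ∃ A ⊆ V, localIdeal σ {F} x = {f | ∀ W ∈ A, ∀ y ∈ W, eval y f = 0} := by
  obtain ⟨V, hV, hVF, hy⟩ := h
  refine ⟨V, hV, hVF, ?_⟩
  intro x
  obtain ⟨U, hU, hxU, hJ⟩ := exists_stable (σ := σ) (S := {F}) x
  have hJ' := hJ.trans (ptIdeal_eq_iInter hU)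
  by_cases hex : ∃ y : Fin (n + 1) → K, y ≠ 0 ∧ (∀ g ∈ ({F} : Set _), eval y g = 0) ∧
      (∃ c : L, c ≠ 0 ∧ (fun i => c * σ (y i)) ∈ U) ∧
      localIdeal σ {F} (sv σ y) = {f | F ∣ f}
  · left
    obtain ⟨y, hy0, hyS, hyU, hyJ⟩ := hex
    ext f
    constructor
    · intro hf
      rw [hJ'] at hf
      have := hf _ ⟨y, hy0, hyS, hyU, rfl⟩
      have h2 : f ∈ localIdeal σ {F} (sv σ y) := this
      rwa [hyJ] at h2
    · intro hf
      exact dvd_mem_localIdeal hF x hf
  · right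
    push Not at hex
    have hA : ∀ y : Fin (n + 1) → K, y ≠ 0 → (∀ g ∈ ({F} : Set _), eval y g = 0) →
        (∃ c : L, c ≠ 0 ∧ (fun i => c * σ (y i)) ∈ U) → ∃ A ⊆ V,
          localIdeal σ {F} (sv σ y) = {f | ∀ W ∈ A, ∀ x ∈ W, eval x f = 0} :=
      fun y hy0 hyS hyU => (hy y hy0 (hyS _ rfl)).resolve_left (hex y hy0 hyS hyU)
    choose! A hAV hAJ using hA
    refine ⟨{W | ∃ y : Fin (n + 1) → K, y ≠ 0 ∧ (∀ g ∈ ({F} : Set _), eval y g = 0) ∧
      (∃ c : L, c ≠ 0 ∧ (fun i => c * σ (y i)) ∈ U) ∧ W ∈ A y}, ?_, ?_⟩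
    · rintro W ⟨y, hy0, hyS, hyU, hW⟩
      exact hAV y hy0 hyS hyU hW
    · rw [hJ']
      ext f
      constructor
      · rintro hf W ⟨y, hy0, hyS, hyU, hW⟩ z hz
        have h1 : f ∈ localIdeal σ {F} (sv σ y) := hf _ ⟨y, hy0, hyS, hyU, rfl⟩
        rw [hAJ y hy0 hyS hyU] at h1
        exact h1 W hW z hz
      · rintro hf J ⟨y, hy0, hyS, hyU, rfl⟩
        show f ∈ localIdeal σ {F} (sv σ y)
        rw [hAJ y hy0 hyS hyU]
        intro W hW z hz
        exact hf W ⟨y, hy0, hyS, hyU, hW⟩ z hz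

theorem finite_of_struct {V : Set (Submodule K (Fin (n + 1) → K))} (hV : V.Finite)
    (h : ∀ x : Fin (n + 1) → L, localIdeal σ {F} x = {f | F ∣ f} ∨
        ∃ A ⊆ V, localIdeal σ {F} x = {f | ∀ W ∈ A, ∀ y ∈ W, eval y f = 0}) :
    FinitelyMany σ {F} := by
  refine ((hV.powerset.image fun A : Set (Submodule K (Fin (n + 1) → K)) =>
    {f : MvPolynomial (Fin (n + 1)) K | ∀ W ∈ A, ∀ y ∈ W, eval y f = 0}).union
    (Set.finite_singleton {f | F ∣ f})).subset ?_
  rintro J ⟨x, _, _, rfl⟩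
  rcases h x with h1 | ⟨A, hA, h1⟩
  · right; exact h1
  · left; exact ⟨A, hA, h1.symm⟩

end Def

section Forms

variable {n : ℕ} {K : Type} [Field K]

/-- A linear form vanishing on a subspace and not at a given vector outside. -/
theorem exists_linear_form' (W : Submodule K (Fin n → K)) {v : Fin n → K} (hv : v ∉ W) :
    ∃ l : MvPolynomial (Fin n) K, l.IsHomogeneous 1 ∧ eval v l ≠ 0 ∧ ∀ x ∈ W, eval x l = 0 := by
  classical
  obtain ⟨f, hfv, hfW⟩ := Submodule.exists_dual_map_eq_bot_of_notMem hv inferInstance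
  have hl : ∀ x, eval x (∑ i, C (f (Pi.single i 1)) * X i) = f x := by
    intro x
    have h1 : f x = ∑ i, x i * f (Pi.single i 1) := by
      conv_lhs => rw [← Finset.univ_sum_single x]
      rw [map_sum]
      refine Finset.sum_congr rfl fun i _ => ?_
      have : (Pi.single i (x i) : Fin n → K) = x i • Pi.single i 1 := by
        rw [← Pi.single_smul, smul_eq_mul, mul_one]
      rw [this, map_smul, smul_eq_mul]
    rw [map_sum, h1]
    refine Finset.sum_congr rfl fun i _ => ?_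
    rw [map_mul, eval_C, eval_X]
    ring
  refine ⟨∑ i, C (f (Pi.single i 1)) * X i,
    IsHomogeneous.sum _ _ _ fun _ _ => isHomogeneous_C_mul_X _ _, ?_, ?_⟩
  · rw [hl]; exact hfv
  · intro x hx
    rw [hl]
    have : f x ∈ W.map f := Submodule.mem_map_of_mem hx
    rwa [hfW, Submodule.mem_bot] at this

/-- A finite set of ideals contains the ideals of finitely many linear spaces. -/
theorem finite_subspaces {P : Set (Ideal (MvPolynomial (Fin n) K))} (hP : P.Finite) :
    {N : Submodule K (Fin n → K) | ∃ I ∈ P,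
      (I : Set (MvPolynomial (Fin n) K)) = {f | ∀ x ∈ N, eval x f = 0}}.Finite := by
  have h1 : ((fun N : Submodule K (Fin n → K) =>
      {f : MvPolynomial (Fin n) K | ∀ x ∈ N, eval x f = 0}) ⁻¹'
      ((fun I : Ideal (MvPolynomial (Fin n) K) => (I : Set (MvPolynomial (Fin n) K))) '' P)).Finite
      := by
    refine Set.Finite.preimage ?_ (hP.image _)
    intro N _ N' _ hNN
    have h2 : ∀ N N' : Submodule K (Fin n → K),
        {f : MvPolynomial (Fin n) K | ∀ x ∈ N, eval x f = 0}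
          = {f : MvPolynomial (Fin n) K | ∀ x ∈ N', eval x f = 0} → N ≤ N' := by
      intro N N' h x hx
      by_contra hx'
      obtain ⟨l, _, hl, hl0⟩ := exists_linear_form' N' hx'
      have h3 : l ∈ {f : MvPolynomial (Fin n) K | ∀ x ∈ N', eval x f = 0} := hl0
      rw [← h] at h3
      exact hl (h3 x hx)
    exact le_antisymm (h2 N N' hNN) (h2 N' N hNN.symm)
  refine h1.subset ?_
  rintro N ⟨I, hI, hIN⟩
  exact ⟨I, hI, hIN⟩

end Forms

end Pool.Agent.MazurT
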