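import Mathlib
import Pool.Agent.MazurT.LinDef

/-!
Local Zariski closures when the hypersurface is parametrised.
-/

namespace Pool.Agent.MazurT

open MvPolynomial Topology Pool.Agent.MazurC

section Case

variable {n : ℕ} {K : Type} [Field K] [CharZero K] {L : Type} [NontriviallyNormedField L]
  {σ : K →+* L} {t : Fin (n + 1) → Fin (n + 1) → Fin (n + 1) → K}

theorem exists_small (hσ : DenseRange σ) {m : ℕ} {y v : Fin m → K} (hy0 : y ≠ 0)
    {U : Set (Fin m → L)} (hU : U ∈ 𝓝 (sv σ y)) :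
    ∃ e : K, e ≠ 0 ∧ y + e • v ≠ 0 ∧ Near σ U (y + e • v) := by
  have hsy : sv σ y ≠ 0 := fun h => hy0 ((sv_eq_zero σ).1 h)
  have hcont : Continuous fun e : L => sv σ y + e • sv σ v := by fun_prop
  have hV : (fun e : L => sv σ y + e • sv σ v) ⁻¹' (U ∩ {w | w ≠ 0}) ∈ 𝓝 (0 : L) := by
    apply hcont.continuousAt.preimage_mem_nhds
    have : sv σ y + (0 : L) • sv σ v = sv σ y := by rw [zero_smul, add_zero]
    rw [this]
    exact Filter.inter_mem hU (isOpen_ne.mem_nhds hsy)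
  have hinf := infinite_preimage hσ hV 0
  obtain ⟨e, he, he0⟩ := hinf.exists_notMem_finset {0}
  rw [Finset.mem_singleton] at he0
  have he' : sv σ y + σ e • sv σ v ∈ U ∩ {w | w ≠ 0} := by
    have : σ e - 0 ∈ (fun e : L => sv σ y + e • sv σ v) ⁻¹' (U ∩ {w | w ≠ 0}) := he
    rwa [sub_zero] at this
  have e1 : sv σ (y + e • v) = sv σ y + σ e • sv σ v := by
    funext i; simp [sv]
  refine ⟨e, he0, ?_, 1, one_ne_zero, ?_⟩
  · intro h
    apply he'.2
    rw [← e1, h]
    exact (sv_eq_zero σ).2 rfl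
  · rw [one_smul, e1]
    exact he'.1

theorem localIdeal_of_smooth_near (ht : Sym t) (hirr : Irreducible (cub t))
    (hσ : DenseRange σ) {κ : Type} [Finite κ] (p : Param t κ) {y : Fin (n + 1) → L}
    (h : ∀ U ∈ 𝓝 y, ∃ x : Fin (n + 1) → K, x ≠ 0 ∧ B t x x x = 0 ∧ (∃ w, B t x x w ≠ 0) ∧
      Near σ U x) : localIdeal σ {cub t} y = {f | cub t ∣ f} := by
  apply localIdeal_of_om
  intro U hU
  obtain ⟨x, _, hx, hxs, hnear⟩ := h U hU
  exact ⟨x, hnear, p.om_smooth ht hirr hσ hx hxs⟩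

theorem Param.exists_smooth_point (ht : Sym t) (hirr : Irreducible (cub t)) {κ : Type}
    (p : Param t κ) : ∃ x : Fin (n + 1) → K, B t x x x = 0 ∧ ∃ w, B t x x w ≠ 0 := by
  obtain ⟨i, hi⟩ := exists_smooth ht hirr
  have h1 : eval₂ C p.G (quadA t (Pi.single i 1)) ≠ 0 := fun h =>
    hi (p.dom 2 _ (quadA_hom t _) h)
  obtain ⟨ρ, hρ⟩ := exists_eval_ne h1
  refine ⟨fun i => eval ρ (p.G i), p.zero ρ, Pi.single i 1, ?_⟩
  rw [hom_eval₂'] at hρ
  have e1 : (eval ρ).comp (C : K →+* MvPolynomial κ K) = RingHom.id K := by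
    ext1 c; simp
  rw [e1] at hρ
  rw [← eval_quadA]
  exact hρ

theorem B_vertex {m : ℕ} {M : Type*} [CommRing M] [IsDomain M] [CharZero M]
    {t : Fin m → Fin m → Fin m → M} (ht : Sym t) {y : Fin m → M}
    (hv : ∀ z, B t y z z = 0) (a b : Fin m → M) : B t y a b = 0 := by
  have h1 := hv (a + b)
  rw [B_add_mid ht, B_add_right ht, B_add_right ht, hv, hv, B_swap23 ht y b a] at h1
  have h2 : (2 : M) * B t y a b = 0 := by rw [← h1]; ring
  rcases mul_eq_zero.1 h2 with h3 | h3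
  · norm_num at h3
  · exact h3

theorem singular_case (ht : Sym t) (hirr : Irreducible (cub t)) (hσ : DenseRange σ)
    [ProperSpace L] {y : Fin (n + 1) → K} (hy : ∀ w, B t y y w = 0) (hy0 : y ≠ 0)
    (hv : ∃ z, B t y z z ≠ 0) {U : Set (Fin (n + 1) → L)} (hU : U ∈ 𝓝 (sv σ y))
    (hUs : ∀ x : Fin (n + 1) → K, x ≠ 0 → B t x x x = 0 → Near σ U x → ∀ w, B t x x w = 0) :
    ∃ N : Submodule K (Fin (n + 1) → K), (∀ x ∈ N, B t x x x = 0) ∧
      localIdeal σ {cub t} (sv σ y) = {f | ∀ x ∈ N, eval x f = 0} ∧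
      ∃ I ∈ (singIdeal t).minimalPrimes,
        (I : Set (MvPolynomial (Fin (n + 1)) K)) = {f | ∀ x ∈ N, eval x f = 0} := by
  have hzero : ∀ z : Fin (n + 1) → L, B (tm σ t) (sv σ y) z z = 0 → B (tm σ t) z z z = 0 := by
    intro z hz
    by_contra hz2
    obtain ⟨x, hx0, hx, ⟨w, hw⟩, hnear⟩ := exists_smooth_near ht hirr hσ hy hy0 hv hz hz2 hU
    exact hw (hUs x hx0 hx hnear w)
  have haniso : ∀ z : Fin (n + 1) → L, B (tm σ t) (sv σ y) z z = 0 →
      ∀ w, B (tm σ t) (sv σ y) z w = 0 := fun z hz w =>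
    anisotropic ht hirr hσ hv hzero hz w
  have hker : ∀ v, (∀ w, B t y v w = 0) → ∀ w, B t v v w = 0 := by
    intro v hv' w
    have hFv : B t v v v = 0 := by
      have h1 : B (tm σ t) (sv σ y) (sv σ v) (sv σ v) = 0 := by
        rw [B_sv, hv', map_zero]
      have h2 := hzero _ h1
      rw [B_sv] at h2
      exact (map_eq_zero σ).1 h2
    obtain ⟨e, he0, hx0, hnear⟩ := exists_small (v := v) hσ hy0 hU
    have hx : B t (y + e • v) (y + e • v) (y + e • v) = 0 := by
      have := B_comb3 ht 1 e y v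
      rw [one_smul] at this
      rw [this, hy, hy, hv', hFv]
      ring
    have h3 := hUs _ hx0 hx hnear w
    have h4 := B_comb2 ht 1 e y v w
    rw [one_smul, h3, hy, hv'] at h4
    have h5 : e ^ 2 * B t v v w = 0 := by linear_combination -h4
    rcases mul_eq_zero.1 h5 with h6 | h6
    · exact absurd h6 (pow_ne_zero 2 he0)
    · exact h6
  obtain ⟨V, hV, hVx⟩ := near_mem_ker ht hσ hy hker haniso
  obtain ⟨I, hI, hIe⟩ := exists_minimalPrime ht hy hker
  refine ⟨kerN ht y, fun x hx => hker x hx x, ?_, I, hI, hIe⟩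
  refine localIdeal_subspace hσ (kerN ht y) ?_ (fun w => hy w) hy0 hV ?_
  · intro x hx g hg
    rw [Set.mem_singleton_iff.1 hg, eval_cub]
    exact hker x hx x
  · intro x _ hx hnear
    refine hVx x ?_ hnear
    rw [← eval_cub]
    exact hx _ rfl

theorem rat_of_param (ht : Sym t) (hirr : Irreducible (cub t)) (hσ : DenseRange σ)
    [ProperSpace L] {κ : Type} [Finite κ] (p : Param t κ) : LinRat σ (cub t) := by
  refine ⟨{N | (∀ x ∈ N, B t x x x = 0) ∧ ∃ I ∈ (singIdeal t).minimalPrimes,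
    (I : Set (MvPolynomial (Fin (n + 1)) K)) = {f | ∀ x ∈ N, eval x f = 0}},
    (finite_subspaces (finite_minimalPrimes t)).subset fun N hN => hN.2,
    fun N hN x hx => by rw [eval_cub]; exact hN.1 x hx, ?_⟩
  intro y hy0 hyS
  have hy : B t y y y = 0 := by
    rw [← eval_cub]
    exact hyS
  by_cases hsm : ∀ U ∈ 𝓝 (sv σ y), ∃ x : Fin (n + 1) → K, x ≠ 0 ∧ B t x x x = 0 ∧
      (∃ w, B t x x w ≠ 0) ∧ Near σ U x
  · left
    exact localIdeal_of_smooth_near ht hirr hσ p hsm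
  · push Not at hsm
    obtain ⟨U, hU, hUs⟩ := hsm
    have hUs' : ∀ x : Fin (n + 1) → K, x ≠ 0 → B t x x x = 0 → Near σ U x →
        ∀ w, B t x x w = 0 := by
      intro x hx0 hx hnear w
      by_contra hw
      exact hUs x hx0 hx ⟨w, hw⟩ hnear
    have hys : ∀ w, B t y y w = 0 := hUs' y hy0 hy
      ⟨1, one_ne_zero, by rw [one_smul]; exact mem_of_mem_nhds hU⟩
    by_cases hv : ∃ z, B t y z z ≠ 0
    · right
      obtain ⟨N, hN, hNe, hI⟩ := singular_case ht hirr hσ hys hy0 hv hU hUs'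
      refine ⟨{N}, Set.singleton_subset_iff.2 ⟨hN, hI⟩, ?_⟩
      rw [hNe]
      ext f
      simp
    · exfalso
      push Not at hv
      obtain ⟨x, hx, w, hw⟩ := p.exists_smooth_point ht hirr
      obtain ⟨e, he0, hx0, hnear⟩ := exists_small (v := x) hσ hy0 hU
      have h1 : B t (y + e • x) (y + e • x) (y + e • x) = 0 := by
        have := B_comb3 ht 1 e y x
        rw [one_smul] at this
        rw [this, hys, hys, hv, hx]
        ring
      have h2 := hUs' _ hx0 h1 hnear w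
      have h3 := B_comb2 ht 1 e y x w
      rw [one_smul, h2, hys, B_vertex ht hv] at h3
      have h5 : e ^ 2 * B t x x w = 0 := by linear_combination -h3
      rcases mul_eq_zero.1 h5 with h6 | h6
      · exact pow_ne_zero 2 he0 h6
      · exact hw h6

end Case

end Pool.Agent.MazurT
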