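import Mathlib
import Pool.Agent.MazurT.CaseParam

/-!
Rational points forming a finite union of linear spaces.
-/

namespace Pool.Agent.MazurT

open MvPolynomial Topology Pool.Agent.MazurC

section Union

variable {n : ℕ} {K : Type} [Field K] {L : Type} [NontriviallyNormedField L] {σ : K →+* L}

theorem exists_nhds_not_near {m : ℕ} (W : Submodule K (Fin m → K)) {y : Fin m → K}
    (hy : y ∉ W) : ∃ U : Set (Fin m → L), IsOpen U ∧ sv σ y ∈ U ∧ ∀ x ∈ W, ¬ Near σ U x := by
  classical
  obtain ⟨f, hfy, hfW⟩ := Submodule.exists_dual_map_eq_bot_of_notMem hy inferInstance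
  have hf0 : ∀ x ∈ W, f x = 0 := by
    intro x hx
    have : f x ∈ W.map f := Submodule.mem_map_of_mem hx
    rwa [hfW, Submodule.mem_bot] at this
  let g : (Fin m → L) → L := fun u => ∑ i, σ (f (Pi.single i 1)) * u i
  have hg : ∀ x : Fin m → K, g (sv σ x) = σ (f x) := by
    intro x
    have h1 : f x = ∑ i, f (Pi.single i 1) * x i := by
      conv_lhs => rw [← Finset.univ_sum_single x]
      rw [map_sum]
      refine Finset.sum_congr rfl fun i _ => ?_
      have : (Pi.single i (x i) : Fin m → K) = x i • Pi.single i 1 := by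
        rw [← Pi.single_smul, smul_eq_mul, mul_one]
      rw [this, map_smul, smul_eq_mul, mul_comm]
    rw [h1, map_sum]
    refine Finset.sum_congr rfl fun i _ => ?_
    rw [map_mul]
    rfl
  have hgc : Continuous g := by fun_prop
  refine ⟨{u | g u ≠ 0}, isOpen_ne.preimage hgc, ?_, ?_⟩
  · show g (sv σ y) ≠ 0
    rw [hg]
    exact (map_ne_zero σ).2 hfy
  · rintro x hx ⟨c, _, hc⟩
    apply hc
    have : g (c • sv σ x) = c * g (sv σ x) := by
      simp only [g, Pi.smul_apply, smul_eq_mul, Finset.mul_sum]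
      refine Finset.sum_congr rfl fun i _ => ?_
      ring
    rw [this, hg, hf0 x hx, map_zero, mul_zero]

/-- If the rational points form a finite union of linear spaces then the local ideals at the
rational points take finitely many values. -/
theorem rat_of_subspaces [CharZero K] (hσ : DenseRange σ)
    {F : MvPolynomial (Fin (n + 1)) K} {k : ℕ} (hF : F.IsHomogeneous (k + 1))
    {ι : Type*} [Finite ι] (W : ι → Submodule K (Fin (n + 1) → K))
    (hW : ∀ x : Fin (n + 1) → K, x ≠ 0 → (eval x F = 0 ↔ ∃ i, x ∈ W i)) :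
    LinRat σ F := by
  classical
  refine ⟨Set.range W, Set.finite_range W, ?_, ?_⟩
  · rintro _ ⟨i, rfl⟩ x hx
    by_cases hx0 : x = 0
    · have := eval_smul_hom hF (0 : K) (0 : Fin (n + 1) → K)
      rw [zero_smul, zero_pow (Nat.succ_ne_zero k), zero_mul] at this
      rw [hx0]
      exact this
    · exact (hW x hx0).2 ⟨i, hx⟩
  intro y hy0 hyS
  right
  refine ⟨W '' {i | y ∈ W i}, Set.image_subset_range _ _, ?_⟩
  symm
  ext f
  constructor
  · intro hf'
    have hf : ∀ i, y ∈ W i → ∀ x ∈ W i, eval x f = 0 := fun i hi x hx =>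
      hf' (W i) ⟨i, hi, rfl⟩ x hx
    have h1 : ∀ i, ∃ U : Set (Fin (n + 1) → L), U ∈ 𝓝 (sv σ y) ∧
        (y ∉ W i → ∀ x ∈ W i, ¬ Near σ U x) := by
      intro i
      by_cases hi : y ∈ W i
      · exact ⟨Set.univ, Filter.univ_mem, fun h => absurd hi h⟩
      · obtain ⟨U, hU, hyU, h⟩ := exists_nhds_not_near (σ := σ) (W i) hi
        exact ⟨U, hU.mem_nhds hyU, fun _ => h⟩
    choose U hU hUx using h1
    refine ⟨⋂ i, U i, Filter.iInter_mem.2 hU, ?_⟩
    intro x hx0 hxS hnear s
    obtain ⟨i, hi⟩ := (hW x hx0).1 (hxS _ rfl)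
    have hyi : y ∈ W i := by
      by_contra hyi
      exact hUx i hyi x hi (Near.mono (Set.iInter_subset U i) hnear)
    exact hf i hyi _ ((W i).smul_mem s hi)
  · rintro ⟨U, hU, hf⟩ _ ⟨i, hi, rfl⟩
    refine vanish_subspace hσ (W i) hi hy0 hU ?_
    intro x hx hx0 hnear s
    refine hf x hx0 ?_ hnear s
    intro g hg
    rw [Set.mem_singleton_iff.1 hg]
    exact (hW x hx0).2 ⟨i, hx⟩

end Union

end Pool.Agent.MazurT
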