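import Mathlib
import Pool.Agent.MazurT.Subsp2

/-!
Cubic forms with polar forms of rank at most three.
-/

namespace Pool.Agent.MazurT

open MvPolynomial Topology Pool.Agent.MazurC

section Det

theorem det4 {R : Type*} [CommRing R] (M : Matrix (Fin 4) (Fin 4) R) : M.det =
    M 0 0 * (M 1 1 * (M 2 2 * M 3 3 - M 2 3 * M 3 2) - M 1 2 * (M 2 1 * M 3 3 - M 2 3 * M 3 1)
      + M 1 3 * (M 2 1 * M 3 2 - M 2 2 * M 3 1))
    - M 0 1 * (M 1 0 * (M 2 2 * M 3 3 - M 2 3 * M 3 2) - M 1 2 * (M 2 0 * M 3 3 - M 2 3 * M 3 0)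
      + M 1 3 * (M 2 0 * M 3 2 - M 2 2 * M 3 0))
    + M 0 2 * (M 1 0 * (M 2 1 * M 3 3 - M 2 3 * M 3 1) - M 1 1 * (M 2 0 * M 3 3 - M 2 3 * M 3 0)
      + M 1 3 * (M 2 0 * M 3 1 - M 2 1 * M 3 0))
    - M 0 3 * (M 1 0 * (M 2 1 * M 3 2 - M 2 2 * M 3 1) - M 1 1 * (M 2 0 * M 3 2 - M 2 2 * M 3 0)
      + M 1 2 * (M 2 0 * M 3 1 - M 2 1 * M 3 0)) := by
  rw [Matrix.det_succ_row_zero]
  simp [Fin.sum_univ_succ, Matrix.det_fin_three, Fin.succAbove]
  ring

variable {n : ℕ} {K : Type} [Field K] [CharZero K] {t : Fin n → Fin n → Fin n → K}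

theorem line_dvd (ht : Sym t) {a b : Fin 4 → Fin n → K} (h : cub t ∣ gm t a b)
    (y z : Fin n → K) :
    (Polynomial.C (B t y y y) + 3 * Polynomial.X * Polynomial.C (B t y y z)
      + 3 * Polynomial.X ^ 2 * Polynomial.C (B t y z z)
      + Polynomial.X ^ 3 * Polynomial.C (B t z z z)) ∣
    (Matrix.of fun i j => Polynomial.C (B t y (a i) (b j))
      + Polynomial.X * Polynomial.C (B t z (a i) (b j))).det := by
  have hT : Sym (tmap (Polynomial.C : K →+* Polynomial K) t) := sym_tmap Polynomial.C ht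
  have hC : ∀ a b c : Fin n → K, B (tmap Polynomial.C t) (cC a) (cC b) (cC c)
      = Polynomial.C (B t a b c) := by
    intro a b c
    rw [map_B]; rfl
  have h1 := map_dvd (eval₂Hom (Polynomial.C : K →+* Polynomial K)
    ((1 : Polynomial K) • cC y + (Polynomial.X : Polynomial K) • cC z)) h
  rw [coe_eval₂Hom, eval₂_cub, eval₂_gm, B_comb3 hT] at h1
  have e1 : (Matrix.of fun i j => B (tmap Polynomial.C t)
      ((1 : Polynomial K) • cC y + (Polynomial.X : Polynomial K) • cC z)
      (fun l => Polynomial.C (a i l)) (fun l => Polynomial.C (b j l)))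
      = Matrix.of fun i j => Polynomial.C (B t y (a i) (b j))
      + Polynomial.X * Polynomial.C (B t z (a i) (b j)) := by
    ext1 i j
    rw [Matrix.of_apply, Matrix.of_apply, B_add_left, B_smul_left, B_smul_left, one_mul]
    congr 1
    · exact hC y (a i) (b j)
    · congr 1
      exact hC z (a i) (b j)
  rw [e1, hC, hC, hC, hC] at h1
  convert h1 using 1
  ring

theorem eval_gm_zero {a b : Fin 4 → Fin n → K} (h : cub t ∣ gm t a b)
    {z : Fin n → K} (hz : B t z z z = 0) : (Matrix.of fun i j => B t z (a i) (b j)).det = 0 := by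
  obtain ⟨q, hq⟩ := h
  have h1 := congrArg (eval z) hq
  rw [map_mul, eval_cub, hz, zero_mul] at h1
  have h2 := eval₂_gm (RingHom.id K) t a b z
  rw [← h1]
  exact h2.symm

theorem dvd_X_eval {p : Polynomial K} (h : (Polynomial.X : Polynomial K) ∣ p) :
    Polynomial.eval 0 p = 0 := by
  obtain ⟨q, rfl⟩ := h
  simp

theorem aux1 {R : Type*} [CommRing R] [IsDomain R] {X : R} (hX : X ≠ 0)
    {β r1 r2 r3 c1 c2 c3 d11 d12 d13 d21 d22 d23 d31 d32 d33 : R}
    (h : X ^ 2 ∣ (!![X * β, X * r1, X * r2, X * r3; X * c1, d11, d12, d13;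
      X * c2, d21, d22, d23; X * c3, d31, d32, d33] : Matrix (Fin 4) (Fin 4) R).det) :
    X ∣ β * (d11 * (d22 * d33 - d23 * d32) - d12 * (d21 * d33 - d23 * d31)
      + d13 * (d21 * d32 - d22 * d31)) := by
  obtain ⟨q, hq⟩ := h
  rw [det4] at hq
  simp only [Matrix.of_apply, Matrix.cons_val_zero, Matrix.cons_val_one, Matrix.cons_val] at hq
  refine ⟨q + (r1 * ((d22 * d33 - d23 * d32) * c1 - (d12 * d33 - d13 * d32) * c2
    + (d12 * d23 - d13 * d22) * c3) + r2 * (-(d21 * d33 - d23 * d31) * c1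
    + (d11 * d33 - d13 * d31) * c2 - (d11 * d23 - d13 * d21) * c3)
    + r3 * ((d21 * d32 - d22 * d31) * c1 - (d11 * d32 - d12 * d31) * c2
    + (d11 * d22 - d12 * d21) * c3)), ?_⟩
  apply mul_left_cancel₀ hX
  linear_combination hq

theorem aux2 {R : Type*} [CommRing R] [IsDomain R] {X : R} (hX : X ≠ 0)
    {w w' u p1 p2 r1 r2 c11 c12 c21 c22 : R}
    (h : X ^ 3 ∣ (!![0, w, 0, 0; w', u, X * p1, X * p2;
      0, X * r1, X * c11, X * c12; 0, X * r2, X * c21, X * c22] : Matrix (Fin 4) (Fin 4) R).det) :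
    X ∣ w * w' * (c11 * c22 - c12 * c21) := by
  obtain ⟨q, hq⟩ := h
  rw [det4] at hq
  simp only [Matrix.of_apply, Matrix.cons_val_zero, Matrix.cons_val_one, Matrix.cons_val] at hq
  refine ⟨-q, ?_⟩
  apply mul_left_cancel₀ (pow_ne_zero 2 hX)
  linear_combination -hq

/-- First order information. -/
theorem first_order (ht : Sym t) (hdiv : ∀ a b, cub t ∣ gm t a b) {y v e n1 m1 z : Fin n → K}
    (hy : B t y y y = 0) (hn : ∀ w, B t y n1 w = 0) (hm : ∀ w, B t y m1 w = 0)
    (hz : B t y y z = 0) (hv : B t y y v = 0) (he : B t y y e ≠ 0) (hvv : B t y v v ≠ 0) :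
    B t z n1 m1 = 0 := by
  have h1 := line_dvd ht (hdiv ![n1, y, v, e] ![m1, y, v, e]) y z
  rw [hy, hz] at h1
  have k1 : B t y y m1 = 0 := by rw [B_swap23 ht, hm]
  have k2 : B t y v m1 = 0 := by rw [B_swap23 ht, hm]
  have k3 : B t y e m1 = 0 := by rw [B_swap23 ht, hm]
  have k4 : B t y v y = 0 := by rw [B_swap23 ht, hv]
  have k5 : B t y e y = B t y y e := by rw [B_swap23 ht]
  have k6 : B t y e v = B t y v e := by rw [B_swap23 ht]
  have hM : (Matrix.of fun i j =>
      Polynomial.C (B t y ((![n1, y, v, e] : Fin 4 → Fin n → K) i)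
        ((![m1, y, v, e] : Fin 4 → Fin n → K) j))
      + Polynomial.X * Polynomial.C (B t z ((![n1, y, v, e] : Fin 4 → Fin n → K) i)
        ((![m1, y, v, e] : Fin 4 → Fin n → K) j))) =
      !![Polynomial.X * Polynomial.C (B t z n1 m1), Polynomial.X * Polynomial.C (B t z n1 y),
        Polynomial.X * Polynomial.C (B t z n1 v), Polynomial.X * Polynomial.C (B t z n1 e);
        Polynomial.X * Polynomial.C (B t z y m1), Polynomial.X * Polynomial.C (B t z y y),
        Polynomial.X * Polynomial.C (B t z y v),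
        Polynomial.C (B t y y e) + Polynomial.X * Polynomial.C (B t z y e);
        Polynomial.X * Polynomial.C (B t z v m1), Polynomial.X * Polynomial.C (B t z v y),
        Polynomial.C (B t y v v) + Polynomial.X * Polynomial.C (B t z v v),
        Polynomial.C (B t y v e) + Polynomial.X * Polynomial.C (B t z v e);
        Polynomial.X * Polynomial.C (B t z e m1),
        Polynomial.C (B t y y e) + Polynomial.X * Polynomial.C (B t z e y),
        Polynomial.C (B t y v e) + Polynomial.X * Polynomial.C (B t z e v),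
        Polynomial.C (B t y e e) + Polynomial.X * Polynomial.C (B t z e e)] := by
    ext1 i j
    fin_cases i <;> fin_cases j <;> simp [hn, hy, hv, k1, k2, k3, k4, k5, k6]
  have h2 : (Polynomial.X : Polynomial K) ^ 2 ∣ (Matrix.of fun i j =>
      Polynomial.C (B t y ((![n1, y, v, e] : Fin 4 → Fin n → K) i)
        ((![m1, y, v, e] : Fin 4 → Fin n → K) j))
      + Polynomial.X * Polynomial.C (B t z ((![n1, y, v, e] : Fin 4 → Fin n → K) i)
        ((![m1, y, v, e] : Fin 4 → Fin n → K) j))).det := by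
    refine dvd_trans ?_ h1
    refine ⟨3 * Polynomial.C (B t y z z) + Polynomial.X * Polynomial.C (B t z z z), ?_⟩
    rw [map_zero]
    ring
  rw [hM] at h2
  have h4 := dvd_X_eval (aux1 Polynomial.X_ne_zero h2)
  simp at h4
  rcases h4 with h5 | h5 | h5 | h5
  · exact h5
  · exact absurd h5 he
  · exact absurd h5 hvv
  · exact absurd h5 he

/-- Second order information. -/
theorem second_order (ht : Sym t) (hdiv : ∀ a b, cub t ∣ gm t a b)
    {y e n1 n2 m1 m2 z : Fin n → K}
    (hy : B t y y y = 0) (hn1 : ∀ w, B t y n1 w = 0) (hn2 : ∀ w, B t y n2 w = 0)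
    (hm1 : ∀ w, B t y m1 w = 0) (hm2 : ∀ w, B t y m2 w = 0)
    (hz : B t y y z = 0) (hzz : B t y z z = 0) (he : B t y y e ≠ 0) :
    B t z n1 m1 * B t z n2 m2 = B t z n1 m2 * B t z n2 m1 := by
  have h1 := line_dvd ht (hdiv ![y, e, n1, n2] ![y, e, m1, m2]) y z
  rw [hy, hz, hzz] at h1
  have k1 : ∀ w, B t y w n1 = 0 := fun w => by rw [B_swap23 ht, hn1]
  have k2 : ∀ w, B t y w n2 = 0 := fun w => by rw [B_swap23 ht, hn2]
  have k3 : ∀ w, B t y w m1 = 0 := fun w => by rw [B_swap23 ht, hm1]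
  have k4 : ∀ w, B t y w m2 = 0 := fun w => by rw [B_swap23 ht, hm2]
  have k5 : B t y e y = B t y y e := by rw [B_swap23 ht]
  have k6 : B t z y y = 0 := by rw [B_swap12 ht, B_swap23 ht, hz]
  have k7 : B t z y m1 = 0 := by rw [B_swap12 ht, B_swap23 ht, hm1]
  have k8 : B t z y m2 = 0 := by rw [B_swap12 ht, B_swap23 ht, hm2]
  have k9 : B t z n1 y = 0 := by rw [B_swap23 ht, B_swap12 ht, B_swap23 ht, hn1]
  have k10 : B t z n2 y = 0 := by rw [B_swap23 ht, B_swap12 ht, B_swap23 ht, hn2]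
  have hM : (Matrix.of fun i j =>
      Polynomial.C (B t y ((![y, e, n1, n2] : Fin 4 → Fin n → K) i)
        ((![y, e, m1, m2] : Fin 4 → Fin n → K) j))
      + Polynomial.X * Polynomial.C (B t z ((![y, e, n1, n2] : Fin 4 → Fin n → K) i)
        ((![y, e, m1, m2] : Fin 4 → Fin n → K) j))) =
      !![0, Polynomial.C (B t y y e) + Polynomial.X * Polynomial.C (B t z y e), 0, 0;
        Polynomial.C (B t y y e) + Polynomial.X * Polynomial.C (B t z e y),
        Polynomial.C (B t y e e) + Polynomial.X * Polynomial.C (B t z e e),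
        Polynomial.X * Polynomial.C (B t z e m1), Polynomial.X * Polynomial.C (B t z e m2);
        0, Polynomial.X * Polynomial.C (B t z n1 e),
        Polynomial.X * Polynomial.C (B t z n1 m1), Polynomial.X * Polynomial.C (B t z n1 m2);
        0, Polynomial.X * Polynomial.C (B t z n2 e),
        Polynomial.X * Polynomial.C (B t z n2 m1), Polynomial.X * Polynomial.C (B t z n2 m2)] := by
    ext1 i j
    fin_cases i <;> fin_cases j <;>
      simp [hn1, hn2, hy, k1, k2, k3, k4, k5, k6, k7, k8, k9, k10]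
  have h2 : (Polynomial.X : Polynomial K) ^ 3 ∣ (Matrix.of fun i j =>
      Polynomial.C (B t y ((![y, e, n1, n2] : Fin 4 → Fin n → K) i)
        ((![y, e, m1, m2] : Fin 4 → Fin n → K) j))
      + Polynomial.X * Polynomial.C (B t z ((![y, e, n1, n2] : Fin 4 → Fin n → K) i)
        ((![y, e, m1, m2] : Fin 4 → Fin n → K) j))).det := by
    refine dvd_trans ?_ h1
    refine ⟨Polynomial.C (B t z z z), ?_⟩
    rw [map_zero]
    ring
  rw [hM] at h2
  have h4 := dvd_X_eval (aux2 Polynomial.X_ne_zero h2)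
  simp at h4
  rcases h4 with h5 | h5
  · exact absurd h5 he
  · linear_combination h5

end Det

end Pool.Agent.MazurT
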