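import Mathlib
import Pool.Agent.MazurT.Rank3

/-!
Cubic forms with polar forms of rank at most three: the rational points.
-/

namespace Pool.Agent.MazurT

open MvPolynomial Topology Pool.Agent.MazurC

section Good

variable {n : ℕ} {K : Type} [Field K] [CharZero K] {t : Fin n → Fin n → Fin n → K}

theorem good_xi (ht : Sym t) (hdiv : ∀ a b, cub t ∣ gm t a b) {y v e m : Fin n → K}
    (hy : B t y y y = 0) (hv : B t y y v = 0) (hvv : B t y v v ≠ 0)
    (hm : ∀ w, B t y m w = 0) (hvm : B t v m m = 0) (hmm : B t m m m = 0) {γ : K}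
    (hγ : B t v v m = γ * B t y v v) (c : K) :
    B t v m e + c * B t m m e
      - γ * (B t v y e + (-(c * γ) - B t v v v / (3 * B t y v v)) * B t y y e) = 0 := by
  obtain ⟨a, ha⟩ : ∃ a, a = -(c * γ) - B t v v v / (3 * B t y v v) := ⟨_, rfl⟩
  rw [← ha]
  have hm1 : ∀ w, B t m y w = 0 := fun w => by rw [B_swap12 ht, hm]
  have hm2 : ∀ w, B t y w m = 0 := fun w => by rw [B_swap23 ht, hm]
  have hm3 : ∀ w, B t w m y = 0 := fun w => by rw [B_swap23 ht, B_swap12 ht, hm2]
  have hm4 : ∀ w, B t w y m = 0 := fun w => by rw [B_swap23 ht, hm3]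
  have hm5 : ∀ w, B t m w y = 0 := fun w => by rw [B_swap23 ht, hm1]
  have hy1 : B t v y y = 0 := by rw [B_swap12 ht, B_swap23 ht, hv]
  have hk1 : B t v y v = B t y v v := by rw [B_swap12 ht]
  have hk2 : B t v v y = B t y v v := by rw [B_swap23 ht, hk1]
  obtain ⟨z, hz⟩ : ∃ z, z = (v + a • y) + c • m := ⟨_, rfl⟩
  have hF : B t z z z = 0 := by
    have h1 := B_comb3 ht 1 c (v + a • y) m
    have h2 := B_comb3 ht 1 a v y
    have h3 := B_comb2 ht 1 a v y m
    rw [one_smul] at h1 h2 h3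
    rw [hz, h1, h2, h3, B_add_left, B_smul_left, hvm, hmm, hk2, hy1, hy, hm4, hm2, hm, hγ]
    have h4 : a * (3 * B t y v v) = -(c * γ) * (3 * B t y v v) - B t v v v := by
      rw [ha, sub_mul, div_mul_cancel₀]
      exact mul_ne_zero three_ne_zero hvv
    linear_combination h4
  have hzB : ∀ p q, B t z p q = B t v p q + a * B t y p q + c * B t m p q := by
    intro p q
    rw [hz, B_add_left, B_add_left, B_smul_left, B_smul_left]
  have hmv : B t m m v = 0 := by
    rw [B_swap23 ht, B_swap12 ht, hvm]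
  have e1 : B t z m m = 0 := by rw [hzB, hvm, hm, hmm]; ring
  have e2 : B t z y y = 0 := by rw [hzB, hy1, hy, hm1]; ring
  have e3 : B t z m v = γ * B t y v v := by
    rw [hzB, hm, hmv, B_swap23 ht v m v, hγ]; ring
  have e4 : B t z y v = B t y v v := by rw [hzB, hk1, hv, hm1]; ring
  have e5 : B t z m e = B t v m e + c * B t m m e := by rw [hzB, hm]; ring
  have e6 : B t z y e = B t v y e + a * B t y y e := by rw [hzB, hm1]; ring
  have e7 : B t z m y = 0 := by rw [hzB, hm3, hm, hm5]; ring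
  have e8 : B t z y m = 0 := by rw [B_swap23 ht, e7]
  have hs1 : ∀ q, B t z (m - γ • y) q = B t z m q - γ * B t z y q := by
    intro q
    rw [sub_eq_add_neg, B_add_mid ht, ← neg_smul, B_smul_mid ht]
    ring
  obtain ⟨s1, hs⟩ : ∃ s1, s1 = m - γ • y := ⟨_, rfl⟩
  rw [← hs] at hs1
  have f1 : B t z s1 y = 0 := by rw [hs1, e7, e2]; ring
  have f2 : B t z s1 v = 0 := by rw [hs1, e3, e4]; ring
  have f3 : B t z s1 e = B t v m e + c * B t m m e
      - γ * (B t v y e + a * B t y y e) := by rw [hs1, e5, e6]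
  have f4 : B t z s1 m = 0 := by rw [hs1, e1, e8]; ring
  have f5 : B t z s1 s1 = 0 := by
    rw [hs1, B_swap23 ht z m, f4, B_swap23 ht z y, f1]; ring
  have hdet := eval_gm_zero (hdiv ![s1, y, v, e] ![s1, y, v, e]) hF
  rw [det4] at hdet
  simp only [Matrix.of_apply, Matrix.cons_val_zero, Matrix.cons_val_one, Matrix.cons_val]
    at hdet
  rw [← f3]
  have g1 : B t z y s1 = 0 := by rw [B_swap23 ht, f1]
  have g2 : B t z v s1 = 0 := by rw [B_swap23 ht, f2]
  have g3 : B t z e s1 = B t z s1 e := by rw [B_swap23 ht]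
  have g4 : B t z v y = B t y v v := by rw [B_swap23 ht, e4]
  rw [f5, f1, f2, g1, g2, g3, g4, e2, e4] at hdet
  have h5 : (B t z s1 e) ^ 2 * (B t y v v) ^ 2 = 0 := by linear_combination hdet
  rcases mul_eq_zero.1 h5 with h6 | h6
  · exact pow_eq_zero_iff two_ne_zero |>.1 h6
  · exact absurd (pow_eq_zero_iff two_ne_zero |>.1 h6) hvv

/-- A point of general type forces a singular point. -/
theorem good_false (ht : Sym t) (hdiv : ∀ a b, cub t ∣ gm t a b)
    (hdim : ∀ f1 f2 f3 : (Fin n → K) →ₗ[K] K, ∃ w, f1 w = 0 ∧ f2 w = 0 ∧ f3 w = 0 ∧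
      ∃ z, B t w z z ≠ 0)
    (hsing : ∀ s, (∀ w, B t s s w = 0) → ∀ z, B t s z z = 0)
    {y v e : Fin n → K} (hy : B t y y y = 0) (hv : B t y y v = 0) (hvv : B t y v v ≠ 0)
    (he : B t y y e ≠ 0) : False := by
  obtain ⟨m, h1, h2, h3, z0, hz0⟩ := hdim (BL ht y y) (BL ht y v) (BL ht y e)
  have h1' : B t y y m = 0 := h1
  have h2' : B t y v m = 0 := h2
  have h3' : B t y e m = 0 := h3
  have hm : ∀ u, B t y m u = 0 := by
    intro u
    have hdet := eval_gm_zero (hdiv ![m, y, v, e] ![u, y, v, e]) hy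
    rw [det4] at hdet
    simp only [Matrix.of_apply, Matrix.cons_val_zero, Matrix.cons_val_one, Matrix.cons_val]
      at hdet
    have k1 : B t y m y = 0 := by rw [B_swap23 ht, h1']
    have k2 : B t y m v = 0 := by rw [B_swap23 ht, h2']
    have k3 : B t y m e = 0 := by rw [B_swap23 ht, h3']
    have k4 : B t y v y = 0 := by rw [B_swap23 ht, hv]
    have k5 : B t y e y = B t y y e := by rw [B_swap23 ht]
    rw [k1, k2, k3, k4, k5, hy, hv] at hdet
    have h5 : B t y m u * ((B t y y e) ^ 2 * B t y v v) = 0 := by linear_combination -hdet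
    rcases mul_eq_zero.1 h5 with h6 | h6
    · exact h6
    · exact absurd h6 (mul_ne_zero (pow_ne_zero 2 he) hvv)
  have hvm : B t v m m = 0 := first_order ht hdiv hy hm hm hv hv he hvv
  have hmm : B t m m m = 0 := first_order ht hdiv hy hm hm h1' hv he hvv
  obtain ⟨γ, hγ⟩ : ∃ γ, γ = B t v v m / B t y v v := ⟨_, rfl⟩
  have hγ' : B t v v m = γ * B t y v v := by rw [hγ, div_mul_cancel₀ _ hvv]
  have x0 := good_xi ht hdiv hy hv hvv hm hvm hmm hγ' (e := e) 0
  have x1 := good_xi ht hdiv hy hv hvv hm hvm hmm hγ' (e := e) 1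
  have hme : B t m m e = -(γ ^ 2 * B t y y e) := by linear_combination x1 - x0
  have hmz : ∀ z, B t m m z = -(γ ^ 2 * B t y y z) := by
    intro z
    have hz1 : B t y y (z + (-(B t y y z / B t y y e)) • e) = 0 := by
      rw [B_add_right ht, B_smul_right ht]
      field_simp
      ring
    have hz2 : B t (z + (-(B t y y z / B t y y e)) • e) m m = 0 :=
      first_order ht hdiv hy hm hm hz1 hv he hvv
    have hz3 : B t m m z = B t z m m := by rw [B_swap23 ht, B_swap12 ht]
    have hz4 : B t m m e = B t e m m := by rw [B_swap23 ht, B_swap12 ht]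
    rw [B_add_left, B_smul_left, ← hz3, ← hz4, hme] at hz2
    have hz5 : B t m m z + B t y y z / B t y y e * (γ ^ 2 * B t y y e) = 0 := by
      linear_combination hz2
    have hz6 : B t y y z / B t y y e * (γ ^ 2 * B t y y e) = γ ^ 2 * B t y y z := by
      field_simp
    rw [hz6] at hz5
    linear_combination hz5
  have hs : ∀ w, B t (γ • y + (1 : K) • m) (γ • y + (1 : K) • m) w = 0 := by
    intro w
    rw [B_comb2 ht, hm, hmz]
    ring
  have hs2 := B_vertex ht (hsing _ hs)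
  have hγ0 : γ = 0 := by
    have h5 := hs2 y e
    rw [B_add_left, B_smul_left, B_smul_left, B_swap12 ht m y e, hm] at h5
    have h6 : γ * B t y y e = 0 := by linear_combination h5
    rcases mul_eq_zero.1 h6 with h7 | h7
    · exact h7
    · exact absurd h7 he
  apply hz0
  have h8 := hs2 z0 z0
  rw [hγ0, zero_smul, zero_add, one_smul] at h8
  exact h8

end Good

section Flex

variable {n : ℕ} {K : Type} [Field K] [CharZero K] {t : Fin n → Fin n → Fin n → K}

/-- At a flex point, the tangent directions modulo the point lie in the kernel. -/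
theorem flex_ker (ht : Sym t) {y e : Fin n → K} (hy : B t y y y = 0)
    (he : B t y y e ≠ 0) (hflex : ∀ v, B t y y v = 0 → B t y v v = 0) {z : Fin n → K}
    (hz : B t y y z = 0) :
    ∀ w, B t y (z + (-(B t y z e / B t y y e)) • y) w = 0 := by
  have hpol : ∀ v w, B t y y v = 0 → B t y y w = 0 → B t y v w = 0 := by
    intro v w hv hw
    have h1 := hflex (v + w) (by rw [B_add_right ht, hv, hw, add_zero])
    rw [B_add_mid ht, B_add_right ht, B_add_right ht, hflex v hv, hflex w hw,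
      B_swap23 ht y w v] at h1
    have h2 : (2 : K) * B t y v w = 0 := by rw [← h1]; ring
    rcases mul_eq_zero.1 h2 with h3 | h3
    · norm_num at h3
    · exact h3
  intro w
  obtain ⟨m, hm⟩ : ∃ m, m = z + (-(B t y z e / B t y y e)) • y := ⟨_, rfl⟩
  rw [← hm]
  have hm1 : B t y y m = 0 := by
    rw [hm, B_add_right ht, B_smul_right ht, hz, hy]; ring
  have hme : B t y m e = 0 := by
    rw [hm, B_add_mid ht, B_smul_mid ht]
    field_simp
    ring
  have hw1 : B t y y (w + (-(B t y y w / B t y y e)) • e) = 0 := by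
    rw [B_add_right ht, B_smul_right ht]
    field_simp
    ring
  have h1 := hpol m _ hm1 hw1
  rw [B_add_right ht, B_smul_right ht, hme] at h1
  linear_combination h1

theorem flex_add (ht : Sym t) (hdiv : ∀ a b, cub t ∣ gm t a b) {y e : Fin n → K}
    (hy : B t y y y = 0)
    (he : B t y y e ≠ 0) (hflex : ∀ v, B t y y v = 0 → B t y v v = 0) {z1 z2 : Fin n → K}
    (h1 : B t y y z1 = 0) (h2 : B t y y z2 = 0) (hz1 : B t z1 z1 z1 = 0)
    (hz2 : B t z2 z2 z2 = 0) : B t (z1 + z2) (z1 + z2) (z1 + z2) = 0 := by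
  have hk1 := flex_ker ht hy he hflex h1
  have hk2 := flex_ker ht hy he hflex h2
  obtain ⟨a1, ha1⟩ : ∃ a1, a1 = -(B t y z1 e / B t y y e) := ⟨_, rfl⟩
  obtain ⟨a2, ha2⟩ : ∃ a2, a2 = -(B t y z2 e / B t y y e) := ⟨_, rfl⟩
  rw [← ha1] at hk1
  rw [← ha2] at hk2
  obtain ⟨m1, hm1⟩ : ∃ m1, m1 = z1 + a1 • y := ⟨_, rfl⟩
  obtain ⟨m2, hm2⟩ : ∃ m2, m2 = z2 + a2 • y := ⟨_, rfl⟩
  rw [← hm1] at hk1
  rw [← hm2] at hk2
  -- values at combinations
  have hval : ∀ (m : Fin n → K) (a : K), (∀ w, B t y m w = 0) →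
      B t (m + a • y) (m + a • y) (m + a • y) = B t m m m := by
    intro m a hm
    have := B_comb3 ht 1 a m y
    rw [one_smul] at this
    rw [this, hy, B_swap23 ht m m y, B_swap12 ht m y m, B_swap12 ht m y y, hm,
      B_swap23 ht y m y, B_swap23 ht y y m, hm]
    ring
  have hm1F : B t m1 m1 m1 = 0 := by
    have h3 := hval m1 (-a1) hk1
    have h4 : m1 + (-a1) • y = z1 := by rw [hm1, neg_smul]; abel
    rw [h4, hz1] at h3
    exact h3.symm
  have hm2F : B t m2 m2 m2 = 0 := by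
    have h3 := hval m2 (-a2) hk2
    have h4 : m2 + (-a2) • y = z2 := by rw [hm2, neg_smul]; abel
    rw [h4, hz2] at h3
    exact h3.symm
  have hT : ∀ m : Fin n → K, (∀ w, B t y m w = 0) → B t y y m = 0 := by
    intro m hm
    rw [B_swap23 ht, hm]
  have q1 := second_order ht hdiv hy hk1 hk2 hk1 hk2 (hT m1 hk1) (hk1 m1) he
  have q2 := second_order ht hdiv hy hk1 hk2 hk1 hk2 (hT m2 hk2) (hk2 m2) he
  rw [hm1F, zero_mul, B_swap23 ht m1 m2 m1] at q1
  rw [hm2F, mul_zero, B_swap23 ht m2 m2 m1] at q2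
  have r1 : B t m1 m1 m2 = 0 := by
    have : (B t m1 m1 m2) ^ 2 = 0 := by rw [sq]; exact q1.symm
    exact pow_eq_zero_iff two_ne_zero |>.1 this
  have r2 : B t m1 m2 m2 = 0 := by
    have : (B t m2 m1 m2) ^ 2 = 0 := by rw [sq]; exact q2.symm
    rw [B_swap12 ht]
    exact pow_eq_zero_iff two_ne_zero |>.1 this
  have hsum : B t (m1 + m2) (m1 + m2) (m1 + m2) = 0 := by
    have := B_comb3 ht 1 1 m1 m2
    rw [one_smul, one_smul, hm1F, hm2F, r1, r2] at this
    rw [this]; ring
  have hk12 : ∀ w, B t y (m1 + m2) w = 0 := by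
    intro w
    rw [B_add_mid ht, hk1, hk2, add_zero]
  have h5 := hval (m1 + m2) (-(a1 + a2)) hk12
  have h6 : m1 + m2 + (-(a1 + a2)) • y = z1 + z2 := by
    rw [hm1, hm2, neg_smul, add_smul]; abel
  rw [h6, hsum] at h5
  exact h5

/-- There are many rational points in the tangent space. -/
theorem flex_exists (ht : Sym t) (hdiv : ∀ a b, cub t ∣ gm t a b)
    (hdim : ∀ f1 f2 f3 : (Fin n → K) →ₗ[K] K, ∃ w, f1 w = 0 ∧ f2 w = 0 ∧ f3 w = 0 ∧
      ∃ z, B t w z z ≠ 0)
    {y e : Fin n → K} (hy : B t y y y = 0)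
    (he : B t y y e ≠ 0) (hflex : ∀ v, B t y y v = 0 → B t y v v = 0) :
    ∃ m, (∀ w, B t y m w = 0) ∧ B t m m m = 0 ∧ ∃ z, B t m z z ≠ 0 := by
  obtain ⟨m1, h1, h2, _, z1, hz1⟩ := hdim (BL ht y y) (BL ht y e) 0
  have h1' : B t y y m1 = 0 := h1
  have h2' : B t y e m1 = 0 := h2
  have hker : ∀ m, B t y y m = 0 → B t y e m = 0 → ∀ w, B t y m w = 0 := by
    intro m k1 k2
    have h3 := flex_ker ht hy he hflex k1
    rw [B_swap23 ht y m e, k2, zero_div, neg_zero, zero_smul, add_zero] at h3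
    exact h3
  have hk1 := hker m1 h1' h2'
  by_cases hF1 : B t m1 m1 m1 = 0
  · exact ⟨m1, hk1, hF1, z1, hz1⟩
  obtain ⟨m, k1, k2, k3, z, hz⟩ := hdim (BL ht y y) (BL ht y e) (BL ht m1 m1)
  have k1' : B t y y m = 0 := k1
  have k2' : B t y e m = 0 := k2
  have k3' : B t m1 m1 m = 0 := k3
  have hk := hker m k1' k2'
  refine ⟨m, hk, ?_, z, hz⟩
  have hT : ∀ m : Fin n → K, (∀ w, B t y m w = 0) → B t y y m = 0 := by
    intro m hm
    rw [B_swap23 ht, hm]
  have q1 := second_order ht hdiv hy hk1 hk hk1 hk (hT m1 hk1) (hk1 m1) he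
  rw [k3', B_swap23 ht m1 m m1, k3'] at q1
  have r1 : B t m1 m m = 0 := by
    have : B t m1 m1 m1 * B t m1 m m = 0 := by rw [q1]; ring
    exact (mul_eq_zero.1 this).resolve_left hF1
  have hk12 : ∀ w, B t y (m1 + m) w = 0 := by
    intro w
    rw [B_add_mid ht, hk1, hk, add_zero]
  have q2 := second_order ht hdiv hy hk1 hk hk1 hk (hT _ hk12) (hk12 _) he
  rw [B_add_left, B_add_left, B_add_left, B_add_left, k3', B_swap23 ht m1 m m1, k3', r1,
    B_swap23 ht m m1 m1, B_swap12 ht m m1 m1, B_swap23 ht m1 m m1, k3', B_swap12 ht m m1 m, r1,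
    B_swap23 ht m m m1, B_swap12 ht m m1 m, r1] at q2
  have : B t m1 m1 m1 * B t m m m = 0 := by linear_combination q2
  exact (mul_eq_zero.1 this).resolve_left hF1

end Flex

end Pool.Agent.MazurT
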