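import Mathlib
import Pool.Agent.MazurT.Rank3b

/-!
Cubic forms with polar forms of rank at most three: conclusion.
-/

namespace Pool.Agent.MazurT

open MvPolynomial Topology Pool.Agent.MazurC

section Final

variable {n : ℕ} {K : Type} [Field K] [CharZero K] {t : Fin n → Fin n → Fin n → K}

theorem add_of_vertex (ht : Sym t) {x y : Fin n → K} (hx : ∀ z, B t x z z = 0)
    (hy : B t y y y = 0) : B t (x + y) (x + y) (x + y) = 0 := by
  have h := B_comb3 ht 1 1 x y
  rw [one_smul, one_smul, B_vertex ht hx, B_vertex ht hx, B_vertex ht hx, hy] at h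
  rw [h]; ring

theorem add_closed_of_rank3 (ht : Sym t) (hdiv : ∀ a b, cub t ∣ gm t a b)
    (hdim : ∀ f1 f2 f3 : (Fin n → K) →ₗ[K] K, ∃ w, f1 w = 0 ∧ f2 w = 0 ∧ f3 w = 0 ∧
      ∃ z, B t w z z ≠ 0)
    (hsing : ∀ s, (∀ w, B t s s w = 0) → ∀ z, B t s z z = 0)
    {x y : Fin n → K} (hx : B t x x x = 0) (hy : B t y y y = 0) :
    B t (x + y) (x + y) (x + y) = 0 := by
  have hflex : ∀ {u e : Fin n → K}, B t u u u = 0 → B t u u e ≠ 0 →
      ∀ v, B t u u v = 0 → B t u v v = 0 := by
    intro u e hu he v hv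
    by_contra hvv
    exact good_false ht hdiv hdim hsing hu hv hvv he
  by_cases hxs : ∀ w, B t x x w = 0
  · exact add_of_vertex ht (hsing x hxs) hy
  by_cases hys : ∀ w, B t y y w = 0
  · rw [add_comm]
    exact add_of_vertex ht (hsing y hys) hx
  push Not at hxs hys
  obtain ⟨ex, hex⟩ := hxs
  obtain ⟨ey, hey⟩ := hys
  have hfx := hflex hx hex
  have hfy := hflex hy hey
  obtain ⟨m, hm, hmF, z0, hz0⟩ := flex_exists ht hdiv hdim hx hex hfx
  have hxm : B t x x m = 0 := by rw [B_swap23 ht, hm]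
  obtain ⟨p, hpF, hxp, hyp, z1, hz1⟩ : ∃ p, B t p p p = 0 ∧ B t x x p = 0 ∧ B t y y p = 0 ∧
      ∃ z, B t p z z ≠ 0 := by
    by_cases h : B t y y m = 0
    · exact ⟨m, hmF, hxm, h, z0, hz0⟩
    · refine ⟨(1 : K) • x + (-(B t y y x / B t y y m)) • m, ?_, ?_, ?_, ?_⟩
      · rw [B_comb3 ht, hx, hxm, hm, hmF]; ring
      · rw [B_add_right ht, B_smul_right ht, B_smul_right ht, hx, hxm]; ring
      · rw [B_add_right ht, B_smul_right ht, B_smul_right ht]
        field_simp
        ring
      · by_contra hcon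
        push Not at hcon
        have h1 := B_vertex ht hcon x ex
        rw [B_add_left, B_smul_left, B_smul_left, B_swap12 ht m x ex, hm] at h1
        apply hex
        linear_combination h1
  have hps : ∃ e, B t p p e ≠ 0 := by
    by_contra hcon
    push Not at hcon
    exact hz1 (hsing p hcon z1)
  obtain ⟨ep, hep⟩ := hps
  have hfp := hflex hpF hep
  have hsym : ∀ {u e : Fin n → K}, B t u u u = 0 → B t u u e ≠ 0 → B t u u p = 0 →
      B t p p u = 0 := by
    intro u e hu he hup
    have h1 := flex_add ht hdiv hu he (hflex hu he) hu hup hu hpF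
    have h2 := B_comb3 ht 1 1 u p
    rw [one_smul, one_smul, h1, hu, hup, hpF] at h2
    rw [B_swap23 ht, B_swap12 ht]
    have h3 : (3 : K) * B t u p p = 0 := by linear_combination -h2
    exact (mul_eq_zero.1 h3).resolve_left three_ne_zero
  exact flex_add ht hdiv hpF hep hfp (hsym hx hex hxp) (hsym hy hey hyp) hx hy

end Final

section Rat

variable {n : ℕ} {K : Type} [Field K] [CharZero K] {L : Type} [NontriviallyNormedField L]
  {σ : K →+* L} {t : Fin (n + 1) → Fin (n + 1) → Fin (n + 1) → K}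

theorem rat_of_add (ht : Sym t) (hσ : DenseRange σ)
    (h : ∀ x y, B t x x x = 0 → B t y y y = 0 → B t (x + y) (x + y) (x + y) = 0) :
    LinRat σ (cub t) := by
  let W : Submodule K (Fin (n + 1) → K) :=
    { carrier := {x | B t x x x = 0}
      add_mem' := fun {a b} ha hb => h a b ha hb
      zero_mem' := by
        show B t 0 0 0 = 0
        have := B_smul_left t (0 : K) 0 0 0
        rwa [zero_smul, zero_mul] at this
      smul_mem' := fun c a ha => by
        show B t (c • a) (c • a) (c • a) = 0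
        have ha' : B t a a a = 0 := ha
        rw [B_smul_left, B_smul_mid ht, B_smul_right ht, ha']
        ring }
  refine rat_of_subspaces hσ (cub_hom t) (fun _ : Unit => W) ?_
  intro x _
  rw [eval_cub]
  exact ⟨fun hx => ⟨(), hx⟩, fun ⟨_, hx⟩ => hx⟩

theorem rat_of_no_smooth (ht : Sym t) (hσ : DenseRange σ)
    (h : ∀ x, B t x x x = 0 → ∀ w, B t x x w = 0) : LinRat σ (cub t) := by
  refine rat_of_add ht hσ fun x y hx hy => ?_
  have h2 := B_comb3 ht 1 1 x y
  rw [one_smul, one_smul, hx, hy, h x hx, B_swap12 ht x y y, B_swap23 ht y x y, h y hy] at h2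
  rw [h2]; ring

end Rat

end Pool.Agent.MazurT
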