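import Mathlib
import Pool.Agent.MazurT.Rank3c

/-!
Vertices, hyperplane sections and pullbacks of cubic forms along linear maps.
-/

namespace Pool.Agent.MazurT

open MvPolynomial Topology Pool.Agent.MazurC

section Hyper

variable {n : ℕ} {K : Type} [Field K] [CharZero K] {t : Fin n → Fin n → Fin n → K}

/-- An irreducible cubic form does not vanish on a tangent hyperplane. -/
theorem exists_ne_tangent (ht : Sym t) (hirr : Irreducible (cub t)) {R e : Fin n → K}
    (he : B t R R e ≠ 0) : ∃ x, B t R R x = 0 ∧ B t x x x ≠ 0 := by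
  by_contra hcon
  push Not at hcon
  have hT : Sym (tmap (C : K →+* MvPolynomial (Fin n) K) t) := sym_tmap C ht
  obtain ⟨p, hp⟩ : ∃ p, p = C (B t R R e)⁻¹ * linAB t R R := ⟨_, rfl⟩
  have hpe : ∀ x, eval x p = (B t R R e)⁻¹ * B t R R x := by
    intro x
    rw [hp, map_mul, eval_C, eval_linAB, B_swap12 ht x R R, B_swap23 ht R x R]
  have hphom : p.IsHomogeneous 1 := by
    rw [hp]
    have := (isHomogeneous_C (Fin n) (B t R R e)⁻¹).mul (linAB_hom t R R)
    simpa using this
  have hp0 : p ≠ 0 := by
    intro h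
    have h1 := hpe e
    rw [h, map_zero, inv_mul_cancel₀ he] at h1
    exact zero_ne_one h1
  obtain ⟨u, hu⟩ : ∃ u : Fin n → MvPolynomial (Fin n) K, u = X + (-p) • fun i => C (e i) :=
    ⟨_, rfl⟩
  have hX : (X : Fin n → MvPolynomial (Fin n) K)
      = (1 : MvPolynomial (Fin n) K) • u + p • fun i => C (e i) := by
    rw [hu, one_smul, neg_smul]; abel
  have huu : B (tmap (C : K →+* MvPolynomial (Fin n) K) t) u u u = 0 := by
    apply MvPolynomial.funext
    intro x
    have h1 : eval x (B (tmap (C : K →+* MvPolynomial (Fin n) K) t) u u u)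
        = B t (x + (-((B t R R e)⁻¹ * B t R R x)) • e) (x + (-((B t R R e)⁻¹ * B t R R x)) • e)
          (x + (-((B t R R e)⁻¹ * B t R R x)) • e) := by
      rw [map_B]
      have e1 : (fun i => eval x (u i)) = x + (-((B t R R e)⁻¹ * B t R R x)) • e := by
        funext i
        rw [hu]
        simp only [Pi.add_apply, Pi.smul_apply, smul_eq_mul, map_add, map_mul, map_neg, eval_X,
          eval_C, hpe]
      have e2 : (fun i j k => eval x (tmap (C : K →+* MvPolynomial (Fin n) K) t i j k)) = t := by
        funext i j k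
        show eval x (C (t i j k)) = _
        rw [eval_C]
      rw [e1, e2]
    rw [h1, map_zero]
    apply hcon
    rw [B_add_right ht, B_smul_right ht]
    field_simp
    ring
  have hcub : cub t = B (tmap (C : K →+* MvPolynomial (Fin n) K) t) X X X := by
    have := eval₂_cub (C : K →+* MvPolynomial (Fin n) K) t X
    rw [eval₂_eta] at this
    exact this
  obtain ⟨g, hg⟩ : p ∣ cub t := by
    rw [hcub, hX, B_comb3 hT, huu]
    refine ⟨3 * B (tmap C t) u u (fun i => C (e i))
      + 3 * p * B (tmap C t) u (fun i => C (e i)) (fun i => C (e i))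
      + p ^ 2 * B (tmap C t) (fun i => C (e i)) (fun i => C (e i)) (fun i => C (e i)), ?_⟩
    ring
  have hg0 : g ≠ 0 := by
    rintro rfl
    exact hirr.ne_zero (by rw [hg, mul_zero])
  have hdeg : (cub t).totalDegree = 3 := (cub_hom t).totalDegree hirr.ne_zero
  have hdp : p.totalDegree = 1 := hphom.totalDegree hp0
  rw [hg, totalDegree_mul_of_isDomain hp0 hg0, hdp] at hdeg
  rcases hirr.isUnit_or_isUnit hg with h | h
  · rw [isUnit_iff_deg hp0, hdp] at h
    omega
  · rw [isUnit_iff_deg hg0] at h
    omega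

/-- The space of vertices. -/
def vert (ht : Sym t) : Submodule K (Fin n → K) where
  carrier := {y | ∀ a b, B t y a b = 0}
  add_mem' := fun {x y} hx hy a b => by rw [B_add_left, hx, hy, add_zero]
  zero_mem' := fun a b => by
    have := B_smul_left t (0 : K) 0 a b
    rwa [zero_smul, zero_mul] at this
  smul_mem' := fun c x hx a b => by rw [B_smul_left, hx, mul_zero]

theorem mem_vert (ht : Sym t) {y : Fin n → K} : y ∈ vert ht ↔ ∀ a b, B t y a b = 0 := Iff.rfl

theorem mem_vert' (ht : Sym t) {y : Fin n → K} : y ∈ vert ht ↔ ∀ z, B t y z z = 0 :=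
  ⟨fun h z => h z z, fun h a b => B_vertex ht h a b⟩

theorem finrank_vert_le (ht : Sym t) (hirr : Irreducible (cub t)) {R e : Fin n → K}
    (hR : B t R R R = 0) (he : B t R R e ≠ 0) : Module.finrank K (vert ht) + 3 ≤ n := by
  have hker : Module.finrank K (LinearMap.ker (BL ht R R)) + 1 = n := by
    have h1 := LinearMap.finrank_range_add_finrank_ker (BL ht R R)
    have h2 : Module.finrank K (LinearMap.range (BL ht R R)) = 1 := by
      have : LinearMap.range (BL ht R R) = ⊤ := by
        rw [LinearMap.range_eq_top]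
        intro c
        refine ⟨(c / B t R R e) • e, ?_⟩
        show B t R R _ = c
        rw [B_smul_right ht, div_mul_cancel₀ _ he]
      rw [this, finrank_top, Module.finrank_self]
    rw [h2, Module.finrank_fin_fun] at h1
    omega
  have hle : vert ht ⊔ Submodule.span K {R} ≤ LinearMap.ker (BL ht R R) := by
    refine sup_le ?_ ?_
    · intro v hv
      show B t R R v = 0
      rw [B_swap23 ht, B_swap12 ht]
      exact hv _ _
    · rw [Submodule.span_singleton_le_iff_mem]
      exact hR
  have hlt : vert ht ⊔ Submodule.span K {R} < LinearMap.ker (BL ht R R) := by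
    refine lt_of_le_of_ne hle ?_
    intro heq
    obtain ⟨x, hx1, hx2⟩ := exists_ne_tangent ht hirr he
    have hx : x ∈ vert ht ⊔ Submodule.span K {R} := by
      rw [heq]
      exact hx1
    obtain ⟨v, hv, r, hr, rfl⟩ := Submodule.mem_sup.1 hx
    obtain ⟨c, rfl⟩ := Submodule.mem_span_singleton.1 hr
    apply hx2
    apply add_of_vertex ht (fun z => hv z z)
    rw [B_smul_left, B_smul_mid ht, B_smul_right ht, hR]
    ring
  have hlt2 : vert ht < vert ht ⊔ Submodule.span K {R} := by
    refine lt_of_le_of_ne le_sup_left ?_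
    intro heq
    have hRm : R ∈ vert ht := by
      rw [heq]
      exact Submodule.mem_sup_right (Submodule.mem_span_singleton_self R)
    exact he (hRm R e)
  have h1 := Submodule.finrank_lt_finrank_of_lt hlt
  have h2 := Submodule.finrank_lt_finrank_of_lt hlt2
  omega

theorem exists_three (ht : Sym t) (h : Module.finrank K (vert ht) + 4 ≤ n)
    (f1 f2 f3 : (Fin n → K) →ₗ[K] K) : ∃ w, f1 w = 0 ∧ f2 w = 0 ∧ f3 w = 0 ∧
      ∃ z, B t w z z ≠ 0 := by
  by_contra hcon
  push Not at hcon
  let P : (Fin n → K) →ₗ[K] (Fin 3 → K) := LinearMap.pi ![f1, f2, f3]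
  have hle : LinearMap.ker P ≤ vert ht := by
    intro w hw
    rw [LinearMap.mem_ker] at hw
    rw [mem_vert']
    exact hcon w (congrFun hw 0) (congrFun hw 1) (congrFun hw 2)
  have h1 := LinearMap.finrank_range_add_finrank_ker P
  have h2 := Submodule.finrank_mono hle
  have h3 := Submodule.finrank_le (LinearMap.range P)
  rw [Module.finrank_fin_fun] at h1 h3
  omega

theorem exists_section (ht : Sym t) (h : Module.finrank K (vert ht) + 3 = n) :
    ∃ (p : (Fin n → K) →ₗ[K] (Fin 3 → K)) (s : (Fin 3 → K) →ₗ[K] (Fin n → K)),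
      (∀ x, p (s x) = x) ∧ ∀ x, p x = 0 ↔ x ∈ vert ht := by
  have h1 := Submodule.finrank_quotient_add_finrank (vert ht)
  rw [Module.finrank_fin_fun] at h1
  have h2 : Module.finrank K ((Fin n → K) ⧸ vert ht) = Module.finrank K (Fin 3 → K) := by
    rw [Module.finrank_fin_fun]
    omega
  let E := LinearEquiv.ofFinrankEq _ _ h2
  let p : (Fin n → K) →ₗ[K] (Fin 3 → K) := E.toLinearMap.comp (vert ht).mkQ
  have hp : Function.Surjective p := E.surjective.comp (vert ht).mkQ_surjective
  obtain ⟨s, hs⟩ := LinearMap.exists_rightInverse_of_surjective p (LinearMap.range_eq_top.2 hp)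
  refine ⟨p, s, fun x => LinearMap.congr_fun hs x, ?_⟩
  intro x
  show E ((vert ht).mkQ x) = 0 ↔ _
  rw [E.map_eq_zero_iff, Submodule.mkQ_apply, Submodule.Quotient.mk_eq_zero]

end Hyper

section Pull

variable {n m : ℕ} {K : Type} [Field K] [CharZero K] {t : Fin n → Fin n → Fin n → K}

/-- Pull back of a tensor along a linear map. -/
def pull (t : Fin n → Fin n → Fin n → K) (s : (Fin m → K) →ₗ[K] (Fin n → K)) :
    Fin m → Fin m → Fin m → K :=
  fun i j k => B t (s (Pi.single i 1)) (s (Pi.single j 1)) (s (Pi.single k 1))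

theorem pull_sym (ht : Sym t) (s : (Fin m → K) →ₗ[K] (Fin n → K)) : Sym (pull t s) :=
  ⟨fun _ _ _ => B_swap12 ht _ _ _, fun _ _ _ => B_swap23 ht _ _ _⟩

theorem B_pull (ht : Sym t) (s : (Fin m → K) →ₗ[K] (Fin n → K)) (x y z : Fin m → K) :
    B (pull t s) x y z = B t (s x) (s y) (s z) := by
  classical
  have hT := pull_sym ht s
  have hs : ∀ x : Fin m → K, s x = ∑ i, x i • s (Pi.single i 1) := by
    intro x
    conv_lhs => rw [← Finset.univ_sum_single x]
    rw [map_sum]
    refine Finset.sum_congr rfl fun i _ => ?_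
    have : (Pi.single i (x i) : Fin m → K) = x i • Pi.single i 1 := by
      rw [← Pi.single_smul, smul_eq_mul, mul_one]
    rw [this, map_smul]
  have gen : ∀ (a b : Fin m → K), (∀ k, B (pull t s) a b (Pi.single k 1)
      = B t (s a) (s b) (s (Pi.single k 1))) → ∀ z, B (pull t s) a b z = B t (s a) (s b) (s z) := by
    intro a b h z
    rw [B_basis hT, hs z, B_sum_right ht]
    exact Finset.sum_congr rfl fun k _ => by rw [h]
  have c1 : ∀ i j k, B (pull t s) (Pi.single i 1) (Pi.single j 1) (Pi.single k 1)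
      = B t (s (Pi.single i 1)) (s (Pi.single j 1)) (s (Pi.single k 1)) := by
    intro i j k
    rw [B, Finset.sum_eq_single i, Finset.sum_eq_single j, Finset.sum_eq_single k]
    · simp [pull]
    · intro c _ hc; simp [hc]
    · simp
    · intro c _ hc; simp [hc]
    · simp
    · intro c _ hc; simp [hc]
    · simp
  have c2 : ∀ i j z, B (pull t s) (Pi.single i 1) (Pi.single j 1) z
      = B t (s (Pi.single i 1)) (s (Pi.single j 1)) (s z) := fun i j => gen _ _ (c1 i j)
  have c3 : ∀ i y z, B (pull t s) (Pi.single i 1) y z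
      = B t (s (Pi.single i 1)) (s y) (s z) := by
    intro i y z
    rw [B_swap23 hT, B_swap23 ht]
    refine gen _ _ (fun k => ?_) y
    rw [B_swap23 hT, B_swap23 ht]
    exact c2 i k z
  rw [B_swap12 hT, B_swap23 hT, B_swap12 ht, B_swap23 ht]
  refine gen _ _ (fun k => ?_) x
  rw [B_swap23 hT, B_swap12 hT, B_swap23 ht, B_swap12 ht]
  exact c3 k y z

end Pull

end Pool.Agent.MazurT
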