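import Mathlib
import Pool.Agent.MazurT.Cone

/-!
Cones: transfer of density from the base of the cone.
-/

namespace Pool.Agent.MazurT

open MvPolynomial Topology Pool.Agent.MazurC

section Lin

variable {n m : ℕ} {K : Type} [Field K]

/-- The linear forms of a linear map. -/
noncomputable def lp (A : (Fin m → K) →ₗ[K] (Fin n → K)) : Fin n → MvPolynomial (Fin m) K :=
  fun j => ∑ i, C (A (Pi.single i 1) j) * X i

theorem eval_lp (A : (Fin m → K) →ₗ[K] (Fin n → K)) (x : Fin m → K) (j : Fin n) :
    eval x (lp A j) = A x j := by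
  have h1 : A x = ∑ i, x i • A (Pi.single i 1) := by
    conv_lhs => rw [← Finset.univ_sum_single x]
    rw [map_sum]
    refine Finset.sum_congr rfl fun i _ => ?_
    have : (Pi.single i (x i) : Fin m → K) = x i • Pi.single i 1 := by
      rw [← Pi.single_smul, smul_eq_mul, mul_one]
    rw [this, map_smul]
  rw [h1, Finset.sum_apply, lp, map_sum]
  refine Finset.sum_congr rfl fun i _ => ?_
  rw [map_mul, eval_C, eval_X, Pi.smul_apply, smul_eq_mul, mul_comm]

theorem eval_comp_lp (A : (Fin m → K) →ₗ[K] (Fin n → K)) (x : Fin m → K)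
    (f : MvPolynomial (Fin n) K) : eval x (eval₂ C (lp A) f) = eval (A x) f := by
  have h1 := hom_eval₂' (C : K →+* MvPolynomial (Fin m) K) (eval x) (lp A) f
  have e1 : (eval x).comp (C : K →+* MvPolynomial (Fin m) K) = RingHom.id K := by
    ext1 c; simp
  rw [e1] at h1
  rw [h1]
  have e2 : (fun i => eval x (lp A i)) = A x := by
    funext i
    exact eval_lp A x i
  rw [e2]
  rfl

end Lin

section Base

variable {n m : ℕ} {K : Type} [Field K] [CharZero K] {t : Fin n → Fin n → Fin n → K}

/-- The cubic form is a cone over its restriction to the image of `s`. -/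
structure ConeData (ht : Sym t) (p : (Fin n → K) →ₗ[K] (Fin m → K))
    (s : (Fin m → K) →ₗ[K] (Fin n → K)) : Prop where
  hps : ∀ x, p (s x) = x
  hker : ∀ x, p x = 0 → x ∈ vert ht

variable {ht : Sym t} {p : (Fin n → K) →ₗ[K] (Fin m → K)} {s : (Fin m → K) →ₗ[K] (Fin n → K)}

theorem ConeData.sub_mem (D : ConeData ht p s) (x : Fin n → K) : x - s (p x) ∈ vert ht := by
  apply D.hker
  rw [map_sub, D.hps, sub_self]

theorem ConeData.B_left (D : ConeData ht p s) (x a b : Fin n → K) :
    B t (s (p x)) a b = B t x a b := by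
  have h := D.sub_mem x a b
  have h2 : B t x a b = B t (s (p x) + (x - s (p x))) a b := by
    congr 1; abel
  rw [h2, B_add_left, h, add_zero]

theorem ConeData.B_eq (D : ConeData ht p s) (x y z : Fin n → K) :
    B (pull t s) (p x) (p y) (p z) = B t x y z := by
  rw [B_pull ht, D.B_left, B_swap12 ht, D.B_left, B_swap12 ht, B_swap23 ht, B_swap12 ht,
    D.B_left, B_swap12 ht, B_swap23 ht]

theorem ConeData.cub_eq (D : ConeData ht p s) : cub t = eval₂ C (lp p) (cub (pull t s)) := by
  apply MvPolynomial.funext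
  intro x
  rw [eval_comp_lp, eval_cub, eval_cub, D.B_eq]

theorem ConeData.comp_inv (D : ConeData ht p s) (f : MvPolynomial (Fin m) K) :
    eval₂ C (lp s) (eval₂ C (lp p) f) = f := by
  apply MvPolynomial.funext
  intro x
  rw [eval_comp_lp, eval_comp_lp, D.hps]

theorem ConeData.irreducible (D : ConeData ht p s) (hirr : Irreducible (cub t)) :
    Irreducible (cub (pull t s)) := by
  have hu : ∀ a : MvPolynomial (Fin m) K, IsUnit (eval₂ C (lp p) a) → IsUnit a := by
    intro a ha
    rw [← D.comp_inv a]
    exact ha.map (eval₂Hom C (lp s))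
  constructor
  · intro h
    apply hirr.not_isUnit
    rw [D.cub_eq]
    exact h.map (eval₂Hom C (lp p))
  · intro a b hab
    have h1 : cub t = eval₂ C (lp p) a * eval₂ C (lp p) b := by
      rw [D.cub_eq, hab, eval₂_mul]
    rcases hirr.isUnit_or_isUnit h1 with h | h
    · exact Or.inl (hu a h)
    · exact Or.inr (hu b h)

theorem ConeData.singular (D : ConeData ht p s)
    (hsing : ∀ x, (∀ w, B t x x w = 0) → ∀ z, B t x z z = 0)
    (hv : ∀ x ∈ vert ht, p x = 0) {x : Fin m → K}
    (hx : ∀ w, B (pull t s) x x w = 0) : x = 0 := by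
  have h1 : ∀ w, B t (s x) (s x) w = 0 := by
    intro w
    have := hx (p w)
    rw [← D.hps x, D.B_eq] at this
    exact this
  have h2 := hsing _ h1
  rw [← D.hps x]
  exact hv _ ((mem_vert' ht).2 h2)

end Base

section OmT

variable {n m : ℕ} {K : Type} [Field K] [CharZero K] {L : Type} [NontriviallyNormedField L]
  {σ : K →+* L} {t : Fin n → Fin n → Fin n → K}
  {ht : Sym t} {p : (Fin n → K) →ₗ[K] (Fin m → K)} {s : (Fin m → K) →ₗ[K] (Fin n → K)}

/-- A linear map over the completion. -/
noncomputable def lL (σ : K →+* L) (A : (Fin m → K) →ₗ[K] (Fin n → K)) (u : Fin m → L) :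
    Fin n → L := fun j => ∑ i, σ (A (Pi.single i 1) j) * u i

theorem lL_sv (A : (Fin m → K) →ₗ[K] (Fin n → K)) (x : Fin m → K) :
    lL σ A (sv σ x) = sv σ (A x) := by
  funext j
  rw [lL]
  show _ = σ (A x j)
  rw [← eval_lp, lp, map_sum, map_sum]
  refine Finset.sum_congr rfl fun i _ => ?_
  rw [map_mul, eval_C, eval_X, map_mul]
  rfl

theorem lL_smul (A : (Fin m → K) →ₗ[K] (Fin n → K)) (c : L) (u : Fin m → L) :
    lL σ A (c • u) = c • lL σ A u := by
  funext j
  simp only [lL, Pi.smul_apply, smul_eq_mul, Finset.mul_sum]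
  refine Finset.sum_congr rfl fun i _ => ?_
  ring

theorem lL_continuous (A : (Fin m → K) →ₗ[K] (Fin n → K)) : Continuous (lL σ A) := by
  unfold lL
  fun_prop

theorem ConeData.om (D : ConeData ht p s) (hσ : DenseRange σ) (hirr : Irreducible (cub t))
    {y : Fin n → K} (hy : p y ≠ 0) (hom : Om σ (pull t s) (cub (pull t s)) (sv σ (p y))) :
    Om σ t (cub t) (sv σ y) := by
  classical
  have hirr' := D.irreducible hirr
  have hy0 : y ≠ 0 := by
    rintro rfl
    exact hy (map_zero p)
  have hsy : sv σ y ≠ 0 := fun h => hy0 ((sv_eq_zero σ).1 h)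
  have hyF : B t y y y = 0 := by
    have h1 := hom.2.1
    rw [B_sv, D.B_eq] at h1
    exact (map_eq_zero σ).1 h1
  refine ⟨hsy, by rw [B_sv, hyF, map_zero], ?_⟩
  intro d f hf U hU hfU
  -- the projection to the vertex space
  let pr : (Fin n → K) →ₗ[K] (Fin n → K) := LinearMap.id - s.comp p
  have hpr : ∀ x, pr x = x - s (p x) := fun x => rfl
  have hprv : ∀ x, pr x ∈ vert ht := fun x => D.sub_mem x
  -- key vanishing
  obtain ⟨O, hOU, hO, hyO⟩ := mem_nhds_iff.1 (Filter.inter_mem hU (isOpen_ne.mem_nhds hsy))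
  let U' : Set (Fin m → L) := (fun u => lL σ s u + lL σ pr (sv σ y)) ⁻¹' O
  have hU'o : IsOpen U' := hO.preimage ((lL_continuous s).add continuous_const)
  have hyU' : sv σ (p y) ∈ U' := by
    show lL σ s (sv σ (p y)) + lL σ pr (sv σ y) ∈ O
    have : lL σ s (sv σ (p y)) + lL σ pr (sv σ y) = sv σ y := by
      rw [lL_sv, lL_sv, hpr]
      funext j
      simp [sv]
    rw [this]
    exact hyO
  have key : ∀ x' : Fin m → K, x' ≠ 0 → eval x' (cub (pull t s)) = 0 → Near σ U' x' →
      ∀ (c : K) (w : Fin n → K), eval (c • s x' + pr w) f = 0 := by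
    rintro x' hx0 hx' ⟨lam, hlam, hmem⟩ c w
    let G : MvPolynomial (Option (Fin n)) K :=
      eval₂ C (fun i => X none * C (s x' i) + rename some (lp pr i)) f
    have hG : ∀ ρ : Option (Fin n) → K, eval ρ G
        = eval (ρ none • s x' + pr (fun i => ρ (some i))) f := by
      intro ρ
      have h1 := hom_eval₂' (C : K →+* MvPolynomial (Option (Fin n)) K) (eval ρ)
        (fun i => X none * C (s x' i) + rename some (lp pr i)) f
      have e1 : (eval ρ).comp (C : K →+* MvPolynomial (Option (Fin n)) K) = RingHom.id K := by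
        ext1 c; simp
      rw [e1] at h1
      rw [h1]
      have e2 : (fun i => eval ρ (X none * C (s x' i) + rename some (lp pr i)))
          = ρ none • s x' + pr (fun i => ρ (some i)) := by
        funext i
        rw [map_add, map_mul, eval_X, eval_C, eval_rename, Pi.add_apply, Pi.smul_apply,
          smul_eq_mul]
        congr 1
        exact eval_lp pr _ i
      rw [e2]
      rfl
    have hG0 : G = 0 := by
      let M : (Option (Fin n) → L) → (Fin n → L) := fun ρ =>
        lam • (ρ none • lL σ s (sv σ x') + lL σ pr (fun i => ρ (some i)))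
      have hM : Continuous M := by
        have h1 : Continuous fun ρ : Option (Fin n) → L => lL σ pr (fun i => ρ (some i)) :=
          (lL_continuous pr).comp (continuous_pi fun i => continuous_apply _)
        have h2 : Continuous fun ρ : Option (Fin n) → L => ρ none • lL σ s (sv σ x') := by
          fun_prop
        exact (h2.add h1).const_smul lam
      let ρ0 : Option (Fin n) → L := fun o => o.elim 1 fun i => lam⁻¹ * sv σ y i
      have hM0 : M ρ0 ∈ O ∩ {u | u ≠ 0} := by
        have h1 : M ρ0 = lL σ s (lam • sv σ x') + lL σ pr (sv σ y) := by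
          show lam • ((1 : L) • lL σ s (sv σ x') + lL σ pr (lam⁻¹ • sv σ y)) = _
          rw [one_smul, lL_smul, lL_smul, smul_add, smul_smul, mul_inv_cancel₀ hlam, one_smul]
        rw [h1]
        exact ⟨hmem, (hOU hmem).2⟩
      have hV : M ⁻¹' (O ∩ {u | u ≠ 0}) ∈ 𝓝 ρ0 :=
        hM.continuousAt.preimage_mem_nhds ((hO.inter isOpen_ne).mem_nhds hM0)
      refine eq_zero_of_open hσ G ρ0 hV ?_
      intro ρ hρ
      rw [hG]
      obtain ⟨x, hx⟩ : ∃ x, x = ρ none • s x' + pr (fun i => ρ (some i)) := ⟨_, rfl⟩
      rw [← hx]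
      have hMx : M (fun j => σ (ρ j)) = lam • sv σ x := by
        show lam • (σ (ρ none) • lL σ s (sv σ x') + lL σ pr (sv σ fun i => ρ (some i))) = _
        rw [lL_sv, lL_sv, hx]
        congr 1
        funext j
        simp [sv]
      have hρ' : M (fun j => σ (ρ j)) ∈ O ∩ {u | u ≠ 0} := hρ
      rw [hMx] at hρ'
      have hx0' : x ≠ 0 := by
        intro h
        apply hρ'.2
        rw [h, (sv_eq_zero σ).2 rfl, smul_zero]
      refine hfU x hx0' ?_ ⟨lam, hlam, (hOU hρ'.1).1⟩
      rw [eval_cub, hx, add_comm]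
      apply add_of_vertex ht (fun z => hprv _ z z)
      have h3 : B t (s x') (s x') (s x') = 0 := by
        rw [← B_pull ht, ← eval_cub]
        exact hx'
      rw [B_smul_left, B_smul_mid ht, B_smul_right ht, h3]
      ring
    have h4 := hG fun o => o.elim c w
    rw [hG0, map_zero] at h4
    exact h4.symm
  -- divisibility of the specialisations
  let H : MvPolynomial (Fin n) (MvPolynomial (Fin m) K) :=
    eval₂ (C.comp C) (fun i => C (lp s i) + map C (lp pr i)) f
  have hH : ∀ w : Fin n → K, cub (pull t s) ∣ eval (fun i => C (w i)) H := by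
    intro w
    have e1 : eval (fun i => C (w i)) H = eval₂ C (fun i => lp s i + C (pr w i)) f := by
      have h1 := hom_eval₂' (C.comp C : K →+* MvPolynomial (Fin n) (MvPolynomial (Fin m) K))
        (eval fun i => C (w i)) (fun i => C (lp s i) + map C (lp pr i)) f
      rw [h1]
      congr 1
      · ext1 c
        simp
      · funext i
        rw [map_add, eval_C, eval_map]
        congr 1
        have h2 := hom_eval₂' (RingHom.id K) (C : K →+* MvPolynomial (Fin m) K) w (lp pr i)
        rw [RingHom.comp_id] at h2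
        rw [← h2, ← eval_lp pr w i]
        rfl
    rw [e1, ← sum_homogeneousComponent (eval₂ C (fun i => lp s i + C (pr w i)) f)]
    refine Finset.dvd_sum fun d' _ => ?_
    refine hom.2.2 d' _ (homogeneousComponent_isHomogeneous d' _) U' (hU'o.mem_nhds hyU') ?_
    intro x' hx0 hx' hnear
    refine component_eval_eq_zero _ _ ?_ d'
    intro c
    have h1 := hom_eval₂' (C : K →+* MvPolynomial (Fin m) K) (eval (c • x'))
      (fun i => lp s i + C (pr w i)) f
    have e2 : (eval (c • x')).comp (C : K →+* MvPolynomial (Fin m) K) = RingHom.id K := by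
      ext1 c; simp
    rw [e2] at h1
    rw [h1]
    have e3 : (fun i => eval (c • x') (lp s i + C (pr w i))) = c • s x' + pr w := by
      funext i
      rw [map_add, eval_lp, eval_C, map_smul]
      rfl
    rw [e3]
    exact key x' hx0 hx' hnear c w
  have hCH := C_dvd_of_forall hirr' H hH
  -- specialise back
  let Ψ : MvPolynomial (Fin n) (MvPolynomial (Fin m) K) →+* MvPolynomial (Fin n) K :=
    eval₂Hom (eval₂Hom C (lp p)) X
  have h5 := map_dvd Ψ hCH
  have h6 : Ψ (C (cub (pull t s))) = cub t := by
    show eval₂ (eval₂Hom C (lp p)) X (C (cub (pull t s))) = _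
    rw [eval₂_C, D.cub_eq]
    rfl
  have h7 : Ψ H = f := by
    apply MvPolynomial.funext
    intro x
    have h1 := hom_eval₂' (C.comp C : K →+* MvPolynomial (Fin n) (MvPolynomial (Fin m) K))
      ((eval x).comp Ψ) (fun i => C (lp s i) + map C (lp pr i)) f
    have e4 : eval x (Ψ H) = ((eval x).comp Ψ) H := rfl
    rw [e4, h1]
    have e5 : ((eval x).comp Ψ).comp (C.comp C) = RingHom.id K := by
      ext1 c
      show eval x (eval₂ (eval₂Hom C (lp p)) X (C (C c))) = c
      rw [eval₂_C, coe_eval₂Hom, eval₂_C, eval_C]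
    have e6 : (fun i => ((eval x).comp Ψ) (C (lp s i) + map C (lp pr i))) = x := by
      funext i
      rw [map_add]
      have e7 : ((eval x).comp Ψ) (C (lp s i)) = s (p x) i := by
        show eval x (eval₂ (eval₂Hom C (lp p)) X (C (lp s i))) = _
        rw [eval₂_C, coe_eval₂Hom, eval_comp_lp, eval_lp]
      have e8 : ((eval x).comp Ψ) (map C (lp pr i)) = pr x i := by
        show eval x (eval₂ (eval₂Hom C (lp p)) X (map C (lp pr i))) = _
        rw [eval₂_map]
        have h2 := hom_eval₂' ((eval₂Hom C (lp p)).comp C : K →+* MvPolynomial (Fin n) K)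
          (eval x) X (lp pr i)
        rw [h2, ← eval_lp pr x i]
        have e9 : (eval x).comp ((eval₂Hom C (lp p)).comp C : K →+* MvPolynomial (Fin n) K)
            = RingHom.id K := by
          ext1 c
          show eval x (eval₂ C (lp p) (C c)) = c
          rw [eval₂_C, eval_C]
        rw [e9]
        simp only [eval_X]
        rfl
      rw [e7, e8, hpr, Pi.sub_apply]
      ring
    rw [e5, e6]
    rfl
  rw [h6, h7] at h5
  exact h5

end OmT

end Pool.Agent.MazurT
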