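import Mathlib
import Pool.Agent.MazurT.Transfer

/-!
Ternary cubic forms: singular points over extension fields.
-/

namespace Pool.Agent.MazurT

open MvPolynomial Topology Pool.Agent.MazurC

section Span

variable {K : Type} [Field K]

theorem three_span {v w u : Fin 3 → K} (hv : v ≠ 0) (hw : w ∉ Submodule.span K {v})
    (hu : u ∉ Submodule.span K {v, w}) (x : Fin 3 → K) :
    ∃ a b c : K, x = a • v + b • w + c • u := by
  have h1 : Module.finrank K (Submodule.span K {v}) = 1 := finrank_span_singleton hv
  have hlt1 : Submodule.span K {v} < Submodule.span K {v, w} := by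
    refine lt_of_le_of_ne (Submodule.span_mono (by simp)) ?_
    intro h
    apply hw
    rw [h]
    exact Submodule.subset_span (by simp)
  have hlt2 : Submodule.span K {v, w} < Submodule.span K {v, w, u} := by
    refine lt_of_le_of_ne (Submodule.span_mono (by
      intro z hz
      simp only [Set.mem_insert_iff, Set.mem_singleton_iff] at hz ⊢
      tauto)) ?_
    intro h
    apply hu
    rw [h]
    exact Submodule.subset_span (by simp)
  have h2 := Submodule.finrank_lt_finrank_of_lt hlt1
  have h3 := Submodule.finrank_lt_finrank_of_lt hlt2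
  have h4 : Submodule.span K {v, w, u} = ⊤ := by
    apply Submodule.eq_top_of_finrank_eq
    have h5 := Submodule.finrank_le (Submodule.span K {v, w, u})
    rw [Module.finrank_fin_fun] at h5 ⊢
    omega
  have hx : x ∈ Submodule.span K {v, w, u} := by rw [h4]; trivial
  obtain ⟨a, z, hz, rfl⟩ := Submodule.mem_span_insert.1 hx
  obtain ⟨b, z', hz', rfl⟩ := Submodule.mem_span_insert.1 hz
  obtain ⟨c, rfl⟩ := Submodule.mem_span_singleton.1 hz'
  exact ⟨a, b, c, by rw [add_assoc]⟩

theorem three_span_L {L : Type} [Field L] (σ : K →+* L) {v w u : Fin 3 → K} (hv : v ≠ 0)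
    (hw : w ∉ Submodule.span K {v}) (hu : u ∉ Submodule.span K {v, w}) (z : Fin 3 → L) :
    ∃ a b c : L, z = a • (fun i => σ (v i)) + b • (fun i => σ (w i))
      + c • fun i => σ (u i) := by
  choose a b c h using fun i : Fin 3 => three_span hv hw hu (Pi.single i 1)
  refine ⟨∑ i, z i * σ (a i), ∑ i, z i * σ (b i), ∑ i, z i * σ (c i), ?_⟩
  funext j
  simp only [Pi.add_apply, Pi.smul_apply, smul_eq_mul, Finset.sum_mul, ← Finset.sum_add_distrib]
  have h1 : ∀ i, z i * σ (a i) * σ (v j) + z i * σ (b i) * σ (w j) + z i * σ (c i) * σ (u j)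
      = z i * σ ((Pi.single i 1 : Fin 3 → K) j) := by
    intro i
    rw [congrFun (h i) j]
    simp only [Pi.add_apply, Pi.smul_apply, smul_eq_mul, map_add, map_mul]
    ring
  simp only [h1]
  rw [Finset.sum_eq_single j]
  · simp
  · intro i _ hi
    rw [Pi.single_eq_of_ne (Ne.symm hi), map_zero, mul_zero]
  · simp

end Span

section Square

variable {K : Type} [Field K] [CharZero K] {L : Type} [Field L]

/-- A quartic with square leading coefficient and a double root in an extension field is a square
unless the root is rational. -/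
theorem square_of_double_root (σ : K →+* L) {d : Polynomial K} (hd : d.natDegree ≤ 4) {l : K}
    (hl : d.coeff 4 = l ^ 2) {θ : L} (h0 : Polynomial.eval₂ σ θ d = 0)
    (h1 : Polynomial.eval₂ σ θ (Polynomial.derivative d) = 0) (hθ : ∀ c, σ c ≠ θ) :
    ∃ N : Polynomial K, N.natDegree ≤ 2 ∧ d = N ^ 2 := by
  let _ : Algebra K L := σ.toAlgebra
  by_cases hd0 : d = 0
  · exact ⟨0, by simp, by rw [hd0]; ring⟩
  have ha0 : Polynomial.aeval θ d = 0 := h0
  have ha1 : Polynomial.aeval θ (Polynomial.derivative d) = 0 := h1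
  have hint : IsIntegral K θ := by
    rw [← isAlgebraic_iff_isIntegral]
    exact ⟨d, hd0, ha0⟩
  have hirr := minpoly.irreducible hint
  set p := minpoly K θ with hp
  have hmon : p.Monic := minpoly.monic hint
  obtain ⟨q, hq⟩ : p ∣ d := minpoly.dvd K θ ha0
  have hpd : p ∣ Polynomial.derivative d := minpoly.dvd K θ ha1
  have hdeg2 : 2 ≤ p.natDegree := by
    by_contra hlt
    have h2 : p.natDegree ≠ 0 := hirr.natDegree_pos.ne'
    have h3 : p.natDegree = 1 := by omega
    have h4 : p.degree = 1 := by
      rw [Polynomial.degree_eq_natDegree hirr.ne_zero, h3]; rfl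
    obtain ⟨c, hc⟩ := minpoly.mem_range_of_degree_eq_one K θ h4
    exact hθ c hc
  have hpq : p ∣ q := by
    rw [hq, Polynomial.derivative_mul] at hpd
    have h2 : p ∣ Polynomial.derivative p * q :=
      (dvd_add_left (dvd_mul_right p _)).1 hpd
    rcases hirr.prime.dvd_or_dvd h2 with h3 | h3
    · exfalso
      have h4 : Polynomial.derivative p ≠ 0 := by
        intro h
        have := Polynomial.natDegree_eq_zero_of_derivative_eq_zero h
        omega
      have h5 := Polynomial.natDegree_le_of_dvd h3 h4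
      have h6 := Polynomial.natDegree_derivative_lt (p := p) (by omega)
      omega
    · exact h3
  obtain ⟨r, hr⟩ := hpq
  have hq0 : q ≠ 0 := by rintro rfl; exact hd0 (by rw [hq, mul_zero])
  have hr0 : r ≠ 0 := by rintro rfl; exact hq0 (by rw [hr, mul_zero])
  have hdd : d.natDegree = p.natDegree + (p.natDegree + r.natDegree) := by
    rw [hq, Polynomial.natDegree_mul hirr.ne_zero hq0, hr,
      Polynomial.natDegree_mul hirr.ne_zero hr0]
  have hp2 : p.natDegree = 2 := by omega
  have hr2 : r.natDegree = 0 := by omega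
  obtain ⟨c, hc⟩ := Polynomial.natDegree_eq_zero.1 hr2
  have hd' : d = Polynomial.C c * p ^ 2 := by
    rw [hq, hr, ← hc]; ring
  have hcl : c = l ^ 2 := by
    rw [← hl, hd', Polynomial.coeff_C_mul]
    have : (p ^ 2).coeff 4 = 1 := by
      have h7 := (hmon.pow 2).coeff_natDegree
      rw [hmon.natDegree_pow, hp2] at h7
      exact h7
    rw [this, mul_one]
  refine ⟨Polynomial.C l * p, ?_, ?_⟩
  · exact (Polynomial.natDegree_C_mul_le _ _).trans hp2.le
  · rw [hd', hcl, Polynomial.C_pow]; ring

end Square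

section NoSing

variable {K : Type} [Field K] [CharZero K] {L : Type} [Field L] [CharZero L] {σ : K →+* L}
  {t : Fin 3 → Fin 3 → Fin 3 → K}

/-- The discriminant of the lines through `R` is not a square. -/
theorem disc_not_square (ht : Sym t) (hirr : Irreducible (cub t)) {R e a : Fin 3 → K}
    (hR : B t R R R = 0) (he : B t R R e ≠ 0) (ha : B t R R a = 0)
    (haR : a ∉ Submodule.span K {R}) {n0 n1 n2 : K}
    (e4 : 9 * (B t R a a) ^ 2 = n2 ^ 2)
    (e3 : 36 * B t R a a * B t R a e - 12 * B t R R e * B t a a a = 2 * n1 * n2)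
    (e2 : 18 * B t R a a * B t R e e + 36 * (B t R a e) ^ 2
      - 36 * B t R R e * B t a a e = 2 * n0 * n2 + n1 ^ 2)
    (e1 : 36 * B t R a e * B t R e e - 36 * B t R R e * B t a e e = 2 * n0 * n1)
    (e0 : 9 * (B t R e e) ^ 2 - 12 * B t R R e * B t e e e = n0 ^ 2) : False := by
  have hR0 : R ≠ 0 := by
    rintro rfl
    apply he
    have := B_smul_left t (0 : K) 0 0 e
    rwa [zero_smul, zero_mul] at this
  have heS : e ∉ Submodule.span K {R, a} := by
    intro h
    apply he
    have : Submodule.span K {R, a} ≤ LinearMap.ker (BL ht R R) := by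
      rw [Submodule.span_le]
      rintro x hx
      rcases hx with rfl | hx
      · exact hR
      · rw [Set.mem_singleton_iff.1 hx]; exact ha
    exact this h
  -- the coordinate form of `a`
  have haRe : a ∉ Submodule.span K {R, e} := by
    intro h
    obtain ⟨c, z, hz, hz2⟩ := Submodule.mem_span_insert.1 h
    obtain ⟨d, rfl⟩ := Submodule.mem_span_singleton.1 hz
    have h1 : B t R R a = d * B t R R e := by
      rw [hz2, B_add_right ht, B_smul_right ht, B_smul_right ht, hR]; ring
    rw [ha] at h1
    have h2 : d = 0 := by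
      rcases mul_eq_zero.1 h1.symm with h | h
      · exact h
      · exact absurd h he
    apply haR
    rw [hz2, h2, zero_smul, add_zero]
    exact Submodule.smul_mem _ _ (Submodule.mem_span_singleton_self R)
  obtain ⟨f, hfa, hfS⟩ := Submodule.exists_dual_map_eq_bot_of_notMem haRe inferInstance
  have hfz : ∀ x ∈ Submodule.span K {R, e}, f x = 0 := by
    intro x hx
    have : f x ∈ (Submodule.span K {R, e}).map f := Submodule.mem_map_of_mem hx
    rwa [hfS, Submodule.mem_bot] at this
  have hfR : f R = 0 := hfz _ (Submodule.subset_span (by simp))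
  have hfe : f e = 0 := hfz _ (Submodule.subset_span (by simp))
  -- linear forms
  obtain ⟨p1, hp1⟩ : ∃ p1 : MvPolynomial (Fin 3) K,
      p1 = ∑ i, C ((f a)⁻¹ * f (Pi.single i 1)) * X i := ⟨_, rfl⟩
  have hp1h : p1.IsHomogeneous 1 := by
    rw [hp1]
    exact IsHomogeneous.sum _ _ _ fun _ _ => isHomogeneous_C_mul_X _ _
  have hp1e : ∀ x, eval x p1 = (f a)⁻¹ * f x := by
    intro x
    have h1 : f x = ∑ i, x i * f (Pi.single i 1) := by
      conv_lhs => rw [← Finset.univ_sum_single x]
      rw [map_sum]
      refine Finset.sum_congr rfl fun i _ => ?_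
      have : (Pi.single i (x i) : Fin 3 → K) = x i • Pi.single i 1 := by
        rw [← Pi.single_smul, smul_eq_mul, mul_one]
      rw [this, map_smul, smul_eq_mul]
    rw [hp1, map_sum, h1, Finset.mul_sum]
    refine Finset.sum_congr rfl fun i _ => ?_
    rw [map_mul, eval_C, eval_X]
    ring
  obtain ⟨p2, hp2⟩ : ∃ p2 : MvPolynomial (Fin 3) K, p2 = C (B t R R e)⁻¹ * linAB t R R :=
    ⟨_, rfl⟩
  have hp2h : p2.IsHomogeneous 1 := by
    rw [hp2]
    have := (isHomogeneous_C (Fin 3) (B t R R e)⁻¹).mul (linAB_hom t R R)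
    simpa using this
  have hp2e : ∀ x, eval x p2 = (B t R R e)⁻¹ * B t R R x := by
    intro x
    rw [hp2, map_mul, eval_C, eval_linAB, B_swap12 ht x R R, B_swap23 ht R x R]
  obtain ⟨N, hN⟩ : ∃ N : MvPolynomial (Fin 3) K,
      N = C n2 * p1 ^ 2 + C n1 * (p1 * p2) + C n0 * p2 ^ 2 := ⟨_, rfl⟩
  have hNh : N.IsHomogeneous 2 := by
    rw [hN]
    have k1 := (isHomogeneous_C (Fin 3) n2).mul (hp1h.pow 2)
    have k2 := (isHomogeneous_C (Fin 3) n1).mul (hp1h.mul hp2h)
    have k3 := (isHomogeneous_C (Fin 3) n0).mul (hp2h.pow 2)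
    simp only [zero_add, one_mul, Nat.reduceAdd] at k1 k2 k3
    exact (k1.add k2).add k3
  -- the factorisation
  have hprod : C 12 * linAB t R R * cub t = (C 3 * quadA t R - N) * (C 3 * quadA t R + N) := by
    apply MvPolynomial.funext
    intro x
    obtain ⟨x0, x1, x2, hx⟩ := three_span hR0 haR heS x
    have v1 : eval x p1 = x1 := by
      rw [hp1e, hx, map_add, map_add, map_smul, map_smul, map_smul, hfR, hfe, smul_eq_mul,
        smul_eq_mul, smul_eq_mul, mul_zero, mul_zero, zero_add, add_zero]
      field_simp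
    have v2 : eval x p2 = x2 := by
      rw [hp2e, hx, B_add_right ht, B_add_right ht, B_smul_right ht, B_smul_right ht,
        B_smul_right ht, hR, ha]
      field_simp
      ring
    have v3 : eval x N = n2 * x1 ^ 2 + n1 * (x1 * x2) + n0 * x2 ^ 2 := by
      rw [hN]
      simp only [map_add, map_mul, map_pow, eval_C, v1, v2]
    have v4 : eval x (linAB t R R) = x2 * B t R R e := by
      rw [eval_linAB, B_swap12 ht x R R, B_swap23 ht R x R, hx, B_add_right ht, B_add_right ht,
        B_smul_right ht, B_smul_right ht, B_smul_right ht, hR, ha]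
      ring
    have s1 : B t a R R = 0 := by rw [B_swap12 ht, B_swap23 ht, ha]
    have s2 : B t R a R = 0 := by rw [B_swap23 ht, ha]
    have s3 : B t e R R = B t R R e := by rw [B_swap12 ht, B_swap23 ht]
    have s4 : B t R e R = B t R R e := by rw [B_swap23 ht]
    have s5 : B t a a R = B t R a a := by rw [B_swap23 ht, B_swap12 ht]
    have s6 : B t a R a = B t R a a := by rw [B_swap12 ht]
    have s7 : B t e e R = B t R e e := by rw [B_swap23 ht, B_swap12 ht]
    have s8 : B t e R e = B t R e e := by rw [B_swap12 ht]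
    have s9 : B t R e a = B t R a e := by rw [B_swap23 ht]
    have s10 : B t a R e = B t R a e := by rw [B_swap12 ht]
    have s11 : B t a e R = B t R a e := by rw [B_swap23 ht, B_swap12 ht]
    have s12 : B t e R a = B t R a e := by rw [B_swap12 ht, B_swap23 ht]
    have s13 : B t e a R = B t R a e := by rw [B_swap12 ht, B_swap23 ht, B_swap12 ht]
    have s14 : B t a e a = B t a a e := by rw [B_swap23 ht]
    have s15 : B t e a a = B t a a e := by rw [B_swap12 ht, B_swap23 ht]
    have s16 : B t e e a = B t a e e := by rw [B_swap23 ht, B_swap12 ht]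
    have s17 : B t e a e = B t a e e := by rw [B_swap12 ht]
    have v5 : eval x (quadA t R) = 2 * x0 * x2 * B t R R e + x1 ^ 2 * B t R a a
        + 2 * x1 * x2 * B t R a e + x2 ^ 2 * B t R e e := by
      rw [eval_quadA, hx]
      simp only [B_add_left, B_smul_left, B_add_mid ht, B_smul_mid ht, hR, s1, s2, s3, s4, s5,
        s6, s7, s8, s9, s10, s11, s12, s13]
      ring
    have v6 : eval x (cub t) = 3 * x0 ^ 2 * x2 * B t R R e + 3 * x0 * (x1 ^ 2 * B t R a a
        + 2 * x1 * x2 * B t R a e + x2 ^ 2 * B t R e e) + x1 ^ 3 * B t a a a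
        + 3 * x1 ^ 2 * x2 * B t a a e + 3 * x1 * x2 ^ 2 * B t a e e + x2 ^ 3 * B t e e e := by
      rw [eval_cub, hx]
      simp only [B_add_left, B_smul_left, B_add_mid ht, B_smul_mid ht, B_add_right ht,
        B_smul_right ht, hR, ha, s1, s2, s3, s4, s5,
        s6, s7, s8, s9, s10, s11, s12, s13, s14, s15, s16, s17]
      ring
    simp only [map_mul, map_sub, map_add, eval_C, v3, v4, v5, v6]
    linear_combination -(x1 ^ 4 * e4 + x1 ^ 3 * x2 * e3 + x1 ^ 2 * x2 ^ 2 * e2
      + x1 * x2 ^ 3 * e1 + x2 ^ 4 * e0)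
  have hdvd : cub t ∣ (C 3 * quadA t R - N) * (C 3 * quadA t R + N) := by
    rw [← hprod]
    exact dvd_mul_left _ _
  have hq3 : (C (3 : K) * quadA t R).IsHomogeneous 2 := by
    have := (isHomogeneous_C (Fin 3) (3 : K)).mul (quadA_hom t R)
    simpa using this
  have hne : C 12 * linAB t R R * cub t ≠ 0 := by
    refine mul_ne_zero (mul_ne_zero ?_ ?_) hirr.ne_zero
    · rw [Ne, C_eq_zero]; norm_num
    · intro h
      apply he
      rw [B_swap23 ht, B_swap12 ht, ← eval_linAB, h, map_zero]
  rw [hprod] at hne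
  rcases hirr.prime.dvd_or_dvd hdvd with h | h
  · exact not_dvd_of_lt' (cub_hom t) hirr.ne_zero (hq3.sub hNh) (left_ne_zero_of_mul hne)
      (by norm_num) h
  · exact not_dvd_of_lt' (cub_hom t) hirr.ne_zero (hq3.add hNh) (right_ne_zero_of_mul hne)
      (by norm_num) h

end NoSing

end Pool.Agent.MazurT
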