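import Mathlib
import Pool.Agent.MazurT.Ternary

/-!
Ternary cubic forms: no singular points over extension fields.
-/

namespace Pool.Agent.MazurT

open MvPolynomial Topology Pool.Agent.MazurC

section Coeffs

variable {K : Type} [Field K]

theorem quartic_coeffs {a4 a3 a2 a1 a0 b4 b3 b2 b1 b0 : K}
    (h : (Polynomial.C a4 * Polynomial.X ^ 4 + Polynomial.C a3 * Polynomial.X ^ 3
      + Polynomial.C a2 * Polynomial.X ^ 2 + Polynomial.C a1 * Polynomial.X + Polynomial.C a0
      : Polynomial K) = Polynomial.C b4 * Polynomial.X ^ 4 + Polynomial.C b3 * Polynomial.X ^ 3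
      + Polynomial.C b2 * Polynomial.X ^ 2 + Polynomial.C b1 * Polynomial.X + Polynomial.C b0) :
    a4 = b4 ∧ a3 = b3 ∧ a2 = b2 ∧ a1 = b1 ∧ a0 = b0 := by
  have h4 := congrArg (fun p => Polynomial.coeff p 4) h
  have h3 := congrArg (fun p => Polynomial.coeff p 3) h
  have h2 := congrArg (fun p => Polynomial.coeff p 2) h
  have h1 := congrArg (fun p => Polynomial.coeff p 1) h
  have h0 := congrArg (fun p => Polynomial.coeff p 0) h
  simp only [Polynomial.coeff_add, Polynomial.coeff_C_mul, Polynomial.coeff_X_pow,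
    Polynomial.coeff_X, Polynomial.coeff_C] at h4 h3 h2 h1 h0
  norm_num at h4 h3 h2 h1 h0
  exact ⟨h4, h3, h2, h1, h0⟩

end Coeffs

section NoSing

variable {K : Type} [Field K] [CharZero K] {L : Type} [Field L] [CharZero L] {σ : K →+* L}
  {t : Fin 3 → Fin 3 → Fin 3 → K}

theorem exists_tangent (ht : Sym t) {R e : Fin 3 → K} (he : B t R R e ≠ 0) :
    ∃ a, B t R R a = 0 ∧ a ∉ Submodule.span K {R} := by
  by_contra hcon
  push Not at hcon
  have hle : LinearMap.ker (BL ht R R) ≤ Submodule.span K {R} := fun a ha => hcon a ha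
  have h1 := LinearMap.finrank_range_add_finrank_ker (BL ht R R)
  have h2 := Submodule.finrank_mono hle
  have h3 := Submodule.finrank_le (LinearMap.range (BL ht R R))
  have h4 : Module.finrank K (Submodule.span K {R}) ≤ 1 := by
    have := finrank_span_le_card (R := K) ({R} : Set (Fin 3 → K))
    simpa using this
  rw [Module.finrank_fin_fun] at h1
  rw [Module.finrank_self] at h3
  omega

/-- A ternary cubic form with a smooth rational point and without singular rational points has no
singular points over any extension. -/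
theorem no_sing_L (ht : Sym t) (hirr : Irreducible (cub t))
    (hsing : ∀ x, (∀ w, B t x x w = 0) → x = 0) {R e : Fin 3 → K}
    (hR : B t R R R = 0) (he : B t R R e ≠ 0) {z : Fin 3 → L}
    (hz : ∀ w, B (tmap σ t) z z w = 0) : z = 0 := by
  have hT : Sym (tmap σ t) := sym_tmap σ ht
  obtain ⟨a, ha, haR⟩ := exists_tangent ht he
  have hR0 : R ≠ 0 := by
    rintro rfl
    apply he
    have := B_smul_left t (0 : K) 0 0 e
    rwa [zero_smul, zero_mul] at this
  have heS : e ∉ Submodule.span K {R, a} := by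
    intro h
    apply he
    have : Submodule.span K {R, a} ≤ LinearMap.ker (BL ht R R) := by
      rw [Submodule.span_le]
      rintro x hx
      rcases hx with rfl | hx
      · exact hR
      · rw [Set.mem_singleton_iff.1 hx]; exact ha
    exact this h
  obtain ⟨c0, c1, c2, hzc⟩ := three_span_L σ hR0 haR heS z
  obtain ⟨YR, hYR⟩ : ∃ YR : Fin 3 → L, YR = fun i => σ (R i) := ⟨_, rfl⟩
  obtain ⟨Ya, hYa⟩ : ∃ Ya : Fin 3 → L, Ya = fun i => σ (a i) := ⟨_, rfl⟩
  obtain ⟨Ye, hYe⟩ : ∃ Ye : Fin 3 → L, Ye = fun i => σ (e i) := ⟨_, rfl⟩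
  have hB : ∀ x y w : Fin 3 → K, B (tmap σ t) (fun i => σ (x i)) (fun i => σ (y i))
      (fun i => σ (w i)) = σ (B t x y w) := fun x y w => (map_B σ x y w).symm
  rw [← hYR, ← hYa, ← hYe] at hzc
  obtain ⟨τ, hτ⟩ : ∃ τ, τ = tmap σ t := ⟨_, rfl⟩
  rw [← hτ] at hz hT hB
  -- the values
  have bRRR : B τ YR YR YR = 0 := by rw [hYR, hB, hR, map_zero]
  have bRRa : B τ YR YR Ya = 0 := by rw [hYR, hYa, hB, ha, map_zero]
  have bRRe : B τ YR YR Ye = σ (B t R R e) := by rw [hYR, hYe, hB]
  have bRaa : B τ YR Ya Ya = σ (B t R a a) := by rw [hYR, hYa, hB]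
  have bRae : B τ YR Ya Ye = σ (B t R a e) := by rw [hYR, hYa, hYe, hB]
  have bRee : B τ YR Ye Ye = σ (B t R e e) := by rw [hYR, hYe, hB]
  have baaa : B τ Ya Ya Ya = σ (B t a a a) := by rw [hYa, hB]
  have baae : B τ Ya Ya Ye = σ (B t a a e) := by rw [hYa, hYe, hB]
  have baee : B τ Ya Ye Ye = σ (B t a e e) := by rw [hYa, hYe, hB]
  have beee : B τ Ye Ye Ye = σ (B t e e e) := by rw [hYe, hB]
  have s1 : B τ Ya YR YR = 0 := by rw [B_swap12 hT, B_swap23 hT, bRRa]
  have s2 : B τ YR Ya YR = 0 := by rw [B_swap23 hT, bRRa]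
  have s3 : B τ Ye YR YR = σ (B t R R e) := by rw [B_swap12 hT, B_swap23 hT, bRRe]
  have s4 : B τ YR Ye YR = σ (B t R R e) := by rw [B_swap23 hT, bRRe]
  have s5 : B τ Ya Ya YR = σ (B t R a a) := by rw [B_swap23 hT, B_swap12 hT, bRaa]
  have s6 : B τ Ya YR Ya = σ (B t R a a) := by rw [B_swap12 hT, bRaa]
  have s7 : B τ Ye Ye YR = σ (B t R e e) := by rw [B_swap23 hT, B_swap12 hT, bRee]
  have s8 : B τ Ye YR Ye = σ (B t R e e) := by rw [B_swap12 hT, bRee]
  have s9 : B τ YR Ye Ya = σ (B t R a e) := by rw [B_swap23 hT, bRae]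
  have s10 : B τ Ya YR Ye = σ (B t R a e) := by rw [B_swap12 hT, bRae]
  have s11 : B τ Ya Ye YR = σ (B t R a e) := by rw [B_swap23 hT, B_swap12 hT, bRae]
  have s12 : B τ Ye YR Ya = σ (B t R a e) := by rw [B_swap12 hT, B_swap23 hT, bRae]
  have s13 : B τ Ye Ya YR = σ (B t R a e) := by
    rw [B_swap12 hT, B_swap23 hT, B_swap12 hT, bRae]
  have s14 : B τ Ya Ye Ya = σ (B t a a e) := by rw [B_swap23 hT, baae]
  have s15 : B τ Ye Ya Ya = σ (B t a a e) := by rw [B_swap12 hT, B_swap23 hT, baae]
  have s16 : B τ Ye Ye Ya = σ (B t a e e) := by rw [B_swap23 hT, B_swap12 hT, baee]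
  have s17 : B τ Ye Ya Ye = σ (B t a e e) := by rw [B_swap12 hT, baee]
  have hω : σ (B t R R e) ≠ 0 := (map_ne_zero σ).2 he
  by_cases hc2 : c2 = 0
  · rw [hc2, zero_smul, add_zero] at hzc
    have h1 := hz YR
    have h2 := hz Ye
    rw [hzc] at h1 h2
    simp only [B_add_left, B_smul_left, B_add_mid hT, B_smul_mid hT, bRRR, s1, s2, s5, bRRe,
      s10, bRae, baae] at h1 h2
    have h1' : c1 ^ 2 * σ (B t R a a) = 0 := by linear_combination h1
    by_cases hc1 : c1 = 0
    · rw [hc1] at h2
      have h2' : c0 ^ 2 * σ (B t R R e) = 0 := by linear_combination h2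
      have h3 : c0 = 0 := by
        rcases mul_eq_zero.1 h2' with h | h
        · exact pow_eq_zero_iff two_ne_zero |>.1 h
        · exact absurd h hω
      rw [hzc, hc1, h3, zero_smul, zero_smul, add_zero]
    · exfalso
      have hRaa : B t R a a = 0 := by
        rcases mul_eq_zero.1 h1' with h | h
        · exact absurd (pow_eq_zero_iff two_ne_zero |>.1 h) hc1
        · exact (map_eq_zero σ).1 h
      have h3 := hz z
      rw [hzc] at h3
      simp only [B_add_left, B_smul_left, B_add_mid hT, B_smul_mid hT, B_add_right hT,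
        B_smul_right hT, bRRR, bRRa, bRaa, baaa, s1, s2, s5, s6, hRaa, map_zero] at h3
      have h3' : c1 ^ 3 * σ (B t a a a) = 0 := by linear_combination h3
      have haaa : B t a a a = 0 := by
        rcases mul_eq_zero.1 h3' with h | h
        · exact absurd (pow_eq_zero_iff three_ne_zero |>.1 h) hc1
        · exact (map_eq_zero σ).1 h
      obtain ⟨x, hx1, hx2⟩ := exists_ne_tangent ht hirr he
      obtain ⟨x0, x1, x2, hx⟩ := three_span hR0 haR heS x
      have h4 : x2 = 0 := by
        rw [hx, B_add_right ht, B_add_right ht, B_smul_right ht, B_smul_right ht,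
          B_smul_right ht, hR, ha] at hx1
        have : x2 * B t R R e = 0 := by linear_combination hx1
        exact (mul_eq_zero.1 this).resolve_right he
      apply hx2
      rw [hx, h4, zero_smul, add_zero, B_comb3 ht, hR, ha, hRaa, haaa]
      ring
  · exfalso
    obtain ⟨l, hl⟩ : ∃ l, l = c0 / c2 := ⟨_, rfl⟩
    obtain ⟨θ, hθ⟩ : ∃ θ, θ = c1 / c2 := ⟨_, rfl⟩
    obtain ⟨z1, hz1⟩ : ∃ z1, z1 = l • YR + θ • Ya + Ye := ⟨_, rfl⟩
    have hzz : z = c2 • z1 := by
      rw [hz1, hzc, smul_add, smul_add, smul_smul, smul_smul, hl, hθ, mul_div_cancel₀ _ hc2,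
        mul_div_cancel₀ _ hc2]
    have hz1s : ∀ w, B τ z1 z1 w = 0 := by
      intro w
      have h1 := hz w
      rw [hzz, B_smul_left, B_smul_mid hT] at h1
      have h2 := (mul_eq_zero.1 h1).resolve_left hc2
      exact (mul_eq_zero.1 h2).resolve_left hc2
    have E1 := hz1s YR
    have E2 := hz1s Ya
    have E3 := hz1s Ye
    rw [hz1] at E1 E2 E3
    simp only [B_add_left, B_smul_left, B_add_mid hT, B_smul_mid hT, bRRR, bRRa, bRRe, bRaa,
      bRae, bRee, baaa, baae, baee, beee, s1, s2, s3, s4, s5, s6, s7, s8, s9, s10, s11, s12,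
      s13, s14, s15, s16, s17] at E1 E2 E3
    obtain ⟨d, hd⟩ : ∃ d : Polynomial K, d = Polynomial.C (9 * (B t R a a) ^ 2) * Polynomial.X ^ 4
      + Polynomial.C (36 * B t R a a * B t R a e - 12 * B t R R e * B t a a a)
        * Polynomial.X ^ 3
      + Polynomial.C (18 * B t R a a * B t R e e + 36 * (B t R a e) ^ 2
        - 36 * B t R R e * B t a a e) * Polynomial.X ^ 2
      + Polynomial.C (36 * B t R a e * B t R e e - 36 * B t R R e * B t a e e) * Polynomial.X
      + Polynomial.C (9 * (B t R e e) ^ 2 - 12 * B t R R e * B t e e e) := ⟨_, rfl⟩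
    have hdeg : d.natDegree ≤ 4 := by
      rw [hd]
      compute_degree
    have hlead : d.coeff 4 = (3 * B t R a a) ^ 2 := by
      rw [hd]
      simp only [Polynomial.coeff_add, Polynomial.coeff_C_mul, Polynomial.coeff_X_pow,
        Polynomial.coeff_X, Polynomial.coeff_C]
      norm_num
      ring
    have hd0 : Polynomial.eval₂ σ θ d = 0 := by
      rw [hd]
      simp only [Polynomial.eval₂_add, Polynomial.eval₂_mul, Polynomial.eval₂_C,
        Polynomial.eval₂_X, Polynomial.eval₂_pow]
      simp only [map_mul, map_sub, map_add, map_pow, map_ofNat]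
      linear_combination 3 * (3 * (σ (B t R a a) * θ ^ 2 + 2 * σ (B t R a e) * θ
        + σ (B t R e e)) + 2 * l * σ (B t R R e)) * E1 - 12 * σ (B t R R e) * θ * E2
        - 12 * σ (B t R R e) * E3
    have hd1 : Polynomial.eval₂ σ θ (Polynomial.derivative d) = 0 := by
      rw [hd]
      simp only [Polynomial.derivative_add, Polynomial.derivative_mul, Polynomial.derivative_C,
        Polynomial.derivative_X_pow, Polynomial.derivative_X, zero_mul, zero_add, mul_one,
        add_zero, Polynomial.eval₂_add, Polynomial.eval₂_mul, Polynomial.eval₂_C,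
        Polynomial.eval₂_X, Polynomial.eval₂_pow]
      simp only [map_mul, map_sub, map_add, map_pow, map_ofNat, map_natCast]
      push_cast
      linear_combination 18 * (2 * σ (B t R a a) * θ + 2 * σ (B t R a e)) * E1
        - 36 * σ (B t R R e) * E2
    by_cases hrat : ∃ c, σ c = θ
    · obtain ⟨c, hc⟩ := hrat
      obtain ⟨c', hc'⟩ : ∃ c', c' = -(c ^ 2 * B t R a a + 2 * c * B t R a e + B t R e e)
        / (2 * B t R R e) := ⟨_, rfl⟩
      have hl' : l = σ c' := by
        have h2 : (2 * σ (B t R R e)) ≠ 0 := mul_ne_zero two_ne_zero hω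
        rw [hc', map_div₀, map_neg, map_add, map_add, map_mul, map_mul, map_mul, map_mul,
          map_pow, map_ofNat, hc, eq_div_iff h2]
        linear_combination E1
      have h0 : c' • R + c • a + e = 0 := by
        apply hsing
        intro w
        have h3 : z1 = fun i => σ ((c' • R + c • a + e) i) := by
          rw [hz1, hl', ← hc, hYR, hYa, hYe]
          funext i
          simp
        have h4 := hz1s fun i => σ (w i)
        rw [h3, hB] at h4
        exact (map_eq_zero σ).1 h4
      apply he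
      have h5 : B t R R (c' • R + c • a + e) = B t R R e := by
        rw [B_add_right ht, B_add_right ht, B_smul_right ht, B_smul_right ht, hR, ha]; ring
      rw [← h5, h0]
      have := B_smul_right ht (0 : K) R R 0
      rwa [zero_smul, zero_mul] at this
    · push Not at hrat
      obtain ⟨N, hN2, hNd⟩ := square_of_double_root σ hdeg hlead hd0 hd1 hrat
      have hNq := Polynomial.eq_quadratic_of_degree_le_two (p := N)
        (Polynomial.natDegree_le_iff_degree_le.1 hN2)
      obtain ⟨n2, hn2⟩ : ∃ n2, n2 = N.coeff 2 := ⟨_, rfl⟩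
      obtain ⟨n1, hn1⟩ : ∃ n1, n1 = N.coeff 1 := ⟨_, rfl⟩
      obtain ⟨n0, hn0⟩ : ∃ n0, n0 = N.coeff 0 := ⟨_, rfl⟩
      rw [← hn2, ← hn1, ← hn0] at hNq
      have h6 : d = Polynomial.C (n2 ^ 2) * Polynomial.X ^ 4
          + Polynomial.C (2 * n1 * n2) * Polynomial.X ^ 3
          + Polynomial.C (2 * n0 * n2 + n1 ^ 2) * Polynomial.X ^ 2
          + Polynomial.C (2 * n0 * n1) * Polynomial.X + Polynomial.C (n0 ^ 2) := by
        rw [hNd, hNq]
        simp only [map_mul, map_add, map_pow, map_ofNat]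
        ring
      rw [hd] at h6
      obtain ⟨e4, e3, e2, e1, e0⟩ := quartic_coeffs h6
      exact disc_not_square ht hirr hR he ha haR e4 e3 e2 e1 e0

end NoSing

end Pool.Agent.MazurT
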