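import Mathlib
import Pool.Agent.MazurT.Ternary2

/-!
Ternary cubic forms: the rational points are dense or finitely many.
-/

namespace Pool.Agent.MazurT

open MvPolynomial Topology Pool.Agent.MazurC

section Bezout

variable {K : Type} [Field K] [CharZero K] {t : Fin 3 → Fin 3 → Fin 3 → K}

theorem root_mem (ht : Sym t) {v q : Fin 3 → K} (hv : B t v v v ≠ 0) {s : K}
    (hs : B t (q + s • v) (q + s • v) (q + s • v) = 0) :
    s ∈ (Polynomial.C (B t v v v) * Polynomial.X ^ 3
      + Polynomial.C (3 * B t q v v) * Polynomial.X ^ 2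
      + Polynomial.C (3 * B t q q v) * Polynomial.X + Polynomial.C (B t q q q)).roots := by
  have h0 : (Polynomial.C (B t v v v) * Polynomial.X ^ 3
      + Polynomial.C (3 * B t q v v) * Polynomial.X ^ 2
      + Polynomial.C (3 * B t q q v) * Polynomial.X + Polynomial.C (B t q q q)) ≠ 0 := by
    intro h
    have h3 := congrArg (fun p => Polynomial.coeff p 3) h
    simp only [Polynomial.coeff_add, Polynomial.coeff_C_mul, Polynomial.coeff_X_pow,
      Polynomial.coeff_X, Polynomial.coeff_C] at h3
    norm_num at h3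
    exact hv h3
  rw [Polynomial.mem_roots h0, Polynomial.IsRoot.def]
  simp only [Polynomial.eval_add, Polynomial.eval_mul, Polynomial.eval_C, Polynomial.eval_X,
    Polynomial.eval_pow]
  have h1 := B_comb3 ht 1 s q v
  rw [one_smul, hs] at h1
  linear_combination -h1

theorem lines_of_not_dense (ht : Sym t) (hirr : Irreducible (cub t))
    {f : MvPolynomial (Fin 3) K} (hf : ¬ cub t ∣ f)
    (hfX : ∀ y : Fin 3 → K, y ≠ 0 → B t y y y = 0 → eval y f = 0) :
    ∃ A : Finset (Fin 3 → K), ∀ x, B t x x x = 0 → x ≠ 0 → ∃ P ∈ A, ∃ c : K, x = c • P := by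
  classical
  obtain ⟨v, hv⟩ := exists_eval_ne hirr.ne_zero
  rw [eval_cub] at hv
  have hv0 : v ≠ 0 := by
    rintro rfl
    apply hv
    have := B_smul_left t (0 : K) 0 0 0
    rwa [zero_smul, zero_mul] at this
  obtain ⟨r, hr0, a, b, hab⟩ := exists_elim v hirr (natDegree_shift_ne ht v hv) hf
  have hr1 : ∀ P : Fin 3 → K, P ≠ 0 → B t P P P = 0 → ∀ s : K, eval (P + s • v) r = 0 := by
    intro P hP0 hP s
    have h1 := congrArg (Polynomial.eval₂ (eval₂Hom (RingHom.id K) (P + s • v)) (-s)) hab
    rw [Polynomial.eval₂_C, Polynomial.eval₂_add, Polynomial.eval₂_mul, Polynomial.eval₂_mul,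
      eval₂_shift, eval₂_shift] at h1
    have e1 : (fun i => (P + s • v) i + (RingHom.id K) (v i) * -s) = P := by
      funext i
      simp only [Pi.add_apply, Pi.smul_apply, smul_eq_mul, RingHom.id_apply]
      ring
    rw [e1] at h1
    have e2 : eval₂ (RingHom.id K) P (cub t) = 0 := by
      show eval P (cub t) = 0
      rw [eval_cub, hP]
    have e3 : eval₂ (RingHom.id K) P f = 0 := hfX P hP0 hP
    rw [e2, e3, mul_zero, mul_zero, add_zero] at h1
    exact h1
  have hr2 : ∀ P : Fin 3 → K, P ≠ 0 → B t P P P = 0 → ∀ c s : K, c ≠ 0 →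
      eval (c • P + s • v) r = 0 := by
    intro P hP0 hP c s hc
    refine hr1 (c • P) (smul_ne_zero hc hP0) ?_ s
    rw [B_smul_left, B_smul_mid ht, B_smul_right ht, hP]
    ring
  -- a good starting point
  obtain ⟨i, hi⟩ : ∃ i, v i ≠ 0 := by
    by_contra h
    push Not at h
    exact hv0 (funext h)
  obtain ⟨j, hj⟩ : ∃ j : Fin 3, j ≠ i := ⟨i + 1, by
    fin_cases i <;> decide⟩
  have hl : (X j * C (v i) - X i * C (v j) : MvPolynomial (Fin 3) K) ≠ 0 := by
    intro h
    have h1 := congrArg (eval (Pi.single j (1 : K) : Fin 3 → K)) h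
    rw [map_sub, map_mul, map_mul, eval_X, eval_X, eval_C, eval_C, map_zero,
      Pi.single_eq_same, Pi.single_eq_of_ne (Ne.symm hj)] at h1
    apply hi
    linear_combination h1
  obtain ⟨w0, hw0⟩ := exists_eval_ne (mul_ne_zero hr0 hl)
  rw [map_mul] at hw0
  have hrw : eval w0 r ≠ 0 := left_ne_zero_of_mul hw0
  have hw0v : w0 ∉ Submodule.span K {v} := by
    intro h
    obtain ⟨c, rfl⟩ := Submodule.mem_span_singleton.1 h
    apply right_ne_zero_of_mul hw0
    rw [map_sub, map_mul, map_mul, eval_X, eval_X, eval_C, eval_C, Pi.smul_apply,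
      Pi.smul_apply, smul_eq_mul, smul_eq_mul]
    ring
  obtain ⟨w1, hw1⟩ : ∃ w1, w1 ∉ Submodule.span K {v, w0} := by
    by_contra h
    push Not at h
    have h1 : Submodule.span K {v, w0} = ⊤ := by
      rw [eq_top_iff]
      exact fun x _ => h x
    have h2 := finrank_span_le_card (R := K) ({v, w0} : Set (Fin 3 → K))
    have h3 : ({v, w0} : Set (Fin 3 → K)).toFinset.card ≤ 2 := by
      have : ({v, w0} : Set (Fin 3 → K)).toFinset = {v, w0} := by
        ext x; simp
      rw [this]
      exact Finset.card_le_two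
    rw [h1, finrank_top, Module.finrank_fin_fun] at h2
    omega
  -- the polynomial on the line
  obtain ⟨ρ, hρ⟩ : ∃ ρ : Polynomial K, ρ = eval₂ Polynomial.C
      (fun i => Polynomial.C (w0 i) + Polynomial.C (w1 i) * Polynomial.X) r := ⟨_, rfl⟩
  have hρe : ∀ s : K, Polynomial.eval s ρ = eval (w0 + s • w1) r := by
    intro s
    have h1 := hom_eval₂' (Polynomial.C : K →+* Polynomial K) (Polynomial.evalRingHom s)
      (fun i => Polynomial.C (w0 i) + Polynomial.C (w1 i) * Polynomial.X) r
    rw [← hρ] at h1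
    have e1 : (Polynomial.evalRingHom s).comp (Polynomial.C : K →+* Polynomial K)
        = RingHom.id K := by
      ext1 c; simp
    rw [e1] at h1
    have e2 : (fun i => Polynomial.evalRingHom s
        (Polynomial.C (w0 i) + Polynomial.C (w1 i) * Polynomial.X)) = w0 + s • w1 := by
      funext i
      simp only [Polynomial.coe_evalRingHom, Polynomial.eval_add, Polynomial.eval_mul,
        Polynomial.eval_C, Polynomial.eval_X, Pi.add_apply, Pi.smul_apply, smul_eq_mul]
      ring
    rw [e2] at h1
    exact h1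
  have hρ0 : ρ ≠ 0 := by
    intro h
    apply hrw
    have := hρe 0
    rw [h, Polynomial.eval_zero, zero_smul, add_zero] at this
    exact this.symm
  let cq : (Fin 3 → K) → Polynomial K := fun q => Polynomial.C (B t v v v) * Polynomial.X ^ 3
      + Polynomial.C (3 * B t q v v) * Polynomial.X ^ 2
      + Polynomial.C (3 * B t q q v) * Polynomial.X + Polynomial.C (B t q q q)
  let Q : Finset (Fin 3 → K) := insert w1 (ρ.roots.toFinset.image fun s => w0 + s • w1)
  refine ⟨Q.biUnion fun q => (cq q).roots.toFinset.image fun s => q + s • v, ?_⟩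
  intro x hx hx0
  obtain ⟨α, β, γ, hxe⟩ := three_span hv0 hw0v hw1 x
  have hfin : ∀ (q : Fin 3 → K) (c s : K), q ∈ Q → c ≠ 0 → x = c • (q + s • v) →
      ∃ P ∈ Q.biUnion fun q => (cq q).roots.toFinset.image fun s => q + s • v,
      ∃ c : K, x = c • P := by
    intro q c s hq hc hxq
    refine ⟨q + s • v, ?_, c, hxq⟩
    rw [Finset.mem_biUnion]
    refine ⟨q, hq, Finset.mem_image.2 ⟨s, ?_, rfl⟩⟩
    rw [Multiset.mem_toFinset]
    apply root_mem ht hv
    rw [hxq, B_smul_left, B_smul_mid ht, B_smul_right ht] at hx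
    have h1 := (mul_eq_zero.1 hx).resolve_left hc
    have h2 := (mul_eq_zero.1 h1).resolve_left hc
    exact (mul_eq_zero.1 h2).resolve_left hc
  by_cases hβ : β = 0
  · rw [hβ, zero_smul, add_zero] at hxe
    by_cases hγ : γ = 0
    · exfalso
      rw [hγ, zero_smul, add_zero] at hxe
      rw [hxe, B_smul_left, B_smul_mid ht, B_smul_right ht] at hx
      have hα : α = 0 := by
        by_contra hα
        exact mul_ne_zero hα (mul_ne_zero hα (mul_ne_zero hα hv)) hx
      exact hx0 (by rw [hxe, hα, zero_smul])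
    · refine hfin w1 γ (α / γ) (Finset.mem_insert_self _ _) hγ ?_
      rw [hxe, smul_add, smul_smul, mul_div_cancel₀ _ hγ, add_comm]
  · refine hfin (w0 + (γ / β) • w1) β (α / β) ?_ hβ ?_
    · refine Finset.mem_insert_of_mem (Finset.mem_image.2 ⟨γ / β, ?_, rfl⟩)
      rw [Multiset.mem_toFinset, Polynomial.mem_roots hρ0, Polynomial.IsRoot.def, hρe]
      have h1 := hr2 x hx0 hx β⁻¹ (-(α / β)) (inv_ne_zero hβ)
      have h2 : β⁻¹ • x + (-(α / β)) • v = w0 + (γ / β) • w1 := by
        rw [hxe]
        funext k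
        simp only [Pi.add_apply, Pi.smul_apply, smul_eq_mul]
        field_simp
        ring
      rw [h2] at h1
      exact h1
    · rw [hxe]
      funext k
      simp only [Pi.add_apply, Pi.smul_apply, smul_eq_mul]
      field_simp
      ring

end Bezout

section Cone

variable {n : ℕ} {K : Type} [Field K] [CharZero K] {L : Type} [NontriviallyNormedField L]
  {σ : K →+* L} {t : Fin (n + 1) → Fin (n + 1) → Fin (n + 1) → K} {ht : Sym t}
  {p : (Fin (n + 1) → K) →ₗ[K] (Fin 3 → K)} {s : (Fin 3 → K) →ₗ[K] (Fin (n + 1) → K)}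

/-- Cones over plane cubic curves. -/
theorem rat_cone (D : ConeData ht p s) (hpv : ∀ x ∈ vert ht, p x = 0)
    (hσ : DenseRange σ) [ProperSpace L] (hirr : Irreducible (cub t))
    (hsing : ∀ x, (∀ w, B t x x w = 0) → ∀ z, B t x z z = 0)
    {R e : Fin (n + 1) → K} (hR : B t R R R = 0) (he : B t R R e ≠ 0) :
    LinRat σ (cub t) := by
  classical
  have hchar : CharZero L := charZero_of_injective_ringHom σ.injective
  obtain ⟨t', ht'⟩ : ∃ t', t' = pull t s := ⟨_, rfl⟩
  have hsym' : Sym t' := by rw [ht']; exact pull_sym ht s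
  have hirr' : Irreducible (cub t') := by rw [ht']; exact D.irreducible hirr
  have hsing' : ∀ x, (∀ w, B t' x x w = 0) → x = 0 := by
    intro x hx
    rw [ht'] at hx
    exact D.singular hsing hpv hx
  have hBe : ∀ x y z, B t' (p x) (p y) (p z) = B t x y z := by
    intro x y z
    rw [ht']; exact D.B_eq x y z
  have hR' : B t' (p R) (p R) (p R) = 0 := by rw [hBe, hR]
  have he' : B t' (p R) (p R) (p e) ≠ 0 := by rw [hBe]; exact he
  have hR0 : p R ≠ 0 := by
    intro h
    apply he
    exact D.hker R h R e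
  by_cases hdens : ∀ f : MvPolynomial (Fin 3) K, (∀ y : Fin 3 → K, y ≠ 0 →
      eval y (cub t') = 0 → eval y f = 0) → cub t' ∣ f
  · have H : Cub σ t' (cub t') := by
      refine ⟨hsym', rfl, cub_hom t', hirr', hdens, ?_⟩
      intro x hx0 _
      by_contra hcon
      push Not at hcon
      exact hx0 (no_sing_L (σ := σ) hsym' hirr' hsing' hR' he' hcon)
    have hom : ∀ y : Fin (n + 1) → K, p y ≠ 0 → B t y y y = 0 → Om σ t (cub t) (sv σ y) := by
      intro y hy0 hy
      refine D.om hσ hirr hy0 ?_
      rw [← ht']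
      refine om_rational H hy0 ?_
      rw [eval_cub, hBe, hy]
    refine linRat_of_all fun y hy0 hyS => ?_
    have hy : B t y y y = 0 := by
      rw [← eval_cub]
      exact hyS
    apply localIdeal_of_om
    intro U hU
    by_cases hpy : p y = 0
    · obtain ⟨c, hc0, hx0, hnear⟩ := exists_small (v := R) hσ hy0 hU
      refine ⟨y + c • R, hnear, hom _ ?_ ?_⟩
      · rw [map_add, hpy, zero_add, map_smul]
        exact smul_ne_zero hc0 hR0
      · apply add_of_vertex ht (fun z => D.hker y hpy z z)
        rw [B_smul_left, B_smul_mid ht, B_smul_right ht, hR]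
        ring
    · exact ⟨y, ⟨1, one_ne_zero, by rw [one_smul]; exact mem_of_mem_nhds hU⟩, hom y hpy hy⟩
  · push Not at hdens
    obtain ⟨f, hfX, hf⟩ := hdens
    obtain ⟨A, hA⟩ := lines_of_not_dense hsym' hirr' hf (fun y hy0 hy => hfX y hy0 (by
      rw [eval_cub, hy]))
    let ι := {P : Fin 3 → K // P ∈ A ∧ B t' P P P = 0}
    have : Finite ι := by
      have h1 : {P : Fin 3 → K | P ∈ A ∧ B t' P P P = 0}.Finite :=
        A.finite_toSet.subset fun P hP => hP.1
      exact h1.to_subtype
    have hmem : ∀ x : Fin 3 → K, x ≠ 0 → B t' x x x = 0 → ∃ P : ι, x ∈ Submodule.span K {P.1} := by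
      intro x hx0 hx
      obtain ⟨P, hP, c, hc⟩ := hA x hx hx0
      have hc0 : c ≠ 0 := by
        rintro rfl
        exact hx0 (by rw [hc, zero_smul])
      refine ⟨⟨P, hP, ?_⟩, ?_⟩
      · rw [hc, B_smul_left, B_smul_mid hsym', B_smul_right hsym'] at hx
        have h1 := (mul_eq_zero.1 hx).resolve_left hc0
        have h2 := (mul_eq_zero.1 h1).resolve_left hc0
        exact (mul_eq_zero.1 h2).resolve_left hc0
      · have h1 : c • P ∈ Submodule.span K {P} :=
          Submodule.smul_mem _ _ (Submodule.mem_span_singleton_self _)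
        rw [← hc] at h1
        exact h1
    refine rat_of_subspaces hσ (cub_hom t) (fun P : ι => (Submodule.span K {P.1}).comap p) ?_
    intro x _
    constructor
    · intro hx
      have hx' : B t x x x = 0 := by
        rw [← eval_cub]
        exact hx
      by_cases hpx : p x = 0
      · obtain ⟨P, _⟩ := hmem (p R) hR0 hR'
        refine ⟨P, ?_⟩
        rw [Submodule.mem_comap, hpx]
        exact Submodule.zero_mem _
      · obtain ⟨P, hP⟩ := hmem (p x) hpx (by rw [hBe, hx'])
        exact ⟨P, hP⟩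
    · rintro ⟨P, hP⟩
      rw [Submodule.mem_comap] at hP
      obtain ⟨c, hc⟩ := Submodule.mem_span_singleton.1 hP
      rw [eval_cub, ← hBe, ← hc, B_smul_left,
        B_smul_mid hsym', B_smul_right hsym', P.2.2]
      ring

end Cone

end Pool.Agent.MazurT
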