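import Mathlib
import Pool.Agent.MazurT.Ternary3

/-!
Irreducible cubic hypersurfaces: the main theorem.
-/

namespace Pool.Agent.MazurT

open MvPolynomial Topology Pool.Agent.MazurC

section Dense

variable {n m : ℕ} {K : Type} [Field K] [CharZero K]

/-- The rational points of the hypersurface are Zariski dense in it. -/
def DenseK (F : MvPolynomial (Fin n) K) : Prop :=
  ∀ f : MvPolynomial (Fin n) K, (∀ y : Fin n → K, y ≠ 0 → eval y F = 0 → eval y f = 0) → F ∣ f

/-- A linear form vanishing on a given proper subspace. -/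
theorem exists_linear_form (W : Submodule K (Fin n → K)) {v : Fin n → K} (hv : v ∉ W) :
    ∃ l : MvPolynomial (Fin n) K, l.IsHomogeneous 1 ∧ l ≠ 0 ∧ ∀ x ∈ W, eval x l = 0 := by
  classical
  obtain ⟨f, hfv, hfW⟩ := Submodule.exists_dual_map_eq_bot_of_notMem hv inferInstance
  have hl : ∀ x, eval x (∑ i, C (f (Pi.single i 1)) * X i) = f x := by
    intro x
    have h1 : f x = ∑ i, x i * f (Pi.single i 1) := by
      conv_lhs => rw [← Finset.univ_sum_single x]
      rw [map_sum]
      refine Finset.sum_congr rfl fun i _ => ?_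
      have : (Pi.single i (x i) : Fin n → K) = x i • Pi.single i 1 := by
        rw [← Pi.single_smul, smul_eq_mul, mul_one]
      rw [this, map_smul, smul_eq_mul]
    rw [map_sum, h1]
    refine Finset.sum_congr rfl fun i _ => ?_
    rw [map_mul, eval_C, eval_X]
    ring
  refine ⟨∑ i, C (f (Pi.single i 1)) * X i,
    IsHomogeneous.sum _ _ _ fun _ _ => isHomogeneous_C_mul_X _ _, ?_, ?_⟩
  · intro h
    apply hfv
    rw [← hl, h, map_zero]
  · intro x hx
    rw [hl]
    have : f x ∈ W.map f := Submodule.mem_map_of_mem hx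
    rwa [hfW, Submodule.mem_bot] at this

theorem not_dense_of_add {t : Fin n → Fin n → Fin n → K} (ht : Sym t)
    (hirr : Irreducible (cub t))
    (h : ∀ x y, B t x x x = 0 → B t y y y = 0 → B t (x + y) (x + y) (x + y) = 0) :
    ¬ DenseK (cub t) := by
  intro hd
  let W : Submodule K (Fin n → K) :=
    { carrier := {x | B t x x x = 0}
      add_mem' := fun {a b} ha hb => h a b ha hb
      zero_mem' := by
        show B t 0 0 0 = 0
        have := B_smul_left t (0 : K) 0 0 0
        rwa [zero_smul, zero_mul] at this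
      smul_mem' := fun c a ha => by
        show B t (c • a) (c • a) (c • a) = 0
        have ha' : B t a a a = 0 := ha
        rw [B_smul_left, B_smul_mid ht, B_smul_right ht, ha']
        ring }
  obtain ⟨v, hv⟩ := exists_eval_ne hirr.ne_zero
  rw [eval_cub] at hv
  obtain ⟨l, hl, hl0, hlW⟩ := exists_linear_form W (v := v) hv
  refine not_dvd_of_lt' (cub_hom t) hirr.ne_zero hl hl0 (by norm_num) (hd l ?_)
  intro y _ hy
  rw [eval_cub] at hy
  exact hlW y hy

theorem DenseK.pull {t : Fin n → Fin n → Fin n → K} {ht : Sym t}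
    {p : (Fin n → K) →ₗ[K] (Fin m → K)} {s : (Fin m → K) →ₗ[K] (Fin n → K)}
    (D : ConeData ht p s) (hd : DenseK (cub t)) {R : Fin n → K} (hR : B t R R R = 0)
    (hR0 : p R ≠ 0) : DenseK (cub (pull t s)) := by
  intro f' hf'
  have h0 : eval (0 : Fin m → K) f' = 0 := by
    obtain ⟨ρ, hρ⟩ : ∃ ρ : Polynomial K, ρ = eval₂ Polynomial.C
      (fun i => Polynomial.C (p R i) * Polynomial.X) f' := ⟨_, rfl⟩
    have hρe : ∀ c : K, Polynomial.eval c ρ = eval (c • p R) f' := by
      intro c
      have h1 := hom_eval₂' (Polynomial.C : K →+* Polynomial K) (Polynomial.evalRingHom c)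
        (fun i => Polynomial.C (p R i) * Polynomial.X) f'
      rw [← hρ] at h1
      have e1 : (Polynomial.evalRingHom c).comp (Polynomial.C : K →+* Polynomial K)
          = RingHom.id K := by
        ext1 c; simp
      rw [e1] at h1
      have e2 : (fun i => Polynomial.evalRingHom c
          (Polynomial.C (p R i) * Polynomial.X)) = c • p R := by
        funext i
        simp only [Polynomial.coe_evalRingHom, Polynomial.eval_mul,
          Polynomial.eval_C, Polynomial.eval_X, Pi.smul_apply, smul_eq_mul]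
        ring
      rw [e2] at h1
      exact h1
    have h2 : Polynomial.X * ρ = 0 := by
      apply Polynomial.funext
      intro c
      rw [Polynomial.eval_mul, Polynomial.eval_X, Polynomial.eval_zero, hρe]
      by_cases hc : c = 0
      · rw [hc, zero_mul]
      · rw [hf' (c • p R) (smul_ne_zero hc hR0), mul_zero]
        rw [eval_cub, B_smul_left, B_smul_mid (pull_sym ht s), B_smul_right (pull_sym ht s),
          D.B_eq, hR]
        ring
    have h3 := (mul_eq_zero.1 h2).resolve_left Polynomial.X_ne_zero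
    have h4 := hρe 0
    rw [h3, Polynomial.eval_zero, zero_smul] at h4
    exact h4.symm
  have h1 : cub t ∣ eval₂ C (lp p) f' := by
    apply hd
    intro y _ hy
    rw [eval_comp_lp]
    by_cases hpy : p y = 0
    · rw [hpy, h0]
    · apply hf' _ hpy
      rw [eval_cub, D.B_eq, ← eval_cub, hy]
  have h2 := map_dvd (eval₂Hom C (lp s)) h1
  rw [coe_eval₂Hom, D.comp_inv, D.cub_eq, D.comp_inv] at h2
  exact h2

end Dense

section Main

variable {n : ℕ} {K : Type} [Field K] [CharZero K] {L : Type} [NontriviallyNormedField L]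
  {σ : K →+* L} {t : Fin (n + 1) → Fin (n + 1) → Fin (n + 1) → K}

theorem om_of_dense_cone {ht : Sym t}
    {p : (Fin (n + 1) → K) →ₗ[K] (Fin 3 → K)} {s : (Fin 3 → K) →ₗ[K] (Fin (n + 1) → K)}
    (D : ConeData ht p s) (hpv : ∀ x ∈ vert ht, p x = 0)
    (hσ : DenseRange σ) [ProperSpace L] (hirr : Irreducible (cub t))
    (hsing : ∀ x, (∀ w, B t x x w = 0) → ∀ z, B t x z z = 0)
    (hd : DenseK (cub t)) {y e : Fin (n + 1) → K} (hy : B t y y y = 0) (he : B t y y e ≠ 0) :
    Om σ t (cub t) (sv σ y) := by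
  have hchar : CharZero L := charZero_of_injective_ringHom σ.injective
  have hy0 : p y ≠ 0 := by
    intro h
    apply he
    exact D.hker y h y e
  have hd' := hd.pull D hy hy0
  have hirr' := D.irreducible hirr
  have hsing' : ∀ x, (∀ w, B (pull t s) x x w = 0) → x = 0 :=
    fun x hx => D.singular hsing hpv hx
  have H : Cub σ (pull t s) (cub (pull t s)) := by
    refine ⟨pull_sym ht s, rfl, cub_hom _, hirr', hd', ?_⟩
    intro x hx0 _
    by_contra hcon
    push Not at hcon
    exact hx0 (no_sing_L (σ := σ) (pull_sym ht s) hirr' hsing' (by rw [D.B_eq, hy])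
      (by rw [D.B_eq]; exact he) hcon)
  refine D.om hσ hirr hy0 (om_rational H hy0 ?_)
  rw [eval_cub, D.B_eq, hy]

/-- The main theorem on cubic forms. -/
theorem main_cub (ht : Sym t) (hirr : Irreducible (cub t)) (hσ : DenseRange σ)
    [ProperSpace L] : LinRat σ (cub t) ∧ (DenseK (cub t) →
      ∀ y e : Fin (n + 1) → K, B t y y y = 0 → B t y y e ≠ 0 → Om σ t (cub t) (sv σ y)) := by
  by_cases h1 : ∃ y, (∀ w, B t y y w = 0) ∧ ∃ z, B t y z z ≠ 0
  · obtain ⟨y, hy, hz⟩ := h1
    obtain ⟨P⟩ := param_of_singular ht hirr hy hz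
    exact ⟨rat_of_param ht hirr hσ P, fun _ y e hy he => P.om_smooth ht hirr hσ hy ⟨e, he⟩⟩
  have hsing : ∀ s, (∀ w, B t s s w = 0) → ∀ z, B t s z z = 0 := by
    intro s hs z
    by_contra hz
    exact h1 ⟨s, hs, z, hz⟩
  by_cases h2 : ∀ x, B t x x x = 0 → ∀ w, B t x x w = 0
  · exact ⟨rat_of_no_smooth ht hσ h2, fun _ y e hy he => absurd (h2 y hy e) he⟩
  push Not at h2
  obtain ⟨R, hR, e, he⟩ := h2
  by_cases h3 : ∀ a b, cub t ∣ gm t a b
  · have h4 := finrank_vert_le ht hirr hR he
    by_cases h5 : Module.finrank K (vert ht) + 4 ≤ n + 1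
    · have hadd : ∀ x y, B t x x x = 0 → B t y y y = 0 → B t (x + y) (x + y) (x + y) = 0 :=
        fun x y hx hy => add_closed_of_rank3 ht h3 (exists_three ht h5) hsing hx hy
      exact ⟨rat_of_add ht hσ hadd, fun hd => absurd hd (not_dense_of_add ht hirr hadd)⟩
    · obtain ⟨p, s, hps, hker⟩ := exists_section ht (by omega :
        Module.finrank K (vert ht) + 3 = n + 1)
      have D : ConeData ht p s := ⟨hps, fun x hx => (hker x).1 hx⟩
      have hpv : ∀ x ∈ vert ht, p x = 0 := fun x hx => (hker x).2 hx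
      exact ⟨rat_cone D hpv hσ hirr hsing hR he,
        fun hd y e hy he => om_of_dense_cone D hpv hσ hirr hsing hd hy he⟩
  · push Not at h3
    obtain ⟨a, b, hab⟩ := h3
    obtain ⟨P⟩ := exists_param ht hirr hR ⟨e, he⟩ a b hab
    exact ⟨rat_of_param ht hirr hσ P, fun _ y e hy he => P.om_smooth ht hirr hσ hy ⟨e, he⟩⟩

end Main

end Pool.Agent.MazurT
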