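import Mathlib
import Pool.Agent.MazurT.Main

/-!
Hyperplanes and quadrics.
-/

namespace Pool.Agent.MazurT

open MvPolynomial Topology Pool.Agent.MazurC

section General

variable {n : ℕ} {K : Type} [Field K] [CharZero K] {L : Type} [NontriviallyNormedField L]
  {σ : K →+* L}

/-- Points at which the rational points of `F = 0` accumulate Zariski densely. -/
def OmF (σ : K →+* L) (F : MvPolynomial (Fin n) K) (x : Fin n → L) : Prop :=
  ∀ (e : ℕ) (f : MvPolynomial (Fin n) K), f.IsHomogeneous e → ∀ U ∈ 𝓝 x,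
    (∀ y : Fin n → K, y ≠ 0 → eval y F = 0 → Near σ U y → eval y f = 0) → F ∣ f

theorem OmF.smul {F : MvPolynomial (Fin n) K} {x : Fin n → L}
    (h : OmF σ F x) (c : L) : OmF σ F (c • x) := by
  intro e f hf U hU hfU
  have hcont : Continuous fun z : Fin n → L => c • z := continuous_const_smul c
  by_cases hc : c = 0
  · refine h e f hf Set.univ Filter.univ_mem ?_
    intro y hy hFy _
    have hU0 : U ∈ 𝓝 (0 : Fin n → L) := by
      rw [hc, zero_smul] at hU; exact hU
    have h2 : ∃ c' : L, c' ≠ 0 ∧ c' • sv σ y ∈ U := by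
      have hcont' : Continuous fun z : L => z • sv σ y := by fun_prop
      have h3 : (fun z : L => z • sv σ y) ⁻¹' U ∈ 𝓝 (0 : L) := by
        apply hcont'.continuousAt.preimage_mem_nhds
        rwa [zero_smul]
      have h4 : ((fun z : L => z • sv σ y) ⁻¹' U ∩ {0}ᶜ).Nonempty := by
        have := mem_closure_iff_nhds.1 (mem_closure_iff_nhdsWithin_neBot.2
          (inferInstance : (𝓝[≠] (0 : L)).NeBot)) _ h3
        exact this
      obtain ⟨c', h5, h6⟩ := h4
      exact ⟨c', h6, h5⟩
    exact hfU y hy hFy h2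
  · refine h e f hf ((fun z : Fin n → L => c • z) ⁻¹' U) (hcont.continuousAt hU) ?_
    intro y hy hFy hnear
    apply hfU y hy hFy
    obtain ⟨d, hd, hd2⟩ := hnear
    refine ⟨c * d, mul_ne_zero hc hd, ?_⟩
    rw [mul_smul]
    exact hd2

theorem localIdeal_of_omF {F : MvPolynomial (Fin (n + 1)) K} {k : ℕ} (hF : F.IsHomogeneous k)
    {y : Fin (n + 1) → L}
    (h : ∀ U ∈ 𝓝 y, ∃ x : Fin (n + 1) → K, Near σ U x ∧ OmF σ F (sv σ x)) :
    localIdeal σ {F} y = {f | F ∣ f} := by
  classical
  have : Infinite K := inferInstance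
  ext f
  simp only [localIdeal, Set.mem_ofPred_eq, Set.mem_singleton_iff, forall_eq]
  constructor
  · rintro ⟨U, hU, hf⟩
    obtain ⟨V, hVU, hVo, hyV⟩ := mem_nhds_iff.1 hU
    obtain ⟨x, ⟨c, hc, hcV⟩, hom⟩ := h V (hVo.mem_nhds hyV)
    have hom' := hom.smul c
    have hnb : V ∈ 𝓝 (c • sv σ x) := hVo.mem_nhds hcV
    rw [← sum_homogeneousComponent f]
    refine Finset.dvd_sum fun d _ => ?_
    refine hom' d _ (homogeneousComponent_isHomogeneous d f) V hnb ?_
    rintro z hz hFz ⟨c', hc', hc'V⟩
    exact component_eval_eq_zero f z (hf z hz hFz ⟨c', hc', hVU hc'V⟩) d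
  · rintro ⟨g, rfl⟩
    refine ⟨Set.univ, Filter.univ_mem, ?_⟩
    intro z _ hz _ s
    rw [map_mul, eval_smul_hom hF, hz, mul_zero, zero_mul]

theorem not_dvd_of_deg {F g : MvPolynomial (Fin n) K} {k d : ℕ}
    (hF : F.IsHomogeneous k)
    (hF0 : F ≠ 0) (hg : g.IsHomogeneous d) (hg0 : g ≠ 0) (hd : d < k) : ¬ F ∣ g := by
  rintro ⟨q, rfl⟩
  have hq0 : q ≠ 0 := by rintro rfl; exact hg0 (mul_zero _)
  have h1 := hg.totalDegree hg0
  rw [totalDegree_mul_of_isDomain hF0 hq0, hF.totalDegree hF0] at h1
  omega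

end General

section Linear

variable {n : ℕ} {K : Type} [Field K] [CharZero K]

theorem exists_linear (F : MvPolynomial (Fin n) K) (hF : F.IsHomogeneous 1) :
    ∃ c : Fin n → K, F = ∑ i, C (c i) * X i := by
  classical
  rw [F.as_sum]
  have h : ∀ e ∈ F.support, ∃ c : Fin n → K, monomial e (coeff e F) = ∑ i, C (c i) * X i := by
    intro e he
    have hdeg : e.degree = 0 + 1 := by
      have := hF (mem_support_iff.1 he)
      rw [Finsupp.degree_eq_weight_one]
      exact this
    obtain ⟨i, e1, rfl, h1⟩ := exists_single e hdeg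
    have h4 : e1 = 0 := (Finsupp.degree_eq_zero_iff e1).1 h1
    subst h4
    rw [add_zero]
    refine ⟨fun a => if a = i then coeff (Finsupp.single i 1) F else 0, ?_⟩
    rw [Finset.sum_eq_single i]
    · simp only [if_true]
      rw [← C_mul_X_eq_monomial]
    · intro b _ hb; simp [hb]
    · simp
  choose! c hc using h
  refine ⟨fun i => ∑ e ∈ F.support, c e i, ?_⟩
  rw [Finset.sum_congr rfl hc, Finset.sum_comm]
  refine Finset.sum_congr rfl fun i _ => ?_
  rw [map_sum, Finset.sum_mul]

theorem linear_add {F : MvPolynomial (Fin n) K} (hF : F.IsHomogeneous 1) (x y : Fin n → K) :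
    eval (x + y) F = eval x F + eval y F := by
  obtain ⟨c, rfl⟩ := exists_linear F hF
  simp only [map_sum, map_mul, eval_C, eval_X, ← Finset.sum_add_distrib, Pi.add_apply]
  refine Finset.sum_congr rfl fun i _ => ?_
  ring

variable {L : Type} [NontriviallyNormedField L] {σ : K →+* L}

theorem omF_linear (hσ : DenseRange σ) {F : MvPolynomial (Fin n) K} (hF : F.IsHomogeneous 1)
    (hirr : Irreducible F) {y : Fin n → K} (hy0 : y ≠ 0) (hy : eval y F = 0) :
    OmF σ F (sv σ y) := by
  classical
  intro e f hf U hU hfU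
  let W : Submodule K (Fin n → K) :=
    { carrier := {x | eval x F = 0}
      add_mem' := fun {a b} ha hb => by
        show eval (a + b) F = 0
        have ha' : eval a F = 0 := ha
        have hb' : eval b F = 0 := hb
        rw [linear_add hF, ha', hb', add_zero]
      zero_mem' := by
        show eval 0 F = 0
        have := eval_smul_hom hF (0 : K) 0
        rw [zero_smul, pow_one, zero_mul] at this
        exact this
      smul_mem' := fun c a ha => by
        show eval (c • a) F = 0
        have ha' : eval a F = 0 := ha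
        rw [eval_smul_hom hF, ha', mul_zero] }
  have hW : ∀ x ∈ W, eval x f = 0 := by
    refine vanish_subspace hσ W hy hy0 hU ?_
    intro x hx hx0 hnear s
    rw [eval_smul_hom hf, hfU x hx0 hx hnear, mul_zero]
  obtain ⟨v, hv⟩ := exists_eval_ne hirr.ne_zero
  -- reduction modulo F
  have hg : eval₂ C (fun i => X i - C ((eval v F)⁻¹ * v i) * F) f = 0 := by
    apply MvPolynomial.funext
    intro x
    have h1 := hom_eval₂' (C : K →+* MvPolynomial (Fin n) K) (eval x)
      (fun i => X i - C ((eval v F)⁻¹ * v i) * F) f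
    have e1 : (eval x).comp (C : K →+* MvPolynomial (Fin n) K) = RingHom.id K := by
      ext1 c; simp
    rw [e1] at h1
    have e2 : (fun i => eval x (X i - C ((eval v F)⁻¹ * v i) * F))
        = x + (-((eval v F)⁻¹ * eval x F)) • v := by
      funext i
      simp only [map_sub, map_mul, eval_X, eval_C, Pi.add_apply, Pi.smul_apply, smul_eq_mul]
      ring
    rw [e2] at h1
    rw [h1, map_zero]
    apply hW
    show eval (x + (-((eval v F)⁻¹ * eval x F)) • v) F = 0
    rw [linear_add hF, eval_smul_hom hF, pow_one]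
    field_simp
    ring
  rw [← Ideal.mem_span_singleton, ← Ideal.Quotient.eq_zero_iff_mem]
  have e2 := hom_eval₂' (C : K →+* MvPolynomial (Fin n) K) (Ideal.Quotient.mk (Ideal.span {F}))
    (fun i => X i - C ((eval v F)⁻¹ * v i) * F) f
  have e3 := hom_eval₂' (C : K →+* MvPolynomial (Fin n) K) (Ideal.Quotient.mk (Ideal.span {F}))
    X f
  rw [eval₂_eta] at e3
  rw [hg, map_zero] at e2
  rw [e3, e2]
  congr 1
  funext i
  rw [map_sub, map_mul, Ideal.Quotient.eq_zero_iff_mem.2 (Ideal.mem_span_singleton_self F),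
    mul_zero, sub_zero]

end Linear

section Quadric

variable {n : ℕ}

/-- A bilinear form. -/
def Bq {M : Type*} [CommRing M] (q : Fin n → Fin n → M) (x y : Fin n → M) : M :=
  ∑ i, ∑ j, q i j * x i * y j

variable {M : Type*} [CommRing M] {q : Fin n → Fin n → M}

theorem Bq_comm (hq : ∀ i j, q i j = q j i) (x y : Fin n → M) : Bq q x y = Bq q y x := by
  rw [Bq, Bq, Finset.sum_comm]
  refine Finset.sum_congr rfl fun i _ => Finset.sum_congr rfl fun j _ => ?_
  rw [hq]; ring

theorem Bq_add (q : Fin n → Fin n → M) (x y z : Fin n → M) :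
    Bq q (x + y) z = Bq q x z + Bq q y z := by
  simp only [Bq, ← Finset.sum_add_distrib]
  refine Finset.sum_congr rfl fun i _ => Finset.sum_congr rfl fun j _ => ?_
  rw [Pi.add_apply]; ring

theorem Bq_smul (q : Fin n → Fin n → M) (c : M) (x z : Fin n → M) :
    Bq q (c • x) z = c * Bq q x z := by
  simp only [Bq, Finset.mul_sum]
  refine Finset.sum_congr rfl fun i _ => Finset.sum_congr rfl fun j _ => ?_
  rw [Pi.smul_apply, smul_eq_mul]; ring

theorem map_Bq {S : Type*} [CommRing S] (φ : M →+* S) (x y : Fin n → M) :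
    φ (Bq q x y) = Bq (fun i j => φ (q i j)) (fun i => φ (x i)) (fun i => φ (y i)) := by
  simp only [Bq, map_sum, map_mul]

theorem Bq_comb (hq : ∀ i j, q i j = q j i) (r s : M) (x y : Fin n → M) :
    Bq q (r • x + s • y) (r • x + s • y)
      = r ^ 2 * Bq q x x + 2 * r * s * Bq q x y + s ^ 2 * Bq q y y := by
  rw [Bq_add, Bq_smul, Bq_smul, Bq_comm hq x, Bq_comm hq y, Bq_add, Bq_add, Bq_smul, Bq_smul,
    Bq_smul, Bq_smul, Bq_comm hq y x]
  ring

/-- The quadratic form. -/
noncomputable def qf (q : Fin n → Fin n → M) : MvPolynomial (Fin n) M :=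
  ∑ i, ∑ j, C (q i j) * X i * X j

theorem eval₂_qf {S : Type*} [CommRing S] (φ : M →+* S) (x : Fin n → S) :
    eval₂ φ x (qf q) = Bq (fun i j => φ (q i j)) x x := by
  simp only [qf, Bq, eval₂_sum, eval₂_mul, eval₂_C, eval₂_X]

theorem eval_qf (x : Fin n → M) : eval x (qf q) = Bq q x x := eval₂_qf (RingHom.id M) x

theorem qf_hom : (qf q).IsHomogeneous 2 :=
  IsHomogeneous.sum _ _ _ fun i _ => IsHomogeneous.sum _ _ _ fun j _ => by
    have := (isHomogeneous_C_mul_X (q i j) i).mul (isHomogeneous_X M j)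
    simpa using this

/-- The linear form `y ↦ b(a, y)`. -/
noncomputable def ql (q : Fin n → Fin n → M) (a : Fin n → M) : MvPolynomial (Fin n) M :=
  ∑ j, C (∑ i, q i j * a i) * X j

theorem ql_hom (a : Fin n → M) : (ql q a).IsHomogeneous 1 :=
  IsHomogeneous.sum _ _ _ fun _ _ => isHomogeneous_C_mul_X _ _

theorem eval_ql (a x : Fin n → M) : eval x (ql q a) = Bq q a x := by
  simp only [ql, Bq, map_sum, map_mul, eval_C, eval_X, Finset.sum_mul]
  rw [Finset.sum_comm]

theorem exists_qf {K : Type*} [Field K] [CharZero K] (F : MvPolynomial (Fin n) K)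
    (hF : F.IsHomogeneous 2) :
    ∃ q : Fin n → Fin n → K, (∀ i j, q i j = q j i) ∧ F = qf q := by
  classical
  have h0 : ∃ c : Fin n → Fin n → K, F = ∑ i, ∑ j, C (c i j) * X i * X j := by
    rw [F.as_sum]
    have h : ∀ e ∈ F.support, ∃ c : Fin n → Fin n → K,
        monomial e (coeff e F) = ∑ i, ∑ j, C (c i j) * X i * X j := by
      intro e he
      have hdeg : e.degree = 1 + 1 := by
        have := hF (mem_support_iff.1 he)
        rw [Finsupp.degree_eq_weight_one]
        exact this
      obtain ⟨i, e1, rfl, h1⟩ := exists_single e hdeg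
      obtain ⟨j, e2, rfl, h2⟩ := exists_single e1 h1
      have h4 : e2 = 0 := (Finsupp.degree_eq_zero_iff e2).1 h2
      subst h4
      rw [add_zero]
      refine ⟨fun a b => if a = i ∧ b = j then coeff (Finsupp.single i 1 +
        Finsupp.single j 1) F else 0, ?_⟩
      rw [Finset.sum_eq_single i, Finset.sum_eq_single j]
      · simp only [and_self, if_true]
        rw [monomial_single_add, ← mul_one (coeff _ F), ← C_mul_monomial, ← X, pow_one]
        simp only [mul_one]
        ring
      · intro b _ hb; simp [hb]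
      · simp
      · intro b _ hb; simp [hb]
      · simp
    choose! c hc using h
    refine ⟨fun i j => ∑ e ∈ F.support, c e i j, ?_⟩
    rw [Finset.sum_congr rfl hc, Finset.sum_comm]
    refine Finset.sum_congr rfl fun i _ => ?_
    rw [Finset.sum_comm]
    refine Finset.sum_congr rfl fun j _ => ?_
    rw [map_sum, Finset.sum_mul, Finset.sum_mul]
  obtain ⟨c, hc⟩ := h0
  refine ⟨fun i j => (c i j + c j i) / 2, fun i j => by ring, ?_⟩
  apply MvPolynomial.funext
  intro x
  rw [eval_qf, hc]
  simp only [map_sum, map_mul, eval_C, eval_X, Bq]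
  have h1 : ∑ i, ∑ j, c i j * x i * x j = ∑ i, ∑ j, c j i * x i * x j := by
    rw [Finset.sum_comm]
    refine Finset.sum_congr rfl fun i _ => Finset.sum_congr rfl fun j _ => ?_
    ring
  have h2 : ∑ i, ∑ j, (c i j + c j i) / 2 * x i * x j
      = (∑ i, ∑ j, c i j * x i * x j + ∑ i, ∑ j, c j i * x i * x j) / 2 := by
    rw [← Finset.sum_add_distrib, Finset.sum_div]
    refine Finset.sum_congr rfl fun i _ => ?_
    rw [← Finset.sum_add_distrib, Finset.sum_div]
    refine Finset.sum_congr rfl fun j _ => ?_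
    ring
  rw [h2, ← h1]
  ring

end Quadric

end Pool.Agent.MazurT
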