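import Mathlib
import Pool.Agent.MazurT.Low

/-!
Quadrics.
-/

namespace Pool.Agent.MazurT

open MvPolynomial Topology Pool.Agent.MazurC

section Quadric

variable {n : ℕ}

/-- The second intersection point of the quadric with the line through `R` and `z`. -/
def phq {M : Type*} [CommRing M] (q : Fin n → Fin n → M) (R z : Fin n → M) : Fin n → M :=
  (Bq q z z) • R + (-(2 * Bq q R z)) • z

theorem Bq_phq {M : Type*} [CommRing M] {q : Fin n → Fin n → M} (hq : ∀ i j, q i j = q j i)
    {R : Fin n → M} (hR : Bq q R R = 0) (z : Fin n → M) :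
    Bq q (phq q R z) (phq q R z) = 0 := by
  rw [phq, Bq_comb hq, hR]
  ring

theorem map_phq {M S : Type*} [CommRing M] [CommRing S] (φ : M →+* S) (q : Fin n → Fin n → M)
    (R z : Fin n → M) : (fun i => φ (phq q R z i))
      = phq (fun i j => φ (q i j)) (fun i => φ (R i)) (fun i => φ (z i)) := by
  funext i
  simp only [phq, Pi.add_apply, Pi.smul_apply, smul_eq_mul, map_add, map_mul, map_neg, map_Bq,
    map_ofNat]

variable {K : Type} [Field K] [CharZero K] {L : Type} [NontriviallyNormedField L] {σ : K →+* L}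
  {q : Fin n → Fin n → K}

theorem omF_quadric (hσ : DenseRange σ) (hq : ∀ i j, q i j = q j i)
    (hirr : Irreducible (qf q)) {y e : Fin n → K} (hy : Bq q y y = 0) (he : Bq q y e ≠ 0) :
    OmF σ (qf q) (sv σ y) := by
  classical
  intro d f hf U hU hfU
  have hchar : CharZero L := charZero_of_injective_ringHom σ.injective
  have hy0 : y ≠ 0 := by
    rintro rfl
    apply he
    have := Bq_smul q (0 : K) 0 e
    rwa [zero_smul, zero_mul] at this
  have hsy : sv σ y ≠ 0 := fun h => hy0 ((sv_eq_zero σ).1 h)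
  obtain ⟨R, hRdef⟩ : ∃ R, R = phq q y e := ⟨_, rfl⟩
  have hR : Bq q R R = 0 := by rw [hRdef]; exact Bq_phq hq hy e
  have hRy : Bq q R y ≠ 0 := by
    have h1 : Bq q R y = -(2 * (Bq q y e) ^ 2) := by
      rw [hRdef, phq, Bq_add, Bq_smul, Bq_smul, hy, Bq_comm hq e y]; ring
    rw [h1]
    exact neg_ne_zero.2 (mul_ne_zero two_ne_zero (pow_ne_zero 2 he))
  -- polynomials
  obtain ⟨g, hg⟩ : ∃ g : Fin n → MvPolynomial (Fin n) K,
      g = fun i => qf q * C (R i) + (-(2 * ql q R)) * X i := ⟨_, rfl⟩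
  have hge : ∀ z, (fun i => eval z (g i)) = phq q R z := by
    intro z
    funext i
    rw [hg]
    simp only [map_add, map_mul, map_neg, eval_C, eval_X, eval_qf, eval_ql, phq, Pi.add_apply,
      Pi.smul_apply, smul_eq_mul, map_ofNat]
  have hcomp : ∀ z, eval z (eval₂ C g f) = eval (phq q R z) f := by
    intro z
    have h1 := hom_eval₂' (C : K →+* MvPolynomial (Fin n) K) (eval z) g f
    have e1 : (eval z).comp (C : K →+* MvPolynomial (Fin n) K) = RingHom.id K := by
      ext1 c; simp
    rw [e1, hge] at h1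
    exact h1
  have hzero : eval₂ C g f = 0 := by
    let τ : Fin n → Fin n → L := fun i j => σ (q i j)
    obtain ⟨c, hc⟩ : ∃ c : L, c = (-(2 * σ (Bq q R y)))⁻¹ := ⟨_, rfl⟩
    have hc1 : -(2 * σ (Bq q R y)) ≠ 0 :=
      neg_ne_zero.2 (mul_ne_zero two_ne_zero ((map_ne_zero σ).2 hRy))
    have hc0 : c ≠ 0 := by rw [hc]; exact inv_ne_zero hc1
    let M : (Fin n → L) → (Fin n → L) := fun z => c • phq τ (sv σ R) z
    have hM : Continuous M := by
      show Continuous fun z => c • phq τ (sv σ R) z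
      unfold phq Bq
      fun_prop
    have hMσ : ∀ ρ : Fin n → K, M (fun i => σ (ρ i)) = c • sv σ (phq q R ρ) := by
      intro ρ
      show c • phq τ (sv σ R) (fun i => σ (ρ i)) = _
      congr 1
      exact (map_phq σ q R ρ).symm
    have hMy : M (sv σ y) = sv σ y := by
      have h1 := hMσ y
      have h2 : phq q R y = (-(2 * Bq q R y)) • y := by
        rw [phq, hy, zero_smul, zero_add]
      rw [h2, sv_smul, smul_smul, map_neg, map_mul, map_ofNat, hc, inv_mul_cancel₀ hc1,
        one_smul] at h1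
      exact h1
    have hV : M ⁻¹' (U ∩ {w | w ≠ 0}) ∈ 𝓝 (sv σ y) := by
      apply hM.continuousAt.preimage_mem_nhds
      rw [hMy]
      exact Filter.inter_mem hU (isOpen_ne.mem_nhds hsy)
    refine eq_zero_of_open hσ _ (sv σ y) hV ?_
    intro ρ hρ
    rw [hcomp]
    have hρ' : M (fun i => σ (ρ i)) ∈ U ∩ {w | w ≠ 0} := hρ
    rw [hMσ] at hρ'
    refine hfU _ ?_ ?_ ⟨c, hc0, hρ'.1⟩
    · intro h
      apply hρ'.2
      rw [h, (sv_eq_zero σ).2 rfl, smul_zero]
    · rw [eval_qf]
      exact Bq_phq hq hR ρ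
  -- reduction modulo the quadric
  have hdvd : qf q ∣ (-(2 * ql q R)) ^ d * f := by
    rw [← Ideal.mem_span_singleton, ← Ideal.Quotient.eq_zero_iff_mem]
    have e2 := hom_eval₂' (C : K →+* MvPolynomial (Fin n) K)
      (Ideal.Quotient.mk (Ideal.span {qf q})) g f
    have e3 := hom_eval₂' (C : K →+* MvPolynomial (Fin n) K)
      (Ideal.Quotient.mk (Ideal.span {qf q})) X f
    rw [eval₂_eta] at e3
    rw [hzero, map_zero] at e2
    rw [map_mul, map_pow, e3, ← eval₂_smul_hom _ hf, e2]
    congr 1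
    funext i
    rw [hg]
    simp only [map_add, map_mul]
    rw [Ideal.Quotient.eq_zero_iff_mem.2 (Ideal.mem_span_singleton_self (qf q)), zero_mul,
      zero_add]
  rcases hirr.prime.dvd_or_dvd hdvd with h | h
  · exfalso
    have h2 := hirr.prime.dvd_of_dvd_pow h
    rw [dvd_neg] at h2
    have h3 : (2 * ql q R : MvPolynomial (Fin n) K).IsHomogeneous 1 := by
      have h4 : (2 : MvPolynomial (Fin n) K) = C 2 := (map_ofNat C 2).symm
      rw [h4]
      have := (isHomogeneous_C (Fin n) (2 : K)).mul (ql_hom (q := q) R)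
      simpa using this
    refine not_dvd_of_deg qf_hom hirr.ne_zero h3 ?_ (by norm_num) h2
    intro h5
    have h6 := congrArg (eval y) h5
    rw [map_mul, eval_ql, map_zero, map_ofNat] at h6
    rcases mul_eq_zero.1 h6 with h7 | h7
    · norm_num at h7
    · exact hRy h7
  · exact h

end Quadric

section Rat

variable {n : ℕ} {K : Type} [Field K] [CharZero K] {L : Type} [NontriviallyNormedField L]
  {σ : K →+* L}

theorem main_linear (hσ : DenseRange σ) {F : MvPolynomial (Fin (n + 1)) K}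
    (hF : F.IsHomogeneous 1) (hirr : Irreducible F) :
    LinRat σ F ∧ ∀ y : Fin (n + 1) → K, y ≠ 0 → eval y F = 0 → OmF σ F (sv σ y) := by
  have h1 : ∀ y : Fin (n + 1) → K, y ≠ 0 → eval y F = 0 → OmF σ F (sv σ y) :=
    fun y hy0 hy => omF_linear hσ hF hirr hy0 hy
  refine ⟨linRat_of_all fun y hy0 hyS => ?_, h1⟩
  apply localIdeal_of_omF hF
  intro U hU
  exact ⟨y, ⟨1, one_ne_zero, by rw [one_smul]; exact mem_of_mem_nhds hU⟩, h1 y hy0 hyS⟩

theorem main_quadric (hσ : DenseRange σ) {q : Fin (n + 1) → Fin (n + 1) → K}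
    (hq : ∀ i j, q i j = q j i) (hirr : Irreducible (qf q)) :
    LinRat σ (qf q) ∧ ∀ y e : Fin (n + 1) → K, Bq q y y = 0 → Bq q y e ≠ 0 →
      OmF σ (qf q) (sv σ y) := by
  have h1 : ∀ y e : Fin (n + 1) → K, Bq q y y = 0 → Bq q y e ≠ 0 → OmF σ (qf q) (sv σ y) :=
    fun y e hy he => omF_quadric hσ hq hirr hy he
  refine ⟨?_, h1⟩
  by_cases hs : ∃ R e : Fin (n + 1) → K, Bq q R R = 0 ∧ Bq q R e ≠ 0
  · obtain ⟨R, e, hR, he⟩ := hs
    refine linRat_of_all fun y hy0 hyS => ?_
    have hy : Bq q y y = 0 := by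
      rw [← eval_qf]
      exact hyS
    apply localIdeal_of_omF qf_hom
    intro U hU
    by_cases hys : ∃ e, Bq q y e ≠ 0
    · obtain ⟨e', he'⟩ := hys
      exact ⟨y, ⟨1, one_ne_zero, by rw [one_smul]; exact mem_of_mem_nhds hU⟩, h1 y e' hy he'⟩
    · push Not at hys
      obtain ⟨c, hc0, hx0, hnear⟩ := exists_small (v := R) hσ hy0 hU
      refine ⟨y + c • R, hnear, h1 _ e ?_ ?_⟩
      · have := Bq_comb hq 1 c y R
        rw [one_smul] at this
        rw [this, hy, hys, hR]; ring
      · rw [Bq_add, Bq_smul, hys, zero_add]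
        exact mul_ne_zero hc0 he
  · push Not at hs
    let W : Submodule K (Fin (n + 1) → K) :=
      { carrier := {x | Bq q x x = 0}
        add_mem' := fun {a b} ha hb => by
          show Bq q (a + b) (a + b) = 0
          have ha' : Bq q a a = 0 := ha
          have hb' : Bq q b b = 0 := hb
          have := Bq_comb hq 1 1 a b
          rw [one_smul, one_smul] at this
          rw [this, ha', hb', hs a b ha']; ring
        zero_mem' := by
          show Bq q 0 0 = 0
          have := Bq_smul q (0 : K) 0 0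
          rwa [zero_smul, zero_mul] at this
        smul_mem' := fun c a ha => by
          show Bq q (c • a) (c • a) = 0
          have ha' : Bq q a a = 0 := ha
          rw [Bq_smul, Bq_comm hq, Bq_smul, ha']; ring }
    refine rat_of_subspaces hσ (qf_hom (q := q)) (fun _ : Unit => W) ?_
    intro x _
    rw [eval_qf]
    exact ⟨fun hx => ⟨(), hx⟩, fun ⟨_, hx⟩ => hx⟩

end Rat

end Pool.Agent.MazurT
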