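import Mathlib
import Pool.Agent.MazurT.Low2

/-!
Irreducible hypersurfaces of degree at most three: final form.
-/

namespace Pool.Agent.MazurT

open MvPolynomial Topology Pool.Agent.MazurC

section Smooth

variable {n : ℕ} {K : Type} [Field K]

theorem pderiv_qf {q : Fin n → Fin n → K} (hq : ∀ i j, q i j = q j i) (y : Fin n → K)
    (l : Fin n) : eval y (pderiv l (qf q)) = 2 * Bq q y (Pi.single l 1) := by
  classical
  have e1 : Bq q y (Pi.single l 1) = ∑ i, q i l * y i := by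
    rw [Bq]
    refine Finset.sum_congr rfl fun i _ => ?_
    rw [Finset.sum_eq_single l]
    · simp
    · intro j _ hj; simp [hj]
    · simp
  have e2 : ∀ m : Fin n, eval y ((Pi.single l (1 : MvPolynomial (Fin n) K) :
      Fin n → MvPolynomial (Fin n) K) m) = (Pi.single l (1 : K) : Fin n → K) m := by
    intro m
    by_cases hm : m = l
    · subst hm; simp
    · simp [hm]
  have h1 : eval y (pderiv l (qf q)) = Bq q (Pi.single l 1) y + Bq q y (Pi.single l 1) := by
    rw [qf]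
    simp only [map_sum, Bq, ← Finset.sum_add_distrib]
    refine Finset.sum_congr rfl fun i _ => Finset.sum_congr rfl fun j _ => ?_
    rw [Derivation.leibniz, Derivation.leibniz, pderiv_C, pderiv_X, pderiv_X]
    simp only [smul_eq_mul, map_add, map_mul, eval_C, eval_X, mul_zero, add_zero, e2]
    ring
  rw [h1, Bq_comm hq (Pi.single l 1) y]
  ring

variable {L : Type} [NontriviallyNormedField L] {σ : K →+* L}

theorem pderiv_cub {t : Fin (n + 1) → Fin (n + 1) → Fin (n + 1) → K} (ht : Sym t)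
    (σ : K →+* L) (y : Fin (n + 1) → K) (l : Fin (n + 1)) :
    eval y (pderiv l (cub t)) = 3 * B t y y (Pi.single l 1) := by
  apply σ.injective
  have h1 := pderiv_B (σ := σ) ht (F := cub t) rfl (sv σ y) l
  have h2 : eval₂ σ (sv σ y) (pderiv l (cub t)) = σ (eval y (pderiv l (cub t))) :=
    eval₂_comp_gen σ y _
  rw [← h2, h1, map_mul, map_ofNat, map_B, map_single]
  rfl

end Smooth

section Final

variable {K : Type} [Field K] [CharZero K] {L : Type} [NontriviallyNormedField L] {σ : K →+* L}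

/-- The results for all degrees at most three. -/
theorem main_all (hσ : DenseRange σ) [ProperSpace L] {n d : ℕ} (hd : d ≤ 3)
    {F : MvPolynomial (Fin (n + 1)) K} (hF : F.IsHomogeneous d) (hirr : Irreducible F) :
    LinRat σ F ∧ (DenseK F → ∀ y : Fin (n + 1) → K, y ≠ 0 → eval y F = 0 →
      (∃ i, eval y (pderiv i F) ≠ 0) → OmF σ F (sv σ y)) := by
  interval_cases d
  · exfalso
    have h1 : F.totalDegree = 0 := hF.totalDegree hirr.ne_zero
    exact hirr.not_isUnit ((isUnit_iff_deg hirr.ne_zero).2 h1)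
  · obtain ⟨h1, h2⟩ := main_linear hσ hF hirr
    exact ⟨h1, fun _ y hy0 hy _ => h2 y hy0 hy⟩
  · obtain ⟨q, hq, rfl⟩ := exists_qf F hF
    obtain ⟨h1, h2⟩ := main_quadric hσ hq hirr
    refine ⟨h1, ?_⟩
    rintro _ y _ hy ⟨i, hi⟩
    rw [eval_qf] at hy
    rw [pderiv_qf hq] at hi
    exact h2 y _ hy (right_ne_zero_of_mul hi)
  · obtain ⟨t, ht, hFt⟩ := exists_tensor F hF
    have hFt' : F = cub t := hFt
    subst hFt'
    obtain ⟨h1, h2⟩ := main_cub ht hirr hσ
    refine ⟨h1, ?_⟩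
    rintro hdn y _ hy ⟨i, hi⟩
    rw [eval_cub] at hy
    rw [pderiv_cub ht σ] at hi
    exact (h2 hdn y _ hy (right_ne_zero_of_mul hi)).2.2

theorem final_all (hσ : DenseRange σ) [ProperSpace L] {n d : ℕ} (hd : d ≤ 3)
    {F : MvPolynomial (Fin (n + 1)) K} (hF : F.IsHomogeneous d) (hirr : Irreducible F) :
    (∃ V : Set (Submodule K (Fin (n + 1) → K)), V.Finite ∧ (∀ W ∈ V, ∀ x ∈ W, eval x F = 0) ∧
      ∀ x : Fin (n + 1) → L, localIdeal σ {F} x = {f | F ∣ f} ∨
        ∃ A ⊆ V, localIdeal σ {F} x = {f | ∀ W ∈ A, ∀ y ∈ W, eval y f = 0}) ∧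
    (DenseK F → ∀ x : Fin (n + 1) → L,
      (∀ U ∈ 𝓝 x, ∃ y : Fin (n + 1) → K, eval y F = 0 ∧ (∃ i, eval y (pderiv i F) ≠ 0) ∧
        y ≠ 0 ∧ ∃ c : L, c ≠ 0 ∧ (fun i => c * σ (y i)) ∈ U) →
      localIdeal σ {F} x = {f | F ∣ f}) := by
  obtain ⟨h1, h2⟩ := main_all hσ hd hF hirr
  refine ⟨h1.all hF, ?_⟩
  intro hdn x hx
  apply localIdeal_of_omF hF
  intro U hU
  obtain ⟨y, hy, hys, hy0, c, hc, hcU⟩ := hx U hU
  exact ⟨y, ⟨c, hc, hcU⟩, h2 hdn y hy0 hy hys⟩

end Final

end Pool.Agent.MazurT
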